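import Mathlib

/-! # ZN: a regular diagonal element -/

set_option autoImplicit false

namespace Pool.Agent.Lib.MP_021685_agZ

open Matrix Finset

variable {k : Type*} [Field k] [CharZero k] {I : Type*} [Fintype I] [DecidableEq I]

/-- A regular diagonal element.
PROOF. Let `T = {y : I → k | diagonal y ∈ g}` (a submodule). For each of the finitely many
`p = (a, b, a', b', a'', b'')` let `φ_p y = y a - y b + (y a' - y b') - (y a'' - y b'')`. There is `y0 ∈ T` with `φ_p y0 ≠ 0` for
all `p` such that `φ_p` is not zero on `T`: a vector space over an infinite field is not a finite union of proper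
subspaces (Mathlib: `Subspace.biUnion_ne_univ_of_top_notMem`, `Submodule.exists_forall_notMem_of_forall_ne_top`,
`Module.Dual.exists_forall_mem_ne_zero_of_forall_exists`, or induction over the finite set with `y0 + t • y1`). -/
theorem exists_regular (g : Submodule k (Matrix I I k)) :
    ∃ y0 : I → k, Matrix.diagonal y0 ∈ g ∧ ∀ a b a' b' a'' b'' : I,
      y0 a - y0 b + (y0 a' - y0 b') = y0 a'' - y0 b'' →
        ∀ y : I → k, Matrix.diagonal y ∈ g → y a - y b + (y a' - y b') = y a'' - y b'' := by
  classical
  let T : Submodule k (I → k) := g.comap (Matrix.diagonalLinearMap I k k)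
  let pr : I → Module.Dual k (I → k) := fun a => LinearMap.proj (R := k) (φ := fun _ : I => k) a
  let φ : (I × I) × (I × I) × (I × I) → Module.Dual k (I → k) := fun p =>
    (pr p.1.1 - pr p.1.2 + (pr p.2.1.1 - pr p.2.1.2)) - (pr p.2.2.1 - pr p.2.2.2)
  let ι := {p : (I × I) × (I × I) × (I × I) // ∃ y ∈ T, φ p y ≠ 0}
  obtain ⟨y0, hy0, h⟩ := Module.Dual.exists_forall_mem_ne_zero_of_forall_exists T
    (fun i : ι => φ i.1) (fun i => i.2)
  refine ⟨y0, hy0, fun a b a' b' a'' b'' h0 y hy => ?_⟩
  by_contra hne
  have h1 : φ ((a, b), (a', b'), (a'', b'')) y ≠ 0 := by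
    intro h2
    apply hne
    have h3 : y a - y b + (y a' - y b') - (y a'' - y b'') = 0 := h2
    linear_combination h3
  refine h ⟨((a, b), (a', b'), (a'', b'')), y, hy, h1⟩ ?_
  change y0 a - y0 b + (y0 a' - y0 b') - (y0 a'' - y0 b'') = 0
  linear_combination h0

end Pool.Agent.Lib.MP_021685_agZ
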