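import Pool.Agent.Lib.MP_021685_agO.OB2

/-! # ZO: the restriction of the Galois algebra to a stable subspace -/

set_option autoImplicit false

namespace Pool.Agent.Lib.MP_021685_agZ

open Module Pool.Agent.Lib.MP_021685_agO

variable {k H : Type*} [Field k] [AddCommGroup H] [Module k H]
  {g : Submodule k (End k H)} {c : End k H → k} {V : Submodule k H} {β : H →ₗ[k] H →ₗ[k] k}

/-- The restriction of `g` to the subspace `V`. -/
def gV (g : Submodule k (End k H)) (V : Submodule k H) : Submodule k (End k V) where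
  carrier := {Z | ∃ X ∈ g, ∀ v : V, ((Z v : V) : H) = X v}
  add_mem' := by
    rintro Z Z' ⟨X, hX, h⟩ ⟨X', hX', h'⟩
    exact ⟨X + X', g.add_mem hX hX', fun v => by
      rw [LinearMap.add_apply, LinearMap.add_apply, Submodule.coe_add, h, h']⟩
  zero_mem' := ⟨0, g.zero_mem, fun v => rfl⟩
  smul_mem' := by
    rintro s Z ⟨X, hX, h⟩
    exact ⟨s • X, g.smul_mem s hX, fun v => by
      rw [LinearMap.smul_apply, LinearMap.smul_apply, Submodule.coe_smul, h]⟩

open Classical in
/-- The multiplier on the restriction of `g` to `V`. -/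
noncomputable def cV (g : Submodule k (End k H)) (c : End k H → k) (V : Submodule k H) (Z : End k V) : k :=
  if h : ∃ X ∈ g, ∀ v : V, ((Z v : V) : H) = X v then c h.choose else 0

/-- PROOF. Both `X` and the chosen element restrict to `Z`; with `u, v ∈ V`, `β u v ≠ 0` (`IsSympl.exists_ne` or
`nondeg` as `V ≠ ⊥`), `hs.mult` gives the same multiplier. -/
theorem cV_eq (hV : V ≠ ⊥) (hs : IsSympl g c V β) {X : End k H} (hX : X ∈ g) {Z : End k V}
    (hZ : ∀ v : V, ((Z v : V) : H) = X v) : cV g c V Z = c X := by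
  have hex : ∃ X ∈ g, ∀ v : V, ((Z v : V) : H) = X v := ⟨X, hX, hZ⟩
  rw [cV, dif_pos hex]
  obtain ⟨h1, h2⟩ := hex.choose_spec
  obtain ⟨u, hu, hu0⟩ := Submodule.exists_mem_ne_zero_of_ne_bot hV
  obtain ⟨v, hv, huv⟩ : ∃ v ∈ V, β u v ≠ 0 := by
    by_contra hcon
    refine hu0 (hs.nondeg u hu fun v hv => ?_)
    by_contra hne
    exact hcon ⟨v, hv, hne⟩
  have e1 := hs.mult X hX u hu v hv
  have e2 := hs.mult _ h1 u hu v hv
  have e3 : hex.choose u = X u := by rw [← h2 ⟨u, hu⟩, hZ ⟨u, hu⟩]
  have e4 : hex.choose v = X v := by rw [← h2 ⟨v, hv⟩, hZ ⟨v, hv⟩]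
  rw [e3, e4, e1] at e2
  exact (mul_right_cancel₀ huv e2).symm

/-- A stable subspace of `V` is a stable subspace of `H`. -/
theorem map_stable (hst : IsStable g V) {U : Submodule k V} (hU : IsStable (gV g V) U) :
    IsStable g (U.map V.subtype) := by
  intro X hX u hu
  obtain ⟨w, hw, rfl⟩ := Submodule.mem_map.1 hu
  have hstab : ∀ v ∈ V, X v ∈ V := fun v hv => hst X hX v hv
  have hr : ∀ v : V, ((X.restrict hstab v : V) : H) = X v := fun v => rfl
  exact Submodule.mem_map.2 ⟨X.restrict hstab w, hU _ ⟨X, hX, hr⟩ w hw, hr w⟩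

/-- PROOF. `lie`: commutators restrict to commutators. `semisimple`: for `U ≤ V` stable take a `g`-stable complement `U'` of
`U.map V.subtype` in `H`; `U'.comap V.subtype` is a complement of `U` (modular law). `span`: `Z` restricts `X ∈ g`, `X` is in the
span of the Hodge elements `e`, whose restrictions to `V` (`LinearMap.restrict`, `V` is stable) are Hodge elements
(`cV_eq`); `Submodule.span_induction`. -/
theorem isGaloisAlg_gV (hg : IsGaloisAlg g c) (hV : V ≠ ⊥) (hst : IsStable g V)
    (hs : IsSympl g c V β) : IsGaloisAlg (gV g V) (cV g c V) := by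
  refine ⟨?_, ?_, ?_⟩
  · rintro Z ⟨X, hX, h⟩ Z' ⟨X', hX', h'⟩
    refine ⟨X * X' - X' * X, hg.lie X hX X' hX', fun v => ?_⟩
    rw [LinearMap.sub_apply, LinearMap.sub_apply, Submodule.coe_sub, Module.End.mul_apply,
      Module.End.mul_apply, Module.End.mul_apply, Module.End.mul_apply, h, h', h', h]
  · intro U hU
    have h1 : IsStable g (U.map V.subtype) := map_stable hst hU
    obtain ⟨U', hU', hc⟩ := hg.semisimple _ h1
    refine ⟨U'.comap V.subtype, ?_, ?_⟩
    · rintro Z ⟨X, hX, h⟩ v hv
      rw [Submodule.mem_comap, Submodule.subtype_apply, h]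
      exact hU' X hX _ hv
    · refine isCompl_iff.2 ⟨?_, ?_⟩
      · rw [Submodule.disjoint_def]
        intro x hx hx'
        have h2 : (x : H) ∈ (U.map V.subtype) ⊓ U' :=
          ⟨Submodule.mem_map.2 ⟨x, hx, rfl⟩, hx'⟩
        rw [hc.inf_eq_bot, Submodule.mem_bot] at h2
        exact Subtype.ext h2
      · rw [Submodule.codisjoint_iff_exists_add_eq]
        intro v
        have h2 : (v : H) ∈ (U.map V.subtype) ⊔ U' := by
          rw [hc.sup_eq_top]
          trivial
        obtain ⟨y, hy, z, hz, hyz⟩ := Submodule.mem_sup.1 h2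
        obtain ⟨u, hu, rfl⟩ := Submodule.mem_map.1 hy
        rw [Submodule.subtype_apply] at hyz
        refine ⟨u, v - u, hu, ?_, by abel⟩
        rw [Submodule.mem_comap, Submodule.subtype_apply, Submodule.coe_sub, ← hyz, add_sub_cancel_left]
        exact hz
  · rintro Z ⟨X, hX, h⟩
    have key : ∀ X ∈ Submodule.span k {h | IsHodgeElt g c h},
        ∃ Z ∈ Submodule.span k {h | IsHodgeElt (gV g V) (cV g c V) h}, ∀ v : V, ((Z v : V) : H) = X v := by
      intro X hX
      induction hX using Submodule.span_induction with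
      | mem e he =>
        have hstab : ∀ v ∈ V, e v ∈ V := fun v hv => hst e he.1 v hv
        have hr : ∀ v : V, ((e.restrict hstab v : V) : H) = e v := fun v => rfl
        refine ⟨e.restrict hstab, Submodule.subset_span ⟨⟨e, he.1, hr⟩, ?_, ?_⟩, hr⟩
        · ext v
          rw [Module.End.mul_apply, hr, hr, ← Module.End.mul_apply, he.2.1]
        · rw [cV_eq hV hs he.1 hr, he.2.2]
      | zero => exact ⟨0, Submodule.zero_mem _, fun v => rfl⟩
      | add X X' _ _ h1 h2 =>
        obtain ⟨Z, hZ, hZ'⟩ := h1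
        obtain ⟨W, hW, hW'⟩ := h2
        exact ⟨Z + W, Submodule.add_mem _ hZ hW, fun v => by
          rw [LinearMap.add_apply, LinearMap.add_apply, Submodule.coe_add, hZ', hW']⟩
      | smul a X _ h1 =>
        obtain ⟨Z, hZ, hZ'⟩ := h1
        exact ⟨a • Z, Submodule.smul_mem _ a hZ, fun v => by
          rw [LinearMap.smul_apply, LinearMap.smul_apply, Submodule.coe_smul, hZ']⟩
    obtain ⟨W, hW, hW'⟩ := key X (hg.span X hX)
    have : Z = W := by
      ext v
      rw [h, hW']
    rw [this]
    exact hW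

/-- PROOF. Stable subspaces of `V` under `gV` are stable subspaces of `H` contained in `V` (`map`/`comap` of `V.subtype`). -/
theorem isSimpleSub_gV (hV : IsSimpleSub g V) : IsSimpleSub (gV g V) ⊤ := by
  refine ⟨?_, fun _ _ _ _ => trivial, fun U _ hU => ?_⟩
  · intro h
    apply hV.1
    rw [eq_bot_iff]
    intro v hv
    have h1 : (⟨v, hv⟩ : V) ∈ (⊥ : Submodule k V) := by
      rw [← h]
      trivial
    rw [Submodule.mem_bot] at h1
    rw [Submodule.mem_bot]
    exact congrArg Subtype.val h1
  · rcases hV.2.2 (U.map V.subtype) (Submodule.map_subtype_le V U) (map_stable hV.2.1 hU) with h | h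
    · left
      rw [eq_bot_iff]
      intro u hu
      have h1 : (u : H) ∈ U.map V.subtype := Submodule.mem_map.2 ⟨u, hu, rfl⟩
      rw [h, Submodule.mem_bot] at h1
      rw [Submodule.mem_bot]
      exact Subtype.ext h1
    · right
      rw [eq_top_iff]
      intro v _
      have h1 : (v : H) ∈ U.map V.subtype := by
        rw [h]
        exact v.2
      obtain ⟨u, hu, huv⟩ := Submodule.mem_map.1 h1
      have h2 : u = v := Subtype.ext huv
      rw [← h2]
      exact hu

/-- An element of `g` (irreducible on `V`) orthogonal to `g` for the trace form on `V` is a scalar on `V`.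
PROOF. `radical` for `gV`, `cV`: `Z` commutes with `gV`. `k` is algebraically closed: `Z` has an eigenvalue `s`
(`Module.End.exists_eigenvalue`, `V` is non-zero), its eigenspace is stable under `gV`, so it is `⊤` (`isSimpleSub_gV`). -/
theorem scalar_of_trace [CharZero k] [IsAlgClosed k] [FiniteDimensional k H] (hg : IsGaloisAlg g c)
    (hV : IsSimpleSub g V) (hs : IsSympl g c V β) {Z : End k V} (hZ : Z ∈ gV g V)
    (h : ∀ Y ∈ gV g V, LinearMap.trace k V (Z * Y) = 0) : ∃ s : k, Z = s • (1 : End k V) := by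
  have hG := isGaloisAlg_gV hg hV.1 hV.2.1 hs
  have hc := radical hG hZ h
  have hS := isSimpleSub_gV hV
  have hnt : Nontrivial V := by
    by_contra hn
    rw [not_nontrivial_iff_subsingleton] at hn
    exact hS.1 (Subsingleton.elim _ _)
  obtain ⟨s, hs'⟩ := Module.End.exists_eigenvalue Z
  refine ⟨s, ?_⟩
  have hst : IsStable (gV g V) (Module.End.eigenspace Z s) := by
    intro A hA u hu
    rw [Module.End.mem_eigenspace_iff] at hu ⊢
    have h1 := LinearMap.congr_fun (hc A hA) u
    rw [Module.End.mul_apply, Module.End.mul_apply] at h1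
    rw [h1, hu, map_smul]
  rcases hS.2.2 _ le_top hst with h1 | h1
  · exact absurd h1 hs'
  · ext v
    have h2 : v ∈ Module.End.eigenspace Z s := by
      rw [h1]
      trivial
    rw [Module.End.mem_eigenspace_iff] at h2
    rw [h2]
    rfl

end Pool.Agent.Lib.MP_021685_agZ
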