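import Pool.Agent.Lib.MP_021685_agZ.ZDefs
import Pool.Agent.Lib.MP_021685_agZ.ZN
import Pool.Agent.Lib.MP_021685_agZ.ZO

/-! # ZQ: the matrix context of a simple symplectic subspace -/

set_option autoImplicit false

namespace Pool.Agent.Lib.MP_021685_agZ

open Module Pool.Agent.Lib.MP_021685_agO

variable {k H : Type*} [Field k] [CharZero k] [IsAlgClosed k] [AddCommGroup H] [Module k H] [FiniteDimensional k H]
  {g : Submodule k (End k H)} {c : End k H → k} {V : Submodule k H} {β : H →ₗ[k] H →ₗ[k] k}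
  {I : Type*} [Fintype I] [DecidableEq I]

omit [CharZero k] [IsAlgClosed k] [FiniteDimensional k H] [DecidableEq I] in
/-- The matrices of the elements of `g` on the stable subspace `V` with the basis `b`. -/
def mg (g : Submodule k (End k H)) (b : Basis I k V) : Submodule k (Matrix I I k) where
  carrier := {M | ∃ X ∈ g, ∀ j, X (b j : H) = ∑ i, M i j • (b i : H)}
  add_mem' := by
    rintro M M' ⟨X, hX, h⟩ ⟨X', hX', h'⟩
    refine ⟨X + X', g.add_mem hX hX', fun j => ?_⟩
    rw [LinearMap.add_apply, h, h', ← Finset.sum_add_distrib]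
    exact Finset.sum_congr rfl fun i _ => by rw [Matrix.add_apply, add_smul]
  zero_mem' := ⟨0, g.zero_mem, fun j => by simp⟩
  smul_mem' := by
    rintro s M ⟨X, hX, h⟩
    refine ⟨s • X, g.smul_mem s hX, fun j => ?_⟩
    rw [LinearMap.smul_apply, h, Finset.smul_sum]
    exact Finset.sum_congr rfl fun i _ => by rw [Matrix.smul_apply, smul_smul, smul_eq_mul]

omit [CharZero k] [IsAlgClosed k] [FiniteDimensional k H] [DecidableEq I] in
theorem mul_mg (b : Basis I k V) {X X' : End k H} {M M' : Matrix I I k}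
    (h : ∀ j, X (b j : H) = ∑ i, M i j • (b i : H)) (h' : ∀ j, X' (b j : H) = ∑ i, M' i j • (b i : H)) (j : I) :
    (X * X') (b j : H) = ∑ i, (M * M') i j • (b i : H) := by
  rw [Module.End.mul_apply, h', map_sum]
  simp_rw [map_smul, h, Finset.smul_sum, smul_smul]
  rw [Finset.sum_comm]
  refine Finset.sum_congr rfl fun i _ => ?_
  rw [Matrix.mul_apply, Finset.sum_smul]
  exact Finset.sum_congr rfl fun l _ => by rw [mul_comm]

/-- the products. PROOF. direct. -/
theorem mg_lie (hlie : ∀ X ∈ g, ∀ Y ∈ g, X * Y - Y * X ∈ g) (hst : IsStable g V) (b : Basis I k V) :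
    ∀ M ∈ mg g b, ∀ M' ∈ mg g b, M * M' - M' * M ∈ mg g b := by
  rintro M ⟨X, hX, h⟩ M' ⟨X', hX', h'⟩
  refine ⟨X * X' - X' * X, hlie X hX X' hX', fun j => ?_⟩
  rw [LinearMap.sub_apply, mul_mg b h h', mul_mg b h' h, ← Finset.sum_sub_distrib]
  exact Finset.sum_congr rfl fun i _ => by rw [Matrix.sub_apply, sub_smul]

omit [CharZero k] [IsAlgClosed k] [FiniteDimensional k H] in
/-- the matrix of an element of `gV` is in `mg`. -/
theorem toMatrix_mem_mg (b : Basis I k V) {Y : End k V} (hY : Y ∈ gV g V) :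
    LinearMap.toMatrix b b Y ∈ mg g b := by
  obtain ⟨X, hX, h⟩ := hY
  refine ⟨X, hX, fun j => ?_⟩
  rw [← h]
  have h1 : Y (b j) = ∑ i, LinearMap.toMatrix b b Y i j • b i := by
    refine (b.sum_repr (Y (b j))).symm.trans ?_
    refine Finset.sum_congr rfl fun i _ => ?_
    rw [LinearMap.toMatrix_apply]
  have h2 := congrArg (fun w : V => (w : H)) h1
  simp only [Submodule.coe_sum, Submodule.coe_smul] at h2
  exact h2

omit [CharZero k] [IsAlgClosed k] [FiniteDimensional k H] in
/-- the linear map of an element of `mg` is in `gV`. -/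
theorem toLin_mem_gV (b : Basis I k V) {M : Matrix I I k} (hM : M ∈ mg g b) :
    Matrix.toLin b b M ∈ gV g V := by
  obtain ⟨X, hX, h⟩ := hM
  refine ⟨X, hX, fun v => ?_⟩
  have h1 : V.subtype ∘ₗ Matrix.toLin b b M = X ∘ₗ V.subtype := by
    refine b.ext fun j => ?_
    rw [LinearMap.comp_apply, LinearMap.comp_apply, Matrix.toLin_self, map_sum, Submodule.subtype_apply, h]
    exact Finset.sum_congr rfl fun i _ => by rw [map_smul, Submodule.subtype_apply]
  exact LinearMap.congr_fun h1 v

/-- PROOF. `scalar_of_trace`; `Matrix.toLin b b` / `LinearMap.toMatrix b b` identify `mg g b` and `gV g V`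
(`LinearMap.trace_eq_matrix_trace`). -/
theorem mg_rad (hg : IsGaloisAlg g c) (hV : IsSimpleSub g V) (hs : IsSympl g c V β) (b : Basis I k V) :
    ∀ M ∈ mg g b, (∀ M' ∈ mg g b, (M * M').trace = 0) → ∃ s : k, M = s • (1 : Matrix I I k) := by
  intro M hM h
  obtain ⟨s, h1⟩ := scalar_of_trace hg hV hs (toLin_mem_gV b hM) (fun Y hY => by
    rw [LinearMap.trace_eq_matrix_trace k b, Module.End.mul_eq_comp, LinearMap.toMatrix_comp b b b,
      LinearMap.toMatrix_toLin]
    exact h _ (toMatrix_mem_mg b hY))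
  refine ⟨s, ?_⟩
  have h2 := congrArg (LinearMap.toMatrix b b) h1
  rw [LinearMap.toMatrix_toLin, map_smul] at h2
  rw [h2]
  congr 1
  exact LinearMap.toMatrix_one b

/-- PROOF. The subspace `{∑ u i • b i | u ∈ U}` of `H` (image of `U` under the linear equivalence `b.equivFun.symm` followed by
`V.subtype`) is `g`-stable and contained in `V`. For `X ∈ g` its matrix `LinearMap.toMatrix b b (X restricted)` is in `mg g b`. -/
theorem mg_irr (hV : IsSimpleSub g V) (b : Basis I k V) (U : Submodule k (I → k))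
    (hU : ∀ M ∈ mg g b, ∀ u ∈ U, M.mulVec u ∈ U) : U = ⊥ ∨ U = ⊤ := by
  have hst : IsStable (gV g V) (U.map (b.equivFun.symm : (I → k) →ₗ[k] V)) := by
    intro Z hZ v hv
    obtain ⟨u, hu, rfl⟩ := Submodule.mem_map.1 hv
    refine Submodule.mem_map.2 ⟨(LinearMap.toMatrix b b Z).mulVec u, hU _ (toMatrix_mem_mg b hZ) u hu, ?_⟩
    apply b.equivFun.injective
    rw [LinearEquiv.coe_coe, LinearEquiv.apply_symm_apply]
    have h1 := LinearMap.toMatrix_mulVec_repr b b Z (b.equivFun.symm u)
    have h2 : (b.repr (b.equivFun.symm u) : I → k) = u := b.equivFun.apply_symm_apply u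
    rw [h2] at h1
    rw [h1]
    rfl
  have hinj : Function.Injective (b.equivFun.symm : (I → k) →ₗ[k] V) := b.equivFun.symm.injective
  rcases (isSimpleSub_gV hV).2.2 _ le_top hst with h | h
  · left
    apply Submodule.map_injective_of_injective hinj
    rw [h, Submodule.map_bot]
  · right
    apply Submodule.map_injective_of_injective hinj
    rw [h, Submodule.map_top, LinearMap.range_eq_top.2 b.equivFun.symm.surjective]

/-- The involution on the basis vectors.
PROOF. `y` of a Hodge element has the entries `0`, `1` (`e * e = e`). `hs.mult` for a diagonal Hodge element `e`: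
`(y a + y a') * β (b a) (b a') = β (b a) (b a')`. So if `β (b a) (b a') ≠ 0`, then `y a' = 1 - y a` for all these `y`, and by
`hsep` `a'` is determined by `a`. It exists by `nondeg`. -/
theorem exists_inv (hV : IsSimpleSub g V) (hs : IsSympl g c V β) (b : Basis I k V)
    (hsep : ∀ i j, i ≠ j → ∃ e, IsHodgeElt g c e ∧ ∃ y : I → k, (∀ l, e (b l : H) = y l • (b l : H)) ∧ y i ≠ y j) :
    ∃ inv : I → I, (∀ a, inv (inv a) = a) ∧ ∀ a a', β (b a : H) (b a' : H) ≠ 0 ↔ a' = inv a := by
  have huniq : ∀ a a' a'', β (b a : H) (b a' : H) ≠ 0 → β (b a : H) (b a'' : H) ≠ 0 → a' = a'' := by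
    intro a a' a'' h1 h2
    by_contra hne
    obtain ⟨e, he, y, hy, hne'⟩ := hsep a' a'' hne
    apply hne'
    have e1 := hs.mult e he.1 (b a) (b a).2 (b a') (b a').2
    have e2 := hs.mult e he.1 (b a) (b a).2 (b a'') (b a'').2
    rw [he.2.2, hy, hy, map_smul, map_smul, LinearMap.smul_apply, smul_eq_mul, smul_eq_mul, ← add_mul] at e1 e2
    have e3 := mul_right_cancel₀ h1 e1
    have e4 := mul_right_cancel₀ h2 e2
    linear_combination e3 - e4
  have hex : ∀ a, ∃ a', β (b a : H) (b a' : H) ≠ 0 := by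
    intro a
    by_contra hcon
    have hcon' : ∀ a', β (b a : H) (b a' : H) = 0 := by
      intro a'
      by_contra hne
      exact hcon ⟨a', hne⟩
    have h0 : (b a : H) = 0 := by
      refine hs.nondeg _ (b a).2 fun v hv => ?_
      have h1 : ((β (b a : H)) ∘ₗ V.subtype) = 0 := by
        refine b.ext fun j => ?_
        rw [LinearMap.comp_apply, Submodule.subtype_apply, hcon', LinearMap.zero_apply]
      exact LinearMap.congr_fun h1 ⟨v, hv⟩
    exact b.ne_zero a (Subtype.ext h0)
  choose inv hinv using hex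
  refine ⟨inv, fun a => ?_, fun a a' => ⟨fun h => huniq a a' (inv a) h (hinv a), fun h => h ▸ hinv a⟩⟩
  refine huniq (inv a) _ _ (hinv (inv a)) ?_
  rw [hs.neg (b (inv a)).2 (b a).2]
  exact neg_ne_zero.2 (hinv a)

/-- **The matrix context.** PROOF. `inv` from `exists_inv`, `B = of fun i j => β (b i) (b j)`, `y0` from `exists_regular`. `sep`: for `a ≠ b`
take the Hodge element `e` of `hsep` with its `y` (entries 0, 1), `S = {l | y l = 1}`. `form`: `hs.mult` with `s = c X`. `skew`: from `alt`
(expand `β (u + v) (u + v) = 0`). The last statement: `hs.mult` for `b a`, `b (inv a)`. -/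
theorem exists_mx (hg : IsGaloisAlg g c) (hV : IsSimpleSub g V) (hs : IsSympl g c V β) (b : Basis I k V)
    (hsep : ∀ i j, i ≠ j → ∃ e, IsHodgeElt g c e ∧ ∃ y : I → k, (∀ l, e (b l : H) = y l • (b l : H)) ∧ y i ≠ y j) :
    ∃ (y0 : I → k) (inv : I → I) (B : Matrix I I k), Mx (mg g b) y0 inv B ∧
      ∀ X ∈ g, ∀ y : I → k, (∀ l, X (b l : H) = y l • (b l : H)) → ∀ a, y a + y (inv a) = c X := by
  classical
  obtain ⟨y0, hy0, hreg⟩ := exists_regular (mg g b)
  obtain ⟨inv, hinv, hβ⟩ := exists_inv hV hs b hsep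
  have hlast : ∀ X ∈ g, ∀ y : I → k, (∀ l, X (b l : H) = y l • (b l : H)) → ∀ a, y a + y (inv a) = c X := by
    intro X hX y hy a
    have e1 := hs.mult X hX (b a) (b a).2 (b (inv a)) (b (inv a)).2
    rw [hy, hy, map_smul, map_smul, LinearMap.smul_apply, smul_eq_mul, smul_eq_mul, ← add_mul] at e1
    exact mul_right_cancel₀ ((hβ a (inv a)).2 rfl) e1
  refine ⟨y0, inv, Matrix.of fun i j => β (b i : H) (b j : H), ⟨mg_lie hg.lie hV.2.1 b, mg_rad hg hV hs b,
    mg_irr hV b, hy0, hreg, ?_, hinv, ?_, ?_, ?_⟩, hlast⟩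
  · intro a b' hab
    obtain ⟨e, he, y, hy, hne⟩ := hsep a b' hab
    have h01 : ∀ l, y l = 0 ∨ y l = 1 := by
      intro l
      have h1 : (e * e) (b l : H) = e (b l : H) := by rw [he.2.1]
      rw [Module.End.mul_apply, hy, map_smul, hy, smul_smul] at h1
      have h2 : (y l * y l - y l) • (b l : H) = 0 := by rw [sub_smul, h1, sub_self]
      have h3 : (b l : H) ≠ 0 := fun h => b.ne_zero l (Subtype.ext h)
      have h4 : y l * (y l - 1) = 0 := by
        have := (smul_eq_zero.1 h2).resolve_right h3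
        linear_combination this
      rcases mul_eq_zero.1 h4 with h | h
      · exact Or.inl h
      · exact Or.inr (by linear_combination h)
    have hS : ∀ l, (if l ∈ Finset.univ.filter (fun l => y l = 1) then (1 : k) else 0) = y l := by
      intro l
      rcases h01 l with h | h
      · rw [if_neg (by simp [h]), h]
      · rw [if_pos (by simp [h]), h]
    have hmem : ∀ l, l ∈ Finset.univ.filter (fun l => y l = 1) ↔ y l = 1 := by
      intro l
      simp
    refine ⟨Finset.univ.filter (fun l => y l = 1), ⟨⟨e, he.1, fun j => ?_⟩, fun l => ?_⟩, ?_⟩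
    · rw [Finset.sum_eq_single j, Matrix.diagonal_apply_eq, hS, hy]
      · intro i _ hij
        rw [Matrix.diagonal_apply_ne _ hij, zero_smul]
      · intro h
        exact absurd (Finset.mem_univ j) h
    · rw [hmem, hmem]
      have h1 := hlast e he.1 y hy l
      rw [he.2.2] at h1
      rcases h01 l with h | h
      · rw [h, zero_add] at h1
        rw [h1, h]
        simp
      · rw [h] at h1
        have h2 : y (inv l) = 0 := by linear_combination h1
        rw [h2, h]
        simp
    · rw [hmem, hmem]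
      rcases h01 a with h | h <;> rcases h01 b' with h' | h'
      · exact absurd (h.trans h'.symm) hne
      · right
        exact ⟨by rw [h]; simp, h'⟩
      · left
        exact ⟨h, by rw [h']; simp⟩
      · exact absurd (h.trans h'.symm) hne
  · rintro M ⟨X, hX, h⟩
    refine ⟨c X, ?_⟩
    ext i j
    have e1 := hs.mult X hX (b i) (b i).2 (b j) (b j).2
    rw [h, h] at e1
    simp only [map_sum, map_smul, LinearMap.sum_apply, LinearMap.smul_apply, smul_eq_mul] at e1
    rw [Matrix.add_apply, Matrix.mul_apply, Matrix.mul_apply, Matrix.smul_apply, Matrix.of_apply, smul_eq_mul, ← e1]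
    congr 1
    exact Finset.sum_congr rfl fun l _ => by rw [Matrix.of_apply, mul_comm]
  · ext i j
    rw [Matrix.transpose_apply, Matrix.of_apply, Matrix.neg_apply, Matrix.of_apply]
    exact hs.neg (b j).2 (b i).2
  · intro a a'
    exact hβ a a'

end Pool.Agent.Lib.MP_021685_agZ
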