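import Mathlib

/-!
# The discriminant of a product of linear factors
-/

set_option autoImplicit false

namespace Pool.Agent.Lib.MP_021685_agZ

open Polynomial

section discr

variable {K : Type*} [Field K]

theorem prod_sub_eq {n : ℕ} (a : Fin n → K) :
    ∏ i, ∏ j ∈ Finset.univ.erase i, (a i - a j)
      = (-1) ^ (n * (n - 1) / 2) * (∏ i : Fin n, ∏ j ∈ Finset.Ioi i, (a j - a i)) ^ 2 := by
  classical
  have h1 : ∀ i : Fin n, ∏ j ∈ Finset.univ.erase i, (a i - a j)
      = (∏ j ∈ Finset.Ioi i, (a i - a j)) * ∏ j ∈ Finset.Iio i, (a i - a j) := by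
    intro i
    rw [← Finset.prod_union]
    · refine Finset.prod_congr ?_ fun _ _ => rfl
      ext j
      simp only [Finset.mem_erase, Finset.mem_univ, and_true, Finset.mem_union, Finset.mem_Ioi,
        Finset.mem_Iio]
      constructor
      · intro h; rcases lt_or_gt_of_ne h with h | h
        · exact Or.inr h
        · exact Or.inl h
      · rintro (h | h)
        · exact h.ne'
        · exact h.ne
    · rw [Finset.disjoint_left]
      intro j hj hj'
      rw [Finset.mem_Ioi] at hj
      rw [Finset.mem_Iio] at hj'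
      exact absurd hj hj'.not_gt
  rw [Finset.prod_congr rfl fun i _ => h1 i, Finset.prod_mul_distrib]
  have h2 : ∏ i : Fin n, ∏ j ∈ Finset.Iio i, (a i - a j)
      = ∏ i : Fin n, ∏ j ∈ Finset.Ioi i, (a j - a i) := by
    refine Finset.prod_comm' ?_
    intro i j
    simp
  have h3 : ∏ i : Fin n, ∏ j ∈ Finset.Ioi i, (a i - a j)
      = (-1) ^ (n * (n - 1) / 2) * ∏ i : Fin n, ∏ j ∈ Finset.Ioi i, (a j - a i) := by
    have h4 : ∀ i : Fin n, ∏ j ∈ Finset.Ioi i, (a i - a j)
        = (-1) ^ (n - 1 - (i : ℕ)) * ∏ j ∈ Finset.Ioi i, (a j - a i) := by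
      intro i
      have h5 : ∀ j ∈ Finset.Ioi i, a i - a j = (-1) * (a j - a i) := fun j _ => by ring
      rw [Finset.prod_congr rfl h5, Finset.prod_mul_distrib, Finset.prod_const, Fin.card_Ioi]
    rw [Finset.prod_congr rfl fun i _ => h4 i, Finset.prod_mul_distrib, Finset.prod_pow_eq_pow_sum]
    have h6 : ∑ i : Fin n, (n - 1 - (i : ℕ)) = n * (n - 1) / 2 := by
      rw [Fin.sum_univ_eq_sum_range (fun i => n - 1 - i) n, Finset.sum_range_reflect (fun i => i) n,
        Finset.sum_range_id]
    rw [h6]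
  rw [h2, h3]
  ring

theorem discr_prod {n : ℕ} (a : Fin n → K) (hn : 0 < n) :
    (∏ i, (X - C (a i)) : K[X]).discr = (∏ i : Fin n, ∏ j ∈ Finset.Ioi i, (a j - a i)) ^ 2 := by
  classical
  set P : K[X] := ∏ i, (X - C (a i)) with hP
  have hm : P.Monic := monic_prod_of_monic _ _ fun i _ => monic_X_sub_C _
  have hd : P.natDegree = n := by
    rw [hP, natDegree_prod_of_monic _ _ fun i _ => monic_X_sub_C _]
    simp
  have hdeg : 0 < P.degree := by
    rw [degree_eq_natDegree hm.ne_zero, hd]
    exact_mod_cast hn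
  have h1 := resultant_deriv hdeg
  have hsp : P.Splits := by
    rw [hP]
    exact Splits.prod fun i _ => Splits.X_sub_C _
  have hroots : P.roots = (Finset.univ : Finset (Fin n)).val.map a := by
    have h := roots_multiset_prod_X_sub_C ((Finset.univ : Finset (Fin n)).val.map a)
    rw [Multiset.map_map] at h
    exact h
  have h2 := resultant_eq_prod_eval P P.derivative (P.natDegree - 1) (natDegree_derivative_le P) hsp
  rw [hm.leadingCoeff, one_pow, one_mul, hroots, Multiset.map_map] at h2
  rw [h2, hm.leadingCoeff, mul_one, hd] at h1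
  have h3 : (Multiset.map ((fun x => eval x (derivative P)) ∘ a) (Finset.univ : Finset (Fin n)).val).prod
      = ∏ i, ∏ j ∈ Finset.univ.erase i, (a i - a j) := by
    refine Finset.prod_congr rfl fun i _ => ?_
    have := Lagrange.eval_nodal_derivative_eval_node_eq (s := Finset.univ) (v := a) (Finset.mem_univ i)
    rw [Lagrange.eval_nodal] at this
    exact this
  rw [h3, prod_sub_eq] at h1
  have h4 : ((-1 : K) ^ (n * (n - 1) / 2)) ≠ 0 := pow_ne_zero _ (by simp)
  exact (mul_left_cancel₀ h4 h1).symm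

end discr

end Pool.Agent.Lib.MP_021685_agZ
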