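import Pool.Agent.Lib.MP_021685_agZ.ZDefs2
import Pool.Agent.Lib.MP_021685_agZ.ZDisc

/-! # ZU: eigenbasis and discriminant -/

set_option autoImplicit false

namespace Pool.Agent.Lib.MP_021685_agZ

open Module Pool.Agent.Lib.MP_021685_agO

variable {k H : Type*} [Field k] [AddCommGroup H] [Module k H]

/-- An eigenbasis. -/
theorem exists_eigenbasis [IsAlgClosed k] [FiniteDimensional k H] (Φ : End k H) (h : Φ.charpoly.discr ≠ 0) :
    ∃ (m : ℕ) (b : Basis (Fin m) k H) (a : Fin m → k), Function.Injective a ∧ (∀ i, Φ (b i) = a i • b i) ∧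
      Φ.charpoly.discr = (∏ i : Fin m, ∏ j ∈ Finset.Ioi i, (a j - a i)) ^ 2 := by
  classical
  obtain ⟨l, hl⟩ := Quot.exists_rep Φ.charpoly.roots
  change (l : Multiset k) = Φ.charpoly.roots at hl
  have hsp : Φ.charpoly.Splits := IsAlgClosed.splits _
  have hmon : Φ.charpoly.Monic := LinearMap.charpoly_monic Φ
  have hprod : Φ.charpoly = ∏ i : Fin l.length, (Polynomial.X - Polynomial.C (l.get i)) := by
    have h1 := hsp.eq_prod_roots_of_monic hmon
    rw [← hl, Multiset.map_coe, Multiset.prod_coe] at h1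
    rw [h1, ← List.prod_ofFn]
    refine congrArg List.prod ?_
    conv_lhs => rw [← List.ofFn_get l, List.map_ofFn]
    rfl
  have hcard : Module.finrank k H = l.length := by
    rw [← LinearMap.charpoly_natDegree Φ, hsp.natDegree_eq_card_roots, ← hl, Multiset.coe_card]
  have hdisc : Φ.charpoly.discr
      = (∏ i : Fin l.length, ∏ j ∈ Finset.Ioi i, (l.get j - l.get i)) ^ 2 := by
    rcases Nat.eq_zero_or_pos l.length with h0 | h0
    · have h1 : Φ.charpoly = Polynomial.C 1 := by
        rw [hprod, Polynomial.C_1]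
        have : IsEmpty (Fin l.length) := by rw [h0]; infer_instance
        rw [Finset.univ_eq_empty, Finset.prod_empty]
      have : IsEmpty (Fin l.length) := by rw [h0]; infer_instance
      rw [h1, Polynomial.discr_C, Finset.univ_eq_empty, Finset.prod_empty, one_pow]
    · rw [hprod]
      exact discr_prod _ h0
  have hinj : Function.Injective l.get := by
    intro i j hij
    by_contra hne
    apply h
    rw [hdisc]
    have hz : ∀ i j : Fin l.length, i < j → l.get i = l.get j →
        ∏ i : Fin l.length, ∏ j ∈ Finset.Ioi i, (l.get j - l.get i) = 0 := fun i j hlt he =>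
      Finset.prod_eq_zero (Finset.mem_univ i)
        (Finset.prod_eq_zero (Finset.mem_Ioi.2 hlt) (by rw [he, sub_self]))
    rcases lt_or_gt_of_ne hne with h1 | h1
    · rw [hz i j h1 hij, zero_pow two_ne_zero]
    · rw [hz j i h1 hij.symm, zero_pow two_ne_zero]
  have hev : ∀ i, ∃ v, Φ.HasEigenvector (l.get i) v := by
    intro i
    have h1 : Φ.charpoly.IsRoot (l.get i) := by
      rw [hprod, Polynomial.IsRoot, Polynomial.eval_prod]
      exact Finset.prod_eq_zero (Finset.mem_univ i) (by simp)
    exact ((Module.End.hasEigenvalue_iff_isRoot_charpoly Φ _).2 h1).exists_hasEigenvector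
  choose v hv using hev
  have hli : LinearIndependent k v := Module.End.eigenvectors_linearIndependent' Φ _ hinj v hv
  have hspan := hli.span_eq_top_of_card_eq_finrank' (by rw [Fintype.card_fin, hcard])
  refine ⟨l.length, Basis.mk hli hspan.ge, l.get, hinj, fun i => ?_, hdisc⟩
  rw [Basis.mk_apply]
  exact (hv i).apply_eq_smul

/-- An eigenvector in `V` is a multiple of a basis vector. -/
theorem eigen_line {V : Submodule k H} {I : Type*} [Fintype I] (b : Basis I k V) {a : I → k}
    (ha : Function.Injective a) {F : End k H} (hb : ∀ i, F (b i : H) = a i • (b i : H)) {μ : k} {v : V}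
    (hv : v ≠ 0) (h : F (v : H) = μ • (v : H)) :
    ∃ (j : I) (z : k), a j = μ ∧ z ≠ 0 ∧ (v : H) = z • (b j : H) := by
  classical
  have hF : ∀ w : V, F (w : H) = ((∑ j, (b.repr w j * a j) • b j : V) : H) := by
    intro w
    have h1 : (w : H) = ∑ j, b.repr w j • (b j : H) := by
      conv_lhs => rw [← b.sum_repr w]
      simp only [Submodule.coe_sum, Submodule.coe_smul]
    conv_lhs => rw [h1]
    rw [map_sum, Submodule.coe_sum]
    refine Finset.sum_congr rfl fun j _ => ?_
    rw [map_smul, hb, smul_smul, Submodule.coe_smul]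
  have h1 : (∑ j, (b.repr v j * a j) • b j : V) = μ • v := by
    apply Subtype.ext
    rw [← hF, h, Submodule.coe_smul]
  have h2 : ∀ j, b.repr v j * a j = μ * b.repr v j := by
    intro j
    have h3 := congrArg (fun w => b.repr w j) h1
    simp only [map_smul, Finsupp.smul_apply, smul_eq_mul] at h3
    rw [← h3, b.repr_sum_self]
  obtain ⟨j, hj⟩ : ∃ j, b.repr v j ≠ 0 := by
    by_contra hcon
    push Not at hcon
    apply hv
    rw [← b.sum_repr v]
    exact Finset.sum_eq_zero fun j _ => by rw [hcon j, zero_smul]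
  have haj : a j = μ := by
    have h3 := h2 j
    rw [mul_comm] at h3
    exact mul_right_cancel₀ hj h3
  refine ⟨j, b.repr v j, haj, hj, ?_⟩
  have h4 : ∀ l, l ≠ j → b.repr v l = 0 := by
    intro l hl
    by_contra h0
    have h3 := h2 l
    rw [mul_comm] at h3
    exact hl (ha ((mul_right_cancel₀ h0 h3).trans haj.symm))
  have h5 : v = b.repr v j • b j := by
    conv_lhs => rw [← b.sum_repr v]
    refine Finset.sum_eq_single j (fun l _ hl => by rw [h4 l hl, zero_smul]) fun h => ?_
    exact absurd (Finset.mem_univ _) h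
  exact congrArg Subtype.val h5

/-- The Hodge elements which commute with `Φ` separate the eigenvectors, if `Φ` is in the algebra which they
generate. -/
theorem exists_sep {g : Submodule k (End k H)} {c : End k H → k} {V : Submodule k H} (hst : IsStable g V)
    {I : Type*} [Fintype I] (b : Basis I k V) {a : I → k} (ha : Function.Injective a) {Φ : End k H}
    (hb : ∀ i, Φ (b i : H) = a i • (b i : H))
    (hΦ : Φ ∈ Algebra.adjoin k {e | IsHodgeElt g c e ∧ e * Φ = Φ * e}) :
    ∀ i j, i ≠ j → ∃ e, IsHodgeElt g c e ∧ ∃ y : I → k, (∀ l, e (b l : H) = y l • (b l : H)) ∧ y i ≠ y j := by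
  classical
  have hb0 : ∀ l, (b l : H) ≠ 0 := fun l h => b.ne_zero l (Subtype.ext h)
  -- the elements commuting with `Φ` are diagonal
  have hdiag : ∀ e, IsHodgeElt g c e → e * Φ = Φ * e → ∃ y : I → k, ∀ l, e (b l : H) = y l • (b l : H) := by
    intro e he hcomm
    have h1 : ∀ l, ∃ y : k, e (b l : H) = y • (b l : H) := by
      intro l
      by_cases h0 : e (b l : H) = 0
      · exact ⟨0, by rw [h0, zero_smul]⟩
      · have hmem : e (b l : H) ∈ V := hst e he.1 _ (b l).2
        have h2 : Φ (e (b l : H)) = a l • e (b l : H) := by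
          have := LinearMap.congr_fun hcomm (b l : H)
          change e (Φ (b l : H)) = Φ (e (b l : H)) at this
          rw [← this, hb, map_smul]
        obtain ⟨j, z, hj, -, hz⟩ := eigen_line b ha hb (v := ⟨e (b l : H), hmem⟩)
          (fun h => h0 (congrArg Subtype.val h)) h2
        have hjl : j = l := ha hj
        subst hjl
        exact ⟨z, hz⟩
    choose y hy using h1
    exact ⟨y, hy⟩
  intro i j hij
  by_contra hcon
  have hcon' : ∀ e, IsHodgeElt g c e → ∀ y : I → k, (∀ l, e (b l : H) = y l • (b l : H)) → y i = y j := by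
    intro e he y hy
    by_contra hne
    exact hcon ⟨e, he, y, hy, hne⟩
  have key : ∀ Z ∈ Algebra.adjoin k {e : End k H | IsHodgeElt g c e ∧ e * Φ = Φ * e}, ∃ z : k,
      Z (b i : H) = z • (b i : H) ∧ Z (b j : H) = z • (b j : H) := by
    intro Z hZ
    induction hZ using Algebra.adjoin_induction with
    | mem e he =>
      obtain ⟨y, hy⟩ := hdiag e he.1 he.2
      exact ⟨y i, hy i, by rw [hy j, hcon' e he.1 y hy]⟩
    | algebraMap t => exact ⟨t, rfl, rfl⟩
    | add x y _ _ hx hy =>
      obtain ⟨z, h1, h2⟩ := hx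
      obtain ⟨z', h3, h4⟩ := hy
      exact ⟨z + z', by rw [LinearMap.add_apply, h1, h3, add_smul], by rw [LinearMap.add_apply, h2, h4, add_smul]⟩
    | mul x y _ _ hx hy =>
      obtain ⟨z, h1, h2⟩ := hx
      obtain ⟨z', h3, h4⟩ := hy
      refine ⟨z' * z, ?_, ?_⟩
      · rw [Module.End.mul_apply, h3, map_smul, h1, smul_smul]
      · rw [Module.End.mul_apply, h4, map_smul, h2, smul_smul]
  obtain ⟨z, h1, h2⟩ := key Φ hΦ
  apply hij
  apply ha
  have h3 : (a i - z) • (b i : H) = 0 := by rw [sub_smul, ← hb, h1, sub_self]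
  have h4 : (a j - z) • (b j : H) = 0 := by rw [sub_smul, ← hb, h2, sub_self]
  rw [smul_eq_zero_iff_left (hb0 i), sub_eq_zero] at h3
  rw [smul_eq_zero_iff_left (hb0 j), sub_eq_zero] at h4
  rw [h3, h4]

/-- A semilinear automorphism which maps `V` to itself and commutes with `F` permutes the eigenvectors. -/
theorem exists_perm {V : Submodule k H} {I : Type*} [Fintype I] (b : Basis I k V) {a : I → k}
    (ha : Function.Injective a) {F : End k H} (hb : ∀ i, F (b i : H) = a i • (b i : H)) {σ : k ≃+* k} {s : H → H}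
    (hadd : ∀ u v, s (u + v) = s u + s v) (hsmul : ∀ (t : k) u, s (t • u) = σ t • s u)
    (hinj : ∀ v, s v = 0 → v = 0) (hF : ∀ v, F (s v) = s (F v)) (hsV : ∀ v ∈ V, s v ∈ V) :
    ∃ (π : Equiv.Perm I) (z : I → k), (∀ i, z i ≠ 0) ∧ (∀ i, s (b i : H) = z i • (b (π i) : H)) ∧
      ∀ i, σ (a i) = a (π i) := by
  have hb0 : ∀ l, (b l : H) ≠ 0 := fun l h => b.ne_zero l (Subtype.ext h)
  have h1 : ∀ i, ∃ (j : I) (z : k), a j = σ (a i) ∧ z ≠ 0 ∧ s (b i : H) = z • (b j : H) := by
    intro i
    refine eigen_line b ha hb (v := ⟨s (b i : H), hsV _ (b i).2⟩) ?_ ?_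
    · intro h0
      exact hb0 i (hinj _ (congrArg Subtype.val h0))
    · change F (s (b i : H)) = σ (a i) • s (b i : H)
      rw [hF, hb, hsmul]
  choose π z hπ hz hs using h1
  have hπinj : Function.Injective π := by
    intro i j hij
    apply ha
    apply σ.injective
    rw [← hπ, ← hπ, hij]
  exact ⟨Equiv.ofBijective π (Finite.injective_iff_bijective.1 hπinj), z, hz, hs, fun i => (hπ i).symm⟩

theorem vandermonde_perm {m : ℕ} (a : Fin m → k) (π : Equiv.Perm (Fin m)) (hπ : Equiv.Perm.sign π = 1) :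
    ∏ i : Fin m, ∏ j ∈ Finset.Ioi i, (a (π j) - a (π i)) = ∏ i : Fin m, ∏ j ∈ Finset.Ioi i, (a j - a i) := by
  have h1 := Matrix.det_vandermonde (fun i => a (π i))
  have h2 := Matrix.det_vandermonde a
  rw [← h1, ← h2]
  have h3 : Matrix.vandermonde (fun i => a (π i)) = (Matrix.vandermonde a).submatrix π id := by
    ext i j
    rfl
  rw [h3, Matrix.det_permute, hπ]
  simp

end Pool.Agent.Lib.MP_021685_agZ
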