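import Pool.Agent.Lib.MP_021685_agZ.ZT
import Pool.Agent.Lib.MP_021685_agZ.ZU
import Pool.Agent.Lib.MP_021685_agO.OMain3

/-! # ZV: one Frobenius decides, the main theorem -/

set_option autoImplicit false

namespace Pool.Agent.Lib.MP_021685_agZ

open Module Pool.Agent.Lib.MP_021685_agO

variable {k : Type*} [Field k] [CharZero k] [IsAlgClosed k] {ι : Type*} [Fintype ι] [DecidableEq ι]
  {k₀ : Type*} [Field k₀] [Algebra k₀ k] {g : Submodule k (End k (ι → k))} {c : End k (ι → k) → k}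

omit [CharZero k] [IsAlgClosed k] [Fintype ι] [DecidableEq ι] in
theorem galAct_symm (σ : k ≃ₐ[k₀] k) (v : ι → k) : galAct σ (galAct σ.symm v) = v := by
  funext i
  simp [galAct]

omit [CharZero k] [IsAlgClosed k] [Fintype ι] [DecidableEq ι] in
theorem isAut_galAct (h : IsGalStable k₀ g c) (σ : k ≃ₐ[k₀] k) : IsAut g c (σ : k ≃+* k) (galAct σ) := by
  refine ⟨fun u v => ?_, fun a u => ?_, fun X hX => h σ X hX, fun X' hX' => ?_, fun v => ⟨galAct σ.symm v, galAct_symm σ v⟩⟩
  · funext i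
    simp [galAct]
  · funext i
    simp [galAct]
  · obtain ⟨X, hX, h1, h2⟩ := h σ.symm X' hX'
    refine ⟨X, hX, fun v => ?_, ?_⟩
    · have h3 := h1 (galAct σ v)
      have h4 : galAct σ.symm (galAct σ v) = v := by
        funext i
        simp [galAct]
      rw [h4] at h3
      rw [h3, galAct_symm]
    · rw [h2]
      change c X' = σ (σ.symm (c X'))
      rw [AlgEquiv.apply_symm_apply]

theorem OddDisc.oddSimple (hg : IsGaloisAlg g c) {V : Submodule k (ι → k)}
    (hV : OddDisc k₀ g c V) : OddSimple g c V := by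
  obtain ⟨hVs, ⟨β, hs⟩, hgal, F, u, hu, huF, hucl, hdisc⟩ := hV
  have hne : (u.restrict hu).charpoly.discr ≠ 0 := fun h0 =>
    hdisc 0 (fun σ _ => map_zero σ) (by rw [h0]; ring)
  obtain ⟨m, b, a, ha, hb, hd⟩ := exists_eigenbasis _ hne
  have hb' : ∀ i, u (b i : ι → k) = a i • (b i : ι → k) := fun i =>
    congrArg Subtype.val (hb i)
  have hsep := exists_sep (c := c) hVs.2.1 b ha hb' hucl
  rcases odd_or_even hg hVs hs b hsep with h | h
  · exact h
  exfalso
  refine hdisc (∏ i : Fin m, ∏ j ∈ Finset.Ioi i, (a j - a i)) (fun σ hσ => ?_) hd.symm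
  have haut := isAut_galAct hgal σ
  have hcomm : ∀ v : ι → k, u (galAct σ v) = galAct σ (u v) := by
    intro v
    rw [huF]
    funext i
    simp [galAct, Matrix.toLin'_apply, Matrix.mulVec, dotProduct]
  obtain ⟨π, z, hz, hπ, haπ⟩ := exists_perm b ha hb' haut.add haut.smul (fun v hv => by
    funext i
    have := congrFun hv i
    simpa [galAct] using this) hcomm hσ
  have hsgn := h _ _ haut π z hz hπ
  have haπ' : ∀ i, σ (a i) = a (π i) := haπ
  rw [map_prod]
  simp only [map_prod, map_sub, haπ']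
  exact vandermonde_perm a π hsgn

theorem main4 (hg : IsGaloisAlg g c) {H₀ H₁ : Submodule k (ι → k)} (hc : IsCompl H₀ H₁)
    (h₀ : IsStable g H₀) (h₁ : IsStable g H₁)
    (hHom : ∀ φ : End k (ι → k), (∀ X ∈ g, φ * X = X * φ) → ∀ u ∈ H₁, φ u ∈ H₁)
    (hodd : H₁ ≤ sSup {V | OddSimple3 g c V ∨ OddDiv3 g c V ∨ OddDisc k₀ g c V})
    (s : ℕ) (T : MultilinearMap k (fun _ : Fin s => ι → k) k) (hT : IsTateForm g c s T) :
    IsGenOver g c H₁ s T := by
  refine main hg hc h₀ h₁ hHom (hodd.trans (sSup_le_sSup fun V hV => ?_)) s T hT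
  rcases hV with hV | hV | hV
  · exact Or.inl (OddSimple3.oddSimple hg.lie hV)
  · exact Or.inr (OddDiv3.oddDiv hg.lie hV)
  · exact Or.inl (OddDisc.oddSimple hg hV)

end Pool.Agent.Lib.MP_021685_agZ
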