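import Pool.Agent.Lib.MP_021685_agZ.Rot
import Pool.Agent.Lib.MP_021685_agZ.Five

/-!
# The minimal idempotent
-/

namespace MP021685Z

open Matrix

variable {k : Type*} [Field k] {ι : Type} [Fintype ι] [DecidableEq ι]

variable {B : Matrix ι ι k} {C : ∀ m n : ℕ, Submodule k (Mor k ι m n)}
  {U : ∀ n : ℕ, Submodule k ((Fin n → ι) → k)}

lemma rkT_eq_finrank_range {W : ℕ → Type*} [∀ n, AddCommGroup (W n)] [∀ n, Module k (W n)]
    (C : ∀ m n, Submodule k (W m →ₗ[k] W n)) (m n : ℕ) (t : W m →ₗ[k] W m) {X : Type*}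
    [AddCommGroup X] [Module k X] (Ψ : C m n →ₗ[k] X)
    (h : LinearMap.ker Ψ = LinearMap.ker (HalfFive.pairT C m n t)) :
    HalfFive.rkT C m n t = Module.finrank k (LinearMap.range Ψ) := by
  unfold HalfFive.rkT
  rw [← h]
  exact LinearEquiv.finrank_eq Ψ.quotKerEquivRange

/-- the family `C` as linear maps -/
def linC (C : ∀ m n : ℕ, Submodule k (Mor k ι m n)) (m n : ℕ) :
    Submodule k (((Fin m → ι) → k) →ₗ[k] ((Fin n → ι) → k)) :=
  (C m n).comap (LinearMap.toMatrix' :
    (((Fin m → ι) → k) →ₗ[k] ((Fin n → ι) → k)) ≃ₗ[k] Mor k ι m n).toLinearMap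

lemma mem_linC {m n : ℕ} {f : ((Fin m → ι) → k) →ₗ[k] ((Fin n → ι) → k)} :
    f ∈ linC C m n ↔ LinearMap.toMatrix' f ∈ C m n := Iff.rfl

lemma one_mem_C (hC : IsCorrFamily B C) (n : ℕ) : (1 : Mor k ι n n) ∈ C n n := by
  have := one_mem_Hom hC (Fin n)
  rwa [Hom_fin hC] at this

lemma linC_comp (hC : IsCorrFamily B C) : ∀ l m n, ∀ g ∈ linC C m n, ∀ f ∈ linC C l m,
    g ∘ₗ f ∈ linC C l n := by
  intro l m n g hg f hf
  rw [mem_linC, LinearMap.toMatrix'_comp]
  exact hC.comp_mem l m n _ _ hg hf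

lemma linC_id (hC : IsCorrFamily B C) : ∀ n, LinearMap.id ∈ linC C n n := by
  intro n
  rw [mem_linC, LinearMap.toMatrix'_id]
  exact one_mem_C hC n

omit [DecidableEq ι] in
lemma finrank_zero : Module.finrank k ((Fin 0 → ι) → k) = 1 := by
  rw [Module.finrank_fintype_fun_eq_card]
  simp

omit [DecidableEq ι] in
lemma U_zero (hU : IsStable C U) : U 0 = ⊤ := by
  rw [eq_top_iff]
  intro u _
  have : u = u default • (fun _ => 1 : (Fin 0 → ι) → k) := by
    ext x
    rw [Subsingleton.elim x default]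
    simp
  rw [this]
  exact (U 0).smul_mem _ hU.unit_mem

lemma U_stable (hU : IsStable C U) : ∀ m n, ∀ f ∈ linC C m n, ∀ u ∈ U m, f u ∈ U n := by
  intro m n f hf u hu
  have := hU.map_mem m n _ u hf hu
  have h2 : LinearMap.toMatrix' f *ᵥ u = f u := LinearMap.toMatrix'_mulVec f u
  rwa [← h2]

lemma rkT_eq_prk (C : ∀ m n : ℕ, Submodule k (Mor k ι m n)) (m n : ℕ) (t : Mor k ι m m) :
    HalfFive.rkT (W := fun n => (Fin n → ι) → k) (linC C) m n (toLin' t) =
      prk (sand 1 (C m n) t) (C n m) := by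
  classical
  let Ψ : linC C m n →ₗ[k] (Mor k ι m n ⧸ rad (C n m)) :=
    (rad (C n m)).mkQ ∘ₗ lr 1 t ∘ₗ (LinearMap.toMatrix' :
      (((Fin m → ι) → k) →ₗ[k] ((Fin n → ι) → k)) ≃ₗ[k] Mor k ι m n).toLinearMap ∘ₗ
      (linC C m n).subtype
  have hrange : LinearMap.range Ψ = (sand 1 (C m n) t).map (rad (C n m)).mkQ := by
    ext z
    constructor
    · rintro ⟨f, rfl⟩
      exact ⟨_, ⟨_, f.2, rfl⟩, rfl⟩
    · rintro ⟨_, ⟨F, hF, rfl⟩, rfl⟩
      refine ⟨⟨toLin' F, ?_⟩, ?_⟩
      · rw [mem_linC, LinearMap.toMatrix'_toLin']; exact hF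
      · simp only [Ψ, LinearMap.comp_apply, Submodule.subtype_apply, LinearEquiv.coe_coe,
          LinearMap.toMatrix'_toLin']
  have hker : LinearMap.ker Ψ = LinearMap.ker
      (HalfFive.pairT (W := fun n => (Fin n → ι) → k) (linC C) m n (toLin' t)) := by
    ext f
    rw [LinearMap.mem_ker, LinearMap.mem_ker]
    simp only [Ψ, LinearMap.comp_apply, Submodule.subtype_apply, LinearEquiv.coe_coe]
    rw [Submodule.mkQ_apply, Submodule.Quotient.mk_eq_zero]
    have key : ∀ g : linC C n m, HalfFive.pairT (W := fun n => (Fin n → ι) → k) (linC C) m n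
        (toLin' t) f g = trace (LinearMap.toMatrix' (g : ((Fin n → ι) → k) →ₗ[k]
          ((Fin m → ι) → k)) * lr 1 t (LinearMap.toMatrix' (f : ((Fin m → ι) → k) →ₗ[k]
          ((Fin n → ι) → k)))) := by
      intro g
      rw [HalfFive.pairT_apply, LinearMap.trace_eq_matrix_trace k (Pi.basisFun k _),
        LinearMap.toMatrix_eq_toMatrix', LinearMap.toMatrix'_comp, LinearMap.toMatrix'_comp,
        LinearMap.toMatrix'_toLin']
      simp [lr]
    constructor
    · intro h
      ext g
      rw [key g]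
      exact h _ g.2
    · intro h G hG
      have hG' : toLin' G ∈ linC C n m := by
        rw [mem_linC, LinearMap.toMatrix'_toLin']; exact hG
      have h3 := key ⟨toLin' G, hG'⟩
      have h4 : LinearMap.toMatrix' (toLin' G) = G := LinearMap.toMatrix'_toLin' G
      rw [h, LinearMap.zero_apply] at h3
      change (0 : k) = trace (LinearMap.toMatrix' (toLin' G) * _) at h3
      rw [h4] at h3
      exact h3.symm
  rw [rkT_eq_finrank_range (W := fun n => (Fin n → ι) → k) (linC C) m n (toLin' t) Ψ hker,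
    hrange]
  rfl

/-- a tensor as a column -/
def col (k : Type*) [Field k] (ι : Type) (n : ℕ) : ((Fin n → ι) → k) ≃ₗ[k] Mor k ι 0 n where
  toFun u := fun x _ => u x
  invFun F := fun x => F x default
  map_add' _ _ := rfl
  map_smul' _ _ := rfl
  left_inv _ := rfl
  right_inv F := by
    ext x y
    rw [Subsingleton.elim y default]

theorem numRank_eq_prk (_hC : IsCorrFamily B C) (n : ℕ) :
    numRank C n = prk (C 0 n) (C n 0) := by
  have h1 : (classes C n).map (col k ι n : ((Fin n → ι) → k) →ₗ[k] Mor k ι 0 n) = C 0 n := by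
    ext F
    constructor
    · rintro ⟨u, hu, rfl⟩
      exact hu
    · intro hF
      refine ⟨(col k ι n).symm F, ?_, (col k ι n).apply_symm_apply F⟩
      change (col k ι n) ((col k ι n).symm F) ∈ C 0 n
      rw [(col k ι n).apply_symm_apply F]
      exact hF
  have h2 : (numTriv C n).map (col k ι n : ((Fin n → ι) → k) →ₗ[k] Mor k ι 0 n) =
      C 0 n ⊓ rad (C n 0) := by
    have key : ∀ (G : Mor k ι n 0) (u : (Fin n → ι) → k),
        trace (G * col k ι n u) = (G *ᵥ u) default := by
      intro G u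
      rw [trace, Fintype.sum_unique]
      rfl
    ext F
    constructor
    · rintro ⟨u, hu, rfl⟩
      refine ⟨hu.1, fun G hG => ?_⟩
      have := hu.2 G hG
      have h3 := key G u
      rw [this] at h3
      exact h3
    · rintro ⟨hF, hF2⟩
      obtain ⟨u, hu, rfl⟩ : F ∈ (classes C n).map
          (col k ι n : ((Fin n → ι) → k) →ₗ[k] Mor k ι 0 n) := by rw [h1]; exact hF
      refine ⟨u, ⟨hu, fun G hG => ?_⟩, rfl⟩
      ext x
      rw [Subsingleton.elim x default, ← key G u]
      exact hF2 G hG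
  have h3 := prk_add_finrank (C 0 n) (C n 0)
  have h4 : Module.finrank k (C 0 n) = Module.finrank k (classes C n) := by
    rw [← h1]; exact LinearEquiv.finrank_map_eq (col k ι n) _
  have h5 : Module.finrank k (C 0 n ⊓ rad (C n 0) : Submodule k (Mor k ι 0 n)) =
      Module.finrank k (numTriv C n) := by
    rw [← h2]; exact LinearEquiv.finrank_map_eq (col k ι n) _
  rw [h4, h5] at h3
  unfold numRank
  omega

lemma rank_eq_finrank_range {n : ℕ} (t : Mor k ι n n) :
    t.rank = Module.finrank k (LinearMap.range (toLin' t)) := rfl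

theorem exists_idem (hC : IsCorrFamily B C) (hU : IsStable C U)
    (r : ℕ) (h : numRank C r < Module.finrank k (U r)) :
    ∃ t ∈ C r r, t * t = t ∧ 1 ≤ t.rank ∧
      ∀ n, numRank C n + prk (sand 1 (C r n) t) (C n r) ≤ Module.finrank k (U n) := by
  have hnum : ∀ n, HalfFive.rkT (W := fun n => (Fin n → ι) → k) (linC C) 0 n LinearMap.id =
      numRank C n := by
    intro n
    rw [numRank_eq_prk hC, ← toLin'_one, rkT_eq_prk]
    congr 1
    ext F
    constructor
    · rintro ⟨G, hG, rfl⟩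
      simpa [lr] using hG
    · intro hF
      exact ⟨F, hF, by simp [lr]⟩
  rw [← hnum] at h
  obtain ⟨t, ht, htt, ht0, -, -, hall⟩ := HalfFive.half_five (W := fun n => (Fin n → ι) → k)
    (linC C) (linC_comp hC) (linC_id hC) finrank_zero U (U_zero hU) (U_stable hU) r h
  refine ⟨LinearMap.toMatrix' t, ht, ?_, ?_, ?_⟩
  · rw [← LinearMap.toMatrix'_comp, htt]
  · rw [rank_eq_finrank_range, toLin'_toMatrix', Nat.one_le_iff_ne_zero]
    intro h0
    apply ht0
    rw [Submodule.finrank_eq_zero, LinearMap.range_eq_bot] at h0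
    exact h0
  · intro n
    have := hall n
    rw [hnum, ← toLin'_toMatrix' t, rkT_eq_prk] at this
    exact this

omit [DecidableEq ι] in
lemma classes_le (hU : IsStable C U) (n : ℕ) : classes C n ≤ U n := by
  intro u hu
  have h1 := hU.map_mem 0 n _ _ hu hU.unit_mem
  have h2 : (fun x _ => u x : Mor k ι 0 n) *ᵥ (fun _ => 1) = u := by
    ext x
    simp [mulVec, dotProduct]
  rwa [h2] at h1

/-- If there is no failure, the classes are everything and the pairing is perfect. -/
theorem no_fail (_hC : IsCorrFamily B C) (hU : IsStable C U) (n : ℕ)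
    (h : ¬ numRank C n < Module.finrank k (U n)) :
    classes C n = U n ∧ numTriv C n = ⊥ := by
  have h1 := classes_le hU n
  have h2 := Submodule.finrank_mono h1
  have h3 : Module.finrank k (numTriv C n) ≤ Module.finrank k (classes C n) :=
    Submodule.finrank_mono fun u hu => hu.1
  unfold numRank at h
  constructor
  · exact Submodule.eq_of_le_of_finrank_le h1 (by omega)
  · rw [← Submodule.finrank_eq_zero (R := k)]
    omega

omit [Fintype ι] in
lemma tens_one_right (r : ℕ) (e' : Mor k ι 1 0) (x : Fin r → ι) (y1 : Fin r → ι)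
    (y2 : Fin 1 → ι) :
    (tens (1 : Mor k ι r r) e' : Mor k ι (r + 1) r) x (Fin.appendEquiv r 1 (y1, y2)) =
      (1 : Mor k ι r r) x y1 * e' default y2 := by
  have h1 : (fun i => (Fin.appendEquiv r 1 (y1, y2)) (Fin.castAdd 1 i)) = y1 := by
    funext i
    simp [Fin.appendEquiv]
  have h2 : (fun i => (Fin.appendEquiv r 1 (y1, y2)) (Fin.natAdd r i)) = y2 := by
    funext i
    simp [Fin.appendEquiv]
  unfold tens
  rw [h1, h2]
  congr 1
  congr 1
  exact Subsingleton.elim _ _

omit [Fintype ι] in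
lemma tens_one_left (r : ℕ) (e : Mor k ι 0 1) (z : Fin r → ι) (y1 : Fin r → ι)
    (y2 : Fin 1 → ι) :
    (tens (1 : Mor k ι r r) e : Mor k ι r (r + 1)) (Fin.appendEquiv r 1 (y1, y2)) z =
      (1 : Mor k ι r r) y1 z * e y2 default := by
  have h1 : (fun i => (Fin.appendEquiv r 1 (y1, y2)) (Fin.castAdd 1 i)) = y1 := by
    funext i
    simp [Fin.appendEquiv]
  have h2 : (fun i => (Fin.appendEquiv r 1 (y1, y2)) (Fin.natAdd r i)) = y2 := by
    funext i
    simp [Fin.appendEquiv]
  unfold tens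
  rw [h1, h2]
  congr 1
  congr 1
  exact Subsingleton.elim _ _

lemma tens_one_mul (r : ℕ) (e : Mor k ι 0 1) (e' : Mor k ι 1 0) :
    ((tens (1 : Mor k ι r r) e' : Mor k ι (r + 1) r) *
      (tens (1 : Mor k ι r r) e : Mor k ι r (r + 1)) : Mor k ι r r) =
      (e' * e) default default • (1 : Mor k ι r r) := by
  refine Matrix.ext fun (x : Fin r → ι) (z : Fin r → ι) => ?_
  rw [Matrix.mul_apply, ← (Fin.appendEquiv r 1).sum_comp, Fintype.sum_prod_type]
  rw [Finset.sum_congr rfl fun y1 _ => Finset.sum_congr rfl fun y2 _ => by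
    rw [tens_one_right r e' x y1 y2, tens_one_left r e z y1 y2]]
  rw [Matrix.smul_apply, smul_eq_mul, Matrix.mul_apply, Finset.sum_eq_single x, Finset.sum_mul]
  · refine Finset.sum_congr rfl fun y2 _ => ?_
    rw [Matrix.one_apply_eq]; ring
  · intro y _ hy
    refine Finset.sum_eq_zero fun y2 _ => ?_
    rw [Matrix.one_apply_ne hy.symm]; ring
  · intro h; exact absurd (Finset.mem_univ x) h

/-- The failure can be moved one step up (the trivial summand). -/
theorem fail_succ (hC : IsCorrFamily B C) (hU : IsStable C U)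
    (r : ℕ) (h : numRank C r < Module.finrank k (U r)) :
    numRank C (r + 1) < Module.finrank k (U (r + 1)) := by
  by_contra hcon
  obtain ⟨h1, h2⟩ := no_fail hC hU (r + 1) hcon
  obtain ⟨e, he, e', he', hee⟩ := hC.unit_mem
  have hi : tens (1 : Mor k ι r r) e ∈ C r (r + 1) := hC.tens_mem r r 0 1 _ _ (one_mem_C hC r) he
  have hr : tens (1 : Mor k ι r r) e' ∈ C (r + 1) r := hC.tens_mem r r 1 0 _ _ (one_mem_C hC r) he'
  set a : Mor k ι r (r + 1) := tens (1 : Mor k ι r r) e with ha
  set b : Mor k ι (r + 1) r := tens (1 : Mor k ι r r) e' with hb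
  obtain ⟨c, hc, hba⟩ : ∃ c : k, c ≠ 0 ∧ b * a = c • (1 : Mor k ι r r) := by
    refine ⟨(e' * e) default default, ?_, ?_⟩
    · intro h0
      apply hee
      ext x y
      rw [Subsingleton.elim x default, Subsingleton.elim y default, h0]
      rfl
    · exact tens_one_mul r e e'
  apply absurd h
  rw [not_lt]
  have hcl : classes C r = U r := by
    refine le_antisymm (classes_le hU r) fun u hu => ?_
    have h3 : a *ᵥ u ∈ classes C (r + 1) := by rw [h1]; exact hU.map_mem _ _ _ _ hi hu
    have h4 : b *ᵥ (a *ᵥ u) = c • u := by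
      rw [mulVec_mulVec, hba, smul_mulVec, one_mulVec]
    have h5 : c • u ∈ classes C r := by
      rw [← h4]
      exact hC.comp_mem 0 (r + 1) r b _ hr h3
    have h6 := (classes C r).smul_mem c⁻¹ h5
    rwa [smul_smul, inv_mul_cancel₀ hc, one_smul] at h6
  have htriv : numTriv C r = ⊥ := by
    rw [eq_bot_iff]
    intro u hu
    have h3 : a *ᵥ u ∈ numTriv C (r + 1) := by
      refine ⟨hC.comp_mem 0 r (r + 1) a _ hi hu.1, fun g hg => ?_⟩
      rw [mulVec_mulVec]
      exact hu.2 _ (hC.comp_mem r (r + 1) 0 g a hg hi)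
    rw [h2, Submodule.mem_bot] at h3
    have h4 : b *ᵥ (a *ᵥ u) = c • u := by
      rw [mulVec_mulVec, hba, smul_mulVec, one_mulVec]
    rw [h3, mulVec_zero] at h4
    rw [Submodule.mem_bot]
    exact (smul_eq_zero.mp h4.symm).resolve_left hc
  unfold numRank
  rw [hcl, htriv, finrank_bot, tsub_zero]

end MP021685Z
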