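import Pool.Agent.Lib.MP_021685_agZ.Defs

set_option autoImplicit false

namespace MP021685Z

open Matrix Module

/-! ### the rank does not change under an extension of fields -/

theorem Growth_rank_map {K L : Type*} [Field K] [Field L] {n : Type*} [Fintype n] [DecidableEq n] (φ : K →+* L)
    (A : Matrix n n K) : (A.map φ).rank = A.rank := by
  classical
  obtain ⟨l, l', D, h⟩ := Matrix.Pivot.exists_list_transvec_mul_diagonal_mul_list_transvec A
  set P := (l.map TransvectionStruct.toMatrix).prod with hP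
  set Q := (l'.map TransvectionStruct.toMatrix).prod with hQ
  have hPd : P.det = 1 := TransvectionStruct.det_toMatrix_prod l
  have hQd : Q.det = 1 := TransvectionStruct.det_toMatrix_prod l'
  have h1 : A.map φ = P.map φ * diagonal (fun i => φ (D i)) * Q.map φ := by
    rw [h, Matrix.map_mul, Matrix.map_mul]
    congr 2
    rw [Matrix.diagonal_map (map_zero φ)]
  have hP1 : IsUnit (P.map φ).det := by
    have : (P.map φ).det = φ P.det := (RingHom.map_det φ P).symm
    rw [this, hPd, map_one]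
    exact isUnit_one
  have hQ1 : IsUnit (Q.map φ).det := by
    have : (Q.map φ).det = φ Q.det := (RingHom.map_det φ Q).symm
    rw [this, hQd, map_one]
    exact isUnit_one
  rw [h1, Matrix.rank_mul_eq_left_of_isUnit_det _ _ hQ1, Matrix.rank_mul_eq_right_of_isUnit_det _ _ hP1, h,
    Matrix.rank_mul_eq_left_of_isUnit_det _ _ (by rw [hQd]; exact isUnit_one),
    Matrix.rank_mul_eq_right_of_isUnit_det _ _ (by rw [hPd]; exact isUnit_one), Matrix.rank_diagonal, Matrix.rank_diagonal]
  refine Fintype.card_congr (Equiv.subtypeEquivRight fun i => ?_)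
  rw [ne_eq, ne_eq, map_eq_zero]

/-! ### `(tr A)² ≤ rank A · tr A²` for real symmetric matrices -/

theorem Growth_trace_sq {n : Type*} [Fintype n] [DecidableEq n] (A : Matrix n n ℝ) (hA : A.IsHermitian) :
    A.trace ^ 2 ≤ A.rank * (A * A).trace := by
  have h1 : A.trace = ∑ i, hA.eigenvalues i := by
    have := hA.trace_eq_sum_eigenvalues
    simpa using this
  have h2 : (A * A).trace = ∑ i, hA.eigenvalues i ^ 2 := by
    have h3 := hA.spectral_theorem
    set U := hA.eigenvectorUnitary with hU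
    set D : Matrix n n ℝ := diagonal (RCLike.ofReal ∘ hA.eigenvalues) with hD
    have h4 : A * A = Unitary.conjStarAlgAut ℝ _ U (D * D) := by
      rw [map_mul, ← h3]
    have h5 : ∀ X : Matrix n n ℝ, (Unitary.conjStarAlgAut ℝ _ U X).trace = X.trace := by
      intro X
      rw [Unitary.conjStarAlgAut_apply, Matrix.trace_mul_cycle, Unitary.coe_star_mul_self, Matrix.one_mul]
    rw [h4, h5, hD, Matrix.diagonal_mul_diagonal, Matrix.trace_diagonal]
    refine Finset.sum_congr rfl fun i _ => ?_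
    simp [sq]
  rw [h1, h2, hA.rank_eq_card_non_zero_eigs]
  classical
  have h6 : ∑ i, hA.eigenvalues i = ∑ i ∈ Finset.univ.filter (fun i => hA.eigenvalues i ≠ 0), hA.eigenvalues i := by
    rw [Finset.sum_filter_ne_zero]
  have h7 : ∑ i ∈ Finset.univ.filter (fun i => hA.eigenvalues i ≠ 0), hA.eigenvalues i ^ 2 ≤ ∑ i, hA.eigenvalues i ^ 2 :=
    Finset.sum_le_univ_sum_of_nonneg fun i => sq_nonneg _
  have h8 : (Fintype.card {i // hA.eigenvalues i ≠ 0} : ℝ) = ((Finset.univ.filter (fun i => hA.eigenvalues i ≠ 0)).card : ℝ) := by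
    rw [Fintype.card_subtype]
  rw [h6, h8]
  exact sq_sum_le_card_mul_sum_sq.trans (mul_le_mul_of_nonneg_left h7 (Nat.cast_nonneg _))

/-! ### the orbits of the permutations on the words -/

section orbits

variable {γ : Type*} [Fintype γ] [DecidableEq γ] {m : ℕ}

/-- the number of words fixed by `σ`. -/
def Growth_fix (γ : Type*) [Fintype γ] [DecidableEq γ] {m : ℕ} (σ : Equiv.Perm (Fin m)) : ℕ :=
  (Finset.univ.filter fun x : Fin m → γ => x = x ∘ σ).card

theorem Growth_burnside (γ : Type*) [Fintype γ] [DecidableEq γ] (m : ℕ) :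
    ∑ σ : Equiv.Perm (Fin m), Growth_fix γ σ ≤ (m + 1) ^ Fintype.card γ * m.factorial := by
  classical
  let _ : MulAction (Equiv.Perm (Fin m)) (Fin m → γ) := arrowAction
  have h1 := MulAction.sum_card_fixedBy_eq_card_orbits_mul_card_group (Equiv.Perm (Fin m)) (Fin m → γ)
  rw [Fintype.card_perm, Fintype.card_fin] at h1
  have h2 : ∑ σ : Equiv.Perm (Fin m), Growth_fix γ σ =
      ∑ σ : Equiv.Perm (Fin m), Fintype.card (MulAction.fixedBy (Fin m → γ) σ) := by
    refine (Equiv.sum_comp (Equiv.inv (Equiv.Perm (Fin m))) _).symm.trans ?_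
    refine Finset.sum_congr rfl fun σ _ => ?_
    unfold Growth_fix
    rw [← Fintype.card_coe]
    refine Fintype.card_congr (Equiv.subtypeEquivRight fun x => ?_)
    rw [Finset.mem_filter]
    constructor
    · rintro ⟨_, h⟩
      exact h.symm
    · intro h
      exact ⟨Finset.mem_univ _, Eq.symm h⟩
  rw [h2, h1]
  refine Nat.mul_le_mul_right _ ?_
  have h3 : Fintype.card (γ → Fin (m + 1)) = (m + 1) ^ Fintype.card γ := by
    rw [Fintype.card_fun, Fintype.card_fin]
  rw [← h3]
  -- the count function of a word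
  let c : (Fin m → γ) → γ → Fin (m + 1) := fun x g => ⟨(Finset.univ.filter fun i => x i = g).card,
    Nat.lt_succ_of_le ((Finset.card_le_univ _).trans (by rw [Fintype.card_fin]))⟩
  have hc : ∀ x y : Fin m → γ, (MulAction.orbitRel (Equiv.Perm (Fin m)) (Fin m → γ)) x y → c x = c y := by
    rintro x y ⟨σ, hσ⟩
    funext g
    refine Fin.ext ?_
    change (Finset.univ.filter fun i => x i = g).card = (Finset.univ.filter fun i => y i = g).card
    have hx : x = fun i => y (σ⁻¹ i) := hσ.symm
    rw [hx]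
    refine Finset.card_bij (fun i _ => σ⁻¹ i) ?_ ?_ ?_
    · intro i hi
      simpa using hi
    · intro i _ j _ h
      exact (σ⁻¹).injective h
    · intro i hi
      refine ⟨σ i, ?_, by simp⟩
      simpa using hi
  refine Fintype.card_le_of_injective (Quotient.lift c hc) ?_
  intro p q
  refine Quotient.inductionOn₂ p q fun x y hxy => ?_
  refine Quotient.sound ?_
  have hxy' : c x = c y := hxy
  have h4 : ∀ g : γ, Nonempty ({i // x i = g} ≃ {i // y i = g}) := by
    intro g
    have h5 : (Finset.univ.filter fun i => x i = g).card = (Finset.univ.filter fun i => y i = g).card :=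
      congrArg Fin.val (congrFun hxy' g)
    refine ⟨Fintype.equivOfCardEq ?_⟩
    rw [Fintype.card_subtype, Fintype.card_subtype, h5]
  let e : ∀ g : γ, {i // x i = g} ≃ {i // y i = g} := fun g => Classical.choice (h4 g)
  have h6 : ∀ i, y (Equiv.ofFiberEquiv (fun g => e g) i) = x i := fun i => Equiv.ofFiberEquiv_map _ i
  refine ⟨(Equiv.ofFiberEquiv (fun g => e g))⁻¹, ?_⟩
  funext i
  change y (((Equiv.ofFiberEquiv (fun g => e g))⁻¹)⁻¹ i) = x i
  rw [inv_inv]
  exact h6 i

end orbits

/-! ### the Gram matrix of the permutations -/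

variable {k : Type*} [Field k] {ι : Type} [Fintype ι] [DecidableEq ι]

theorem Growth_trace_perm (k : Type*) [Field k] (ι : Type) [Fintype ι] [DecidableEq ι] {m : ℕ} (s t : Equiv.Perm (Fin m)) :
    Matrix.trace (permMor k ι s * permMor k ι t⁻¹) = (Growth_fix ι (s * t⁻¹) : k) := by
  unfold Growth_fix
  rw [Matrix.trace, Finset.card_filter, Nat.cast_sum]
  refine Finset.sum_congr rfl fun x _ => ?_
  rw [Matrix.diag_apply, Matrix.mul_apply, Finset.sum_eq_single (x ∘ s)]
  · unfold permMor
    rw [if_pos rfl, one_mul]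
    have : (x ∘ s) ∘ (t⁻¹ : Equiv.Perm (Fin m)) = x ∘ (s * t⁻¹ : Equiv.Perm (Fin m)) := rfl
    rw [this]
    push_cast
    rfl
  · intro y _ hy
    unfold permMor
    rw [if_neg hy, zero_mul]
  · intro h
    exact absurd (Finset.mem_univ _) h

theorem Growth_fix_inv (γ : Type*) [Fintype γ] [DecidableEq γ] {m : ℕ} (σ : Equiv.Perm (Fin m)) :
    Growth_fix γ σ⁻¹ = Growth_fix γ σ := by
  unfold Growth_fix
  congr 1
  refine Finset.filter_congr fun x _ => ?_
  constructor
  · intro h
    have h1 : x ∘ σ = (x ∘ (σ⁻¹ : Equiv.Perm (Fin m))) ∘ σ := by rw [← h]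
    rw [h1]
    funext i
    simp
  · intro h
    have h1 : x ∘ (σ⁻¹ : Equiv.Perm (Fin m)) = (x ∘ σ) ∘ (σ⁻¹ : Equiv.Perm (Fin m)) := by rw [← h]
    rw [h1]
    funext i
    simp

theorem Growth_fix_sq (γ : Type*) [Fintype γ] [DecidableEq γ] {m : ℕ} (σ : Equiv.Perm (Fin m)) :
    Growth_fix γ σ ^ 2 = Growth_fix (γ × γ) σ := by
  unfold Growth_fix
  rw [sq, ← Finset.card_product]
  refine Finset.card_bij (fun p _ i => (p.1 i, p.2 i)) ?_ ?_ ?_
  · rintro ⟨x, y⟩ h
    rw [Finset.mem_product, Finset.mem_filter, Finset.mem_filter] at h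
    rw [Finset.mem_filter]
    refine ⟨Finset.mem_univ _, funext fun i => Prod.ext ?_ ?_⟩
    · exact congrFun h.1.2 i
    · exact congrFun h.2.2 i
  · rintro ⟨x, y⟩ _ ⟨x', y'⟩ _ h
    refine Prod.ext (funext fun i => ?_) (funext fun i => ?_)
    · exact congrArg Prod.fst (congrFun h i)
    · exact congrArg Prod.snd (congrFun h i)
  · intro w hw
    rw [Finset.mem_filter] at hw
    refine ⟨(fun i => (w i).1, fun i => (w i).2), ?_, rfl⟩
    rw [Finset.mem_product, Finset.mem_filter, Finset.mem_filter]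
    refine ⟨⟨Finset.mem_univ _, funext fun i => ?_⟩, ⟨Finset.mem_univ _, funext fun i => ?_⟩⟩
    · exact congrArg Prod.fst (congrFun hw.2 i)
    · exact congrArg Prod.snd (congrFun hw.2 i)

theorem Growth_fix_one (γ : Type*) [Fintype γ] [DecidableEq γ] (m : ℕ) :
    Growth_fix γ (1 : Equiv.Perm (Fin m)) = Fintype.card γ ^ m := by
  unfold Growth_fix
  have : (Finset.univ.filter fun x : Fin m → γ => x = x ∘ (1 : Equiv.Perm (Fin m))) = Finset.univ := by
    refine Finset.filter_true_of_mem fun x _ => ?_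
    rfl
  rw [this, Finset.card_univ, Fintype.card_fun, Fintype.card_fin]

/-- **Growth.** The Gram matrix of the permutations of the factors of `V^{⊗m}` has rank at least
`N^(2m) / (m+1)^(N²)`. -/
theorem gram_rank (k : Type*) [Field k] [CharZero k] (ι : Type) [Fintype ι] [DecidableEq ι] (m : ℕ) :
    (Fintype.card ι) ^ (2 * m) ≤
      (Matrix.of (fun s t : Equiv.Perm (Fin m) => Matrix.trace (permMor k ι s * permMor k ι t⁻¹))).rank *
        (m + 1) ^ ((Fintype.card ι) ^ 2) := by
  classical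
  -- the rational matrix
  let G : Matrix (Equiv.Perm (Fin m)) (Equiv.Perm (Fin m)) ℚ := fun s t => (Growth_fix ι (s * t⁻¹) : ℚ)
  have hk : (Matrix.of (fun s t : Equiv.Perm (Fin m) => Matrix.trace (permMor k ι s * permMor k ι t⁻¹))) =
      G.map (algebraMap ℚ k) := by
    ext s t
    rw [Matrix.of_apply, Growth_trace_perm, Matrix.map_apply]
    simp [G]
  rw [hk, Growth_rank_map, ← Growth_rank_map (algebraMap ℚ ℝ) G]
  set A : Matrix (Equiv.Perm (Fin m)) (Equiv.Perm (Fin m)) ℝ := G.map (algebraMap ℚ ℝ) with hAd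
  have hA : ∀ s t, A s t = (Growth_fix ι (s * t⁻¹) : ℝ) := by
    intro s t
    rw [hAd, Matrix.map_apply]
    simp [G]
  have hAh : A.IsHermitian := by
    ext s t
    rw [Matrix.conjTranspose_apply, hA, hA]
    have : t * s⁻¹ = (s * t⁻¹)⁻¹ := by group
    rw [this, Growth_fix_inv]
    simp
  have h1 := Growth_trace_sq A hAh
  have h2 : A.trace = (m.factorial : ℝ) * (Fintype.card ι : ℝ) ^ m := by
    rw [Matrix.trace]
    have : ∀ s : Equiv.Perm (Fin m), A.diag s = (Fintype.card ι : ℝ) ^ m := by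
      intro s
      rw [Matrix.diag_apply, hA, mul_inv_cancel, Growth_fix_one]
      push_cast
      rfl
    rw [Finset.sum_congr rfl fun s _ => this s, Finset.sum_const, Finset.card_univ, Fintype.card_perm, Fintype.card_fin,
      nsmul_eq_mul]
  have h3 : (A * A).trace ≤ (m.factorial : ℝ) * (((m : ℝ) + 1) ^ (Fintype.card ι ^ 2) * (m.factorial : ℝ)) := by
    have h4 : ∀ s : Equiv.Perm (Fin m), (A * A).diag s = ∑ σ : Equiv.Perm (Fin m), ((Growth_fix (ι × ι) σ : ℕ) : ℝ) := by
      intro s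
      rw [Matrix.diag_apply, Matrix.mul_apply]
      refine Fintype.sum_equiv ((Equiv.inv (Equiv.Perm (Fin m))).trans (Equiv.mulLeft s)) _ _ fun t => ?_
      rw [hA, hA]
      have h5 : t * s⁻¹ = (s * t⁻¹)⁻¹ := by group
      rw [h5, Growth_fix_inv, ← Nat.cast_mul, ← sq, Growth_fix_sq]
      rfl
    rw [Matrix.trace, Finset.sum_congr rfl fun s _ => h4 s, Finset.sum_const, Finset.card_univ, Fintype.card_perm,
      Fintype.card_fin, nsmul_eq_mul]
    refine mul_le_mul_of_nonneg_left ?_ (Nat.cast_nonneg _)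
    have h6 := Growth_burnside (ι × ι) m
    have h7 : Fintype.card (ι × ι) = Fintype.card ι ^ 2 := by
      rw [Fintype.card_prod, sq]
    rw [h7] at h6
    have h8 : ((∑ σ : Equiv.Perm (Fin m), Growth_fix (ι × ι) σ : ℕ) : ℝ) ≤
        (((m + 1) ^ (Fintype.card ι ^ 2) * m.factorial : ℕ) : ℝ) := by exact_mod_cast h6
    push_cast at h8
    exact h8
  have hf : (0 : ℝ) < (m.factorial : ℝ) := by exact_mod_cast m.factorial_pos
  have h9 : ((m.factorial : ℝ) * (Fintype.card ι : ℝ) ^ m) ^ 2 ≤
      (A.rank : ℝ) * ((m.factorial : ℝ) * (((m : ℝ) + 1) ^ (Fintype.card ι ^ 2) * (m.factorial : ℝ))) := by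
    rw [← h2]
    exact h1.trans (mul_le_mul_of_nonneg_left h3 (Nat.cast_nonneg _))
  have h10 : (Fintype.card ι : ℝ) ^ (2 * m) ≤ (A.rank : ℝ) * ((m : ℝ) + 1) ^ (Fintype.card ι ^ 2) := by
    have h11 : (m.factorial : ℝ) ^ 2 * (Fintype.card ι : ℝ) ^ (2 * m) ≤
        (m.factorial : ℝ) ^ 2 * ((A.rank : ℝ) * ((m : ℝ) + 1) ^ (Fintype.card ι ^ 2)) := by
      calc (m.factorial : ℝ) ^ 2 * (Fintype.card ι : ℝ) ^ (2 * m) = ((m.factorial : ℝ) * (Fintype.card ι : ℝ) ^ m) ^ 2 := by
            rw [mul_pow, ← pow_mul, mul_comm m 2]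
        _ ≤ _ := h9
        _ = _ := by ring
    exact le_of_mul_le_mul_left h11 (by positivity)
  exact_mod_cast h10

end MP021685Z
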