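import Pool.Agent.Lib.MP_021685_agZ.PrkRot
import Pool.Agent.Lib.MP_021685_agZ.Growth

/-!
# From `prk` to `numRank`
-/

set_option autoImplicit false

namespace MP021685Z

open Matrix

section basic

variable {k : Type*} [Field k]

theorem Bridge_sand_one {a b : Type*} [Fintype a] [Fintype b] [DecidableEq a] [DecidableEq b]
    (P : Submodule k (Matrix b a k)) : sand 1 P 1 = P := by
  have h : lr (1 : Matrix b b k) (1 : Matrix a a k) = LinearMap.id := by
    refine LinearMap.ext fun F => ?_
    change (1 : Matrix b b k) * F * (1 : Matrix a a k) = F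
    rw [Matrix.one_mul, Matrix.mul_one]
  rw [sand, h, Submodule.map_id]

end basic

variable {k : Type*} [Field k] {ι : Type} [Fintype ι] [DecidableEq ι]

variable {B : Matrix ι ι k} {C : ∀ m n : ℕ, Submodule k (Mor k ι m n)}

/-- a tensor as a morphism `0 → n`. -/
def Bridge_eq (k : Type*) [Field k] (ι : Type) (n : ℕ) : ((Fin n → ι) → k) ≃ₗ[k] Mor k ι 0 n where
  toFun u := fun x _ => u x
  invFun F := fun x => F x (fun i => i.elim0)
  map_add' u v := rfl
  map_smul' c u := rfl
  left_inv u := rfl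
  right_inv F := by
    funext x y
    have : y = fun i => i.elim0 := funext fun i => i.elim0
    rw [this]

theorem Bridge_trace {n : ℕ} (g : Mor k ι n 0) (u : (Fin n → ι) → k) :
    trace (g * (Bridge_eq k ι n u)) = 0 ↔ g *ᵥ u = 0 := by
  have h : ∀ z : Fin 0 → ι, z = fun i => i.elim0 := fun z => funext fun i => i.elim0
  have h1 : trace (g * (Bridge_eq k ι n u)) = (g *ᵥ u) (fun i => i.elim0) := by
    rw [trace, Fintype.sum_eq_single (fun i => i.elim0)]
    · rfl
    · intro z hz
      exact absurd (h z) hz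
  rw [h1]
  constructor
  · intro h2
    funext z
    rw [h z, h2]
    rfl
  · intro h2
    rw [h2]
    rfl

/-- The numerical rank as the rank of the trace pairing. -/
theorem numRank_eq (n : ℕ) : numRank C n = prk (C 0 n) (C n 0) := by
  have h1 : Module.finrank k (classes C n) = Module.finrank k (C 0 n) := by
    have : (classes C n).map (Bridge_eq k ι n : ((Fin n → ι) → k) →ₗ[k] Mor k ι 0 n) = C 0 n := by
      ext F
      constructor
      · rintro ⟨u, hu, rfl⟩
        exact hu
      · intro hF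
        refine ⟨(Bridge_eq k ι n).symm F, ?_, (Bridge_eq k ι n).apply_symm_apply F⟩
        change (Bridge_eq k ι n) ((Bridge_eq k ι n).symm F) ∈ C 0 n
        rw [LinearEquiv.apply_symm_apply]
        exact hF
    rw [← this, LinearEquiv.finrank_map_eq]
  have h2 : Module.finrank k (numTriv C n) = Module.finrank k (C 0 n ⊓ rad (C n 0) : Submodule k (Mor k ι 0 n)) := by
    have : (numTriv C n).map (Bridge_eq k ι n : ((Fin n → ι) → k) →ₗ[k] Mor k ι 0 n) = C 0 n ⊓ rad (C n 0) := by
      ext F
      constructor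
      · rintro ⟨u, hu, rfl⟩
        refine ⟨hu.1, fun g hg => ?_⟩
        exact (Bridge_trace g u).2 (hu.2 g hg)
      · intro hF
        refine ⟨(Bridge_eq k ι n).symm F, ⟨?_, fun g hg => ?_⟩, (Bridge_eq k ι n).apply_symm_apply F⟩
        · change (Bridge_eq k ι n) ((Bridge_eq k ι n).symm F) ∈ C 0 n
          rw [LinearEquiv.apply_symm_apply]
          exact hF.1
        · rw [← Bridge_trace, LinearEquiv.apply_symm_apply]
          exact hF.2 g hg
    rw [← this, LinearEquiv.finrank_map_eq]
  have h3 := prk_add_finrank (C 0 n) (C n 0)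
  unfold numRank
  rw [h1, h2]
  exact Nat.sub_eq_of_eq_add h3.symm

theorem Bridge_tsum_one {I I' : Type} [Fintype I] [Fintype I'] [DecidableEq I] [DecidableEq I'] :
    tsum (1 : Matrix (I → ι) (I → ι) k) (1 : Matrix (I' → ι) (I' → ι) k) = 1 := by
  funext x y
  unfold tsum
  rw [Matrix.one_apply, Matrix.one_apply, Matrix.one_apply]
  by_cases h : x = y
  · rw [if_pos h, h, if_pos rfl, if_pos rfl, one_mul]
  · rw [if_neg h]
    by_cases h1 : x ∘ Sum.inl = y ∘ Sum.inl
    · have h2 : ¬ x ∘ Sum.inr = y ∘ Sum.inr := by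
        intro h2
        apply h
        funext i
        rcases i with i | i
        · exact congrFun h1 i
        · exact congrFun h2 i
      rw [if_neg h2, mul_zero]
    · rw [if_neg h1, zero_mul]

theorem Bridge_rei_one {I I' : Type} [Fintype I] [Fintype I'] [DecidableEq I] [DecidableEq I'] (e : I' ≃ I) :
    rei e e (1 : Matrix (I → ι) (I → ι) k) = 1 := by
  funext x y
  unfold rei
  rw [Matrix.one_apply, Matrix.one_apply]
  by_cases h : x = y
  · rw [if_pos h, h, if_pos rfl]
  · rw [if_neg h, if_neg]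
    intro h2
    apply h
    funext i
    have := congrFun h2 (e i)
    simpa using this

/-- Relabelling, without idempotents. -/
theorem Bridge_prk_rei {I J I' J' : Type} [Fintype I] [Fintype J] [Fintype I'] [Fintype J']
    [DecidableEq I] [DecidableEq J] [DecidableEq I'] [DecidableEq J'] (e : I' ≃ I) (e' : J' ≃ J) :
    prk (Hom C I' J') (Hom C J' I') = prk (Hom C I J) (Hom C J I) := by
  have h := prk_rei (C := C) e e' (1 : Matrix (J → ι) (J → ι) k) (1 : Matrix (I → ι) (I → ι) k)
  rw [Bridge_rei_one, Bridge_rei_one, Bridge_sand_one, Bridge_sand_one] at h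
  exact h

theorem Bridge_tr {R : Type} [Fintype R] [DecidableEq R] (r s : R → ι) :
    ∑ p : R → ι, (∏ i, B (r i) (p i)) * (1 : Matrix (R → ι) (R → ι) k) p s =
      ∑ p : R → ι, (1 : Matrix (R → ι) (R → ι) k) p r * ∏ i, B (p i) (s i) := by
  rw [Finset.sum_eq_single s, Finset.sum_eq_single r]
  · rw [Matrix.one_apply, Matrix.one_apply, if_pos rfl, if_pos rfl, mul_one, one_mul]
  · intro p _ hp
    rw [Matrix.one_apply, if_neg hp, zero_mul]
  · intro h
    exact absurd (Finset.mem_univ _) h
  · intro p _ hp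
    rw [Matrix.one_apply, if_neg hp, mul_zero]
  · intro h
    exact absurd (Finset.mem_univ _) h

/-- Ranks depend only on the number of slots. -/
theorem prk_hom_eq (hC : IsCorrFamily B C) (I J : Type) [Fintype I] [Fintype J]
    [DecidableEq I] [DecidableEq J] :
    prk (Hom C I J) (Hom C J I) = numRank C (Fintype.card I + Fintype.card J) := by
  classical
  have h1 := prk_rot hC (R := I) (I := Empty) (J := J) (1 : Matrix (J → ι) (J → ι) k)
    (1 : Matrix (Empty → ι) (Empty → ι) k) (1 : Matrix (I → ι) (I → ι) k) (1 : Matrix (I → ι) (I → ι) k)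
    (fun r s => Bridge_tr r s)
  rw [Bridge_tsum_one, Bridge_tsum_one, Bridge_sand_one, Bridge_sand_one] at h1
  have h2 : prk (Hom C (I ⊕ Empty) J) (Hom C J (I ⊕ Empty)) = prk (Hom C I J) (Hom C J I) :=
    Bridge_prk_rei (Equiv.sumEmpty I Empty) (Equiv.refl J)
  have e0 : Fin 0 ≃ Empty := Equiv.equivOfIsEmpty _ _
  have e1 : Fin (Fintype.card I + Fintype.card J) ≃ I ⊕ J :=
    finSumFinEquiv.symm.trans (Equiv.sumCongr (Fintype.equivFin I).symm (Fintype.equivFin J).symm)
  have h3 := Bridge_prk_rei (C := C) e0 e1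
  rw [Hom_fin hC, Hom_fin hC] at h3
  rw [numRank_eq, h3, h1, h2]

/-- The rank pairing with `V^{⊗(I ⊕ M)}` through rotation. -/
theorem prk_out_eq (hC : IsCorrFamily B C) (R I M : Type) [Fintype R] [Fintype I] [Fintype M]
    [DecidableEq R] [DecidableEq I] [DecidableEq M] (t : Matrix (R → ι) (R → ι) k) :
    prk (sand 1 (Hom C R (I ⊕ M)) t) (Hom C (I ⊕ M) R) =
      prk (sand 1 (Hom C (R ⊕ I) M) (tsum t 1)) (Hom C M (R ⊕ I)) := by
  have h1 := prk_rot hC (R := I) (I := R) (J := M) (1 : Matrix (M → ι) (M → ι) k) t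
    (1 : Matrix (I → ι) (I → ι) k) (1 : Matrix (I → ι) (I → ι) k) (fun r s => Bridge_tr r s)
  rw [Bridge_tsum_one] at h1
  rw [h1]
  have h2 := prk_rei (C := C) (Equiv.sumComm R I) (Equiv.refl M) (1 : Matrix (M → ι) (M → ι) k)
    (tsum (1 : Matrix (I → ι) (I → ι) k) t)
  rw [Bridge_rei_one] at h2
  have h3 : rei (Equiv.sumComm R I) (Equiv.sumComm R I) (tsum (1 : Matrix (I → ι) (I → ι) k) t) = tsum t 1 := by
    funext x y
    unfold rei tsum
    rw [mul_comm]
    rfl
  rw [h3] at h2
  exact h2.symm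

theorem Bridge_gram (m : ℕ) (hC : IsCorrFamily B C) :
    (Matrix.of (fun s t : Equiv.Perm (Fin m) => trace (permMor k ι s * permMor k ι t⁻¹))).rank ≤
      prk (C m m) (C m m) := by
  classical
  set G : Matrix (Equiv.Perm (Fin m)) (Equiv.Perm (Fin m)) k :=
    Matrix.of (fun s t : Equiv.Perm (Fin m) => trace (permMor k ι s * permMor k ι t⁻¹)) with hG
  -- the map to the quotient
  let T : (Equiv.Perm (Fin m) → k) →ₗ[k] Mor k ι m m :=
    { toFun := fun c => ∑ t, c t • permMor k ι t⁻¹
      map_add' := fun c d => by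
        rw [← Finset.sum_add_distrib]
        exact Finset.sum_congr rfl fun t _ => add_smul _ _ _
      map_smul' := fun r c => by
        rw [RingHom.id_apply, Finset.smul_sum]
        exact Finset.sum_congr rfl fun t _ => by rw [Pi.smul_apply, smul_eq_mul, mul_smul] }
  have hT : ∀ c, T c ∈ C m m := fun c =>
    Submodule.sum_mem _ fun t _ => Submodule.smul_mem _ _ (hC.perm_mem m _)
  let ψ : (Mor k ι m m ⧸ rad (C m m)) →ₗ[k] (Equiv.Perm (Fin m) → k) :=
    (rad (C m m)).liftQ
      { toFun := fun F s => trace (permMor k ι s * F)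
        map_add' := fun F F' => by
          funext s
          rw [Pi.add_apply, Matrix.mul_add, trace_add]
        map_smul' := fun c F => by
          funext s
          rw [RingHom.id_apply, Pi.smul_apply, Matrix.mul_smul, trace_smul] }
      (by
        intro F hF
        rw [LinearMap.mem_ker]
        funext s
        exact hF _ (hC.perm_mem m s))
  have hGT : ∀ c, G.mulVecLin c = ψ ((rad (C m m)).mkQ (T c)) := by
    intro c
    funext s
    change (G *ᵥ c) s = trace (permMor k ι s * ∑ t, c t • permMor k ι t⁻¹)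
    rw [Matrix.mul_sum, trace_sum]
    refine Finset.sum_congr rfl fun t _ => ?_
    rw [Matrix.mul_smul, trace_smul, smul_eq_mul, mul_comm]
    rfl
  have h1 : LinearMap.range G.mulVecLin = ((LinearMap.range T).map (rad (C m m)).mkQ).map ψ := by
    rw [← LinearMap.range_comp, ← LinearMap.range_comp]
    congr 1
    exact LinearMap.ext hGT
  have h2 : LinearMap.range T ≤ C m m := by
    rintro _ ⟨c, rfl⟩
    exact hT c
  rw [Matrix.rank, h1]
  refine (Submodule.finrank_map_le _ _).trans ?_
  exact Submodule.finrank_mono (Submodule.map_mono h2)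

theorem growth (hC : IsCorrFamily B C) [CharZero k] (m : ℕ) :
    (Fintype.card ι) ^ (2 * m) ≤
      numRank C (2 * m) * (m + 1) ^ ((Fintype.card ι) ^ 2) := by
  have h1 := gram_rank k ι m
  have h2 := Bridge_gram (k := k) (ι := ι) m hC
  have h3 := prk_hom_eq hC (Fin m) (Fin m)
  rw [Hom_fin hC, Fintype.card_fin, ← two_mul] at h3
  rw [← h3]
  exact h1.trans (Nat.mul_le_mul_right _ h2)

theorem Bridge_units (hC : IsCorrFamily B C) (n : ℕ) :
    ∃ a ∈ C 0 n, ∃ b ∈ C n 0, b * a ≠ 0 := by
  induction n with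
  | zero =>
    obtain ⟨e, he, e', he', h⟩ := hC.unit_mem
    have h1 : e' * e ∈ C 0 0 := hC.comp_mem 0 1 0 _ _ he' he
    refine ⟨e' * e, h1, permMor k ι (1 : Equiv.Perm (Fin 0)), hC.perm_mem 0 1, ?_⟩
    have h2 : permMor k ι (1 : Equiv.Perm (Fin 0)) = 1 := by
      funext x y
      unfold permMor
      have hxy : x = y := funext fun i => i.elim0
      rw [Matrix.one_apply, if_pos hxy, if_pos (funext fun i => i.elim0)]
    rw [h2, Matrix.one_mul]
    exact h
  | succ n ih =>
    obtain ⟨a, ha, b, hb, hab⟩ := ih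
    obtain ⟨e, he, e', he', h⟩ := hC.unit_mem
    refine ⟨tens a e, hC.tens_mem 0 n 0 1 a e ha he, tens b e', hC.tens_mem n 0 1 0 b e' hb he', ?_⟩
    have hz : ∀ z : Fin 0 → ι, z = fun i => i.elim0 := fun z => funext fun i => i.elim0
    intro h0
    have h1 : ∀ x y : Fin 0 → ι, (b * a) x y * (e' * e) x y = (tens b e' * tens a e) x y := by
      intro x y
      rw [Matrix.mul_apply, Matrix.mul_apply, Matrix.mul_apply, Finset.sum_mul_sum, ← Fintype.sum_prod_type']
      refine Fintype.sum_equiv (Fin.appendEquiv n 1) _ _ ?_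
      rintro ⟨u, v⟩
      unfold tens
      have e1 : (fun i => (Fin.appendEquiv n 1) (u, v) (Fin.castAdd 1 i)) = u := by
        funext i
        exact Fin.append_left u v i
      have e2 : (fun i => (Fin.appendEquiv n 1) (u, v) (Fin.natAdd n i)) = v := by
        funext i
        exact Fin.append_right u v i
      rw [e1, e2, hz (fun i => x (Fin.castAdd 0 i)), hz (fun i => x (Fin.natAdd 0 i)), hz (fun i => y (Fin.castAdd 0 i)),
        hz (fun i => y (Fin.natAdd 0 i)), hz x, hz y]
      ring
    have h2 : ∀ F : Mor k ι 0 0, F ≠ 0 → F (fun i => i.elim0) (fun i => i.elim0) ≠ 0 := by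
      intro F hF hF0
      apply hF
      funext x y
      rw [hz x, hz y, hF0]
      rfl
    have h3 := h1 (fun i => i.elim0) (fun i => i.elim0)
    rw [h0] at h3
    exact mul_ne_zero (h2 _ hab) (h2 _ h) h3

theorem numRank_pos (hC : IsCorrFamily B C) (n : ℕ) : 1 ≤ numRank C n := by
  obtain ⟨a, ha, b, hb, hab⟩ := Bridge_units hC n
  rw [numRank_eq]
  unfold prk
  rw [Nat.one_le_iff_ne_zero]
  intro h
  have h1 : (C 0 n).map (rad (C n 0)).mkQ = ⊥ := Submodule.finrank_eq_zero.1 h
  have h2 : (rad (C n 0)).mkQ a ∈ (C 0 n).map (rad (C n 0)).mkQ := ⟨a, ha, rfl⟩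
  rw [h1, Submodule.mem_bot, Submodule.mkQ_apply, Submodule.Quotient.mk_eq_zero] at h2
  have h3 := h2 b hb
  have hz : ∀ z : Fin 0 → ι, z = fun i => i.elim0 := fun z => funext fun i => i.elim0
  apply hab
  funext x y
  rw [trace, Fintype.sum_eq_single (fun i => i.elim0)] at h3
  · rw [hz x, hz y]
    exact h3
  · intro z hz'
    exact absurd (hz z) hz'

end MP021685Z
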