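import Pool.Agent.Lib.MP_021685_agZ.Two
import Pool.Agent.Lib.MP_021685_agZ.Bridge

/-!
# The asymptotic size of `h(t, V^n)`
-/

set_option autoImplicit false

namespace MP021685Z

open Matrix

section basic

variable {k : Type*} [Field k]

/-- Retracts. -/
theorem Asym_retract {a a' b : Type*} [Fintype a] [Fintype a'] [Fintype b]
    (P : Submodule k (Matrix b a k)) (Q : Submodule k (Matrix a b k))
    (P' : Submodule k (Matrix b a' k)) (Q' : Submodule k (Matrix a' b k))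
    (u : Matrix a a' k) (v : Matrix a' a k) (h1 : ∀ F ∈ P, F * u ∈ P') (h2 : ∀ G ∈ Q, v * G ∈ Q')
    (h3 : ∀ F ∈ P, F = F * u * v) : prk P Q ≤ prk P' Q' := by
  let f : P →ₗ[k] (Matrix b a k ⧸ rad Q) := (rad Q).mkQ.comp P.subtype
  let g : P →ₗ[k] (Matrix b a' k ⧸ rad Q') :=
    { toFun := fun F => (rad Q').mkQ ((F : Matrix b a k) * u)
      map_add' := fun F G => by
        rw [Submodule.coe_add, Matrix.add_mul, map_add]
      map_smul' := fun c F => by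
        rw [Submodule.coe_smul, Matrix.smul_mul, map_smul, RingHom.id_apply] }
  have hg : ∀ F : P, g F = (rad Q').mkQ ((F : Matrix b a k) * u) := fun F => rfl
  have hf1 : LinearMap.range f = P.map (rad Q).mkQ := by
    rw [LinearMap.range_comp, Submodule.range_subtype]
  have hg1 : LinearMap.range g ≤ P'.map (rad Q').mkQ := by
    rintro _ ⟨F, rfl⟩
    exact ⟨_, h1 F.1 F.2, rfl⟩
  have hk : LinearMap.ker g ≤ LinearMap.ker f := by
    intro F hF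
    rw [LinearMap.mem_ker, hg, Submodule.mkQ_apply, Submodule.Quotient.mk_eq_zero] at hF
    rw [LinearMap.mem_ker]
    change (rad Q).mkQ (F : Matrix b a k) = 0
    rw [Submodule.mkQ_apply, Submodule.Quotient.mk_eq_zero]
    intro G hG
    rw [h3 F.1 F.2, ← Matrix.mul_assoc, Matrix.trace_mul_comm, ← Matrix.mul_assoc]
    exact hF (v * G) (h2 G hG)
  have e1 := LinearMap.finrank_range_add_finrank_ker f
  have e2 := LinearMap.finrank_range_add_finrank_ker g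
  have e3 := Submodule.finrank_mono hk
  have e4 := Submodule.finrank_mono hg1
  unfold prk
  rw [← hf1]
  omega

end basic

section real

theorem Asym_real1 {N : ℝ} (hN : 1 ≤ N) (a : ℕ → ℝ) (pos : ∀ n, 0 < a n)
    (hr : ∀ (s : ℕ) (δ : ℝ), 0 < δ → ∃ m0 : ℕ, ∀ m : ℕ, m0 ≤ m → (N ^ (2 * s) - δ) * a (2 * m) ≤ a (2 * (m + s)))
    (h2 : ∀ m, a (2 * (m + 1)) + N * a (2 * m) ≤ a (2 * m + 1) + N ^ 2 * a (2 * m)) :
    ∀ δ : ℝ, 0 < δ → ∃ m0 : ℕ, ∀ m : ℕ, m0 ≤ m → (N - δ) * a (2 * m) ≤ a (2 * m + 1) := by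
  intro δ hδ
  obtain ⟨m0, h⟩ := hr 1 δ hδ
  refine ⟨m0, fun m hm => ?_⟩
  have h3 := h m hm
  have h4 := h2 m
  rw [mul_one] at h3
  nlinarith

theorem Asym_real2 {N : ℝ} (hN : 1 ≤ N) (a : ℕ → ℝ) (pos : ∀ n, 0 < a n)
    (hr : ∀ (s : ℕ) (δ : ℝ), 0 < δ → ∃ m0 : ℕ, ∀ m : ℕ, m0 ≤ m → (N ^ (2 * s) - δ) * a (2 * m) ≤ a (2 * (m + s)))
    (h2 : ∀ m, a (2 * (m + 1)) + N * a (2 * m) ≤ a (2 * m + 1) + N ^ 2 * a (2 * m)) (r : ℕ) :
    ∀ δ : ℝ, 0 < δ → ∃ m0 : ℕ, ∀ m : ℕ, m0 ≤ m → (N ^ r - δ) * a (2 * m) ≤ a (r + (m + m)) := by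
  intro δ hδ
  have hN0 : 0 < N := by linarith
  rcases Nat.even_or_odd' r with ⟨s, rfl | rfl⟩
  · obtain ⟨m0, h⟩ := hr s δ hδ
    refine ⟨m0, fun m hm => ?_⟩
    have e : 2 * s + (m + m) = 2 * (m + s) := by ring
    rw [e]
    exact h m hm
  · have hS : 0 < N + N ^ (2 * s) := by positivity
    obtain ⟨δ1, hδ1, hδ2, hδ3⟩ : ∃ δ1 : ℝ, 0 < δ1 ∧ δ1 ≤ 1 ∧ δ1 * (N + N ^ (2 * s)) ≤ δ := by
      refine ⟨min 1 (δ / (N + N ^ (2 * s))), lt_min one_pos (div_pos hδ hS), min_le_left _ _, ?_⟩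
      calc min 1 (δ / (N + N ^ (2 * s))) * (N + N ^ (2 * s)) ≤ δ / (N + N ^ (2 * s)) * (N + N ^ (2 * s)) :=
            mul_le_mul_of_nonneg_right (min_le_right _ _) hS.le
        _ = δ := div_mul_cancel₀ _ hS.ne'
    obtain ⟨m1, h3⟩ := Asym_real1 hN a pos hr h2 δ1 hδ1
    obtain ⟨m2, h4⟩ := hr s δ1 hδ1
    refine ⟨max m1 m2, fun m hm => ?_⟩
    have h5 := h3 (m + s) (by omega)
    have h6 := h4 m (by omega)
    have e : 2 * s + 1 + (m + m) = 2 * (m + s) + 1 := by ring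
    rw [e]
    refine le_trans ?_ h5
    have h7 : (N - δ1) * ((N ^ (2 * s) - δ1) * a (2 * m)) ≤ (N - δ1) * a (2 * (m + s)) :=
      mul_le_mul_of_nonneg_left h6 (by linarith)
    refine le_trans ?_ h7
    rw [← mul_assoc]
    refine mul_le_mul_of_nonneg_right ?_ (pos _).le
    have h8 : N ^ (2 * s + 1) = N * N ^ (2 * s) := by rw [pow_succ]; ring
    rw [h8]
    nlinarith [sq_nonneg δ1]

theorem Asym_real_ge {N : ℝ} (hN : 1 ≤ N) (a : ℕ → ℝ) (pos : ∀ n, 0 < a n)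
    (h1 : ∀ m, a (2 * m + 1) ≤ N * a (2 * m))
    (hr : ∀ (s : ℕ) (δ : ℝ), 0 < δ → ∃ m0 : ℕ, ∀ m : ℕ, m0 ≤ m → (N ^ (2 * s) - δ) * a (2 * m) ≤ a (2 * (m + s)))
    (h2 : ∀ m, a (2 * (m + 1)) + N * a (2 * m) ≤ a (2 * m + 1) + N ^ 2 * a (2 * m)) (r : ℕ) (t : ℝ) (ht : 0 ≤ t)
    (h : ℕ → ℝ) (h0 : ∀ n, 0 ≤ h n)
    (he : ∀ m : ℕ, a (r + (m + m)) + t * a (2 * m) ≤ h (2 * m) + N ^ r * a (2 * m))
    (ho : ∀ m : ℕ, a (r + 1 + (m + m)) + N * t * a (2 * m) ≤ h (2 * m + 1) + N ^ (r + 1) * a (2 * m))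
    (δ : ℝ) (hδ : 0 < δ) : ∃ n0 : ℕ, ∀ n : ℕ, n0 ≤ n → (t - δ) * a n ≤ h n := by
  obtain ⟨m1, g1⟩ := Asym_real2 hN a pos hr h2 r δ hδ
  obtain ⟨m2, g2⟩ := Asym_real2 hN a pos hr h2 (r + 1) δ hδ
  refine ⟨2 * max m1 m2, fun n hn => ?_⟩
  rcases Nat.even_or_odd' n with ⟨m, rfl | rfl⟩
  · have g3 := g1 m (by omega)
    have g4 := he m
    nlinarith
  · rcases le_or_gt (t - δ) 0 with ht' | ht'
    · exact (mul_nonpos_of_nonpos_of_nonneg ht' (pos _).le).trans (h0 _)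
    · have g3 := g2 m (by omega)
      have g4 := ho m
      have g5 : (t - δ) * a (2 * m + 1) ≤ (t - δ) * (N * a (2 * m)) := mul_le_mul_of_nonneg_left (h1 m) ht'.le
      have g6 : δ * a (2 * m) ≤ δ * (N * a (2 * m)) := by
        refine mul_le_mul_of_nonneg_left ?_ hδ.le
        have := mul_le_mul_of_nonneg_right hN (pos (2 * m)).le
        linarith
      nlinarith

theorem Asym_real_le {N : ℝ} (hN : 1 ≤ N) (a : ℕ → ℝ) (pos : ∀ n, 0 < a n)
    (hr : ∀ (s : ℕ) (δ : ℝ), 0 < δ → ∃ m0 : ℕ, ∀ m : ℕ, m0 ≤ m → (N ^ (2 * s) - δ) * a (2 * m) ≤ a (2 * (m + s)))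
    (h2 : ∀ m, a (2 * (m + 1)) + N * a (2 * m) ≤ a (2 * m + 1) + N ^ 2 * a (2 * m))
    (δ : ℝ) (hδ : 0 < δ) : ∃ n0 : ℕ, ∀ n : ℕ, n0 ≤ n → ∀ (t h : ℝ), 0 ≤ t →
      (∀ m, n = 2 * m → h ≤ t * a (2 * m)) → (∀ m, n = 2 * m + 1 → h ≤ N * t * a (2 * m)) → h ≤ (1 + δ) * t * a n := by
  have hd : 0 < N * δ / (1 + δ) := by positivity
  obtain ⟨m1, g1⟩ := Asym_real1 hN a pos hr h2 (N * δ / (1 + δ)) hd
  refine ⟨2 * m1, fun n hn t h ht he ho => ?_⟩
  rcases Nat.even_or_odd' n with ⟨m, rfl | rfl⟩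
  · have g2 := he m rfl
    have g3 : 0 ≤ t * a (2 * m) := mul_nonneg ht (pos _).le
    nlinarith
  · have g2 := ho m rfl
    have g3 := g1 m (by omega)
    have g4 : (1 + δ) * (N - N * δ / (1 + δ)) = N := by
      have : 1 + δ ≠ 0 := by positivity
      field_simp
      ring
    have g5 : t * ((1 + δ) * ((N - N * δ / (1 + δ)) * a (2 * m))) ≤ t * ((1 + δ) * a (2 * m + 1)) :=
      mul_le_mul_of_nonneg_left (mul_le_mul_of_nonneg_left g3 (by positivity)) ht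
    calc h ≤ N * t * a (2 * m) := g2
      _ = t * ((1 + δ) * ((N - N * δ / (1 + δ)) * a (2 * m))) := by
          rw [← mul_assoc (1 + δ), g4]
          ring
      _ ≤ t * ((1 + δ) * a (2 * m + 1)) := g5
      _ = (1 + δ) * t * a (2 * m + 1) := by ring

end real

variable {k : Type*} [Field k] {ι : Type} [Fintype ι] [DecidableEq ι]

variable {B : Matrix ι ι k} {C : ∀ m n : ℕ, Submodule k (Mor k ι m n)}

theorem Asym_rank_compl [CharZero k] {a : Type*} [Fintype a] [DecidableEq a] (w : Matrix a a k)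
    (hw : w * w = w) : (1 - w).rank + w.rank = Fintype.card a := by
  have h1 := rank_idem w hw
  have h2 := rank_idem (1 - w) (by
    rw [Matrix.sub_mul, Matrix.mul_sub, Matrix.mul_sub, hw, Matrix.one_mul, Matrix.one_mul, Matrix.mul_one]
    abel)
  rw [trace_sub, trace_one] at h2
  have h3 : (((1 - w).rank + w.rank : ℕ) : k) = ((Fintype.card a : ℕ) : k) := by
    push_cast
    rw [h1, h2]
    ring
  exact_mod_cast h3

theorem Asym_tsum_sub {I I' : Type} [Fintype I] [Fintype I'] [DecidableEq I] [DecidableEq I']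
    (w : Matrix (I → ι) (I → ι) k) :
    tsum (1 - w) (1 : Matrix (I' → ι) (I' → ι) k) = 1 - tsum w 1 := by
  rw [← Bridge_tsum_one]
  funext x y
  rw [Matrix.sub_apply]
  unfold tsum
  rw [Matrix.sub_apply, sub_mul]

/-- The general lower bound. -/
theorem Asym_lower [IsAlgClosed k] [CharZero k] (hC : IsCorrFamily B C) (R M : Type)
    [Fintype R] [Fintype M] [DecidableEq R] [DecidableEq M] (w : Matrix (R → ι) (R → ι) k)
    (hw : w ∈ Hom C R R) (hw2 : w * w = w) :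
    numRank C (Fintype.card R + (Fintype.card M + Fintype.card M)) +
        w.rank * numRank C (Fintype.card M + Fintype.card M) ≤
      prk (sand 1 (Hom C (R ⊕ M) M) (tsum w 1)) (Hom C M (R ⊕ M)) +
        Fintype.card ι ^ Fintype.card R * numRank C (Fintype.card M + Fintype.card M) := by
  have h1 := prk_split (Hom C (R ⊕ M) M) (Hom C M (R ⊕ M)) (tsum w (1 : Matrix (M → ι) (M → ι) k))
  have hw3 : (1 - w) * (1 - w) = 1 - w := by
    rw [Matrix.sub_mul, Matrix.mul_sub, Matrix.mul_sub, hw2, Matrix.one_mul, Matrix.one_mul, Matrix.mul_one]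
    abel
  have h2 := D_le hC R M (1 - w) (sub_mem (one_mem_Hom hC R) hw) hw3
  rw [Asym_tsum_sub, prk_hom_eq hC M M] at h2
  have h3 := prk_hom_eq hC (R ⊕ M) M
  rw [Fintype.card_sum, add_assoc] at h3
  rw [h3] at h1
  have h4 := Asym_rank_compl w hw2
  rw [Fintype.card_fun] at h4
  rw [← h4]
  set A := numRank C (Fintype.card M + Fintype.card M)
  set X := numRank C (Fintype.card R + (Fintype.card M + Fintype.card M))
  set D := prk (sand 1 (Hom C (R ⊕ M) M) (tsum w 1)) (Hom C M (R ⊕ M))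
  set D' := prk (sand 1 (Hom C (R ⊕ M) M) (1 - tsum w 1)) (Hom C M (R ⊕ M))
  calc X + w.rank * A ≤ (D + D') + w.rank * A := Nat.add_le_add_right h1 _
    _ ≤ (D + (1 - w).rank * A) + w.rank * A := by gcongr
    _ = D + ((1 - w).rank + w.rank) * A := by ring

/-- The upper bound for the whole of `R`. -/
theorem Asym_upper [IsAlgClosed k] [CharZero k] (hC : IsCorrFamily B C) (R M : Type)
    [Fintype R] [Fintype M] [DecidableEq R] [DecidableEq M] :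
    numRank C (Fintype.card R + (Fintype.card M + Fintype.card M)) ≤
      Fintype.card ι ^ Fintype.card R * numRank C (Fintype.card M + Fintype.card M) := by
  have h2 := D_le hC R M 1 (one_mem_Hom hC R) (Matrix.one_mul _)
  rw [Bridge_tsum_one, Bridge_sand_one, prk_hom_eq hC M M, prk_hom_eq hC (R ⊕ M) M, Fintype.card_sum, add_assoc,
    Matrix.rank_one, Fintype.card_fun] at h2
  exact h2

/-- The trivial summand, normalised. -/
theorem Asym_unit (hC : IsCorrFamily B C) : ∃ (E : Matrix (Fin 1 → ι) (Fin 0 → ι) k) (E' : Matrix (Fin 0 → ι) (Fin 1 → ι) k),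
    E ∈ Hom C (Fin 0) (Fin 1) ∧ E' ∈ Hom C (Fin 1) (Fin 0) ∧ E' * E = 1 := by
  obtain ⟨e, he, e', he', h⟩ := hC.unit_mem
  have hz : ∀ z : Fin 0 → ι, z = fun i => i.elim0 := fun z => funext fun i => i.elim0
  set c := (e' * e) (fun i => i.elim0) (fun i => i.elim0) with hc
  have hc0 : c ≠ 0 := by
    intro h0
    apply h
    funext x y
    rw [hz x, hz y, ← hc, h0]
    rfl
  refine ⟨c⁻¹ • e, e', ?_, ?_, ?_⟩
  · rw [Hom_fin hC]
    exact (C 0 1).smul_mem _ he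
  · rw [Hom_fin hC]
    exact he'
  · funext x y
    rw [Matrix.mul_smul, Matrix.smul_apply, hz x, hz y, ← hc, Matrix.one_apply, if_pos rfl, smul_eq_mul, inv_mul_cancel₀ hc0]

/-- `V` is a direct summand of `V ⊗ V`. -/
theorem Asym_step_lower [IsAlgClosed k] [CharZero k] (hC : IsCorrFamily B C) (m : ℕ) :
    numRank C (2 * (m + 1)) + Fintype.card ι * numRank C (2 * m) ≤
      numRank C (2 * m + 1) + Fintype.card ι ^ 2 * numRank C (2 * m) := by
  obtain ⟨E, E', hE, hE', hEE⟩ := Asym_unit hC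
  let p : Matrix ((Fin 1 ⊕ Fin 1) → ι) ((Fin 1 ⊕ Fin 1) → ι) k := tsum (1 : Matrix (Fin 1 → ι) (Fin 1 → ι) k) (E * E')
  have hEi : (E * E') * (E * E') = E * E' := by
    rw [Matrix.mul_assoc, ← Matrix.mul_assoc E' E E', hEE, Matrix.one_mul]
  have hEm : E * E' ∈ Hom C (Fin 1) (Fin 1) := mul_mem_Hom hC hE hE'
  have hp : p ∈ Hom C (Fin 1 ⊕ Fin 1) (Fin 1 ⊕ Fin 1) := tsum_mem_Hom hC (one_mem_Hom hC _) hEm
  have hp2 : p * p = p := by
    change tsum _ _ * tsum _ _ = tsum _ _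
    rw [tsum_mul, Matrix.one_mul, hEi]
  have hpr : p.rank = Fintype.card ι := by
    have h1 := rank_tsum (I := Fin 1) (J := Fin 1) (1 : Matrix (Fin 1 → ι) (Fin 1 → ι) k) (E * E') (Matrix.one_mul _) hEi
    have h2 : (E * E').rank = 1 := by
      have h3 := rank_idem (E * E') hEi
      rw [Matrix.trace_mul_comm, hEE, trace_one] at h3
      have h4 : Fintype.card (Fin 0 → ι) = 1 := by rw [Fintype.card_fun, Fintype.card_fin, pow_zero]
      rw [h4] at h3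
      exact_mod_cast h3
    rw [h2, mul_one, Matrix.rank_one, Fintype.card_fun, Fintype.card_fin, pow_one] at h1
    exact h1
  have h := Asym_lower hC (Fin 1 ⊕ Fin 1) (Fin m) p hp hp2
  -- the retraction
  let u : Matrix (((Fin 1 ⊕ Fin 1) ⊕ Fin m) → ι) (((Fin 1 ⊕ Fin 0) ⊕ Fin m) → ι) k :=
    tsum (tsum (1 : Matrix (Fin 1 → ι) (Fin 1 → ι) k) E) (1 : Matrix (Fin m → ι) (Fin m → ι) k)
  let v : Matrix (((Fin 1 ⊕ Fin 0) ⊕ Fin m) → ι) (((Fin 1 ⊕ Fin 1) ⊕ Fin m) → ι) k :=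
    tsum (tsum (1 : Matrix (Fin 1 → ι) (Fin 1 → ι) k) E') (1 : Matrix (Fin m → ι) (Fin m → ι) k)
  have hu : u ∈ Hom C ((Fin 1 ⊕ Fin 0) ⊕ Fin m) ((Fin 1 ⊕ Fin 1) ⊕ Fin m) :=
    tsum_mem_Hom hC (tsum_mem_Hom hC (one_mem_Hom hC _) hE) (one_mem_Hom hC _)
  have hv : v ∈ Hom C ((Fin 1 ⊕ Fin 1) ⊕ Fin m) ((Fin 1 ⊕ Fin 0) ⊕ Fin m) :=
    tsum_mem_Hom hC (tsum_mem_Hom hC (one_mem_Hom hC _) hE') (one_mem_Hom hC _)
  have huv : u * v = tsum p (1 : Matrix (Fin m → ι) (Fin m → ι) k) := by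
    change tsum _ _ * tsum _ _ = tsum _ _
    rw [tsum_mul, tsum_mul, Matrix.one_mul, Matrix.one_mul]
  have hp1 : tsum p (1 : Matrix (Fin m → ι) (Fin m → ι) k) ∈ Hom C ((Fin 1 ⊕ Fin 1) ⊕ Fin m) ((Fin 1 ⊕ Fin 1) ⊕ Fin m) :=
    tsum_mem_Hom hC hp (one_mem_Hom hC _)
  have hp3 : tsum p (1 : Matrix (Fin m → ι) (Fin m → ι) k) * tsum p (1 : Matrix (Fin m → ι) (Fin m → ι) k) =
      tsum p (1 : Matrix (Fin m → ι) (Fin m → ι) k) := by
    rw [tsum_mul, hp2, Matrix.one_mul]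
  have hret : prk (sand 1 (Hom C ((Fin 1 ⊕ Fin 1) ⊕ Fin m) (Fin m)) (tsum p 1)) (Hom C (Fin m) ((Fin 1 ⊕ Fin 1) ⊕ Fin m)) ≤
      prk (Hom C ((Fin 1 ⊕ Fin 0) ⊕ Fin m) (Fin m)) (Hom C (Fin m) ((Fin 1 ⊕ Fin 0) ⊕ Fin m)) := by
    refine Asym_retract _ _ _ _ u v ?_ ?_ ?_
    · rintro _ ⟨F, hF, rfl⟩
      change (1 : Matrix (Fin m → ι) (Fin m → ι) k) * F * tsum p (1 : Matrix (Fin m → ι) (Fin m → ι) k) * u ∈ _
      rw [Matrix.one_mul]
      exact mul_mem_Hom hC (mul_mem_Hom hC hF hp1) hu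
    · intro G hG
      exact mul_mem_Hom hC hv hG
    · rintro _ ⟨F, hF, rfl⟩
      change (1 : Matrix (Fin m → ι) (Fin m → ι) k) * F * tsum p (1 : Matrix (Fin m → ι) (Fin m → ι) k) =
        (1 : Matrix (Fin m → ι) (Fin m → ι) k) * F * tsum p (1 : Matrix (Fin m → ι) (Fin m → ι) k) * u * v
      rw [Matrix.one_mul, Matrix.mul_assoc (F * _) u v, huv, Matrix.mul_assoc F, hp3]
  rw [prk_hom_eq hC] at hret
  rw [hpr] at h
  simp only [Fintype.card_sum, Fintype.card_fin] at h hret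
  have e1 : 2 * (m + 1) = 1 + 1 + (m + m) := by ring
  have e2 : 2 * m + 1 = 1 + 0 + m + m := by ring
  have e3 : 2 * m = m + m := by ring
  rw [e1, e2, e3]
  exact h.trans (Nat.add_le_add_right hret _)

/-- `h(t, V^n)` for even `n`. -/
theorem Asym_even_eq (hC : IsCorrFamily B C) (r m : ℕ) (t : Mor k ι r r) :
    prk (sand 1 (C r (2 * m)) t) (C (2 * m) r) =
      prk (sand 1 (Hom C (Fin r ⊕ Fin m) (Fin m)) (tsum t 1)) (Hom C (Fin m) (Fin r ⊕ Fin m)) := by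
  have h1 := prk_out_eq hC (Fin r) (Fin m) (Fin m) t
  have e1 : Fin (2 * m) ≃ Fin m ⊕ Fin m := (finCongr (two_mul m)).trans finSumFinEquiv.symm
  have h2 := prk_rei (C := C) (Equiv.refl (Fin r)) e1 (1 : Matrix ((Fin m ⊕ Fin m) → ι) ((Fin m ⊕ Fin m) → ι) k) t
  have h3 : rei (Equiv.refl (Fin r)) (Equiv.refl (Fin r)) t = t := rfl
  rw [Bridge_rei_one, h3, Hom_fin hC, Hom_fin hC] at h2
  rw [h2, h1]

/-- `h(t, V^n)` for odd `n`. -/
theorem Asym_odd_eq (hC : IsCorrFamily B C) (r m : ℕ) (t : Mor k ι r r) :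
    prk (sand 1 (C r (2 * m + 1)) t) (C (2 * m + 1) r) =
      prk (sand 1 (Hom C ((Fin r ⊕ Fin 1) ⊕ Fin m) (Fin m)) (tsum (tsum t (1 : Matrix (Fin 1 → ι) (Fin 1 → ι) k)) 1))
        (Hom C (Fin m) ((Fin r ⊕ Fin 1) ⊕ Fin m)) := by
  have h1 := prk_out_eq hC (Fin r) (Fin 1 ⊕ Fin m) (Fin m) t
  have e1 : Fin (2 * m + 1) ≃ (Fin 1 ⊕ Fin m) ⊕ Fin m :=
    (finCongr (by ring : 2 * m + 1 = 1 + m + m)).trans
      (finSumFinEquiv.symm.trans (Equiv.sumCongr finSumFinEquiv.symm (Equiv.refl _)))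
  have h2 := prk_rei (C := C) (Equiv.refl (Fin r)) e1
    (1 : Matrix (((Fin 1 ⊕ Fin m) ⊕ Fin m) → ι) (((Fin 1 ⊕ Fin m) ⊕ Fin m) → ι) k) t
  have h3 : rei (Equiv.refl (Fin r)) (Equiv.refl (Fin r)) t = t := rfl
  rw [Bridge_rei_one, h3, Hom_fin hC, Hom_fin hC] at h2
  have h4 := prk_rei (C := C) (Equiv.sumAssoc (Fin r) (Fin 1) (Fin m)) (Equiv.refl (Fin m))
    (1 : Matrix (Fin m → ι) (Fin m → ι) k) (tsum t (1 : Matrix ((Fin 1 ⊕ Fin m) → ι) ((Fin 1 ⊕ Fin m) → ι) k))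
  have h5 : rei (Equiv.sumAssoc (Fin r) (Fin 1) (Fin m)) (Equiv.sumAssoc (Fin r) (Fin 1) (Fin m))
      (tsum t (1 : Matrix ((Fin 1 ⊕ Fin m) → ι) ((Fin 1 ⊕ Fin m) → ι) k)) =
      tsum (tsum t (1 : Matrix (Fin 1 → ι) (Fin 1 → ι) k)) (1 : Matrix (Fin m → ι) (Fin m → ι) k) := by
    rw [← Bridge_tsum_one]
    funext x y
    change t (fun i => x (Sum.inl (Sum.inl i))) (fun i => y (Sum.inl (Sum.inl i))) *
      ((1 : Matrix (Fin 1 → ι) (Fin 1 → ι) k) (fun i => x (Sum.inl (Sum.inr i))) (fun i => y (Sum.inl (Sum.inr i))) *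
        (1 : Matrix (Fin m → ι) (Fin m → ι) k) (fun i => x (Sum.inr i)) (fun i => y (Sum.inr i))) =
      (t (fun i => x (Sum.inl (Sum.inl i))) (fun i => y (Sum.inl (Sum.inl i))) *
        (1 : Matrix (Fin 1 → ι) (Fin 1 → ι) k) (fun i => x (Sum.inl (Sum.inr i))) (fun i => y (Sum.inl (Sum.inr i)))) *
        (1 : Matrix (Fin m → ι) (Fin m → ι) k) (fun i => x (Sum.inr i)) (fun i => y (Sum.inr i))
    rw [mul_assoc]
  rw [Bridge_rei_one, h5] at h4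
  rw [h4, h2, h1]

theorem Asym_ratio [IsAlgClosed k] [CharZero k] (hC : IsCorrFamily B C) (s : ℕ) (δ : ℝ) (hδ : 0 < δ) :
    ∃ m0 : ℕ, ∀ m : ℕ, m0 ≤ m →
      ((Fintype.card ι : ℝ) ^ (2 * s) - δ) * (numRank C (2 * m) : ℝ) ≤ (numRank C (2 * (m + s)) : ℝ) := by
  have hN : 0 < Fintype.card ι := card_pos hC
  have hL : (0 : ℝ) < (Fintype.card ι : ℝ) ^ 2 := by positivity
  have h := Num_ratio hL (Fintype.card ι ^ 2) (fun m => (numRank C (2 * m) : ℝ))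
    (fun m => by exact_mod_cast numRank_pos hC (2 * m)) (fun m => by
      have h1 := cs_hom hC (I := Fin m) (J := Fin (m + 2)) 1 1 (one_mem_Hom hC _) (Matrix.one_mul _) (one_mem_Hom hC _)
        (Matrix.one_mul _)
      rw [Bridge_sand_one, Bridge_sand_one, Bridge_sand_one, prk_hom_eq hC, prk_hom_eq hC, prk_hom_eq hC, Fintype.card_fin,
        Fintype.card_fin] at h1
      have e1 : 2 * (m + 1) = m + (m + 2) := by ring
      have e2 : 2 * m = m + m := by ring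
      have e3 : 2 * (m + 2) = m + 2 + (m + 2) := by ring
      rw [e1, e2, e3]
      exact_mod_cast h1) (fun m => by
      have h1 := growth hC m
      rw [← pow_mul]
      exact_mod_cast h1) s hδ
  obtain ⟨m0, h0⟩ := h
  refine ⟨m0, fun m hm => ?_⟩
  have h1 := h0 m hm
  rw [← pow_mul] at h1
  exact h1

theorem Asym_one_le (hC : IsCorrFamily B C) : (1 : ℝ) ≤ (Fintype.card ι : ℝ) := by
  exact_mod_cast card_pos hC

theorem Asym_step [IsAlgClosed k] [CharZero k] (hC : IsCorrFamily B C) (m : ℕ) :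
    (numRank C (2 * m + 1) : ℝ) ≤ (Fintype.card ι : ℝ) * (numRank C (2 * m) : ℝ) := by
  have h := Asym_upper hC (Fin 1) (Fin m)
  rw [Fintype.card_fin, Fintype.card_fin, pow_one, ← two_mul, add_comm 1] at h
  exact_mod_cast h

theorem Asym_step' [IsAlgClosed k] [CharZero k] (hC : IsCorrFamily B C) (m : ℕ) :
    (numRank C (2 * (m + 1)) : ℝ) + (Fintype.card ι : ℝ) * (numRank C (2 * m) : ℝ) ≤
      (numRank C (2 * m + 1) : ℝ) + (Fintype.card ι : ℝ) ^ 2 * (numRank C (2 * m) : ℝ) := by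
  exact_mod_cast Asym_step_lower hC m

theorem Asym_even_le [IsAlgClosed k] [CharZero k] (hC : IsCorrFamily B C) (r m : ℕ) (t : Mor k ι r r)
    (ht : t ∈ C r r) (ht2 : t * t = t) : prk (sand 1 (C r (2 * m)) t) (C (2 * m) r) ≤ t.rank * numRank C (2 * m) := by
  rw [Asym_even_eq hC]
  have h := D_le hC (Fin r) (Fin m) t (by rw [Hom_fin hC]; exact ht) ht2
  rw [prk_hom_eq hC, Fintype.card_fin, ← two_mul] at h
  exact h

theorem Asym_w {r : ℕ} (t : Mor k ι r r) (ht2 : t * t = t) :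
    tsum t (1 : Matrix (Fin 1 → ι) (Fin 1 → ι) k) * tsum t (1 : Matrix (Fin 1 → ι) (Fin 1 → ι) k) =
      tsum t (1 : Matrix (Fin 1 → ι) (Fin 1 → ι) k) := by
  rw [tsum_mul, ht2, Matrix.one_mul]

theorem Asym_w_rank [CharZero k] {r : ℕ} (t : Mor k ι r r) (ht2 : t * t = t) :
    (tsum t (1 : Matrix (Fin 1 → ι) (Fin 1 → ι) k)).rank = Fintype.card ι * t.rank := by
  have h1 := rank_tsum (I := Fin r) (J := Fin 1) t (1 : Matrix (Fin 1 → ι) (Fin 1 → ι) k) ht2 (Matrix.one_mul _)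
  rw [Matrix.rank_one, Fintype.card_fun, Fintype.card_fin, pow_one] at h1
  exact h1.trans (mul_comm _ _)

theorem Asym_odd_le [IsAlgClosed k] [CharZero k] (hC : IsCorrFamily B C) (r m : ℕ) (t : Mor k ι r r)
    (ht : t ∈ C r r) (ht2 : t * t = t) :
    prk (sand 1 (C r (2 * m + 1)) t) (C (2 * m + 1) r) ≤ Fintype.card ι * t.rank * numRank C (2 * m) := by
  rw [Asym_odd_eq hC]
  have h := D_le hC (Fin r ⊕ Fin 1) (Fin m) (tsum t (1 : Matrix (Fin 1 → ι) (Fin 1 → ι) k))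
    (tsum_mem_Hom hC (by rw [Hom_fin hC]; exact ht) (one_mem_Hom hC _)) (Asym_w t ht2)
  rw [prk_hom_eq hC, Fintype.card_fin, ← two_mul, Asym_w_rank t ht2] at h
  exact h

/-- **The upper bound**, uniform in the idempotent. -/
theorem h_le [IsAlgClosed k] [CharZero k] (hC : IsCorrFamily B C) (δ : ℝ) (hδ : 0 < δ) :
    ∃ n₀ : ℕ, ∀ n : ℕ, n₀ ≤ n → ∀ (r : ℕ) (t : Mor k ι r r), t ∈ C r r → t * t = t →
      (prk (sand 1 (C r n) t) (C n r) : ℝ) ≤ (1 + δ) * (t.rank : ℝ) * (numRank C n : ℝ) := by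
  obtain ⟨n₀, h⟩ := Asym_real_le (Asym_one_le hC) (fun n => (numRank C n : ℝ))
    (fun n => by exact_mod_cast numRank_pos hC n) (Asym_ratio hC) (Asym_step' hC) δ hδ
  refine ⟨n₀, fun n hn r t ht ht2 => h n hn _ _ (Nat.cast_nonneg _) ?_ ?_⟩
  · intro m hm
    subst hm
    exact_mod_cast Asym_even_le hC r m t ht ht2
  · intro m hm
    subst hm
    exact_mod_cast Asym_odd_le hC r m t ht ht2

/-- **The lower bound.** -/
theorem h_ge [IsAlgClosed k] [CharZero k] (hC : IsCorrFamily B C) (r : ℕ) (t : Mor k ι r r) (ht : t ∈ C r r)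
    (ht2 : t * t = t) (δ : ℝ) (hδ : 0 < δ) :
    ∃ n₀ : ℕ, ∀ n : ℕ, n₀ ≤ n →
      ((t.rank : ℝ) - δ) * (numRank C n : ℝ) ≤ (prk (sand 1 (C r n) t) (C n r) : ℝ) := by
  refine Asym_real_ge (Asym_one_le hC) (fun n => (numRank C n : ℝ)) (fun n => by exact_mod_cast numRank_pos hC n)
    (Asym_step hC) (Asym_ratio hC) (Asym_step' hC) r (t.rank : ℝ) (Nat.cast_nonneg _)
    (fun n => (prk (sand 1 (C r n) t) (C n r) : ℝ)) (fun n => Nat.cast_nonneg _) ?_ ?_ δ hδ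
  · intro m
    have h := Asym_lower hC (Fin r) (Fin m) t (by rw [Hom_fin hC]; exact ht) ht2
    rw [← Asym_even_eq hC, Fintype.card_fin, Fintype.card_fin] at h
    have e : 2 * m = m + m := by ring
    rw [e] at h ⊢
    exact_mod_cast h
  · intro m
    have h := Asym_lower hC (Fin r ⊕ Fin 1) (Fin m) (tsum t (1 : Matrix (Fin 1 → ι) (Fin 1 → ι) k))
      (tsum_mem_Hom hC (by rw [Hom_fin hC]; exact ht) (one_mem_Hom hC _)) (Asym_w t ht2)
    rw [← Asym_odd_eq hC, Asym_w_rank t ht2, Fintype.card_sum, Fintype.card_fin, Fintype.card_fin, Fintype.card_fin] at h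
    have e : 2 * m = m + m := by ring
    rw [e] at h ⊢
    exact_mod_cast h

end MP021685Z
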