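import Pool.Agent.Lib.MP_021685_agZ.Two
import Pool.Agent.Lib.MP_021685_agZ.Growth
import Pool.Agent.Lib.MP_021685_agZ.Inj
import Pool.Agent.Lib.MP_021685_agZ.Bridge

/-!
# THEOREM HALF
-/

namespace MP021685Z

open Matrix

variable {k : Type*} [Field k] {ι : Type} [Fintype ι] [DecidableEq ι]

variable {B : Matrix ι ι k} {C : ∀ m n : ℕ, Submodule k (Mor k ι m n)}
  {U : ∀ n : ℕ, Submodule k ((Fin n → ι) → k)}

omit [Fintype ι] in
theorem tsum_sub_one {I J : Type} [Fintype I] [Fintype J] [DecidableEq I] [DecidableEq J]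
    (t : Matrix (I → ι) (I → ι) k) :
    tsum (1 - t) (1 : Matrix (J → ι) (J → ι) k) = 1 - tsum t 1 := by
  rw [← tsum_one (I := I) (J := J)]
  ext x y
  simp only [tsum, Matrix.sub_apply, sub_mul]

theorem rank_compl [CharZero k] {a : Type*} [Fintype a] [DecidableEq a] (w : Matrix a a k)
    (hw : w * w = w) : (1 - w).rank + w.rank = Fintype.card a := by
  have h0 : (1 - w) * (1 - w) = 1 - w := by
    rw [mul_sub, sub_mul, sub_mul, hw]
    simp
  have h1 := rank_idem w hw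
  have h2 := rank_idem (1 - w) h0
  have h3 : (((1 - w).rank + w.rank : ℕ) : k) = (Fintype.card a : k) := by
    push_cast
    rw [h1, h2, trace_sub, trace_one]
    ring
  exact_mod_cast h3

/-- The lower bound for an idempotent, general form. -/
theorem lower_gen [IsAlgClosed k] [CharZero k] (hC : IsCorrFamily B C) (R M : Type) [Fintype R]
    [Fintype M] [DecidableEq R] [DecidableEq M] (t : Matrix (R → ι) (R → ι) k)
    (ht : t ∈ Hom C R R) (ht2 : t * t = t) :
    numRank C (Fintype.card R + 2 * Fintype.card M) + t.rank * numRank C (2 * Fintype.card M) ≤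
      prk (sand 1 (Hom C (R ⊕ M) M) (tsum t 1)) (Hom C M (R ⊕ M)) +
        Fintype.card ι ^ (Fintype.card R) * numRank C (2 * Fintype.card M) := by
  have h0 : (1 - t) * (1 - t) = 1 - t := by
    rw [mul_sub, sub_mul, sub_mul, ht2]
    simp
  have h1 := prk_split (Hom C (R ⊕ M) M) (Hom C M (R ⊕ M)) (tsum t (1 : Matrix (M → ι) (M → ι) k))
  rw [← tsum_sub_one] at h1
  have h2 := D_le hC R M (1 - t) (sub_mem (one_mem_Hom hC R) ht) h0
  have h3 := prk_hom_eq hC (R ⊕ M) M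
  have h4 := prk_hom_eq hC M M
  rw [Fintype.card_sum] at h3
  rw [show Fintype.card R + Fintype.card M + Fintype.card M =
    Fintype.card R + 2 * Fintype.card M by ring] at h3
  rw [← two_mul] at h4
  rw [h3] at h1
  rw [h4] at h2
  have h5 := rank_compl t ht2
  rw [Fintype.card_fun] at h5
  calc numRank C (Fintype.card R + 2 * Fintype.card M) + t.rank * numRank C (2 * Fintype.card M)
      ≤ (prk (sand 1 (Hom C (R ⊕ M) M) (tsum t 1)) (Hom C M (R ⊕ M)) +
        (1 - t).rank * numRank C (2 * Fintype.card M)) +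
          t.rank * numRank C (2 * Fintype.card M) :=
        Nat.add_le_add_right (h1.trans (Nat.add_le_add_left h2 _)) _
    _ = prk (sand 1 (Hom C (R ⊕ M) M) (tsum t 1)) (Hom C M (R ⊕ M)) +
        ((1 - t).rank + t.rank) * numRank C (2 * Fintype.card M) := by ring
    _ = _ := by rw [h5]

/-- Relabelling of the output slots. -/
theorem prk_out_rei (hC : IsCorrFamily B C) (r n : ℕ) {J : Type} [Fintype J] [DecidableEq J]
    (e : J ≃ Fin n) (t : Mor k ι r r) :
    prk (sand 1 (C r n) t) (C n r) =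
      prk (sand 1 (Hom C (Fin r) J) t) (Hom C J (Fin r)) := by
  have h := prk_rei (C := C) (Equiv.refl (Fin r)) e (1 : Matrix (Fin n → ι) (Fin n → ι) k) t
  rw [Hom_fin hC, Hom_fin hC] at h
  rw [← h]
  have h1 : rei e e (1 : Matrix (Fin n → ι) (Fin n → ι) k) = 1 := by
    ext x y
    simp only [rei, Matrix.one_apply]
    by_cases hxy : x = y
    · subst hxy; simp
    · rw [if_neg hxy, if_neg]
      intro h2
      apply hxy
      funext j
      have := congrFun h2 (e j)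
      simpa using this
  have h2 : rei (Equiv.refl (Fin r)) (Equiv.refl (Fin r)) t = t := rfl
  rw [h1, h2]

/-- The lower bound for an idempotent `t` in `E_r`, `r` even, even exponents. -/
theorem lower_even [IsAlgClosed k] [CharZero k] (hC : IsCorrFamily B C) (s : ℕ)
    (t : Mor k ι (2 * s) (2 * s)) (ht : t ∈ C (2 * s) (2 * s)) (ht2 : t * t = t) (m : ℕ) :
    numRank C (2 * (m + s)) + t.rank * numRank C (2 * m) ≤
      prk (sand 1 (C (2 * s) (2 * m)) t) (C (2 * m) (2 * s)) +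
        Fintype.card ι ^ (2 * s) * numRank C (2 * m) := by
  have e : Fin m ⊕ Fin m ≃ Fin (2 * m) := finSumFinEquiv.trans (finCongr (by ring))
  rw [prk_out_rei hC (2 * s) (2 * m) e t, prk_out_eq hC (Fin (2 * s)) (Fin m) (Fin m) t]
  have h := lower_gen hC (Fin (2 * s)) (Fin m) t (by rw [Hom_fin hC]; exact ht) ht2
  rw [Fintype.card_fin, Fintype.card_fin] at h
  rw [show 2 * (m + s) = 2 * s + 2 * m by ring]
  exact h

/-- The lower bound for an idempotent `t` in `E_r`, `r` odd, odd exponents. -/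
theorem lower_odd [IsAlgClosed k] [CharZero k] (hC : IsCorrFamily B C) (s : ℕ)
    (t : Mor k ι (2 * s + 1) (2 * s + 1)) (ht : t ∈ C (2 * s + 1) (2 * s + 1)) (ht2 : t * t = t)
    (m : ℕ) :
    numRank C (2 * (m + (s + 1))) + Fintype.card ι * t.rank * numRank C (2 * m) ≤
      prk (sand 1 (C (2 * s + 1) (2 * m + 1)) t) (C (2 * m + 1) (2 * s + 1)) +
        Fintype.card ι ^ (2 * (s + 1)) * numRank C (2 * m) := by
  have e : Fin 1 ⊕ (Fin m ⊕ Fin m) ≃ Fin (2 * m + 1) :=
    ((Equiv.refl (Fin 1)).sumCongr finSumFinEquiv).trans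
      (finSumFinEquiv.trans (finCongr (by ring)))
  rw [prk_out_rei hC (2 * s + 1) (2 * m + 1) e t,
    prk_out_eq hC (Fin (2 * s + 1)) (Fin 1) (Fin m ⊕ Fin m) t,
    prk_out_eq hC (Fin (2 * s + 1) ⊕ Fin 1) (Fin m) (Fin m) (tsum t 1)]
  have ht' : t ∈ Hom C (Fin (2 * s + 1)) (Fin (2 * s + 1)) := by rw [Hom_fin hC]; exact ht
  have h := lower_gen hC (Fin (2 * s + 1) ⊕ Fin 1) (Fin m)
    (tsum t (1 : Matrix (Fin 1 → ι) (Fin 1 → ι) k))
    (tsum_mem_Hom hC ht' (one_mem_Hom hC (Fin 1))) (by rw [tsum_mul, ht2, mul_one])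
  rw [rank_tsum t (1 : Matrix (Fin 1 → ι) (Fin 1 → ι) k) ht2 (mul_one 1), rank_one] at h
  simp only [Fintype.card_sum, Fintype.card_fin, Fintype.card_fun, pow_one] at h
  rw [show 2 * (m + (s + 1)) = 2 * s + 1 + 1 + 2 * m by ring,
    show 2 * (s + 1) = 2 * s + 1 + 1 by ring, mul_comm (Fintype.card ι) t.rank]
  exact h

theorem numRank_step [IsAlgClosed k] [CharZero k] (hC : IsCorrFamily B C) (m : ℕ) :
    numRank C (2 * m + 1) ≤ Fintype.card ι * numRank C (2 * m) := by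
  have h := D_le hC (Fin 1) (Fin m) 1 (one_mem_Hom hC (Fin 1)) (mul_one 1)
  rw [tsum_one, sand_one, rank_one, Fintype.card_fun, Fintype.card_fin, pow_one,
    prk_hom_eq hC (Fin 1 ⊕ Fin m) (Fin m), prk_hom_eq hC (Fin m) (Fin m), Fintype.card_sum,
    Fintype.card_fin, Fintype.card_fin] at h
  rw [show 2 * m + 1 = 1 + m + m by ring, show 2 * m = m + m by ring]
  exact h

theorem numRank_convex [IsAlgClosed k] [CharZero k] (hC : IsCorrFamily B C) (m : ℕ) :
    numRank C (2 * (m + 1)) ^ 2 ≤ numRank C (2 * m) * numRank C (2 * (m + 2)) := by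
  have h := cs_hom hC (I := Fin m) (J := Fin (m + 2)) 1 1 (one_mem_Hom hC _) (mul_one 1)
    (one_mem_Hom hC _) (mul_one 1)
  rw [sand_one, sand_one, sand_one, prk_hom_eq hC, prk_hom_eq hC, prk_hom_eq hC,
    Fintype.card_fin, Fintype.card_fin] at h
  rw [show 2 * (m + 1) = m + (m + 2) by ring, show 2 * m = m + m by ring,
    show 2 * (m + 2) = m + 2 + (m + 2) by ring]
  exact h

/-- **THEOREM HALF.** -/
theorem half [IsAlgClosed k] [CharZero k] (hC : IsCorrFamily B C) (hU : IsStable C U) :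
    (∀ n, classes C n = U n ∧ numTriv C n = ⊥) ∨
      ∀ c : ℝ, 1 / 2 < c → ∃ n₀ : ℕ, ∀ n ≥ n₀,
        (numRank C n : ℝ) ≤ c * (Module.finrank k (U n) : ℝ) := by
  by_cases hf : ∃ r, numRank C r < Module.finrank k (U r)
  swap
  · left
    push Not at hf
    exact fun n => no_fail hC hU n (not_lt.mpr (hf n))
  right
  intro c hc
  obtain ⟨r, hr⟩ := hf
  have hr1 := fail_succ hC hU r hr
  obtain ⟨⟨s, hs⟩, ⟨s', hs'⟩⟩ : (∃ s, numRank C (2 * s) < Module.finrank k (U (2 * s))) ∧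
      ∃ s, numRank C (2 * s + 1) < Module.finrank k (U (2 * s + 1)) := by
    rcases Nat.even_or_odd' r with ⟨s, rfl | rfl⟩
    · exact ⟨⟨s, hr⟩, ⟨s, hr1⟩⟩
    · exact ⟨⟨s + 1, hr1⟩, ⟨s, hr⟩⟩
  obtain ⟨t, ht, ht2, htr, htn⟩ := exists_idem hC hU (2 * s) hs
  obtain ⟨t', ht', ht'2, ht'r, ht'n⟩ := exists_idem hC hU (2 * s' + 1) hs'
  have hN : 1 ≤ Fintype.card ι := card_pos hC
  have hNr : (1 : ℝ) ≤ (Fintype.card ι : ℝ) := by exact_mod_cast hN
  have hrat : ∀ (s : ℕ) {δ : ℝ}, 0 < δ → ∃ m0 : ℕ, ∀ m : ℕ, m0 ≤ m →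
      (((Fintype.card ι : ℝ) ^ 2) ^ s - δ) * (numRank C (2 * m) : ℝ) ≤
        (numRank C (2 * (m + s)) : ℝ) := by
    intro s δ hδ
    refine Num_ratio (L := (Fintype.card ι : ℝ) ^ 2) (by positivity) ((Fintype.card ι) ^ 2)
      (fun m => (numRank C (2 * m) : ℝ)) (fun m => ?_) (fun m => ?_) (fun m => ?_) s hδ
    · exact_mod_cast numRank_pos hC (2 * m)
    · exact_mod_cast numRank_convex hC m
    · rw [← pow_mul]
      exact_mod_cast growth hC m
  refine Num_half hNr (fun n => (numRank C n : ℝ)) (fun n => (Module.finrank k (U n) : ℝ))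
    (fun n => by positivity) (fun m => by exact_mod_cast numRank_step hC m) ?_ hc
  intro δ hδ
  obtain ⟨m1, hm1⟩ := hrat s hδ
  obtain ⟨m2, hm2⟩ := hrat (s' + 1) hδ
  refine ⟨max m1 m2, fun m hm => ⟨?_, ?_⟩⟩
  · have h1 := hm1 m (le_trans (le_max_left _ _) hm)
    have h2 := lower_even hC s t ht ht2 m
    have h3 := htn (2 * m)
    have h2' : (numRank C (2 * (m + s)) : ℝ) + (t.rank : ℝ) * (numRank C (2 * m) : ℝ) ≤
        (prk (sand 1 (C (2 * s) (2 * m)) t) (C (2 * m) (2 * s)) : ℝ) +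
          (Fintype.card ι : ℝ) ^ (2 * s) * (numRank C (2 * m) : ℝ) := by exact_mod_cast h2
    have h3' : (numRank C (2 * m) : ℝ) + (prk (sand 1 (C (2 * s) (2 * m)) t)
        (C (2 * m) (2 * s)) : ℝ) ≤ (Module.finrank k (U (2 * m)) : ℝ) := by exact_mod_cast h3
    rw [← pow_mul] at h1
    have h4 : (1 : ℝ) * (numRank C (2 * m) : ℝ) ≤ (t.rank : ℝ) * (numRank C (2 * m) : ℝ) :=
      mul_le_mul_of_nonneg_right (by exact_mod_cast htr) (by positivity)
    show (numRank C (2 * m) : ℝ) + (1 - δ) * (numRank C (2 * m) : ℝ) ≤ _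
    nlinarith
  · have h1 := hm2 m (le_trans (le_max_right _ _) hm)
    have h2 := lower_odd hC s' t' ht' ht'2 m
    have h3 := ht'n (2 * m + 1)
    have h2' : (numRank C (2 * (m + (s' + 1))) : ℝ) +
        (Fintype.card ι : ℝ) * (t'.rank : ℝ) * (numRank C (2 * m) : ℝ) ≤
        (prk (sand 1 (C (2 * s' + 1) (2 * m + 1)) t') (C (2 * m + 1) (2 * s' + 1)) : ℝ) +
          (Fintype.card ι : ℝ) ^ (2 * (s' + 1)) * (numRank C (2 * m) : ℝ) := by
      exact_mod_cast h2
    have h3' : (numRank C (2 * m + 1) : ℝ) + (prk (sand 1 (C (2 * s' + 1) (2 * m + 1)) t')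
        (C (2 * m + 1) (2 * s' + 1)) : ℝ) ≤ (Module.finrank k (U (2 * m + 1)) : ℝ) := by
      exact_mod_cast h3
    rw [← pow_mul] at h1
    have h4 : (Fintype.card ι : ℝ) * 1 * (numRank C (2 * m) : ℝ) ≤
        (Fintype.card ι : ℝ) * (t'.rank : ℝ) * (numRank C (2 * m) : ℝ) :=
      mul_le_mul_of_nonneg_right (mul_le_mul_of_nonneg_left (by exact_mod_cast ht'r)
        (by positivity)) (by positivity)
    show (numRank C (2 * m + 1) : ℝ) + ((Fintype.card ι : ℝ) - δ) * (numRank C (2 * m) : ℝ) ≤ _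
    nlinarith

end MP021685Z
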