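import Mathlib

set_option autoImplicit false
set_option linter.unusedSectionVars false

namespace MP021685Z

open Module

section two

variable {k : Type*} [Field k]

/-- the map `M ↦ F M E`. -/
def CS_two {n : Type*} [Fintype n] (F E : Matrix n n k) : Matrix n n k →ₗ[k] Matrix n n k where
  toFun M := F * M * E
  map_add' x y := by rw [mul_add, add_mul]
  map_smul' c x := by simp

theorem CS_two_apply {n : Type*} [Fintype n] (F E M : Matrix n n k) : CS_two F E M = F * M * E := rfl

theorem CS_trace_two {n : Type*} [Fintype n] [DecidableEq n] (F E : Matrix n n k) :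
    LinearMap.trace k _ (CS_two F E) = F.trace * E.trace := by
  rw [LinearMap.trace_eq_matrix_trace k (Matrix.stdBasis k n n), Matrix.trace, Fintype.sum_prod_type, Matrix.trace,
    Matrix.trace, Finset.sum_mul_sum]
  refine Finset.sum_congr rfl fun i _ => Finset.sum_congr rfl fun j _ => ?_
  rw [Matrix.diag_apply, LinearMap.toMatrix_apply, Matrix.stdBasis_eq_single, CS_two_apply]
  have h : ∀ A : Matrix n n k, (Matrix.stdBasis k n n).repr A (i, j) = A i j := by
    intro A
    rfl
  rw [h, Matrix.mul_apply, Finset.sum_eq_single j]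
  · rw [Matrix.mul_apply, Finset.sum_eq_single i]
    · simp [Matrix.diag_apply]
    · intro b _ hb
      rw [Matrix.single_apply_of_ne _ _ _ _ _ (by
        rintro ⟨h1, _⟩
        exact hb h1.symm), mul_zero]
    · intro h
      exact absurd (Finset.mem_univ _) h
  · intro b _ hb
    rw [Matrix.mul_apply, Finset.sum_eq_zero, zero_mul]
    intro c _
    rw [Matrix.single_apply_of_ne _ _ _ _ _ (by
        rintro ⟨_, h1⟩
        exact hb h1.symm), mul_zero]
  · intro h
    exact absurd (Finset.mem_univ _) h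

theorem CS_rank [CharZero k] {n : Type*} [Fintype n] [DecidableEq n] (F : Matrix n n k) (hF : IsIdempotentElem F) :
    F.trace = (F.rank : k) := by
  have h1 : IsIdempotentElem (Matrix.toLin' F) := by
    have : Matrix.toLin' F * Matrix.toLin' F = Matrix.toLin' (F * F) := by
      rw [Matrix.toLin'_mul]; rfl
    rw [IsIdempotentElem, this, hF.eq]
  have h2 := (LinearMap.IsIdempotentElem.isProj_range _ h1).trace
  rw [Matrix.trace_toLin'_eq] at h2
  rw [h2, Matrix.rank_eq_finrank_range_toLin F (Pi.basisFun k n) (Pi.basisFun k n), Matrix.toLin_eq_toLin']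

theorem CS_rank_two [CharZero k] {n : Type*} [Fintype n] [DecidableEq n] (F E : Matrix n n k) (hF : IsIdempotentElem F)
    (hE : IsIdempotentElem E) : finrank k (LinearMap.range (CS_two F E)) = F.rank * E.rank := by
  have h1 : IsIdempotentElem (CS_two F E) := by
    refine LinearMap.ext fun M => ?_
    change F * (F * M * E) * E = F * M * E
    rw [← mul_assoc, ← mul_assoc, hF.eq, mul_assoc, hE.eq]
  have h2 := (LinearMap.IsIdempotentElem.isProj_range _ h1).trace
  rw [CS_trace_two, CS_rank F hF, CS_rank E hE] at h2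
  exact_mod_cast h2.symm

/-- componentwise maps: the rank is the sum. -/
theorem CS_range_pi {ι : Type*} [Fintype ι] {M : ι → Type*} [∀ i, AddCommGroup (M i)] [∀ i, Module k (M i)]
    [∀ i, FiniteDimensional k (M i)] (g : ∀ i, M i →ₗ[k] M i) (G : (∀ i, M i) →ₗ[k] (∀ i, M i))
    (hG : ∀ x i, G x i = g i (x i)) :
    finrank k (LinearMap.range G) = ∑ i, finrank k (LinearMap.range (g i)) := by
  classical
  rw [← Module.finrank_pi_fintype]
  let f : LinearMap.range G →ₗ[k] (∀ i, LinearMap.range (g i)) :=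
    { toFun := fun x i => ⟨x.1 i, by
        obtain ⟨y, hy⟩ := x.2
        rw [← hy, hG]
        exact ⟨_, rfl⟩⟩
      map_add' := fun x y => rfl
      map_smul' := fun c x => rfl }
  refine LinearEquiv.finrank_eq (LinearEquiv.ofBijective f ⟨?_, ?_⟩)
  · intro x y hxy
    refine Subtype.ext (funext fun i => ?_)
    exact congrArg Subtype.val (congrFun hxy i)
  · intro y
    have h : ∀ i, ∃ z : M i, g i z = (y i).1 := fun i => (y i).2
    choose z hz using h
    refine ⟨⟨G z, ⟨z, rfl⟩⟩, ?_⟩
    refine funext fun i => Subtype.ext ?_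
    change G z i = _
    rw [hG, hz]

end two

section alg

variable {k : Type*} [Field k] [CharZero k] [IsAlgClosed k] {S : Type*} [Ring S] [Algebra k S] [FiniteDimensional k S]

/-- `x ↦ f x e`. -/
def CS_crn (k : Type*) [Field k] {S : Type*} [Ring S] [Algebra k S] (e f : S) : S →ₗ[k] S where
  toFun x := f * x * e
  map_add' x y := by rw [mul_add, add_mul]
  map_smul' c x := by simp

/-- `x ↦ (y ↦ τ (y x))`. -/
def CS_dual (τ : S →ₗ[k] k) : S →ₗ[k] (S →ₗ[k] k) :=
  LinearMap.mk₂ k (fun x y => τ (y * x)) (fun x x' y => by rw [mul_add, map_add]) (fun c x y => by simp)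
    (fun x y y' => by rw [add_mul, map_add]) (fun c x y => by simp)

theorem CS_dual_apply (τ : S →ₗ[k] k) (x y : S) : CS_dual τ x y = τ (y * x) := rfl

/-- The rank of the form `(x, y) ↦ τ (y x)` on `f S e × e S f`. -/
noncomputable def CS_h (τ : S →ₗ[k] k) (e f : S) : ℕ :=
  finrank k (LinearMap.range ((CS_dual τ).comp (CS_crn k e f)))

/-- The numerically trivial elements. -/
def CS_N (τ : S →ₗ[k] k) (hτ : ∀ x y, τ (x * y) = τ (y * x)) : Ideal S where
  carrier := {x | ∀ y, τ (y * x) = 0}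
  zero_mem' := fun y => by simp
  add_mem' := fun {a b} ha hb y => by rw [mul_add, map_add, ha y, hb y, add_zero]
  smul_mem' := fun c x hx y => by rw [smul_eq_mul, ← mul_assoc]; exact hx _

theorem CS_mem_N (τ : S →ₗ[k] k) (hτ : ∀ x y, τ (x * y) = τ (y * x)) (x : S) : x ∈ CS_N τ hτ ↔ ∀ y, τ (y * x) = 0 := Iff.rfl

theorem CS_two_sided (τ : S →ₗ[k] k) (hτ : ∀ x y, τ (x * y) = τ (y * x)) : (CS_N τ hτ).IsTwoSided :=
  ⟨fun {a} b ha => by
    intro y
    rw [← mul_assoc, hτ, ← mul_assoc]
    exact ha _⟩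

theorem CS_semisimple (τ : S →ₗ[k] k) (hτ : ∀ x y, τ (x * y) = τ (y * x)) (hn : ∀ x, IsNilpotent x → τ x = 0)
    [(CS_N τ hτ).IsTwoSided] : IsSemisimpleRing (S ⧸ CS_N τ hτ) := by
  have := IsArtinianRing.of_finite k S
  have h1 : Ring.jacobson S ≤ CS_N τ hτ := by
    intro x hx y
    apply hn
    have h2 : y * x ∈ Ring.jacobson S := Ideal.mul_mem_left _ _ hx
    obtain ⟨n, hn'⟩ := IsSemiprimaryRing.isNilpotent (R := S)
    refine ⟨n, ?_⟩
    have h3 : (y * x) ^ n ∈ (Ring.jacobson S) ^ n := Ideal.pow_mem_pow h2 n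
    rw [hn'] at h3
    exact h3
  exact RingHom.isSemisimpleRing_of_surjective (Ideal.Quotient.factor h1) (Ideal.Quotient.factor_surjective h1)

theorem CS_ranks (τ : S →ₗ[k] k) (hτ : ∀ x y, τ (x * y) = τ (y * x)) (hn : ∀ x, IsNilpotent x → τ x = 0) :
    ∃ (n : ℕ) (r : S → Fin n → ℕ), ∀ e f : S, IsIdempotentElem e → IsIdempotentElem f → CS_h τ e f = ∑ i, r f i * r e i := by
  have := CS_two_sided τ hτ
  have := CS_semisimple τ hτ hn
  obtain ⟨n, d, hd, ⟨φ⟩⟩ := IsSemisimpleRing.exists_algEquiv_pi_matrix_of_isAlgClosed k (S ⧸ CS_N τ hτ)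
  let ψ : S →ₐ[k] (∀ i, Matrix (Fin (d i)) (Fin (d i)) k) := φ.toAlgHom.comp (Ideal.Quotient.mkₐ k (CS_N τ hτ))
  have hψs : Function.Surjective ψ := φ.surjective.comp Ideal.Quotient.mk_surjective
  have hψk : ∀ x, ψ x = 0 ↔ ∀ y, τ (y * x) = 0 := by
    intro x
    change φ (Ideal.Quotient.mk (CS_N τ hτ) x) = 0 ↔ _
    rw [map_eq_zero_iff _ φ.injective, Ideal.Quotient.eq_zero_iff_mem]
    rfl
  refine ⟨n, fun e i => (ψ e i).rank, fun e f he hf => ?_⟩
  -- the range of `x ↦ f x e` modulo `N`
  have h1 : CS_h τ e f = finrank k (LinearMap.range (ψ.toLinearMap.comp (CS_crn k e f))) := by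
    unfold CS_h
    have h2 : LinearMap.ker ((CS_dual τ).comp (CS_crn k e f)) = LinearMap.ker (ψ.toLinearMap.comp (CS_crn k e f)) := by
      ext x
      rw [LinearMap.mem_ker, LinearMap.mem_ker]
      change CS_dual τ (f * x * e) = 0 ↔ ψ (f * x * e) = 0
      rw [hψk]
      constructor
      · intro h y
        rw [← CS_dual_apply, h]
        rfl
      · intro h
        exact LinearMap.ext fun y => h y
    have h3 := LinearMap.finrank_range_add_finrank_ker ((CS_dual τ).comp (CS_crn k e f))
    have h4 := LinearMap.finrank_range_add_finrank_ker (ψ.toLinearMap.comp (CS_crn k e f))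
    rw [h2] at h3
    omega
  rw [h1]
  have hidf : ∀ i, IsIdempotentElem (ψ f i) := fun i => congrFun (show ψ f * ψ f = ψ f by rw [← map_mul, hf.eq]) i
  have hide : ∀ i, IsIdempotentElem (ψ e i) := fun i => congrFun (show ψ e * ψ e = ψ e by rw [← map_mul, he.eq]) i
  have h5 : LinearMap.range (ψ.toLinearMap.comp (CS_crn k e f)) =
      LinearMap.range (CS_crn k (ψ e) (ψ f) : (∀ i, Matrix (Fin (d i)) (Fin (d i)) k) →ₗ[k] _) := by
    apply le_antisymm
    · rintro _ ⟨x, rfl⟩
      refine ⟨ψ x, ?_⟩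
      change ψ f * ψ x * ψ e = ψ (f * x * e)
      rw [map_mul, map_mul]
    · rintro _ ⟨y, rfl⟩
      obtain ⟨x, rfl⟩ := hψs y
      refine ⟨x, ?_⟩
      change ψ (f * x * e) = ψ f * ψ x * ψ e
      rw [map_mul, map_mul]
  rw [h5, CS_range_pi (fun i => CS_two (ψ f i) (ψ e i)) _ (fun x i => rfl)]
  exact Finset.sum_congr rfl fun i _ => CS_rank_two _ _ (hidf i) (hide i)

/-- Cauchy-Schwarz, first form. -/
theorem cauchy_schwarz (τ : S →ₗ[k] k) (hτ : ∀ x y, τ (x * y) = τ (y * x)) (hn : ∀ x, IsNilpotent x → τ x = 0)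
    (e f : S) (he : IsIdempotentElem e) (hf : IsIdempotentElem f) : CS_h τ e f ^ 2 ≤ CS_h τ e e * CS_h τ f f := by
  obtain ⟨n, r, hr⟩ := CS_ranks τ hτ hn
  rw [hr e f he hf, hr e e he he, hr f f hf hf]
  have h := Finset.sum_mul_sq_le_sq_mul_sq Finset.univ (fun i => r f i) (fun i => r e i)
  calc _ ≤ (∑ i, r f i ^ 2) * ∑ i, r e i ^ 2 := h
    _ = _ := by
      rw [mul_comm]
      simp only [sq]

end alg

/-- The rank of the pairing `(x, y) ↦ tau (y * (f * x * e))`. -/
noncomputable def hh {k S : Type*} [Field k] [Ring S] [Algebra k S] (tau : S →ₗ[k] k) (e f : S) :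
    ℕ :=
  Module.finrank k (LinearMap.range
    ({ toFun := fun x => { toFun := fun y => tau (y * (f * x * e))
                           map_add' := fun y z => by rw [add_mul, map_add]
                           map_smul' := fun c y => by simp }
       map_add' := fun x z => by ext y; simp [mul_add, add_mul]
       map_smul' := fun c x => by ext y; simp } : S →ₗ[k] Module.Dual k S))

theorem CS_hh {k S : Type*} [Field k] [CharZero k] [IsAlgClosed k] [Ring S] [Algebra k S]
    [FiniteDimensional k S] (tau : S →ₗ[k] k) (e f : S) : hh tau e f = CS_h tau e f := rfl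

theorem HALF_CS {k S : Type*} [Field k] [IsAlgClosed k] [CharZero k] [Ring S] [Algebra k S]
    [FiniteDimensional k S] (tau : S →ₗ[k] k) (hsymm : ∀ x y, tau (x * y) = tau (y * x))
    (hnil : ∀ x, IsNilpotent x → tau x = 0) (e f : S) (he : e * e = e) (hf : f * f = f) :
    hh tau e f ^ 2 ≤ hh tau e e * hh tau f f := by
  rw [CS_hh, CS_hh, CS_hh]
  exact cauchy_schwarz tau hsymm hnil e f he hf

end MP021685Z
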