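import Mathlib

/-!
# MP_021685_ag, theorem HALF: the real number part
-/

namespace MP021685Z

open Filter Topology

/-- If `D j ^ 2 ≤ a D (j + 1)` and `D j ≤ μ ^ (2 ^ j) B` for all `j`, then `D 0 ≤ μ a`. -/
theorem Num_iter_bound {a μ B : ℝ} (ha : 0 < a) (hμ : 0 < μ) (D : ℕ → ℝ)
    (h1 : ∀ j, D j ^ 2 ≤ a * D (j + 1)) (h2 : ∀ j, D j ≤ μ ^ (2 ^ j) * B) : D 0 ≤ μ * a := by
  by_contra hcon
  rw [not_le] at hcon
  set r : ℝ := D 0 / (μ * a) with hr
  have hμa : 0 < μ * a := mul_pos hμ ha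
  have hr1 : 1 < r := by rw [hr, lt_div_iff₀ hμa]; linarith
  have hr0 : 0 < r := by linarith
  have key : ∀ j : ℕ, a * (μ * r) ^ (2 ^ j) ≤ D j := by
    intro j
    induction j with
    | zero =>
      have : a * (μ * r) ^ (2 ^ 0) = D 0 := by
        rw [hr, pow_zero, pow_one]
        field_simp
      exact this.le
    | succ j ih =>
      have h3 : (a * (μ * r) ^ (2 ^ j)) ^ 2 ≤ D j ^ 2 := by
        apply pow_le_pow_left₀ _ ih
        positivity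
      have h4 : a * (a * (μ * r) ^ (2 ^ (j + 1))) ≤ a * D (j + 1) := by
        calc a * (a * (μ * r) ^ (2 ^ (j + 1))) = (a * (μ * r) ^ (2 ^ j)) ^ 2 := by
              rw [pow_succ 2 j, pow_mul]; ring
          _ ≤ D j ^ 2 := h3
          _ ≤ a * D (j + 1) := h1 j
      exact le_of_mul_le_mul_left h4 ha
  have key2 : ∀ j : ℕ, r ^ j ≤ B / a := by
    intro j
    have h5 := (key j).trans (h2 j)
    have hp : 0 < μ ^ (2 ^ j) := by positivity
    have h6 : a * r ^ (2 ^ j) ≤ B := by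
      have : μ ^ (2 ^ j) * (a * r ^ (2 ^ j)) ≤ μ ^ (2 ^ j) * B := by
        calc μ ^ (2 ^ j) * (a * r ^ (2 ^ j)) = a * (μ * r) ^ (2 ^ j) := by rw [mul_pow]; ring
          _ ≤ _ := h5
      exact le_of_mul_le_mul_left this hp
    have h7 : r ^ j ≤ r ^ (2 ^ j) := pow_le_pow_right₀ hr1.le (Nat.lt_two_pow_self).le
    rw [le_div_iff₀ ha]
    nlinarith
  have h8 := tendsto_pow_atTop_atTop_of_one_lt hr1
  obtain ⟨j, hj⟩ := (h8.eventually_gt_atTop (B / a)).exists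
  exact absurd (key2 j) (not_le.mpr hj)

/-- The same with `μ` a natural number (possibly zero). -/
theorem Num_iter_bound_nat {a B : ℝ} (ha : 0 < a) (μ : ℕ) (D : ℕ → ℝ)
    (h1 : ∀ j, D j ^ 2 ≤ a * D (j + 1)) (h2 : ∀ j, D j ≤ (μ : ℝ) ^ (2 ^ j) * B) :
    D 0 ≤ μ * a := by
  rcases Nat.eq_zero_or_pos μ with h0 | h0
  · subst h0
    have := h2 0
    simpa using this
  · exact Num_iter_bound ha (by exact_mod_cast h0) D h1 h2

/-- Log-convexity and growth at least `L ^ m / (m + 1) ^ K` give ratios at least `L - ε`. -/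
theorem Num_ratio_one {L : ℝ} (hL : 0 < L) (K : ℕ) (a : ℕ → ℝ) (ha : ∀ m, 0 < a m)
    (h1 : ∀ m, a (m + 1) ^ 2 ≤ a m * a (m + 2)) (h3 : ∀ m : ℕ, L ^ m ≤ a m * ((m : ℝ) + 1) ^ K)
    {ε : ℝ} (hε : 0 < ε) : ∃ m0 : ℕ, ∀ m : ℕ, m0 ≤ m → (L - ε) * a m ≤ a (m + 1) := by
  have hmono : ∀ m, a (m + 1) / a m ≤ a (m + 2) / a (m + 1) := by
    intro m
    rw [div_le_div_iff₀ (ha m) (ha (m + 1))]
    have := h1 m
    nlinarith
  have hmono2 : Monotone (fun m => a (m + 1) / a m) := monotone_nat_of_le_succ hmono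
  rcases le_or_gt L ε with hle | hlt
  · refine ⟨0, fun m _ => ?_⟩
    have h5 := ha m
    have h6 := ha (m + 1)
    nlinarith
  by_contra hcon
  push Not at hcon
  -- all ratios are below L - ε
  set Q : ℝ := L - ε with hQ
  have hQ0 : 0 < Q := by rw [hQ]; linarith
  have hall : ∀ m, a (m + 1) < Q * a m := by
    intro m
    obtain ⟨m', hm', h5⟩ := hcon m
    have h6 : a (m + 1) / a m ≤ a (m' + 1) / a m' := hmono2 hm'
    have h7 : a (m' + 1) / a m' < Q := by rw [div_lt_iff₀ (ha m')]; exact h5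
    have h8 : a (m + 1) / a m < Q := lt_of_le_of_lt h6 h7
    rwa [div_lt_iff₀ (ha m)] at h8
  have hgrow : ∀ m, a m ≤ a 0 * Q ^ m := by
    intro m
    induction m with
    | zero => simp
    | succ m ih =>
      calc a (m + 1) ≤ Q * a m := (hall m).le
        _ ≤ Q * (a 0 * Q ^ m) := mul_le_mul_of_nonneg_left ih hQ0.le
        _ = a 0 * Q ^ (m + 1) := by ring
  have hbd : ∀ m : ℕ, (L / Q) ^ m ≤ a 0 * ((m : ℝ) + 1) ^ K := by
    intro m
    have h9 := h3 m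
    rw [div_pow, div_le_iff₀ (pow_pos hQ0 m)]
    calc L ^ m ≤ a m * ((m : ℝ) + 1) ^ K := h9
      _ ≤ a 0 * Q ^ m * ((m : ℝ) + 1) ^ K :=
          mul_le_mul_of_nonneg_right (hgrow m) (by positivity)
      _ = a 0 * ((m : ℝ) + 1) ^ K * Q ^ m := by ring
  have hR : 1 < L / Q := by rw [lt_div_iff₀ hQ0]; rw [hQ]; linarith
  -- exponential beats polynomial
  have hlim : Tendsto (fun n : ℕ => (n : ℝ) ^ K * (Q / L) ^ n) atTop (𝓝 0) := by
    apply tendsto_pow_const_mul_const_pow_of_abs_lt_one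
    rw [abs_of_pos (div_pos hQ0 hL), div_lt_one hL, hQ]
    linarith
  have hlim2 : Tendsto (fun n : ℕ => (((n + 1 : ℕ) : ℝ)) ^ K * (Q / L) ^ (n + 1)) atTop (𝓝 0) :=
    hlim.comp (tendsto_add_atTop_nat 1)
  have hc : 0 < (Q / L) / (2 * a 0) := by
    have := ha 0
    positivity
  obtain ⟨n, hn⟩ := (hlim2.eventually (gt_mem_nhds hc)).exists
  have h10 := hbd n
  have hQL : (L / Q) ^ n * (Q / L) ^ n = 1 := by
    rw [← mul_pow, div_mul_div_comm, mul_comm L Q, div_self (by positivity), one_pow]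
  have h11 : 1 ≤ a 0 * ((n : ℝ) + 1) ^ K * (Q / L) ^ n := by
    calc (1 : ℝ) = (L / Q) ^ n * (Q / L) ^ n := hQL.symm
      _ ≤ _ := mul_le_mul_of_nonneg_right h10 (by positivity)
  have h12 : ((n : ℝ) + 1) ^ K * (Q / L) ^ (n + 1) < (Q / L) / (2 * a 0) := by
    have := hn
    push_cast at this
    exact this
  have h13 : a 0 * (((n : ℝ) + 1) ^ K * (Q / L) ^ (n + 1)) < (Q / L) / 2 := by
    have := mul_lt_mul_of_pos_left h12 (ha 0)
    calc a 0 * (((n : ℝ) + 1) ^ K * (Q / L) ^ (n + 1)) < a 0 * ((Q / L) / (2 * a 0)) := this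
      _ = (Q / L) / 2 := by
        have := (ha 0).ne'
        field_simp
  have h14 : (Q / L) * 1 ≤ (Q / L) * (a 0 * ((n : ℝ) + 1) ^ K * (Q / L) ^ n) :=
    mul_le_mul_of_nonneg_left h11 (by positivity)
  have h15 : (Q / L) * (a 0 * ((n : ℝ) + 1) ^ K * (Q / L) ^ n) =
      a 0 * (((n : ℝ) + 1) ^ K * (Q / L) ^ (n + 1)) := by ring
  have h16 : 0 < Q / L := div_pos hQ0 hL
  linarith

/-- `a (m + s) / a m` is eventually at least `L ^ s - δ`. -/
theorem Num_ratio {L : ℝ} (hL : 0 < L) (K : ℕ) (a : ℕ → ℝ) (ha : ∀ m, 0 < a m)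
    (h1 : ∀ m, a (m + 1) ^ 2 ≤ a m * a (m + 2)) (h3 : ∀ m : ℕ, L ^ m ≤ a m * ((m : ℝ) + 1) ^ K)
    (s : ℕ) {δ : ℝ} (hδ : 0 < δ) :
    ∃ m0 : ℕ, ∀ m : ℕ, m0 ≤ m → (L ^ s - δ) * a m ≤ a (m + s) := by
  -- choose ε
  have hcont : Tendsto (fun ε : ℝ => (L - ε) ^ s) (𝓝 0) (𝓝 ((L - 0) ^ s)) :=
    ((continuous_const.sub continuous_id).pow s).tendsto 0
  rw [sub_zero] at hcont
  have hev : ∀ᶠ ε in 𝓝 (0 : ℝ), L ^ s - δ < (L - ε) ^ s :=
    hcont.eventually (lt_mem_nhds (by linarith))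
  have hev2 : ∀ᶠ ε in 𝓝 (0 : ℝ), ε < L := gt_mem_nhds hL
  obtain ⟨η, hη, hball⟩ := Metric.eventually_nhds_iff.mp (hev.and hev2)
  have hη2 : dist (η / 2) (0 : ℝ) < η := by
    rw [Real.dist_eq, sub_zero, abs_of_pos (by linarith)]
    linarith
  obtain ⟨hε1, hε2⟩ := hball hη2
  set ε : ℝ := η / 2 with hεdef
  have hε : 0 < ε := by rw [hεdef]; linarith
  obtain ⟨m0, hm0⟩ := Num_ratio_one hL K a ha h1 h3 hε
  refine ⟨m0, fun m hm => ?_⟩
  have hstep : ∀ j : ℕ, (L - ε) ^ j * a m ≤ a (m + j) := by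
    intro j
    induction j with
    | zero => simp
    | succ j ih =>
      have h5 := hm0 (m + j) (by omega)
      calc (L - ε) ^ (j + 1) * a m = (L - ε) * ((L - ε) ^ j * a m) := by ring
        _ ≤ (L - ε) * a (m + j) := mul_le_mul_of_nonneg_left ih (by linarith)
        _ ≤ a (m + (j + 1)) := h5
  calc (L ^ s - δ) * a m ≤ (L - ε) ^ s * a m := mul_le_mul_of_nonneg_right hε1.le (ha m).le
    _ ≤ a (m + s) := hstep s

/-- The end of the proof: `b ≥ a + h` with the lower bounds for `h`. -/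
theorem Num_half {N : ℝ} (hN : 1 ≤ N) (a b : ℕ → ℝ) (ha : ∀ n, 0 ≤ a n)
    (hodd : ∀ m, a (2 * m + 1) ≤ N * a (2 * m))
    (hb : ∀ δ : ℝ, 0 < δ → ∃ m0 : ℕ, ∀ m : ℕ, m0 ≤ m →
      a (2 * m) + (1 - δ) * a (2 * m) ≤ b (2 * m) ∧
      a (2 * m + 1) + (N - δ) * a (2 * m) ≤ b (2 * m + 1))
    {c : ℝ} (hc : 1 / 2 < c) : ∃ n0 : ℕ, ∀ n : ℕ, n0 ≤ n → a n ≤ c * b n := by
  have hc0 : 0 < c := by linarith
  -- δ with c (2 - δ) ≥ 1 and δ < 1
  obtain ⟨δ, hδ0, hδ1, hδ2⟩ : ∃ δ : ℝ, 0 < δ ∧ δ < 1 ∧ 1 ≤ c * (2 - δ) := by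
    refine ⟨min (1 / 2) (2 - 1 / c), ?_, ?_, ?_⟩
    · apply lt_min (by norm_num)
      have : 1 / c < 2 := by rw [div_lt_iff₀ hc0]; linarith
      linarith
    · exact lt_of_le_of_lt (min_le_left _ _) (by norm_num)
    · have h5 : min (1 / 2) (2 - 1 / c) ≤ 2 - 1 / c := min_le_right _ _
      have h6 : 1 / c ≤ 2 - min (1 / 2) (2 - 1 / c) := by linarith
      calc (1 : ℝ) = c * (1 / c) := by field_simp
        _ ≤ c * (2 - min (1 / 2) (2 - 1 / c)) := mul_le_mul_of_nonneg_left h6 hc0.le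
  obtain ⟨m0, hm0⟩ := hb δ hδ0
  refine ⟨2 * m0, fun n hn => ?_⟩
  rcases Nat.even_or_odd' n with ⟨m, rfl | rfl⟩
  · obtain ⟨h5, -⟩ := hm0 m (by omega)
    have h6 := ha (2 * m)
    calc a (2 * m) = 1 * a (2 * m) := (one_mul _).symm
      _ ≤ (c * (2 - δ)) * a (2 * m) := mul_le_mul_of_nonneg_right hδ2 h6
      _ = c * (a (2 * m) + (1 - δ) * a (2 * m)) := by ring
      _ ≤ c * b (2 * m) := mul_le_mul_of_nonneg_left h5 hc0.le
  · obtain ⟨-, h5⟩ := hm0 m (by omega)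
    have h6 := ha (2 * m)
    have h7 := ha (2 * m + 1)
    have h8 := hodd m
    have h9 : (1 - δ) * a (2 * m + 1) ≤ (N - δ) * a (2 * m) := by
      calc (1 - δ) * a (2 * m + 1) ≤ (1 - δ) * (N * a (2 * m)) :=
            mul_le_mul_of_nonneg_left h8 (by linarith)
        _ = ((1 - δ) * N) * a (2 * m) := by ring
        _ ≤ (N - δ) * a (2 * m) := by
            apply mul_le_mul_of_nonneg_right _ h6
            nlinarith
    calc a (2 * m + 1) = 1 * a (2 * m + 1) := (one_mul _).symm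
      _ ≤ (c * (2 - δ)) * a (2 * m + 1) := mul_le_mul_of_nonneg_right hδ2 h7
      _ = c * (a (2 * m + 1) + (1 - δ) * a (2 * m + 1)) := by ring
      _ ≤ c * (a (2 * m + 1) + (N - δ) * a (2 * m)) := by
          apply mul_le_mul_of_nonneg_left _ hc0.le
          linarith
      _ ≤ c * b (2 * m + 1) := mul_le_mul_of_nonneg_left h5 hc0.le

end MP021685Z
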