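import Pool.Agent.Lib.MP_021685_agZ.Rot
import Pool.Agent.Lib.MP_021685_agZ.CS
import Pool.Agent.Lib.MP_021685_agZ.Num

namespace MP021685Z

open Matrix

section

variable {k : Type*} [Field k]

theorem finrank_map_ker {M N : Type*} [AddCommGroup M] [Module k M] [AddCommGroup N] [Module k N]
    (P : Submodule k M) (q : M →ₗ[k] N) (R : Submodule k M) (hR : R = LinearMap.ker q) :
    Module.finrank k (P.map q) = Module.finrank k (P.map R.mkQ) := by
  subst hR
  have hinj : Function.Injective ((LinearMap.ker q).liftQ q le_rfl) := by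
    rw [← LinearMap.ker_eq_bot]
    exact Submodule.ker_liftQ_eq_bot _ _ _ le_rfl
  have h1 : P.map q = (P.map (LinearMap.ker q).mkQ).map ((LinearMap.ker q).liftQ q le_rfl) := by
    rw [← Submodule.map_comp, Submodule.liftQ_mkQ]
  rw [h1]
  exact (LinearEquiv.finrank_eq (Submodule.equivMapOfInjective _ hinj _)).symm

end

variable {k : Type*} [Field k] {ι : Type} [Fintype ι] [DecidableEq ι]

variable {B : Matrix ι ι k} {C : ∀ m n : ℕ, Submodule k (Mor k ι m n)}

/-- The algebra of endomorphisms of `V^{⊗I} ⊕ V^{⊗J}`. -/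
def blockAlg (hC : IsCorrFamily B C) (I J : Type) [Fintype I] [Fintype J] [DecidableEq I]
    [DecidableEq J] : Subalgebra k (Matrix ((I → ι) ⊕ (J → ι)) ((I → ι) ⊕ (J → ι)) k) where
  carrier := {M | M.toBlocks₁₁ ∈ Hom C I I ∧ M.toBlocks₁₂ ∈ Hom C J I ∧
    M.toBlocks₂₁ ∈ Hom C I J ∧ M.toBlocks₂₂ ∈ Hom C J J}
  mul_mem' := by
    rintro a b ⟨a1, a2, a3, a4⟩ ⟨b1, b2, b3, b4⟩
    have h : a * b = fromBlocks (a.toBlocks₁₁ * b.toBlocks₁₁ + a.toBlocks₁₂ * b.toBlocks₂₁)
        (a.toBlocks₁₁ * b.toBlocks₁₂ + a.toBlocks₁₂ * b.toBlocks₂₂)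
        (a.toBlocks₂₁ * b.toBlocks₁₁ + a.toBlocks₂₂ * b.toBlocks₂₁)
        (a.toBlocks₂₁ * b.toBlocks₁₂ + a.toBlocks₂₂ * b.toBlocks₂₂) := by
      conv_lhs => rw [← fromBlocks_toBlocks a, ← fromBlocks_toBlocks b]
      rw [fromBlocks_multiply]
    rw [Set.mem_ofPred_eq, h]
    simp only [toBlocks_fromBlocks₁₁, toBlocks_fromBlocks₁₂, toBlocks_fromBlocks₂₁,
      toBlocks_fromBlocks₂₂]
    exact ⟨add_mem (mul_mem_Hom hC a1 b1) (mul_mem_Hom hC a2 b3),
      add_mem (mul_mem_Hom hC a1 b2) (mul_mem_Hom hC a2 b4),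
      add_mem (mul_mem_Hom hC a3 b1) (mul_mem_Hom hC a4 b3),
      add_mem (mul_mem_Hom hC a3 b2) (mul_mem_Hom hC a4 b4)⟩
  add_mem' := by
    rintro a b ⟨a1, a2, a3, a4⟩ ⟨b1, b2, b3, b4⟩
    exact ⟨add_mem a1 b1, add_mem a2 b2, add_mem a3 b3, add_mem a4 b4⟩
  algebraMap_mem' := by
    intro c
    have h : algebraMap k (Matrix ((I → ι) ⊕ (J → ι)) ((I → ι) ⊕ (J → ι)) k) c =
        fromBlocks (c • 1) 0 0 (c • 1) := by
      rw [Algebra.algebraMap_eq_smul_one, ← fromBlocks_one, fromBlocks_smul]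
      simp
    rw [Set.mem_ofPred_eq, h]
    simp only [toBlocks_fromBlocks₁₁, toBlocks_fromBlocks₁₂, toBlocks_fromBlocks₂₁,
      toBlocks_fromBlocks₂₂]
    exact ⟨Submodule.smul_mem _ _ (one_mem_Hom hC I), zero_mem _, zero_mem _,
      Submodule.smul_mem _ _ (one_mem_Hom hC J)⟩

theorem mem_blockAlg (hC : IsCorrFamily B C) {I J : Type} [Fintype I] [Fintype J] [DecidableEq I]
    [DecidableEq J] {a : Matrix (I → ι) (I → ι) k} {b : Matrix (I → ι) (J → ι) k}
    {c : Matrix (J → ι) (I → ι) k} {d : Matrix (J → ι) (J → ι) k} (ha : a ∈ Hom C I I)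
    (hb : b ∈ Hom C J I) (hc : c ∈ Hom C I J) (hd : d ∈ Hom C J J) :
    fromBlocks a b c d ∈ blockAlg hC I J := by
  show _ ∧ _ ∧ _ ∧ _
  simp only [toBlocks_fromBlocks₁₁, toBlocks_fromBlocks₁₂, toBlocks_fromBlocks₂₁,
      toBlocks_fromBlocks₂₂]
  exact ⟨ha, hb, hc, hd⟩

theorem trace_fb {a b : Type*} [Fintype a] [Fintype b] (A : Matrix a a k) (B : Matrix a b k)
    (C : Matrix b a k) (D : Matrix b b k) :
    trace (fromBlocks A B C D) = trace A + trace D := by
  simp [Matrix.trace, Fintype.sum_sum_type]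

/-- The trace on the block algebra. -/
def btr (hC : IsCorrFamily B C) (I J : Type) [Fintype I] [Fintype J] [DecidableEq I]
    [DecidableEq J] : blockAlg hC I J →ₗ[k] k :=
  (traceLinearMap _ k k) ∘ₗ (blockAlg hC I J).val.toLinearMap

theorem hh_prk {S : Type*} [Ring S] [Algebra k S] (tau : S →ₗ[k] k) (e f : S)
    {a b : Type*} [Fintype a] [Fintype b] (P : Submodule k (Matrix b a k))
    (Q : Submodule k (Matrix a b k)) (p : S →ₗ[k] Matrix b a k) (r : S →ₗ[k] Matrix a b k)
    (hp : LinearMap.range p = P) (hr : LinearMap.range r = Q)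
    (h : ∀ x y, tau (y * (f * x * e)) = trace (r y * p x)) : hh tau e f = prk P Q := by
  let q : Matrix b a k →ₗ[k] Module.Dual k S :=
    { toFun := fun F => { toFun := fun y => trace (r y * F)
                          map_add' := fun y z => by rw [map_add, Matrix.add_mul, trace_add]
                          map_smul' := fun c y => by
                            rw [map_smul, Matrix.smul_mul, trace_smul]; rfl }
      map_add' := fun F G => by
        ext y
        show trace (r y * (F + G)) = trace (r y * F) + trace (r y * G)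
        rw [Matrix.mul_add, trace_add]
      map_smul' := fun c F => by
        ext y
        show trace (r y * (c • F)) = c • trace (r y * F)
        rw [Matrix.mul_smul, trace_smul] }
  have hq : rad Q = LinearMap.ker q := by
    ext F
    constructor
    · intro hF
      rw [LinearMap.mem_ker]
      ext y
      exact hF (r y) (hr ▸ LinearMap.mem_range_self r y)
    · intro hF G hG
      rw [← hr] at hG
      obtain ⟨y, rfl⟩ := hG
      rw [LinearMap.mem_ker] at hF
      exact LinearMap.congr_fun hF y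
  unfold hh prk
  rw [← finrank_map_ker P q (rad Q) hq, ← hp, ← LinearMap.range_comp]
  refine congrArg (fun L : S →ₗ[k] Module.Dual k S => Module.finrank k (LinearMap.range L)) ?_
  apply LinearMap.ext
  intro x
  apply LinearMap.ext
  intro y
  exact h x y

/-- Cauchy-Schwarz. -/
theorem cs_hom [IsAlgClosed k] [CharZero k] (hC : IsCorrFamily B C) {I J : Type}
    [Fintype I] [Fintype J] [DecidableEq I] [DecidableEq J]
    (η : Matrix (I → ι) (I → ι) k) (θ : Matrix (J → ι) (J → ι) k)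
    (hη : η ∈ Hom C I I) (hη2 : η * η = η) (hθ : θ ∈ Hom C J J) (hθ2 : θ * θ = θ) :
    prk (sand θ (Hom C I J) η) (Hom C J I) ^ 2 ≤
      prk (sand η (Hom C I I) η) (Hom C I I) * prk (sand θ (Hom C J J) θ) (Hom C J J) := by
  classical
  let S := blockAlg hC I J
  let e : S := ⟨fromBlocks η 0 0 0, mem_blockAlg hC hη (zero_mem _) (zero_mem _) (zero_mem _)⟩
  let f : S := ⟨fromBlocks 0 0 0 θ, mem_blockAlg hC (zero_mem _) (zero_mem _) (zero_mem _) hθ⟩
  have he : e * e = e := by
    apply Subtype.ext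
    show fromBlocks η 0 0 0 * fromBlocks η 0 0 0 = fromBlocks η 0 0 0
    rw [fromBlocks_multiply]
    simp [hη2]
  have hf : f * f = f := by
    apply Subtype.ext
    show fromBlocks 0 0 0 θ * fromBlocks 0 0 0 θ = fromBlocks 0 0 0 θ
    rw [fromBlocks_multiply]
    simp [hθ2]
  have hcs := HALF_CS (btr hC I J)
    (fun x y => by
      show trace (x.1 * y.1) = trace (y.1 * x.1)
      exact trace_mul_comm _ _)
    (fun x hx => by
      have h1 : IsNilpotent (x.1 : Matrix _ _ k) := hx.map (blockAlg hC I J).val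
      exact (isNilpotent_trace_of_isNilpotent h1).eq_zero) e f he hf
  let b11 : S →ₗ[k] Matrix (I → ι) (I → ι) k :=
    { toFun := fun x => x.1.toBlocks₁₁, map_add' := fun _ _ => rfl, map_smul' := fun _ _ => rfl }
  let b12 : S →ₗ[k] Matrix (I → ι) (J → ι) k :=
    { toFun := fun x => x.1.toBlocks₁₂, map_add' := fun _ _ => rfl, map_smul' := fun _ _ => rfl }
  let b21 : S →ₗ[k] Matrix (J → ι) (I → ι) k :=
    { toFun := fun x => x.1.toBlocks₂₁, map_add' := fun _ _ => rfl, map_smul' := fun _ _ => rfl }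
  let b22 : S →ₗ[k] Matrix (J → ι) (J → ι) k :=
    { toFun := fun x => x.1.toBlocks₂₂, map_add' := fun _ _ => rfl, map_smul' := fun _ _ => rfl }
  have r11 : LinearMap.range b11 = Hom C I I := by
    ext F
    constructor
    · rintro ⟨x, rfl⟩; exact x.2.1
    · intro hF
      exact ⟨⟨fromBlocks F 0 0 0, mem_blockAlg hC hF (zero_mem _) (zero_mem _) (zero_mem _)⟩,
        toBlocks_fromBlocks₁₁ _ _ _ _⟩
  have r12 : LinearMap.range b12 = Hom C J I := by
    ext F
    constructor
    · rintro ⟨x, rfl⟩; exact x.2.2.1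
    · intro hF
      exact ⟨⟨fromBlocks 0 F 0 0, mem_blockAlg hC (zero_mem _) hF (zero_mem _) (zero_mem _)⟩,
        toBlocks_fromBlocks₁₂ _ _ _ _⟩
  have r21 : LinearMap.range b21 = Hom C I J := by
    ext F
    constructor
    · rintro ⟨x, rfl⟩; exact x.2.2.2.1
    · intro hF
      exact ⟨⟨fromBlocks 0 0 F 0, mem_blockAlg hC (zero_mem _) (zero_mem _) hF (zero_mem _)⟩,
        toBlocks_fromBlocks₂₁ _ _ _ _⟩
  have r22 : LinearMap.range b22 = Hom C J J := by
    ext F
    constructor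
    · rintro ⟨x, rfl⟩; exact x.2.2.2.2
    · intro hF
      exact ⟨⟨fromBlocks 0 0 0 F, mem_blockAlg hC (zero_mem _) (zero_mem _) (zero_mem _) hF⟩,
        toBlocks_fromBlocks₂₂ _ _ _ _⟩
  have h1 : hh (btr hC I J) e f = prk (sand θ (Hom C I J) η) (Hom C J I) := by
    refine hh_prk _ _ _ _ _ (lr θ η ∘ₗ b21) b12 ?_ r12 ?_
    · rw [LinearMap.range_comp, r21]; rfl
    · intro x y
      show trace (y.1 * (fromBlocks 0 0 0 θ * x.1 * fromBlocks η 0 0 0)) =
        trace (y.1.toBlocks₁₂ * (θ * x.1.toBlocks₂₁ * η))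
      conv_lhs => rw [← fromBlocks_toBlocks x.1, ← fromBlocks_toBlocks y.1]
      rw [fromBlocks_multiply, fromBlocks_multiply, fromBlocks_multiply, trace_fb]
      simp
  have h2 : hh (btr hC I J) e e = prk (sand η (Hom C I I) η) (Hom C I I) := by
    refine hh_prk _ _ _ _ _ (lr η η ∘ₗ b11) b11 ?_ r11 ?_
    · rw [LinearMap.range_comp, r11]; rfl
    · intro x y
      show trace (y.1 * (fromBlocks η 0 0 0 * x.1 * fromBlocks η 0 0 0)) =
        trace (y.1.toBlocks₁₁ * (η * x.1.toBlocks₁₁ * η))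
      conv_lhs => rw [← fromBlocks_toBlocks x.1, ← fromBlocks_toBlocks y.1]
      rw [fromBlocks_multiply, fromBlocks_multiply, fromBlocks_multiply, trace_fb]
      simp
  have h3 : hh (btr hC I J) f f = prk (sand θ (Hom C J J) θ) (Hom C J J) := by
    refine hh_prk _ _ _ _ _ (lr θ θ ∘ₗ b22) b22 ?_ r22 ?_
    · rw [LinearMap.range_comp, r22]; rfl
    · intro x y
      show trace (y.1 * (fromBlocks 0 0 0 θ * x.1 * fromBlocks 0 0 0 θ)) =
        trace (y.1.toBlocks₂₂ * (θ * x.1.toBlocks₂₂ * θ))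
      conv_lhs => rw [← fromBlocks_toBlocks x.1, ← fromBlocks_toBlocks y.1]
      rw [fromBlocks_multiply, fromBlocks_multiply, fromBlocks_multiply, trace_fb]
      simp
  rw [h1, h2, h3] at hcs
  exact hcs

end MP021685Z
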