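import Pool.Agent.Lib.MP_021685_agZ.Trans

namespace MP021685Z

open Matrix

variable {k : Type*} [Field k] {ι : Type} [Fintype ι] [DecidableEq ι]

variable {B : Matrix ι ι k}

theorem rotR_rotL (hB : IsUnit B.det) {R I J : Type} [Fintype R] [DecidableEq R]
    (F : Matrix ((R ⊕ J) → ι) (I → ι) k) : rotR B (rotL B F) = F := by
  ext z y
  simp only [rotR, rotL]
  have h := formR_inv_mul hB R
  calc ∑ t : R → ι, (∏ i, B⁻¹ (z (Sum.inl i)) (t i)) *
        ∑ s : R → ι, (∏ i, B (Sum.elim t y (Sum.inl i)) (s i)) *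
          F (Sum.elim s (z ∘ Sum.inr)) (Sum.elim t y ∘ Sum.inr)
      = ∑ s : R → ι, (∑ t : R → ι, (∏ i, B⁻¹ (z (Sum.inl i)) (t i)) * ∏ i, B (t i) (s i)) *
          F (Sum.elim s (z ∘ Sum.inr)) y := by
        simp only [Finset.mul_sum, Finset.sum_mul]
        rw [Finset.sum_comm]
        refine Finset.sum_congr rfl fun s _ => Finset.sum_congr rfl fun t _ => ?_
        rw [Sum.elim_comp_inr]
        simp only [Sum.elim_inl]
        ring
    _ = ∑ s : R → ι, (if z ∘ Sum.inl = s then 1 else 0) *
          F (Sum.elim s (z ∘ Sum.inr)) y := by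
        refine Finset.sum_congr rfl fun s _ => ?_
        congr 1
        exact congrFun (congrFun h (z ∘ Sum.inl)) s
    _ = F z y := by
        simp

theorem rotL_rotR (hB : IsUnit B.det) {R I J : Type} [Fintype R] [DecidableEq R]
    (G : Matrix (J → ι) ((R ⊕ I) → ι) k) : rotL B (rotR B G) = G := by
  ext y z
  simp only [rotR, rotL]
  have h := formR_mul_inv hB R
  calc ∑ s : R → ι, (∏ i, B (z (Sum.inl i)) (s i)) *
        ∑ t : R → ι, (∏ i, B⁻¹ (Sum.elim s y (Sum.inl i)) (t i)) *
          G (Sum.elim s y ∘ Sum.inr) (Sum.elim t (z ∘ Sum.inr))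
      = ∑ t : R → ι, (∑ s : R → ι, (∏ i, B (z (Sum.inl i)) (s i)) * ∏ i, B⁻¹ (s i) (t i)) *
          G y (Sum.elim t (z ∘ Sum.inr)) := by
        simp only [Finset.mul_sum, Finset.sum_mul]
        rw [Finset.sum_comm]
        refine Finset.sum_congr rfl fun s _ => Finset.sum_congr rfl fun t _ => ?_
        rw [Sum.elim_comp_inr]
        simp only [Sum.elim_inl]
        ring
    _ = ∑ t : R → ι, (if z ∘ Sum.inl = t then 1 else 0) *
          G y (Sum.elim t (z ∘ Sum.inr)) := by
        refine Finset.sum_congr rfl fun s _ => ?_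
        congr 1
        exact congrFun (congrFun h (z ∘ Sum.inl)) s
    _ = G y z := by
        simp

theorem trace_rot (hB : IsUnit B.det) {R I J : Type} [Fintype R] [Fintype I] [Fintype J]
    [DecidableEq R] [DecidableEq I] [DecidableEq J] (F : Matrix ((R ⊕ J) → ι) (I → ι) k)
    (G : Matrix (I → ι) ((R ⊕ J) → ι) k) :
    trace (rotD B G * rotL B F) = trace (G * F) := by
  have h := formR_inv_mul hB R
  have key : ∀ (P : ((R ⊕ J) → ι) → k), ∑ x, P x = ∑ s : R → ι, ∑ y : J → ι, P (Sum.elim s y) := by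
    intro P
    rw [← Fintype.sum_prod_type']
    exact (Equiv.sum_comp (Equiv.sumArrowEquivProdArrow R J ι).symm P).symm
  have key2 : ∀ (P : ((R ⊕ I) → ι) → k), ∑ x, P x = ∑ s : R → ι, ∑ y : I → ι, P (Sum.elim s y) := by
    intro P
    rw [← Fintype.sum_prod_type']
    exact (Equiv.sum_comp (Equiv.sumArrowEquivProdArrow R I ι).symm P).symm
  simp only [Matrix.trace, Matrix.diag_apply, Matrix.mul_apply]
  rw [key2]
  simp only [rotD, rotL, Sum.elim_inl, Sum.elim_comp_inr]
  calc ∑ r : R → ι, ∑ x : I → ι, ∑ y : J → ι,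
        (∑ t : R → ι, (∏ i, B⁻¹ (t i) (r i)) * G x (Sum.elim t y)) *
          ∑ s : R → ι, (∏ i, B (r i) (s i)) * F (Sum.elim s y) x
      = ∑ x : I → ι, ∑ y : J → ι, ∑ t : R → ι, ∑ s : R → ι,
          (∑ r : R → ι, (∏ i, B⁻¹ (t i) (r i)) * ∏ i, B (r i) (s i)) *
            (G x (Sum.elim t y) * F (Sum.elim s y) x) := by
        rw [Finset.sum_comm]
        refine Finset.sum_congr rfl fun x _ => ?_
        rw [Finset.sum_comm]
        refine Finset.sum_congr rfl fun y _ => ?_
        simp only [Finset.sum_mul_sum]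
        rw [Finset.sum_comm]
        refine Finset.sum_congr rfl fun t _ => ?_
        rw [Finset.sum_comm]
        refine Finset.sum_congr rfl fun s _ => ?_
        rw [Finset.sum_mul]
        exact Finset.sum_congr rfl fun r _ => by ring
    _ = ∑ x : I → ι, ∑ y : J → ι, ∑ t : R → ι, ∑ s : R → ι,
          (if t = s then 1 else 0) * (G x (Sum.elim t y) * F (Sum.elim s y) x) := by
        refine Finset.sum_congr rfl fun x _ => Finset.sum_congr rfl fun y _ =>
          Finset.sum_congr rfl fun t _ => Finset.sum_congr rfl fun s _ => ?_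
        congr 1
        exact congrFun (congrFun h t) s
    _ = _ := by
        simp only [ite_mul, one_mul, zero_mul, Finset.sum_ite_eq, Finset.mem_univ, if_true]
        refine Finset.sum_congr rfl fun x _ => ?_
        rw [key, Finset.sum_comm]

end MP021685Z
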