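import Mathlib

/-!
# The rate of convergence (helper88)
-/

namespace MP021685Z

/-- The ratios converge with a rate. -/
theorem eff_ratio (N : ℕ) (hN : 1 ≤ N) (a : ℕ → ℝ) (ha : ∀ m, 0 < a m) (h0 : a 0 ≤ 1)
    (h1 : ∀ m, a (m + 1) ^ 2 ≤ a m * a (m + 2))
    (h3 : ∀ m : ℕ, (N : ℝ) ^ (2 * m) ≤ a m * ((m : ℝ) + 1) ^ (N ^ 2)) (s m : ℕ) :
    (N : ℝ) ^ (2 * s) * (1 - s * ((N : ℝ) ^ 2 * Real.log ((m : ℝ) + 2) / ((m : ℝ) + 1))) * a m ≤
      a (m + s) := by
  have hN0 : (0 : ℝ) < N := by exact_mod_cast hN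
  -- the ratios
  obtain ⟨q, hq⟩ : ∃ q : ℕ → ℝ, ∀ i, q i = a (i + 1) / a i := ⟨_, fun _ => rfl⟩
  have hq0 : ∀ i, 0 < q i := fun i => by
    rw [hq]
    exact div_pos (ha _) (ha _)
  have hqa : ∀ i, a (i + 1) = q i * a i := fun i => by
    rw [hq, div_mul_cancel₀ _ (ha i).ne']
  have hqm : ∀ i, q i ≤ q (i + 1) := fun i => by
    rw [hq, hq, div_le_div_iff₀ (ha _) (ha _)]
    have h4 := h1 i
    rw [sq, mul_comm (a i)] at h4
    exact h4
  have hqmono : Monotone q := monotone_nat_of_le_succ hqm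
  have hup : ∀ j, j ≤ m → a (j + 1) ≤ q m ^ (j + 1) := by
    intro j
    induction j with
    | zero =>
      intro _
      rw [zero_add, pow_one, hqa 0]
      calc q 0 * a 0 ≤ q 0 * 1 := mul_le_mul_of_nonneg_left h0 (hq0 0).le
        _ ≤ q m := by rw [mul_one]; exact hqmono (Nat.zero_le m)
    | succ j ih =>
      intro hj
      rw [hqa (j + 1), pow_succ, mul_comm]
      exact mul_le_mul (ih (by omega)) (hqmono hj) (hq0 _).le (pow_nonneg (hq0 m).le _)
  have hlow : ∀ j, q m ^ j * a m ≤ a (m + j) := by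
    intro j
    induction j with
    | zero => simp
    | succ j ih =>
      have h4 : a (m + (j + 1)) = q (m + j) * a (m + j) := hqa (m + j)
      rw [h4, pow_succ, mul_comm (q m ^ j), mul_assoc]
      exact mul_le_mul (hqmono (Nat.le_add_right m j)) ih (mul_nonneg (pow_nonneg (hq0 m).le _) (ha m).le)
        (hq0 _).le
  -- the bound for the ratio
  obtain ⟨l, hl⟩ : ∃ l : ℝ, l = (N : ℝ) ^ 2 * Real.log ((m : ℝ) + 2) / ((m : ℝ) + 1) := ⟨_, rfl⟩
  rw [← hl]
  have hm1 : (0 : ℝ) < (m : ℝ) + 1 := by positivity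
  have h5 : -l ≤ Real.log (q m / (N : ℝ) ^ 2) := by
    have h6 : (N : ℝ) ^ (2 * (m + 1)) ≤ q m ^ (m + 1) * ((m : ℝ) + 2) ^ (N ^ 2) := by
      have h7 := h3 (m + 1)
      push_cast at h7
      rw [show (m : ℝ) + 1 + 1 = (m : ℝ) + 2 by ring] at h7
      exact h7.trans (mul_le_mul_of_nonneg_right (hup m le_rfl) (by positivity))
    have h7 := Real.log_le_log (by positivity) h6
    rw [Real.log_mul (pow_pos (hq0 m) _).ne' (by positivity), Real.log_pow, Real.log_pow, Real.log_pow] at h7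
    push_cast at h7
    rw [Real.log_div (hq0 m).ne' (by positivity), Real.log_pow]
    push_cast
    have h8 : l * ((m : ℝ) + 1) = (N : ℝ) ^ 2 * Real.log ((m : ℝ) + 2) := by
      rw [hl, div_mul_cancel₀ _ hm1.ne']
    have h9 : ((m : ℝ) + 1) * (-l) ≤ ((m : ℝ) + 1) * (Real.log (q m) - 2 * Real.log N) := by
      linarith
    exact le_of_mul_le_mul_left h9 hm1
  have hqN : 0 < q m / (N : ℝ) ^ 2 := div_pos (hq0 m) (by positivity)
  have h6 : 1 - s * l ≤ (q m / (N : ℝ) ^ 2) ^ s := by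
    have h7 : Real.exp (s * Real.log (q m / (N : ℝ) ^ 2)) = (q m / (N : ℝ) ^ 2) ^ s := by
      rw [mul_comm, Real.exp_mul, Real.exp_log hqN, Real.rpow_natCast]
    rw [← h7]
    have h8 := Real.add_one_le_exp (s * Real.log (q m / (N : ℝ) ^ 2))
    have h9 : (s : ℝ) * (-l) ≤ s * Real.log (q m / (N : ℝ) ^ 2) := mul_le_mul_of_nonneg_left h5 (Nat.cast_nonneg _)
    linarith
  calc (N : ℝ) ^ (2 * s) * (1 - s * l) * a m ≤ (N : ℝ) ^ (2 * s) * (q m / (N : ℝ) ^ 2) ^ s * a m :=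
        mul_le_mul_of_nonneg_right (mul_le_mul_of_nonneg_left h6 (by positivity)) (ha m).le
    _ = q m ^ s * a m := by
        rw [div_pow, ← pow_mul, mul_div_cancel₀ _ (by positivity)]
    _ ≤ a (m + s) := hlow s

/-- The threshold. -/
theorem eff_log {x y : ℝ} (hx : 2 ≤ x) (hy : x * Real.log x + 1 ≤ y) : x * Real.log (y + 1) < 2 * y := by
  have hx0 : 0 < x := by linarith
  have hlx : 0 ≤ Real.log x := Real.log_nonneg (by linarith)
  have hlx1 : Real.log x ≤ x - 1 := Real.log_le_sub_one_of_pos hx0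
  have hl2 : 1 / 2 ≤ Real.log x := by
    have h1 : Real.log 2 ≤ Real.log x := Real.log_le_log (by norm_num) hx
    have h2 := Real.log_two_gt_d9
    linarith
  obtain ⟨c, hc⟩ : ∃ c : ℝ, c = x * Real.log x + 2 := ⟨_, rfl⟩
  have hc0 : 0 < c := by
    rw [hc]
    nlinarith
  have hcx : x ≤ 2 * c := by
    rw [hc]
    nlinarith
  have hc2 : c ≤ x ^ 2 := by
    rw [hc]
    nlinarith
  have h1 : Real.log c ≤ 2 * Real.log x := by
    have h2 := Real.log_le_log hc0 hc2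
    rwa [Real.log_pow, Nat.cast_ofNat] at h2
  have hy0 : 0 < y + 1 := by nlinarith
  have h2 : Real.log (y + 1) ≤ 2 * Real.log x + (y + 1 - c) / c := by
    have h3 : Real.log (y + 1) = Real.log ((y + 1) / c) + Real.log c := by
      rw [Real.log_div hy0.ne' hc0.ne']
      ring
    have h4 := Real.log_le_sub_one_of_pos (div_pos hy0 hc0)
    have h5 : (y + 1 - c) / c = (y + 1) / c - 1 := by field_simp
    linarith
  have h3 : x * ((y + 1 - c) / c) ≤ 2 * (y + 1 - c) := by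
    have h4 : 0 ≤ y + 1 - c := by
      rw [hc]
      linarith
    rw [mul_div_assoc', div_le_iff₀ hc0]
    nlinarith
  have h4 : x * Real.log (y + 1) ≤ x * (2 * Real.log x) + x * ((y + 1 - c) / c) := by
    rw [← mul_add]
    exact mul_le_mul_of_nonneg_left h2 hx0.le
  rw [hc] at h3
  rw [hc] at h4
  linarith

/-- The numerical conclusion. -/
theorem eff_final {N r : ℕ} (hN : 1 ≤ N) {ε x : ℝ} (hε : 0 < ε) (hε1 : ε ≤ 1)
    (hx : x = ((r : ℝ) + 2) * (N : ℝ) ^ (r + 3) / ε) {n m : ℕ} (hn : 2 * x * Real.log x + 2 ≤ n)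
    (hm : n = 2 * m ∨ n = 2 * m + 1) {a b η : ℝ} (ha : 0 < a) (hη : η ≤ ((r : ℝ) + 2) / 2 * (N : ℝ) ^ (r + 3) *
      (Real.log ((m : ℝ) + 2) / ((m : ℝ) + 1))) (hb : a * (2 - η) ≤ b) : ¬ (1 + ε) * b ≤ 2 * a := by
  intro h
  have hN1 : (1 : ℝ) ≤ (N : ℝ) ^ (r + 3) := one_le_pow₀ (by exact_mod_cast hN)
  have hr : (2 : ℝ) ≤ (r : ℝ) + 2 := by
    have := Nat.cast_nonneg (α := ℝ) r
    linarith
  have hxe : x * ε = ((r : ℝ) + 2) * (N : ℝ) ^ (r + 3) := by
    rw [hx]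
    field_simp
  have hx2 : 2 ≤ x := by
    have h1 : 2 ≤ x * ε := by
      rw [hxe]
      nlinarith
    have h2 : 0 ≤ x := by
      rw [hx]
      positivity
    nlinarith
  have hm1 : (0 : ℝ) < (m : ℝ) + 1 := by positivity
  have hmn : (n : ℝ) ≤ 2 * m + 1 := by
    rcases hm with h1 | h1
    · have h2 : (n : ℝ) = 2 * m := by exact_mod_cast h1
      linarith
    · have h2 : (n : ℝ) = 2 * m + 1 := by exact_mod_cast h1
      linarith
  have h1 : x * Real.log ((m : ℝ) + 1 + 1) < 2 * ((m : ℝ) + 1) := by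
    refine eff_log hx2 ?_
    nlinarith
  rw [show (m : ℝ) + 1 + 1 = (m : ℝ) + 2 by ring] at h1
  have h2 : η < ε := by
    refine lt_of_le_of_lt hη ?_
    have h3 : ((r : ℝ) + 2) / 2 * (N : ℝ) ^ (r + 3) * (Real.log ((m : ℝ) + 2) / ((m : ℝ) + 1)) =
        x * ε / 2 * Real.log ((m : ℝ) + 2) / ((m : ℝ) + 1) := by
      rw [hxe]
      ring
    rw [h3, div_lt_iff₀ hm1]
    nlinarith
  have h3 : (1 + ε) * (a * (2 - η)) ≤ 2 * a := (mul_le_mul_of_nonneg_left hb (by linarith)).trans h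
  have h4 : (1 + ε) * (2 - η) ≤ 2 := by
    have h5 : a * ((1 + ε) * (2 - η)) ≤ a * 2 := by linarith
    exact le_of_mul_le_mul_left h5 ha
  nlinarith

end MP021685Z
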