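import Pool.Agent.Lib.MP_021685_agZ.Final
import Pool.Agent.Lib.MP_021685_agZ.EffNum

/-!
# THEOREM HALF, effective form (helper88)
-/

namespace MP021685Z

open Matrix

variable {k : Type*} [Field k] {ι : Type} [Fintype ι] [DecidableEq ι]

variable {B : Matrix ι ι k} {C : ∀ m n : ℕ, Submodule k (Mor k ι m n)}
  {U : ∀ n : ℕ, Submodule k ((Fin n → ι) → k)}

theorem numRank_zero_le (C : ∀ m n : ℕ, Submodule k (Mor k ι m n)) : numRank C 0 ≤ 1 := by
  have h1 : Module.finrank k (classes C 0) ≤ Module.finrank k ((Fin 0 → ι) → k) :=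
    Submodule.finrank_le _
  have h2 : Module.finrank k ((Fin 0 → ι) → k) = 1 := by
    rw [Module.finrank_pi]
    simp
  unfold numRank
  omega

/-- **THEOREM HALF, effective form.** One `n` decides for `r`. -/
theorem half_effective [IsAlgClosed k] [CharZero k] (hC : IsCorrFamily B C) (hU : IsStable C U)
    {r n : ℕ} {ε x : ℝ} (hε : 0 < ε) (hε1 : ε ≤ 1)
    (hx : x = ((r : ℝ) + 2) * (Fintype.card ι : ℝ) ^ (r + 3) / ε)
    (hn : 2 * x * Real.log x + 2 ≤ n)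
    (h : (1 + ε) * (Module.finrank k (U n) : ℝ) ≤ 2 * (numRank C n : ℝ)) :
    classes C r = U r ∧ numTriv C r = ⊥ := by
  by_contra hne
  have hf : numRank C r < Module.finrank k (U r) := by
    by_contra hf
    exact hne (no_fail hC hU r hf)
  have hf1 := fail_succ hC hU r hf
  have hN : 1 ≤ Fintype.card ι := card_pos hC
  obtain ⟨N, hNN⟩ : ∃ N : ℕ, N = Fintype.card ι := ⟨_, rfl⟩
  rw [← hNN] at hx hN
  have hN1 : (1 : ℝ) ≤ (N : ℝ) := by exact_mod_cast hN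
  have hN0 : (0 : ℝ) < (N : ℝ) := by linarith
  obtain ⟨a, ha⟩ : ∃ a : ℕ → ℝ, ∀ m, a m = (numRank C (2 * m) : ℝ) := ⟨_, fun _ => rfl⟩
  have ha0 : ∀ m, 0 < a m := fun m => by
    rw [ha]
    exact_mod_cast numRank_pos hC (2 * m)
  -- the rate
  have hrate : ∀ s m : ℕ, (N : ℝ) ^ (2 * s) *
      (1 - s * ((N : ℝ) ^ 2 * Real.log ((m : ℝ) + 2) / ((m : ℝ) + 1))) * a m ≤ a (m + s) := by
    intro s m
    refine eff_ratio N hN a ha0 ?_ ?_ ?_ s m
    · rw [ha]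
      exact_mod_cast numRank_zero_le C
    · intro m
      rw [ha, ha, ha]
      exact_mod_cast numRank_convex hC m
    · intro m
      rw [ha, hNN]
      exact_mod_cast growth hC m
  obtain ⟨m, hm⟩ : ∃ m : ℕ, n = 2 * m ∨ n = 2 * m + 1 := Nat.even_or_odd' n
  obtain ⟨l, hl⟩ : ∃ l : ℝ, l = Real.log ((m : ℝ) + 2) / ((m : ℝ) + 1) := ⟨_, rfl⟩
  have hl0 : 0 ≤ l := by
    rw [hl]
    refine div_nonneg (Real.log_nonneg ?_) (by positivity)
    have := Nat.cast_nonneg (α := ℝ) m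
    linarith
  have hlN : (N : ℝ) ^ 2 * Real.log ((m : ℝ) + 2) / ((m : ℝ) + 1) = (N : ℝ) ^ 2 * l := by
    rw [hl, mul_div_assoc]
  rcases hm with hm | hm
  · -- even exponents
    obtain ⟨s, hs, hsr⟩ : ∃ s, numRank C (2 * s) < Module.finrank k (U (2 * s)) ∧ 2 * s ≤ r + 1 := by
      rcases Nat.even_or_odd' r with ⟨s, rfl | rfl⟩
      · exact ⟨s, hf, by omega⟩
      · exact ⟨s + 1, hf1, by omega⟩
    obtain ⟨t, ht, ht2, htr, htn⟩ := exists_idem hC hU (2 * s) hs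
    have h1 := hrate s m
    rw [hlN] at h1
    have h2 := lower_even hC s t ht ht2 m
    have h3 := htn (2 * m)
    rw [← hNN] at h2
    have h2' : a (m + s) + (t.rank : ℝ) * a m ≤
        (prk (sand 1 (C (2 * s) (2 * m)) t) (C (2 * m) (2 * s)) : ℝ) + (N : ℝ) ^ (2 * s) * a m := by
      rw [ha, ha]
      exact_mod_cast h2
    have h3' : a m + (prk (sand 1 (C (2 * s) (2 * m)) t) (C (2 * m) (2 * s)) : ℝ) ≤
        (Module.finrank k (U (2 * m)) : ℝ) := by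
      rw [ha]
      exact_mod_cast h3
    have h4 : 1 * a m ≤ (t.rank : ℝ) * a m :=
      mul_le_mul_of_nonneg_right (by exact_mod_cast htr) (ha0 m).le
    subst hm
    refine eff_final (η := (N : ℝ) ^ (2 * s) * (s * ((N : ℝ) ^ 2 * l))) hN hε hε1 hx hn (Or.inl rfl)
      (ha0 m) ?_ ?_ (by rw [ha]; exact h)
    · rw [← hl]
      have h5 : (s : ℝ) ≤ ((r : ℝ) + 2) / 2 := by
        have h6 : ((2 * s : ℕ) : ℝ) ≤ ((r + 1 : ℕ) : ℝ) := Nat.cast_le.2 hsr
        push_cast at h6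
        linarith
      have h6 : (N : ℝ) ^ (2 * s + 2) ≤ (N : ℝ) ^ (r + 3) := pow_le_pow_right₀ hN1 (by omega)
      calc (N : ℝ) ^ (2 * s) * (s * ((N : ℝ) ^ 2 * l)) = s * (N : ℝ) ^ (2 * s + 2) * l := by ring
        _ ≤ ((r : ℝ) + 2) / 2 * (N : ℝ) ^ (r + 3) * l :=
          mul_le_mul_of_nonneg_right (mul_le_mul h5 h6 (by positivity) (by positivity)) hl0
    · have h7 : a m * (2 - (N : ℝ) ^ (2 * s) * (s * ((N : ℝ) ^ 2 * l))) =
          (N : ℝ) ^ (2 * s) * (1 - s * ((N : ℝ) ^ 2 * l)) * a m + 2 * a m - (N : ℝ) ^ (2 * s) * a m := by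
        ring
      rw [h7]
      linarith
  · -- odd exponents
    obtain ⟨s, hs, hsr⟩ : ∃ s, numRank C (2 * s + 1) < Module.finrank k (U (2 * s + 1)) ∧
        2 * s + 1 ≤ r + 1 := by
      rcases Nat.even_or_odd' r with ⟨s, rfl | rfl⟩
      · exact ⟨s, hf1, by omega⟩
      · exact ⟨s, hf, by omega⟩
    obtain ⟨t, ht, ht2, htr, htn⟩ := exists_idem hC hU (2 * s + 1) hs
    have h1 := hrate (s + 1) m
    rw [hlN] at h1
    push_cast at h1
    have h2 := lower_odd hC s t ht ht2 m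
    have h3 := htn (2 * m + 1)
    have hst := numRank_step hC m
    rw [← hNN] at h2 hst
    obtain ⟨b, hb⟩ : ∃ b : ℝ, b = (numRank C (2 * m + 1) : ℝ) := ⟨_, rfl⟩
    have h2' : a (m + (s + 1)) + (N : ℝ) * (t.rank : ℝ) * a m ≤
        (prk (sand 1 (C (2 * s + 1) (2 * m + 1)) t) (C (2 * m + 1) (2 * s + 1)) : ℝ) +
          (N : ℝ) ^ (2 * (s + 1)) * a m := by
      rw [ha, ha]
      exact_mod_cast h2
    have h3' : b + (prk (sand 1 (C (2 * s + 1) (2 * m + 1)) t) (C (2 * m + 1) (2 * s + 1)) : ℝ) ≤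
        (Module.finrank k (U (2 * m + 1)) : ℝ) := by
      rw [hb]
      exact_mod_cast h3
    have hst' : b ≤ N * a m := by
      rw [hb, ha]
      exact_mod_cast hst
    have hb0 : 0 < b := by
      rw [hb]
      exact_mod_cast numRank_pos hC (2 * m + 1)
    have h4 : (N : ℝ) * 1 * a m ≤ (N : ℝ) * (t.rank : ℝ) * a m :=
      mul_le_mul_of_nonneg_right (mul_le_mul_of_nonneg_left (by exact_mod_cast htr) hN0.le) (ha0 m).le
    obtain ⟨η, hη⟩ : ∃ η : ℝ, η = (N : ℝ) ^ (2 * s + 1) * (((s : ℝ) + 1) * ((N : ℝ) ^ 2 * l)) := ⟨_, rfl⟩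
    have h5 : N * a m * (1 - η) ≤
        (prk (sand 1 (C (2 * s + 1) (2 * m + 1)) t) (C (2 * m + 1) (2 * s + 1)) : ℝ) := by
      have h7 : N * a m * (1 - η) = (N : ℝ) ^ (2 * (s + 1)) * (1 - ((s : ℝ) + 1) * ((N : ℝ) ^ 2 * l)) * a m +
          N * a m - (N : ℝ) ^ (2 * (s + 1)) * a m := by
        rw [hη]
        ring
      rw [h7]
      linarith
    have hηle : η ≤ ((r : ℝ) + 2) / 2 * (N : ℝ) ^ (r + 3) * l := by
      rw [hη]
      have h5 : (s : ℝ) + 1 ≤ ((r : ℝ) + 2) / 2 := by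
        have h6 : ((2 * s + 1 : ℕ) : ℝ) ≤ ((r + 1 : ℕ) : ℝ) := Nat.cast_le.2 hsr
        push_cast at h6
        linarith
      have h6 : (N : ℝ) ^ (2 * s + 3) ≤ (N : ℝ) ^ (r + 3) := pow_le_pow_right₀ hN1 (by omega)
      calc (N : ℝ) ^ (2 * s + 1) * (((s : ℝ) + 1) * ((N : ℝ) ^ 2 * l)) =
          ((s : ℝ) + 1) * (N : ℝ) ^ (2 * s + 3) * l := by ring
        _ ≤ ((r : ℝ) + 2) / 2 * (N : ℝ) ^ (r + 3) * l :=
          mul_le_mul_of_nonneg_right (mul_le_mul h5 h6 (by positivity) (by positivity)) hl0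
    have hh0 : (0 : ℝ) ≤ (prk (sand 1 (C (2 * s + 1) (2 * m + 1)) t) (C (2 * m + 1) (2 * s + 1)) : ℝ) :=
      Nat.cast_nonneg _
    subst hm
    refine eff_final (η := η) hN hε hε1 hx hn (Or.inr rfl) hb0 (by rw [← hl]; exact hηle) ?_
      (by rw [hb]; exact h)
    -- `b (2 - η) ≤ b + h`
    rcases le_or_gt η 1 with h6 | h6
    · have h7 : b * (1 - η) ≤ N * a m * (1 - η) := mul_le_mul_of_nonneg_right hst' (by linarith)
      have h8 : b * (2 - η) = b + b * (1 - η) := by ring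
      rw [h8]
      linarith
    · have h7 : b * (2 - η) ≤ b * 1 := mul_le_mul_of_nonneg_left (by linarith) hb0.le
      linarith

end MP021685Z
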