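import Pool.Agent.Lib.MP_021685_agZ.Rot

/-!
# Ranks of idempotents and the crude bound
-/

set_option linter.unusedSectionVars false

namespace MP021685Z

open Matrix

section Idem

variable {k : Type*} [Field k]

/-- The rank of an idempotent is its trace. -/
theorem rank_idem [CharZero k] {a : Type*} [Fintype a] [DecidableEq a] (w : Matrix a a k)
    (hw : w * w = w) : ((w.rank : ℕ) : k) = trace w := by
  have h1 : IsIdempotentElem (Matrix.toLin' w) := by
    unfold IsIdempotentElem
    rw [Module.End.mul_eq_comp, ← Matrix.toLin'_mul, hw]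
  have h2 := (LinearMap.IsIdempotentElem.isProj_range _ h1).trace
  rw [LinearMap.trace_eq_matrix_trace k (Pi.basisFun k a), LinearMap.toMatrix_eq_toMatrix',
    LinearMap.toMatrix'_toLin'] at h2
  rw [h2]
  rfl

/-- The crude bound. -/
theorem crude {a b : Type*} [Fintype a] [Fintype b] [DecidableEq a] [DecidableEq b]
    (P : Submodule k (Matrix b a k)) (Q : Submodule k (Matrix a b k)) (Y : Matrix a a k) :
    prk (sand 1 P Y) Q ≤ Fintype.card b * Y.rank := by
  have h1 : prk (sand 1 P Y) Q ≤ Module.finrank k (sand 1 P Y) :=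
    Submodule.finrank_map_le _ _
  refine h1.trans ?_
  let W : Submodule k (a → k) := LinearMap.range (Yᵀ.mulVecLin)
  let T : (b → W) →ₗ[k] Matrix b a k :=
    { toFun := fun F => Matrix.of fun i => (F i : a → k)
      map_add' := fun F G => rfl
      map_smul' := fun c F => rfl }
  have h2 : sand 1 P Y ≤ LinearMap.range T := by
    rintro _ ⟨F, hF, rfl⟩
    refine ⟨fun i => ⟨Yᵀ *ᵥ (F i), ⟨F i, rfl⟩⟩, ?_⟩
    ext i j
    change (Yᵀ *ᵥ (F i)) j = ((1 : Matrix b b k) * F * Y) i j
    rw [Matrix.one_mul, Matrix.mul_apply, Matrix.mulVec, dotProduct]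
    exact Finset.sum_congr rfl fun l _ => mul_comm _ _
  have h3 : Module.finrank k (LinearMap.range T) ≤ Module.finrank k (b → W) :=
    LinearMap.finrank_range_le T
  have h4 : Module.finrank k (b → W) = Fintype.card b * Y.rank := by
    rw [Module.finrank_pi_fintype, Finset.sum_const, Finset.card_univ, smul_eq_mul]
    congr 1
    rw [← Matrix.rank_transpose Y]
    rfl
  exact (Submodule.finrank_mono h2).trans (h3.trans h4.le)

end Idem

variable {k : Type*} [Field k] {ι : Type} [Fintype ι] [DecidableEq ι]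

theorem TwoA_sum {I J : Type} [Fintype I] [Fintype J] [DecidableEq I] [DecidableEq J]
    (f : ((I ⊕ J) → ι) → k) : ∑ z, f z = ∑ x : I → ι, ∑ y : J → ι, f (Sum.elim x y) := by
  rw [← Fintype.sum_prod_type']
  exact (Equiv.sum_comp (Equiv.sumArrowEquivProdArrow I J ι).symm f).symm

theorem TwoA_mul {I J I' J' I'' J'' : Type} [Fintype I] [Fintype J] [DecidableEq I]
    [DecidableEq J] (F : Matrix (I' → ι) (I → ι) k) (G : Matrix (J' → ι) (J → ι) k)
    (F' : Matrix (I → ι) (I'' → ι) k) (G' : Matrix (J → ι) (J'' → ι) k) :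
    tsum F G * tsum F' G' = tsum (F * F') (G * G') := by
  ext x y
  rw [Matrix.mul_apply, TwoA_sum]
  change _ = (∑ p, F (x ∘ Sum.inl) p * F' p (y ∘ Sum.inl)) *
    ∑ q, G (x ∘ Sum.inr) q * G' q (y ∘ Sum.inr)
  rw [Finset.sum_mul_sum]
  refine Finset.sum_congr rfl fun p _ => Finset.sum_congr rfl fun q _ => ?_
  change F (x ∘ Sum.inl) p * G (x ∘ Sum.inr) q * (F' p (y ∘ Sum.inl) * G' q (y ∘ Sum.inr)) = _
  ring

theorem TwoA_trace {I J : Type} [Fintype I] [Fintype J] [DecidableEq I] [DecidableEq J]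
    (w : Matrix (I → ι) (I → ι) k) (v : Matrix (J → ι) (J → ι) k) :
    trace (tsum w v) = trace w * trace v := by
  unfold Matrix.trace
  rw [TwoA_sum, Finset.sum_mul_sum]
  rfl

theorem rank_tsum [CharZero k] {I J : Type} [Fintype I] [Fintype J] [DecidableEq I]
    [DecidableEq J] (w : Matrix (I → ι) (I → ι) k) (v : Matrix (J → ι) (J → ι) k)
    (hw : w * w = w) (hv : v * v = v) : (tsum w v).rank = w.rank * v.rank := by
  have h1 : tsum w v * tsum w v = tsum w v := by rw [TwoA_mul, hw, hv]
  have h2 : (((tsum w v).rank : ℕ) : k) = ((w.rank * v.rank : ℕ) : k) := by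
    rw [rank_idem _ h1, TwoA_trace, Nat.cast_mul, rank_idem w hw, rank_idem v hv]
  exact Nat.cast_injective h2

end MP021685Z
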