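import Pool.Agent.Lib.MP_021685_agZ.QB

/-!
# Second part of THEOREM HALF: the lower bound for the dimension of a stable space
-/

set_option autoImplicit false
set_option linter.unusedSectionVars false

namespace MP021685Z

open Matrix

section QC

variable {k : Type*} [Field k] {a b : Type*} [Fintype a] [DecidableEq a] [Fintype b] [DecidableEq b]

/-- Linear forms without relations take arbitrary values. -/
theorem QC_dual {V : Type*} [AddCommGroup V] [Module k V] {h : ℕ} (φ : Fin h → (V →ₗ[k] k))
    (hφ : ∀ c : Fin h → k, (∀ v, ∑ α, c α * φ α v = 0) → c = 0) (w : Fin h → k) :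
    ∃ v : V, ∀ α, φ α v = w α := by
  classical
  let L : V →ₗ[k] (Fin h → k) := LinearMap.pi φ
  have hL : LinearMap.range L = ⊤ := by
    by_contra hne
    obtain ⟨f, hf, hle⟩ := Submodule.exists_le_ker_of_lt_top _ (lt_top_iff_ne_top.2 hne)
    apply hf
    have h1 : (fun α => f (Pi.single α 1)) = 0 := by
      apply hφ
      intro v
      have h2 : L v ∈ LinearMap.ker f := hle ⟨v, rfl⟩
      rw [LinearMap.mem_ker] at h2
      have h3 : L v = ∑ α, (φ α v) • (Pi.single α 1 : Fin h → k) := by
        funext β
        rw [Finset.sum_apply, Finset.sum_eq_single β]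
        · rw [Pi.smul_apply, Pi.single_eq_same, smul_eq_mul, mul_one]
          rfl
        · intro γ _ hγ
          rw [Pi.smul_apply, Pi.single_eq_of_ne (fun h' => hγ h'.symm), smul_zero]
        · intro h'
          exact absurd (Finset.mem_univ _) h'
      rw [h3, map_sum] at h2
      rw [← h2]
      refine Finset.sum_congr rfl fun α _ => ?_
      rw [map_smul, smul_eq_mul, mul_comm]
    refine LinearMap.pi_ext' fun α => LinearMap.ext_ring ?_
    have h4 := congrFun h1 α
    exact h4
  have hw : w ∈ LinearMap.range L := by rw [hL]; trivial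
  obtain ⟨v, hv⟩ := hw
  exact ⟨v, fun α => congrFun hv α⟩

/-- Elements of `M t` which are independent modulo the radical, and dual elements of `Q`. -/
theorem QC_lift (M : Submodule k (Matrix b a k)) (Q : Submodule k (Matrix a b k))
    (t : Matrix a a k) (c₀ : k) :
    ∃ (F : Fin (prk (sand 1 M t) Q) → Matrix b a k) (g : Fin (prk (sand 1 M t) Q) → Matrix a b k),
      (∀ α, F α ∈ M) ∧ (∀ α, g α ∈ Q) ∧
      ∀ β α, trace (g β * (F α * t)) = if β = α then c₀ else 0 := by
  classical
  set X : Submodule k (Matrix b a k ⧸ rad Q) := (sand 1 M t).map (rad Q).mkQ with hX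
  have hfr : Module.finrank k X = prk (sand 1 M t) Q := rfl
  let bs := Module.finBasisOfFinrankEq k X hfr
  have hlift : ∀ α, ∃ F ∈ M, (rad Q).mkQ (F * t) = (bs α : Matrix b a k ⧸ rad Q) := by
    intro α
    obtain ⟨y, hy, hy2⟩ := (bs α).2
    obtain ⟨F, hF, rfl⟩ := hy
    refine ⟨F, hF, ?_⟩
    rw [← hy2]
    congr 1
    change F * t = (1 : Matrix b b k) * F * t
    rw [Matrix.one_mul]
  choose F hF hFb using hlift
  let φ : Fin (prk (sand 1 M t) Q) → (Q →ₗ[k] k) := fun α =>
    { toFun := fun g => trace ((g : Matrix a b k) * (F α * t))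
      map_add' := fun g g' => by
        change trace (((g : Matrix a b k) + (g' : Matrix a b k)) * (F α * t)) = _
        rw [Matrix.add_mul, trace_add]
      map_smul' := fun c g => by
        change trace ((c • (g : Matrix a b k)) * (F α * t)) = _
        rw [Matrix.smul_mul, trace_smul]
        rfl }
  have hφ : ∀ c : Fin (prk (sand 1 M t) Q) → k, (∀ v, ∑ α, c α * φ α v = 0) → c = 0 := by
    intro c hc
    have h1 : ∑ α, c α • bs α = 0 := by
      apply Subtype.ext
      rw [AddSubmonoidClass.coe_finsetSum]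
      have h2 : ∀ α, ((c α • bs α : X) : Matrix b a k ⧸ rad Q) = (rad Q).mkQ (c α • (F α * t)) := by
        intro α
        rw [map_smul, hFb]
        rfl
      rw [Finset.sum_congr rfl fun α _ => h2 α, ← map_sum]
      change (rad Q).mkQ _ = 0
      rw [Submodule.mkQ_apply, Submodule.Quotient.mk_eq_zero]
      intro G hG
      rw [Matrix.mul_sum, trace_sum]
      have h3 := hc ⟨G, hG⟩
      rw [← h3]
      refine Finset.sum_congr rfl fun α _ => ?_
      rw [Matrix.mul_smul, trace_smul, smul_eq_mul]
      rfl
    funext α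
    exact (Fintype.linearIndependent_iff.1 bs.linearIndependent) c h1 α
  have hg : ∀ β, ∃ g : Q, ∀ α, φ α g = if β = α then c₀ else 0 := fun β => QC_dual φ hφ _
  choose g hg using hg
  exact ⟨F, fun β => g β, hF, fun β => (g β).2, fun β α => hg β α⟩

/-- **The lower bound.** -/
theorem QC_lower [CharZero k] (P : Submodule k (Matrix a a k)) (h1 : (1 : Matrix a a k) ∈ P)
    (hmul : ∀ x ∈ P, ∀ y ∈ P, x * y ∈ P) (M : Submodule k (Matrix b a k))
    (Q : Submodule k (Matrix a b k)) (hQM : ∀ g ∈ Q, ∀ F ∈ M, g * F ∈ P)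
    (W : Submodule k (a → k)) (W' : Submodule k (b → k)) (hMW : ∀ F ∈ M, ∀ u ∈ W, F *ᵥ u ∈ W')
    (hPW : ∀ x ∈ P, ∀ u ∈ W, x *ᵥ u ∈ W) {l : ℕ} {t : Fin l → Matrix a a k}
    (ht : ∀ i, t i ∈ P ∧ t i * t i = t i ∧ trace (t i) ≠ 0)
    (hdis : ∀ i j, i ≠ j → ∀ z ∈ P, t i * z * t j ∈ rad P)
    (hprim : ∀ i, ∀ z ∈ P, ∃ c : k, t i * z * t i - c • t i ∈ rad P) :
    ∑ i, prk (sand 1 M (t i)) Q * Module.finrank k (W.map (t i).mulVecLin) ≤
      Module.finrank k W' := by
  classical
  have hlift := fun i => QC_lift M Q (t i) (trace (t i))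
  choose F g hF hg hfg using hlift
  -- the linear map
  let D := ∀ i, Fin (prk (sand 1 M (t i)) Q) → (W.map (t i).mulVecLin : Submodule k (a → k))
  have hmem : ∀ i (u : (W.map (t i).mulVecLin : Submodule k (a → k))), (u : a → k) ∈ W ∧
      t i *ᵥ (u : a → k) = u := by
    rintro i ⟨_, w, hw, rfl⟩
    refine ⟨hPW _ (ht i).1 w hw, ?_⟩
    change t i *ᵥ (t i *ᵥ w) = t i *ᵥ w
    rw [Matrix.mulVec_mulVec, (ht i).2.1]
  let Φ : D →ₗ[k] W' :=
    { toFun := fun v => ⟨∑ i, ∑ α, F i α *ᵥ ((v i α : a → k)), by
        refine Submodule.sum_mem _ fun i _ => Submodule.sum_mem _ fun α _ => ?_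
        exact hMW _ (hF i α) _ (hmem i (v i α)).1⟩
      map_add' := fun v w => by
        apply Subtype.ext
        change ∑ i, ∑ α, F i α *ᵥ (((v i α : a → k)) + (w i α : a → k)) =
          ∑ i, ∑ α, F i α *ᵥ ((v i α : a → k)) + ∑ i, ∑ α, F i α *ᵥ ((w i α : a → k))
        rw [← Finset.sum_add_distrib]
        refine Finset.sum_congr rfl fun i _ => ?_
        rw [← Finset.sum_add_distrib]
        refine Finset.sum_congr rfl fun α _ => ?_
        rw [Matrix.mulVec_add]
      map_smul' := fun c v => by
        apply Subtype.ext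
        change ∑ i, ∑ α, F i α *ᵥ (c • ((v i α : a → k))) =
          c • ∑ i, ∑ α, F i α *ᵥ ((v i α : a → k))
        rw [Finset.smul_sum]
        refine Finset.sum_congr rfl fun i _ => ?_
        rw [Finset.smul_sum]
        refine Finset.sum_congr rfl fun α _ => ?_
        rw [Matrix.mulVec_smul] }
  have hinj : Function.Injective Φ := by
    rw [injective_iff_map_eq_zero]
    intro v hv
    have hv0 : ∑ i, ∑ α, F i α *ᵥ ((v i α : a → k)) = 0 := congrArg Subtype.val hv
    let idx := Σ i, Fin (prk (sand 1 M (t i)) Q)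
    let w : idx → (a → k) := fun p => (v p.1 p.2 : a → k)
    let ν : idx → idx → Matrix a a k := fun p p' =>
      (if p = p' then t p.1 else 0) - t p.1 * (g p.1 p.2 * F p'.1 p'.2) * t p'.1
    have hν : ∀ p p', ν p p' ∈ P ∧ ν p p' ∈ rad P := by
      intro p p'
      have hz : g p.1 p.2 * F p'.1 p'.2 ∈ P := hQM _ (hg _ _) _ (hF _ _)
      have hzt : t p.1 * (g p.1 p.2 * F p'.1 p'.2) * t p'.1 ∈ P :=
        hmul _ (hmul _ (ht _).1 _ hz) _ (ht _).1
      refine ⟨?_, ?_⟩
      · refine P.sub_mem ?_ hzt
        by_cases h : p = p'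
        · rw [if_pos h]
          exact (ht _).1
        · rw [if_neg h]
          exact P.zero_mem
      · obtain ⟨i, β⟩ := p
        obtain ⟨j, α⟩ := p'
        by_cases hij : i = j
        · subst hij
          obtain ⟨c, hc⟩ := hprim i _ hz
          have htr : trace (g i β * (F i α * t i)) = if β = α then trace (t i) else 0 := hfg i β α
          have hc2 : trace (t i * (g i β * F i α) * t i - c • t i) = 0 := by
            have h3 := hc 1 h1
            rw [Matrix.one_mul] at h3
            exact h3
          have hc3 : c = if β = α then 1 else 0 := by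
            rw [trace_sub, trace_smul, smul_eq_mul, Matrix.trace_mul_comm, ← Matrix.mul_assoc,
              (ht i).2.1] at hc2
            rw [Matrix.trace_mul_comm, Matrix.mul_assoc, htr] at hc2
            by_cases h : β = α
            · rw [if_pos h] at hc2 ⊢
              have h4 : (1 - c) * trace (t i) = 0 := by
                rw [sub_mul, one_mul]
                exact hc2
              rcases mul_eq_zero.1 h4 with h5 | h5
              · exact (sub_eq_zero.1 h5).symm
              · exact absurd h5 (ht i).2.2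
            · rw [if_neg h] at hc2 ⊢
              rw [zero_sub, neg_eq_zero] at hc2
              rcases mul_eq_zero.1 hc2 with h5 | h5
              · exact h5
              · exact absurd h5 (ht i).2.2
          have h6 : ν ⟨i, β⟩ ⟨i, α⟩ = -(t i * (g i β * F i α) * t i - c • t i) := by
            change (if (⟨i, β⟩ : idx) = ⟨i, α⟩ then t i else 0) - t i * (g i β * F i α) * t i = _
            rw [hc3]
            by_cases h : β = α
            · subst h
              rw [if_pos rfl, if_pos rfl, one_smul, neg_sub]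
            · rw [if_neg h, if_neg, zero_smul, sub_zero, zero_sub]
              intro h'
              apply h
              exact eq_of_heq (Sigma.mk.inj h').2
          rw [h6]
          exact (rad P).neg_mem hc
        · have h6 : ν ⟨i, β⟩ ⟨j, α⟩ = -(t i * (g i β * F j α) * t j) := by
            change (if (⟨i, β⟩ : idx) = ⟨j, α⟩ then t i else 0) - t i * (g i β * F j α) * t j = _
            rw [if_neg, zero_sub]
            intro h'
            exact hij (Sigma.mk.inj h').1
          rw [h6]
          exact (rad P).neg_mem (hdis i j hij _ hz)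
    have hw : ∀ p, w p = ∑ p', ν p p' *ᵥ w p' := by
      intro p
      have e1 : ∀ p', ν p p' *ᵥ w p' = (if p = p' then w p else 0) -
          (t p.1 * g p.1 p.2) *ᵥ (F p'.1 p'.2 *ᵥ w p') := by
        intro p'
        change ((if p = p' then t p.1 else 0) - t p.1 * (g p.1 p.2 * F p'.1 p'.2) * t p'.1) *ᵥ
          w p' = _
        rw [Matrix.sub_mulVec]
        congr 1
        · by_cases h : p = p'
          · subst h
            rw [if_pos rfl, if_pos rfl]
            exact (hmem p.1 (v p.1 p.2)).2
          · rw [if_neg h, if_neg h, Matrix.zero_mulVec]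
        · have e2 : t p'.1 *ᵥ w p' = w p' := (hmem p'.1 (v p'.1 p'.2)).2
          rw [← Matrix.mulVec_mulVec, e2, Matrix.mulVec_mulVec, Matrix.mul_assoc]
      rw [Finset.sum_congr rfl fun p' _ => e1 p', Finset.sum_sub_distrib, Finset.sum_ite_eq,
        if_pos (Finset.mem_univ p)]
      have e3 : ∑ p', (t p.1 * g p.1 p.2) *ᵥ (F p'.1 p'.2 *ᵥ w p') = 0 := by
        rw [← Matrix.mulVec_sum, Fintype.sum_sigma]
        change (t p.1 * g p.1 p.2) *ᵥ (∑ i, ∑ α, F i α *ᵥ ((v i α : a → k))) = 0
        rw [hv0, Matrix.mulVec_zero]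
      rw [e3, sub_zero]
    have h0 := QB_nak P h1 hmul w ν hν hw
    funext i α
    apply Subtype.ext
    exact congrFun h0 ⟨i, α⟩
  have h9 := LinearMap.finrank_le_finrank_of_injective hinj
  have h10 : Module.finrank k D =
      ∑ i, prk (sand 1 M (t i)) Q * Module.finrank k (W.map (t i).mulVecLin) := by
    rw [Module.finrank_pi_fintype]
    refine Finset.sum_congr rfl fun i _ => ?_
    rw [Module.finrank_pi_fintype, Finset.sum_const, Finset.card_univ, Fintype.card_fin,
      smul_eq_mul]
  rw [h10] at h9
  exact h9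

/-- The size of a type is at most its numerical rank. -/
theorem QC_size [CharZero k] (P : Submodule k (Matrix a a k)) {n : ℕ} {t : Matrix a a k}
    {x y : Fin n → Matrix a a k} (ht : t ∈ P ∧ t * t = t ∧ trace t ≠ 0)
    (hxy : ∀ α, x α ∈ P ∧ y α ∈ P)
    (hyx : ∀ α β, y α * x β - (if α = β then t else 0) ∈ rad P) :
    n ≤ prk (sand 1 P t) P := by
  classical
  let ξ : Fin n → ((sand 1 P t).map (rad P).mkQ : Submodule k (Matrix a a k ⧸ rad P)) := fun α =>
    ⟨(rad P).mkQ (1 * x α * t), Submodule.mem_map_of_mem ⟨x α, (hxy α).1, rfl⟩⟩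
  have hli : LinearIndependent k ξ := by
    rw [Fintype.linearIndependent_iff]
    intro c hc β
    have h1 : (rad P).mkQ (∑ α, c α • (x α * t)) = 0 := by
      have h2 := congrArg Subtype.val hc
      rw [AddSubmonoidClass.coe_finsetSum] at h2
      rw [map_sum]
      refine Eq.trans ?_ h2
      refine Finset.sum_congr rfl fun α _ => ?_
      rw [map_smul]
      change _ = c α • (rad P).mkQ (1 * x α * t)
      rw [Matrix.one_mul]
    rw [Submodule.mkQ_apply, Submodule.Quotient.mk_eq_zero] at h1
    have h3 := h1 _ (hxy β).2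
    rw [Matrix.mul_sum, trace_sum] at h3
    have h4 : ∀ α, trace (y β * (c α • (x α * t))) = if β = α then c α * trace t else 0 := by
      intro α
      have h5 := hyx β α t ht.1
      rw [Matrix.mul_sub, trace_sub, sub_eq_zero] at h5
      rw [Matrix.mul_smul, trace_smul, smul_eq_mul, ← Matrix.mul_assoc, Matrix.trace_mul_comm, h5]
      by_cases h : β = α
      · rw [if_pos h, if_pos h, ht.2.1]
      · rw [if_neg h, if_neg h, Matrix.mul_zero, trace_zero, mul_zero]
    rw [Finset.sum_congr rfl fun α _ => h4 α, Finset.sum_ite_eq, if_pos (Finset.mem_univ β)] at h3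
    rcases mul_eq_zero.1 h3 with h6 | h6
    · exact h6
    · exact absurd h6 ht.2.2
  have h7 := hli.fintype_card_le_finrank
  rw [Fintype.card_fin] at h7
  exact h7

end QC

end MP021685Z
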