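import Mathlib

/-!
# MP_021685_ag, theorem HALF, second part: the limit of the ratio (real number part)
-/

namespace MP021685Z

open Filter Topology

/-- If `b n ≤ (1 + δ) Q n a n` for large `n` and `b m ≥ (Q n - δ) a m` for large `m` (every `n`),
with natural numbers `Q n`, then `b / a` tends to a natural number `S = max Q`, or `a / b` tends
to `0`. -/
theorem Lim_ratio (a b : ℕ → ℝ) (Q : ℕ → ℕ) (ha : ∀ n, 0 < a n)
    (h1 : ∀ δ : ℝ, 0 < δ → ∃ n0 : ℕ, ∀ n : ℕ, n0 ≤ n → b n ≤ (1 + δ) * (Q n : ℝ) * a n)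
    (h2 : ∀ (n : ℕ) (δ : ℝ), 0 < δ → ∃ m0 : ℕ, ∀ m : ℕ, m0 ≤ m →
      ((Q n : ℝ) - δ) * a m ≤ b m) :
    (∃ S : ℕ, (∀ n, Q n ≤ S) ∧ (∃ n, Q n = S) ∧
      Tendsto (fun n => b n / a n) atTop (𝓝 (S : ℝ))) ∨
    ((∀ K : ℕ, ∃ n, K ≤ Q n) ∧ Tendsto (fun n => a n / b n) atTop (𝓝 0)) := by
  by_cases hb : ∃ K : ℕ, ∀ n, Q n ≤ K
  · left
    have hbdd : BddAbove (Set.range Q) := by
      obtain ⟨K, hK⟩ := hb
      exact ⟨K, by rintro _ ⟨n, rfl⟩; exact hK n⟩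
    have hne : (Set.range Q).Nonempty := ⟨Q 0, 0, rfl⟩
    obtain ⟨n1, hn1⟩ := Nat.sSup_mem hne hbdd
    set S := sSup (Set.range Q) with hS
    have hle : ∀ n, Q n ≤ S := fun n => le_csSup hbdd ⟨n, rfl⟩
    refine ⟨S, hle, ⟨n1, hn1⟩, ?_⟩
    rw [Metric.tendsto_atTop]
    intro ε hε
    have hδ : 0 < ε / (2 * ((S : ℝ) + 1)) := by positivity
    obtain ⟨n0, hn0⟩ := h1 _ hδ
    obtain ⟨m0, hm0⟩ := h2 n1 (ε / 2) (by linarith)
    refine ⟨max n0 m0, fun n hn => ?_⟩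
    have h3 := hn0 n (le_trans (le_max_left _ _) hn)
    have h4 := hm0 n (le_trans (le_max_right _ _) hn)
    have h5 : b n / a n ≤ (1 + ε / (2 * ((S : ℝ) + 1))) * (S : ℝ) := by
      rw [div_le_iff₀ (ha n)]
      refine h3.trans ?_
      apply mul_le_mul_of_nonneg_right _ (ha n).le
      apply mul_le_mul_of_nonneg_left _ (by positivity)
      exact_mod_cast hle n
    have h6 : (S : ℝ) - ε / 2 ≤ b n / a n := by
      rw [le_div_iff₀ (ha n), ← hn1]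
      exact h4
    have h7 : (1 + ε / (2 * ((S : ℝ) + 1))) * (S : ℝ) ≤ (S : ℝ) + ε / 2 := by
      have h8 : ε / (2 * ((S : ℝ) + 1)) * (S : ℝ) ≤ ε / 2 := by
        rw [div_mul_eq_mul_div, div_le_div_iff₀ (by positivity) (by norm_num)]
        nlinarith
      nlinarith
    rw [Real.dist_eq, abs_lt]
    constructor <;> linarith
  · right
    push Not at hb
    have hb2 : ∀ K : ℕ, ∃ n, K ≤ Q n := fun K => by
      obtain ⟨n, hn⟩ := hb K
      exact ⟨n, hn.le⟩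
    refine ⟨hb2, ?_⟩
    rw [Metric.tendsto_atTop]
    intro ε hε
    obtain ⟨K, hK⟩ := exists_nat_gt (1 / ε + 1)
    obtain ⟨n1, hn1⟩ := hb2 K
    obtain ⟨m0, hm0⟩ := h2 n1 1 one_pos
    refine ⟨m0, fun n hn => ?_⟩
    have h3 := hm0 n hn
    have h4 : (1 / ε) < (Q n1 : ℝ) - 1 := by
      have : (K : ℝ) ≤ (Q n1 : ℝ) := by exact_mod_cast hn1
      linarith
    have h5 : 0 < 1 / ε := by positivity
    have hbn : (1 / ε) * a n < b n := by
      calc (1 / ε) * a n < ((Q n1 : ℝ) - 1) * a n := mul_lt_mul_of_pos_right h4 (ha n)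
        _ ≤ b n := h3
    have hb0 : 0 < b n := lt_trans (mul_pos h5 (ha n)) hbn
    have h6 : 0 < a n / b n := div_pos (ha n) hb0
    rw [Real.dist_eq, sub_zero, abs_of_pos h6, div_lt_iff₀ hb0]
    calc a n = ε * ((1 / ε) * a n) := by field_simp
      _ < ε * b n := mul_lt_mul_of_pos_left hbn hε

end MP021685Z
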