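import Pool.Agent.Lib.MP_021685_agZ.QC
import Pool.Agent.Lib.MP_021685_agZ.Final
import Pool.Agent.Lib.MP_021685_agZ.Asym
import Pool.Agent.Lib.MP_021685_agZ.Lim

/-!
# Second part of THEOREM HALF: the limit
-/

set_option autoImplicit false
set_option linter.unusedSectionVars false

namespace MP021685Z

open Matrix Filter Topology

variable {k : Type*} [Field k] {ι : Type} [Fintype ι] [DecidableEq ι]

variable {B : Matrix ι ι k} {C : ∀ m n : ℕ, Submodule k (Mor k ι m n)}
  {U : ∀ n : ℕ, Submodule k ((Fin n → ι) → k)}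

theorem QD_one_mem (hC : IsCorrFamily B C) (n : ℕ) : (1 : Mor k ι n n) ∈ C n n := by
  have h := one_mem_Hom hC (Fin n)
  rw [Hom_fin hC] at h
  exact h

/-- The numbers `Q n`. -/
theorem QD_family [IsAlgClosed k] [CharZero k] (hC : IsCorrFamily B C) (hU : IsStable C U)
    (n : ℕ) : ∃ (l : ℕ) (t : Fin l → Mor k ι n n) (u : Fin l → ℕ),
      (∀ i, t i ∈ C n n ∧ t i * t i = t i) ∧
      Module.finrank k (U n) ≤ ∑ i, prk (sand 1 (C n n) (t i)) (C n n) * u i ∧
      ∀ m, ∑ i, prk (sand 1 (C n m) (t i)) (C m n) * u i ≤ Module.finrank k (U m) := by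
  have h1 := QD_one_mem hC n
  have hmul : ∀ x ∈ C n n, ∀ y ∈ C n n, x * y ∈ C n n :=
    fun x hx y hy => hC.comp_mem n n n x y hx hy
  obtain ⟨l, d, t, x, y, ht, hdis, hprim, hxy, hyx, hsum⟩ := QA_types (C n n) h1 hmul
  refine ⟨l, t, fun i => Module.finrank k ((U n).map (t i).mulVecLin),
    fun i => ⟨(ht i).1, (ht i).2.1⟩, ?_, fun m => ?_⟩
  · rw [QB_dim (C n n) h1 hmul (U n) (fun x hx u hu => hU.map_mem n n x u hx hu) ht hxy hyx hsum]
    refine Finset.sum_le_sum fun i _ => Nat.mul_le_mul_right _ ?_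
    exact QC_size (C n n) (ht i) (hxy i) (hyx i)
  · exact QC_lower (C n n) h1 hmul (C n m) (C m n)
      (fun g hg F hF => hC.comp_mem n m n g F hg hF) (U n) (U m)
      (fun F hF u hu => hU.map_mem n m F u hF hu) (fun x hx u hu => hU.map_mem n n x u hx hu)
      ht hdis hprim

theorem QD_le (hU : IsStable C U) (n : ℕ) :
    numRank C n ≤ Module.finrank k (U n) := by
  unfold numRank
  refine (Nat.sub_le _ _).trans (Submodule.finrank_mono ?_)
  intro u hu
  have h1 := hU.map_mem 0 n (fun x _ => u x : Mor k ι 0 n) (fun _ => 1) hu hU.unit_mem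
  have h2 : (fun x _ => u x : Mor k ι 0 n) *ᵥ (fun _ => 1) = u := by
    funext x
    rw [Matrix.mulVec, dotProduct, Fintype.sum_unique, mul_one]
  rw [h2] at h1
  exact h1

/-- **The limit of the ratio.** The ratio converges to `0` or to `1 / S`, `S` a positive integer; the
limit is the infimum of the ratio over the even numbers; it is larger than `1 / 2` if and only if
everything is a class and the pairings are perfect. -/
theorem limit [IsAlgClosed k] [CharZero k] (hC : IsCorrFamily B C) (hU : IsStable C U) :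
    ∃ L : ℝ, Tendsto (fun n => (numRank C n : ℝ) / (Module.finrank k (U n) : ℝ)) atTop (𝓝 L) ∧
      (L = 0 ∨ ∃ S : ℕ, 1 ≤ S ∧ L = 1 / S) ∧
      (∀ m, L ≤ (numRank C (2 * m) : ℝ) / (Module.finrank k (U (2 * m)) : ℝ)) ∧
      ((∀ n, classes C n = U n ∧ numTriv C n = ⊥) ↔ 1 / 2 < L) := by
  have hfam := fun n => QD_family hC hU n
  choose l t u ht hup hlow using hfam
  set Q : ℕ → ℕ := fun n => ∑ i, (t n i).rank * u n i with hQ
  have ha : ∀ n, (0 : ℝ) < (numRank C n : ℝ) := fun n => by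
    exact_mod_cast numRank_pos hC n
  have hab : ∀ n, (numRank C n : ℝ) ≤ (Module.finrank k (U n) : ℝ) := fun n => by
    exact_mod_cast QD_le hU n
  have h1 : ∀ δ : ℝ, 0 < δ → ∃ n0 : ℕ, ∀ n : ℕ, n0 ≤ n →
      (Module.finrank k (U n) : ℝ) ≤ (1 + δ) * (Q n : ℝ) * (numRank C n : ℝ) := by
    intro δ hδ
    obtain ⟨n0, hn0⟩ := h_le hC δ hδ
    refine ⟨n0, fun n hn => ?_⟩
    have h2 : (Module.finrank k (U n) : ℝ) ≤
        ∑ i, (prk (sand 1 (C n n) (t n i)) (C n n) : ℝ) * (u n i : ℝ) := by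
      exact_mod_cast hup n
    refine h2.trans ?_
    have h3 : ∀ i ∈ Finset.univ, (prk (sand 1 (C n n) (t n i)) (C n n) : ℝ) * (u n i : ℝ) ≤
        ((1 + δ) * ((t n i).rank : ℝ) * (numRank C n : ℝ)) * (u n i : ℝ) := fun i _ =>
      mul_le_mul_of_nonneg_right (hn0 n hn n (t n i) (ht n i).1 (ht n i).2) (Nat.cast_nonneg _)
    refine (Finset.sum_le_sum h3).trans (le_of_eq ?_)
    rw [hQ]
    push_cast
    rw [Finset.mul_sum, Finset.sum_mul]
    refine Finset.sum_congr rfl fun i _ => ?_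
    ring
  have h2 : ∀ (n : ℕ) (δ : ℝ), 0 < δ → ∃ m0 : ℕ, ∀ m : ℕ, m0 ≤ m →
      ((Q n : ℝ) - δ) * (numRank C m : ℝ) ≤ (Module.finrank k (U m) : ℝ) := by
    intro n δ hδ
    set su : ℝ := ∑ i, (u n i : ℝ) with hsu
    have hsu0 : 0 ≤ su := Finset.sum_nonneg fun i _ => Nat.cast_nonneg _
    have hδ' : 0 < δ / (1 + su) := div_pos hδ (by linarith)
    have h3 := fun i => h_ge hC n (t n i) (ht n i).1 (ht n i).2 _ hδ'
    choose m0 hm0 using h3
    refine ⟨∑ i, m0 i, fun m hm => ?_⟩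
    have h4 : ∑ i, (prk (sand 1 (C n m) (t n i)) (C m n) : ℝ) * (u n i : ℝ) ≤
        (Module.finrank k (U m) : ℝ) := by exact_mod_cast hlow n m
    refine le_trans ?_ h4
    have h5 : ∀ i ∈ Finset.univ, ((((t n i).rank : ℝ) - δ / (1 + su)) * (numRank C m : ℝ)) *
        (u n i : ℝ) ≤ (prk (sand 1 (C n m) (t n i)) (C m n) : ℝ) * (u n i : ℝ) := fun i _ => by
      refine mul_le_mul_of_nonneg_right (hm0 i m (le_trans ?_ hm)) (Nat.cast_nonneg _)
      exact Finset.single_le_sum (f := m0) (fun i _ => Nat.zero_le _) (Finset.mem_univ i)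
    refine le_trans ?_ (Finset.sum_le_sum h5)
    have h6 : ∑ i, ((((t n i).rank : ℝ) - δ / (1 + su)) * (numRank C m : ℝ)) * (u n i : ℝ) =
        ((Q n : ℝ) - (δ / (1 + su)) * su) * (numRank C m : ℝ) := by
      rw [hQ, hsu]
      push_cast
      rw [Finset.mul_sum, ← Finset.sum_sub_distrib, Finset.sum_mul]
      refine Finset.sum_congr rfl fun i _ => ?_
      ring
    rw [h6]
    refine mul_le_mul_of_nonneg_right ?_ (ha m).le
    have h7 : δ / (1 + su) * su ≤ δ := by
      rw [div_mul_eq_mul_div, div_le_iff₀ (by linarith)]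
      nlinarith
    linarith
  have heven : ∀ m : ℕ, (Module.finrank k (U (2 * m)) : ℝ) ≤
      (Q (2 * m) : ℝ) * (numRank C (2 * m) : ℝ) := by
    intro m
    have h3 : Module.finrank k (U (2 * m)) ≤ Q (2 * m) * numRank C (2 * m) := by
      refine (hup (2 * m)).trans ?_
      rw [hQ, Finset.sum_mul]
      refine Finset.sum_le_sum fun i _ => ?_
      have h4 := Asym_even_le hC (2 * m) m (t (2 * m) i) (ht (2 * m) i).1 (ht (2 * m) i).2
      calc prk (sand 1 (C (2 * m) (2 * m)) (t (2 * m) i)) (C (2 * m) (2 * m)) * u (2 * m) i ≤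
            ((t (2 * m) i).rank * numRank C (2 * m)) * u (2 * m) i := Nat.mul_le_mul_right _ h4
        _ = (t (2 * m) i).rank * u (2 * m) i * numRank C (2 * m) := by ring
    exact_mod_cast h3
  -- no failure: the ratio is one
  have hall : (∀ n, classes C n = U n ∧ numTriv C n = ⊥) → ∀ n,
      (numRank C n : ℝ) / (Module.finrank k (U n) : ℝ) = 1 := by
    intro h n
    have h3 : numRank C n = Module.finrank k (U n) := by
      unfold numRank
      rw [(h n).1, (h n).2, finrank_bot, Nat.sub_zero]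
    rw [h3]
    have h4 := (ha n).trans_le (hab n)
    exact div_self h4.ne'
  -- failure: the limit is at most one half
  have hfail : ∀ L : ℝ, Tendsto (fun n => (numRank C n : ℝ) / (Module.finrank k (U n) : ℝ))
      atTop (𝓝 L) → 1 / 2 < L → ∀ n, classes C n = U n ∧ numTriv C n = ⊥ := by
    intro L hL hL2
    rcases half hC hU with h | h
    · exact h
    · exfalso
      obtain ⟨c, hc1, hc2⟩ := exists_between hL2
      obtain ⟨n0, hn0⟩ := h c hc1
      have h3 : L ≤ c := by
        refine le_of_tendsto hL ?_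
        filter_upwards [eventually_ge_atTop n0] with n hn
        rw [div_le_iff₀ ((ha n).trans_le (hab n))]
        exact hn0 n hn
      linarith
  have hiff : ∀ L : ℝ, Tendsto (fun n => (numRank C n : ℝ) / (Module.finrank k (U n) : ℝ))
      atTop (𝓝 L) → ((∀ n, classes C n = U n ∧ numTriv C n = ⊥) ↔ 1 / 2 < L) := by
    intro L hL
    refine ⟨fun h => ?_, hfail L hL⟩
    have h3 : Tendsto (fun n => (numRank C n : ℝ) / (Module.finrank k (U n) : ℝ))
        atTop (𝓝 1) := by
      refine Tendsto.congr (fun n => (hall h n).symm) tendsto_const_nhds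
    rw [tendsto_nhds_unique hL h3]
    norm_num
  rcases Lim_ratio (fun n => (numRank C n : ℝ)) (fun n => (Module.finrank k (U n) : ℝ)) Q ha h1 h2
    with ⟨S, hQS, _, hS⟩ | ⟨_, h0⟩
  · have hS1 : (1 : ℝ) ≤ S := by
      refine ge_of_tendsto' hS fun n => ?_
      rw [le_div_iff₀ (ha n), one_mul]
      exact hab n
    have hlim : Tendsto (fun n => (numRank C n : ℝ) / (Module.finrank k (U n) : ℝ)) atTop
        (𝓝 (1 / (S : ℝ))) := by
      have h3 := hS.inv₀ (by linarith : (S : ℝ) ≠ 0)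
      rw [one_div]
      refine Tendsto.congr (fun n => ?_) h3
      rw [inv_div]
    refine ⟨1 / (S : ℝ), hlim, Or.inr ⟨S, by exact_mod_cast hS1, rfl⟩, fun m => ?_, hiff _ hlim⟩
    have hS0 : (0 : ℝ) < S := by linarith
    rw [div_le_div_iff₀ hS0 ((ha _).trans_le (hab _)), one_mul]
    have h3 : (Q (2 * m) : ℝ) ≤ (S : ℝ) := by exact_mod_cast hQS (2 * m)
    calc (Module.finrank k (U (2 * m)) : ℝ) ≤ (Q (2 * m) : ℝ) * (numRank C (2 * m) : ℝ) := heven m
      _ ≤ (S : ℝ) * (numRank C (2 * m) : ℝ) := mul_le_mul_of_nonneg_right h3 (ha _).le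
      _ = (numRank C (2 * m) : ℝ) * (S : ℝ) := mul_comm _ _
  · exact ⟨0, h0, Or.inl rfl, fun m => by positivity, hiff _ h0⟩

end MP021685Z
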