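import Pool.Agent.Lib.MP_021685_agZ.RotA

/-!
# Rotation does not change the numerical ranks
-/

namespace MP021685Z

open Matrix

variable {k : Type*} [Field k] {ι : Type} [Fintype ι] [DecidableEq ι]

theorem PrkRot_sum {R J : Type} [Fintype R] [Fintype J] [DecidableEq R] [DecidableEq J]
    (f : ((R ⊕ J) → ι) → k) :
    ∑ u : (R ⊕ J) → ι, f u = ∑ p : R → ι, ∑ q : J → ι, f (Sum.elim p q) := by
  rw [← (Equiv.sumArrowEquivProdArrow R J ι).symm.sum_comp f, Fintype.sum_prod_type]
  rfl

variable {B : Matrix ι ι k} {C : ∀ m n : ℕ, Submodule k (Mor k ι m n)}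

/-- `rotL` of `(w ⊗ X) F Y`. -/
theorem PrkRot_sand {R I J : Type} [Fintype R] [Fintype I] [Fintype J]
    [DecidableEq R] [DecidableEq I] [DecidableEq J]
    (X : Matrix (J → ι) (J → ι) k) (Y : Matrix (I → ι) (I → ι) k)
    (w : Matrix (R → ι) (R → ι) k) (w' : Matrix (R → ι) (R → ι) k)
    (hw : ∀ r s : R → ι, ∑ p : R → ι, (∏ i, B (r i) (p i)) * w p s =
      ∑ p : R → ι, w' p r * ∏ i, B (p i) (s i))
    (F : Matrix ((R ⊕ J) → ι) (I → ι) k) :
    rotL B (tsum w X * F * Y) = X * rotL B F * tsum w' Y := by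
  ext y z
  have hL : rotL B (tsum w X * F * Y) y z =
      ∑ v : I → ι, ∑ q : J → ι, ∑ p : R → ι,
        (∑ s : R → ι, (∏ i, B (z (Sum.inl i)) (s i)) * w s p) *
          (X y q * F (Sum.elim p q) v * Y v (z ∘ Sum.inr)) := by
    simp only [rotL, Matrix.mul_apply, PrkRot_sum, tsum, Sum.elim_comp_inl, Sum.elim_comp_inr,
      Finset.mul_sum, Finset.sum_mul]
    rw [Finset.sum_comm]
    refine Finset.sum_congr rfl fun v _ => ?_
    rw [Finset.sum_comm]
    rw [Finset.sum_comm]
    calc _ = ∑ s : R → ι, ∑ q : J → ι, ∑ p : R → ι, (∏ i, B (z (Sum.inl i)) (s i)) *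
          (w s p * X y q * F (Sum.elim p q) v * Y v (z ∘ Sum.inr)) := by
          refine Finset.sum_congr rfl fun s _ => ?_
          rw [Finset.sum_comm]
      _ = ∑ q : J → ι, ∑ p : R → ι, ∑ s : R → ι, (∏ i, B (z (Sum.inl i)) (s i)) *
          (w s p * X y q * F (Sum.elim p q) v * Y v (z ∘ Sum.inr)) := by
          rw [Finset.sum_comm]
          refine Finset.sum_congr rfl fun q _ => ?_
          rw [Finset.sum_comm]
      _ = _ := by
          refine Finset.sum_congr rfl fun q _ => Finset.sum_congr rfl fun p _ =>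
            Finset.sum_congr rfl fun s _ => ?_
          ring
  have hR : (X * rotL B F * tsum w' Y) y z =
      ∑ v : I → ι, ∑ q : J → ι, ∑ p : R → ι,
        (∑ p' : R → ι, w' p' (z ∘ Sum.inl) * ∏ i, B (p' i) (p i)) *
          (X y q * F (Sum.elim p q) v * Y v (z ∘ Sum.inr)) := by
    simp only [rotL, Matrix.mul_apply, PrkRot_sum, tsum, Sum.elim_comp_inl, Sum.elim_comp_inr,
      Finset.mul_sum, Finset.sum_mul, Sum.elim_inl]
    rw [Finset.sum_comm]
    refine Finset.sum_congr rfl fun v _ => ?_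
    rw [Finset.sum_comm]
    refine Finset.sum_congr rfl fun q _ => ?_
    rw [Finset.sum_comm]
    refine Finset.sum_congr rfl fun p _ => Finset.sum_congr rfl fun p' _ => ?_
    ring
  rw [hL, hR]
  refine Finset.sum_congr rfl fun v _ => Finset.sum_congr rfl fun q _ =>
    Finset.sum_congr rfl fun p _ => ?_
  rw [hw (fun i => z (Sum.inl i)) p]
  rfl

/-- `rotL` as a linear equivalence. -/
noncomputable def PrkRot_equiv (hB : IsUnit B.det) (R I J : Type) [Fintype R] [DecidableEq R] :
    Matrix ((R ⊕ J) → ι) (I → ι) k ≃ₗ[k] Matrix (J → ι) ((R ⊕ I) → ι) k where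
  toFun := rotL B
  invFun := rotR B
  left_inv := rotR_rotL hB
  right_inv := rotL_rotR hB
  map_add' F G := by
    ext y z
    simp only [rotL, Matrix.add_apply, mul_add, Finset.sum_add_distrib]
  map_smul' c F := by
    ext y z
    simp only [rotL, Matrix.smul_apply, smul_eq_mul, RingHom.id_apply, Finset.mul_sum]
    exact Finset.sum_congr rfl fun s _ => by ring

/-- Rotation does not change the ranks; an idempotent `w` on the rotated slots `R` becomes its
`B`-transpose `w'`. -/
theorem prk_rot (hC : IsCorrFamily B C) {R I J : Type} [Fintype R] [Fintype I] [Fintype J]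
    [DecidableEq R] [DecidableEq I] [DecidableEq J]
    (X : Matrix (J → ι) (J → ι) k) (Y : Matrix (I → ι) (I → ι) k)
    (w : Matrix (R → ι) (R → ι) k) (w' : Matrix (R → ι) (R → ι) k)
    (hw : ∀ r s : R → ι, ∑ p : R → ι, (∏ i, B (r i) (p i)) * w p s =
      ∑ p : R → ι, w' p r * ∏ i, B (p i) (s i)) :
    prk (sand (tsum w X) (Hom C I (R ⊕ J)) Y) (Hom C (R ⊕ J) I) =
      prk (sand X (Hom C (R ⊕ I) J) (tsum w' Y)) (Hom C J (R ⊕ I)) := by
  refine prk_equiv _ _ _ _ (PrkRot_equiv hC.nondeg R I J) ?_ ?_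
  · ext G
    simp only [Submodule.mem_map, sand]
    constructor
    · rintro ⟨_, ⟨F, hF, rfl⟩, rfl⟩
      exact ⟨rotL B F, rotL_mem hC hF, (PrkRot_sand X Y w w' hw F).symm⟩
    · rintro ⟨G', hG', rfl⟩
      refine ⟨_, ⟨rotR B G', rotR_mem hC hG', rfl⟩, ?_⟩
      have h := PrkRot_sand X Y w w' hw (rotR B G')
      rw [rotL_rotR hC.nondeg] at h
      exact h
  · intro F _
    constructor
    · intro h H hH
      obtain ⟨G, hG, rfl⟩ := rotD_surj hC hH
      exact (trace_rot hC.nondeg F G).trans (h G hG)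
    · intro h G hG
      have := h (rotD B G) (rotD_mem hC hG)
      rw [← trace_rot hC.nondeg F G]
      exact this

end MP021685Z
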