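import Pool.Agent.Lib.MP_021685_agZ.PrkRot
import Pool.Agent.Lib.MP_021685_agZ.CsHom
import Pool.Agent.Lib.MP_021685_agZ.Num
import Pool.Agent.Lib.MP_021685_agZ.TwoA

/-!
# Cauchy-Schwarz for correspondences and the bound `h(M, V^{2m}) ≤ rank M * a_{2m}`
-/

namespace MP021685Z

open Matrix

variable {k : Type*} [Field k] {ι : Type} [Fintype ι] [DecidableEq ι]

variable {B : Matrix ι ι k} {C : ∀ m n : ℕ, Submodule k (Mor k ι m n)}

omit [DecidableEq ι] in
theorem tsum_mul {I J I' J' I'' J'' : Type} [Fintype I] [Fintype J] [DecidableEq I]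
    [DecidableEq J] (a : Matrix (I' → ι) (I → ι) k) (c : Matrix (I → ι) (I'' → ι) k)
    (b : Matrix (J' → ι) (J → ι) k) (d : Matrix (J → ι) (J'' → ι) k) :
    tsum a b * tsum c d = tsum (a * c) (b * d) := by
  ext x y
  rw [Matrix.mul_apply]
  show _ = (a * c) _ _ * (b * d) _ _
  rw [Matrix.mul_apply, Matrix.mul_apply, Finset.sum_mul_sum, ← Finset.sum_product',
    Finset.univ_product_univ]
  refine Fintype.sum_equiv (Equiv.sumArrowEquivProdArrow I J ι) _ _ (fun z => ?_)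
  simp only [tsum, Equiv.sumArrowEquivProdArrow, Equiv.coe_fn_mk]
  show _ = a _ (z ∘ Sum.inl) * c (z ∘ Sum.inl) _ * (b _ (z ∘ Sum.inr) * d (z ∘ Sum.inr) _)
  ring

omit [Fintype ι] in
theorem tsum_one {I J : Type} [Fintype I] [Fintype J] [DecidableEq I] [DecidableEq J] :
    tsum (1 : Matrix (I → ι) (I → ι) k) (1 : Matrix (J → ι) (J → ι) k) = 1 := by
  ext x y
  unfold tsum
  simp only [Matrix.one_apply]
  by_cases h : x = y
  · subst h; simp
  · rw [if_neg h]
    by_cases h1 : x ∘ Sum.inl = y ∘ Sum.inl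
    · by_cases h2 : x ∘ Sum.inr = y ∘ Sum.inr
      · exfalso
        apply h
        funext i
        rcases i with i | i
        · exact congrFun h1 i
        · exact congrFun h2 i
      · rw [if_neg h2, mul_zero]
    · rw [if_neg h1, zero_mul]

theorem sand_one {a b : Type*} [Fintype a] [Fintype b] [DecidableEq a] [DecidableEq b]
    (P : Submodule k (Matrix b a k)) : sand 1 P 1 = P := by
  unfold sand
  have : lr (1 : Matrix b b k) (1 : Matrix a a k) = LinearMap.id := by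
    ext1 F
    show (1 : Matrix b b k) * F * (1 : Matrix a a k) = F
    simp
  rw [this, Submodule.map_id]

/-- One step of the iteration. -/
theorem D_step [IsAlgClosed k] [CharZero k] (hC : IsCorrFamily B C) (R M : Type)
    [Fintype R] [Fintype M] [DecidableEq R] [DecidableEq M] (w : Matrix (R → ι) (R → ι) k)
    (hw : w ∈ Hom C R R) (hw2 : w * w = w) :
    ∃ w₁ ∈ Hom C (R ⊕ R) (R ⊕ R), w₁ * w₁ = w₁ ∧ w₁.rank = w.rank ^ 2 ∧
      prk (sand 1 (Hom C (R ⊕ M) M) (tsum w 1)) (Hom C M (R ⊕ M)) ^ 2 ≤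
        prk (Hom C M M) (Hom C M M) *
          prk (sand 1 (Hom C ((R ⊕ R) ⊕ M) M) (tsum w₁ 1)) (Hom C M ((R ⊕ R) ⊕ M)) := by
  obtain ⟨w', hw', hw'2, htr, hrel⟩ := exists_transpose hC w hw hw2
  have hrk : w'.rank = w.rank := by
    have h1 := rank_idem w' hw'2
    have h2 := rank_idem w hw2
    rw [htr, ← h2] at h1
    exact_mod_cast h1
  refine ⟨tsum w' w, tsum_mem_Hom hC hw' hw, ?_, ?_, ?_⟩
  · rw [tsum_mul, hw'2, hw2]
  · rw [rank_tsum _ _ hw'2 hw2, hrk, sq]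
  · have hη : tsum w (1 : Matrix (M → ι) (M → ι) k) ∈ Hom C (R ⊕ M) (R ⊕ M) :=
      tsum_mem_Hom hC hw (one_mem_Hom hC M)
    have hη2 : tsum w (1 : Matrix (M → ι) (M → ι) k) * tsum w 1 = tsum w 1 := by
      rw [tsum_mul, hw2, mul_one]
    have h1 := cs_hom hC (tsum w (1 : Matrix (M → ι) (M → ι) k)) (1 : Matrix (M → ι) (M → ι) k)
      hη hη2 (one_mem_Hom hC M) (mul_one 1)
    rw [sand_one (Hom C M M), mul_comm] at h1
    refine h1.trans (Nat.mul_le_mul_left _ (le_of_eq ?_))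
    rw [prk_rot hC (R := R) (I := R ⊕ M) (J := M) 1 (tsum w 1) w w' hrel,
      ← prk_rei (Equiv.sumAssoc R R M) (Equiv.refl M)]
    congr 2
    · ext x y
      show tsum w' (tsum w 1) (x ∘ (Equiv.sumAssoc R R M).symm) (y ∘ (Equiv.sumAssoc R R M).symm) =
        tsum (tsum w' w) 1 x y
      unfold tsum
      show w' _ _ * (w _ _ * _) = w' _ _ * w _ _ * _
      rw [mul_assoc]
      rfl

theorem card_pos (hC : IsCorrFamily B C) : 0 < Fintype.card ι := by
  obtain ⟨e, -, e', -, h⟩ := hC.unit_mem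
  rw [Fintype.card_pos_iff]
  by_contra hι
  rw [not_nonempty_iff] at hι
  apply h
  ext x y
  rw [Matrix.mul_apply]
  have : IsEmpty (Fin 1 → ι) := ⟨fun f => hι.false (f 0)⟩
  simp

theorem prk_self_pos [CharZero k] (hC : IsCorrFamily B C) (M : Type) [Fintype M]
    [DecidableEq M] : 0 < prk (Hom C M M) (Hom C M M) := by
  rw [Nat.pos_iff_ne_zero]
  intro h
  have h1 : (Hom C M M).map (rad (Hom C M M)).mkQ = ⊥ := by
    exact Submodule.finrank_eq_zero.mp h
  have h2 : (rad (Hom C M M)).mkQ (1 : Matrix (M → ι) (M → ι) k) = 0 := by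
    have h3 : (rad (Hom C M M)).mkQ (1 : Matrix (M → ι) (M → ι) k) ∈
        (Hom C M M).map (rad (Hom C M M)).mkQ :=
      Submodule.mem_map_of_mem (one_mem_Hom hC M)
    rwa [h1, Submodule.mem_bot] at h3
  rw [Submodule.mkQ_apply, Submodule.Quotient.mk_eq_zero] at h2
  have h3 := h2 1 (one_mem_Hom hC M)
  rw [mul_one, trace_one, Nat.cast_eq_zero, Fintype.card_fun] at h3
  exact (pow_pos (card_pos hC) _).ne' h3

/-- A state of the iteration. -/
structure St (C : ∀ m n : ℕ, Submodule k (Mor k ι m n)) where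
  R : Type
  [fR : Fintype R]
  [dR : DecidableEq R]
  w : Matrix (R → ι) (R → ι) k
  hw : w ∈ Hom C R R
  hw2 : w * w = w

attribute [instance] St.fR St.dR

/-- The numerical rank of a state. -/
noncomputable def St.D (s : St C) (M : Type) [Fintype M] [DecidableEq M] : ℕ :=
  prk (sand 1 (Hom C (s.R ⊕ M) M) (tsum s.w 1)) (Hom C M (s.R ⊕ M))

theorem St.next [IsAlgClosed k] [CharZero k] (hC : IsCorrFamily B C) (M : Type) [Fintype M]
    [DecidableEq M] (s : St C) : ∃ s' : St C, s'.w.rank = s.w.rank ^ 2 ∧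
      s.D M ^ 2 ≤ prk (Hom C M M) (Hom C M M) * s'.D M := by
  obtain ⟨w₁, h1, h2, h3, h4⟩ := D_step hC s.R M s.w s.hw s.hw2
  exact ⟨⟨s.R ⊕ s.R, w₁, h1, h2⟩, h3, h4⟩

/-- `h(M, V^{2m}) ≤ rank M * a_{2m}`. -/
theorem D_le [IsAlgClosed k] [CharZero k] (hC : IsCorrFamily B C) (R M : Type)
    [Fintype R] [Fintype M] [DecidableEq R] [DecidableEq M] (w : Matrix (R → ι) (R → ι) k)
    (hw : w ∈ Hom C R R) (hw2 : w * w = w) :
    prk (sand 1 (Hom C (R ⊕ M) M) (tsum w 1)) (Hom C M (R ⊕ M)) ≤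
      w.rank * prk (Hom C M M) (Hom C M M) := by
  choose nxt hn1 hn2 using St.next hC M
  obtain ⟨s, hs0, hs1⟩ : ∃ s : ℕ → St C, s 0 = ⟨R, w, hw, hw2⟩ ∧ ∀ j, s (j + 1) = nxt (s j) :=
    ⟨fun j => Nat.rec ⟨R, w, hw, hw2⟩ (fun _ t => nxt t) j, rfl, fun j => rfl⟩
  have hrk : ∀ j, (s j).w.rank = w.rank ^ (2 ^ j) := by
    intro j
    induction j with
    | zero => rw [hs0]; simp
    | succ j ih => rw [hs1, hn1, ih, ← pow_mul, pow_succ]
  have hcr : ∀ j, ((s j).D M : ℝ) ≤ (w.rank : ℝ) ^ (2 ^ j) *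
      ((Fintype.card (M → ι) : ℝ) * (Fintype.card (M → ι) : ℝ)) := by
    intro j
    have h1 : (s j).D M ≤ Fintype.card (M → ι) *
        (tsum (s j).w (1 : Matrix (M → ι) (M → ι) k)).rank := crude _ _ _
    rw [rank_tsum (s j).w (1 : Matrix (M → ι) (M → ι) k) (s j).hw2 (mul_one 1), hrk,
      rank_one] at h1
    calc ((s j).D M : ℝ) ≤ ((Fintype.card (M → ι) * (w.rank ^ (2 ^ j) *
          Fintype.card (M → ι)) : ℕ) : ℝ) := by exact_mod_cast h1
      _ = _ := by push_cast; ring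
  have h := Num_iter_bound_nat (a := (prk (Hom C M M) (Hom C M M) : ℝ))
    (B := (Fintype.card (M → ι) : ℝ) * (Fintype.card (M → ι) : ℝ))
    (by exact_mod_cast prk_self_pos hC M) w.rank (fun j => ((s j).D M : ℝ))
    (fun j => by
      show ((s j).D M : ℝ) ^ 2 ≤ (prk (Hom C M M) (Hom C M M) : ℝ) * ((s (j + 1)).D M : ℝ)
      rw [hs1]
      exact_mod_cast hn2 (s j)) hcr
  have h' : (((s 0).D M : ℕ) : ℝ) ≤ ((w.rank * prk (Hom C M M) (Hom C M M) : ℕ) : ℝ) := by
    push_cast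
    exact h
  rw [hs0] at h'
  exact_mod_cast h'

end MP021685Z
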