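import Mathlib

/-!
# MP_021685_ag, theorem HALF: definitions

`V = k^ι`; the words `Fin n → ι` index the basis of `V^{⊗n}`.
-/

namespace MP021685Z

open Matrix

variable {k : Type*} [Field k] {ι : Type} [Fintype ι] [DecidableEq ι]

/-- Linear maps `V^{⊗m} → V^{⊗n}` in coordinates. -/
abbrev Mor (k : Type*) (ι : Type) (m n : ℕ) := Matrix (Fin n → ι) (Fin m → ι) k

/-- The tensor product of two linear maps. -/
def tens {m n m' n' : ℕ} (f : Mor k ι m n) (g : Mor k ι m' n') :
    Mor k ι (m + m') (n + n') := fun x y =>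
  f (fun i => x (Fin.castAdd n' i)) (fun i => y (Fin.castAdd m' i)) *
    g (fun i => x (Fin.natAdd n i)) (fun i => y (Fin.natAdd m i))

/-- The permutation of the factors of `V^{⊗n}`. -/
def permMor (k : Type*) [Field k] (ι : Type) [DecidableEq ι] {n : ℕ} (σ : Equiv.Perm (Fin n)) :
    Mor k ι n n := fun x y => if y = x ∘ σ then 1 else 0

/-- The bilinear form `V ⊗ V → k` with matrix `B`. -/
def formMor (B : Matrix ι ι k) : Mor k ι 2 0 := fun _ y => B (y 0) (y 1)

/-- The tensor in `V ⊗ V` inverse to the bilinear form `B`. -/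
noncomputable def coformMor (B : Matrix ι ι k) : Mor k ι 0 2 := fun x _ => B⁻¹ (x 0) (x 1)

/-- A family of correspondences: spaces `C m n` of linear maps `V^{⊗m} → V^{⊗n}`, closed under
composition and tensor products, which contain the permutations of the factors (so the
identities), a nondegenerate bilinear form on `V`, its inverse tensor in `V ⊗ V`, and a vector
`e` in `V` and a linear form `e'` on `V` with `e' e ≠ 0`. -/
structure IsCorrFamily (B : Matrix ι ι k) (C : ∀ m n : ℕ, Submodule k (Mor k ι m n)) : Prop where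
  nondeg : IsUnit B.det
  perm_mem : ∀ (n : ℕ) (σ : Equiv.Perm (Fin n)), permMor k ι σ ∈ C n n
  comp_mem : ∀ (l m n : ℕ) (f : Mor k ι m n) (g : Mor k ι l m),
    f ∈ C m n → g ∈ C l m → f * g ∈ C l n
  tens_mem : ∀ (m n m' n' : ℕ) (f : Mor k ι m n) (g : Mor k ι m' n'),
    f ∈ C m n → g ∈ C m' n' → tens f g ∈ C (m + m') (n + n')
  form_mem : formMor B ∈ C 2 0
  coform_mem : coformMor B ∈ C 0 2
  unit_mem : ∃ e ∈ C 0 1, ∃ e' ∈ C 1 0, e' * e ≠ 0

/-- A family of subspaces `U n` of `V^{⊗n}` which contains the scalars and is stable under the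
correspondences in `C`. -/
structure IsStable (C : ∀ m n : ℕ, Submodule k (Mor k ι m n))
    (U : ∀ n : ℕ, Submodule k ((Fin n → ι) → k)) : Prop where
  unit_mem : (fun _ => 1) ∈ U 0
  map_mem : ∀ (m n : ℕ) (f : Mor k ι m n) (u : (Fin m → ι) → k),
    f ∈ C m n → u ∈ U m → f *ᵥ u ∈ U n

/-- The tensors in `V^{⊗n}` which belong to the family `C` (are in `C 0 n`). -/
def classes (C : ∀ m n : ℕ, Submodule k (Mor k ι m n)) (n : ℕ) :
    Submodule k ((Fin n → ι) → k) where
  carrier := {u | (fun x _ => u x : Mor k ι 0 n) ∈ C 0 n}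
  zero_mem' := (C 0 n).zero_mem
  add_mem' := fun ha hb => (C 0 n).add_mem ha hb
  smul_mem' := fun c _ hx => (C 0 n).smul_mem c hx

/-- The numerically trivial tensors: those in `C 0 n` killed by all linear forms in `C n 0`. -/
def numTriv (C : ∀ m n : ℕ, Submodule k (Mor k ι m n)) (n : ℕ) :
    Submodule k ((Fin n → ι) → k) where
  carrier := {u | u ∈ classes C n ∧ ∀ g ∈ C n 0, g *ᵥ u = 0}
  zero_mem' := ⟨zero_mem _, fun g _ => by simp⟩
  add_mem' := fun ha hb => ⟨add_mem ha.1 hb.1, fun g hg => by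
    rw [mulVec_add, ha.2 g hg, hb.2 g hg, add_zero]⟩
  smul_mem' := fun c _ hx => ⟨(classes C n).smul_mem c hx.1, fun g hg => by
    rw [mulVec_smul, hx.2 g hg, smul_zero]⟩

/-- The numerical rank: the dimension of the space of tensors in `C 0 n` modulo the numerically
trivial ones. -/
noncomputable def numRank (C : ∀ m n : ℕ, Submodule k (Mor k ι m n)) (n : ℕ) : ℕ :=
  Module.finrank k (classes C n) - Module.finrank k (numTriv C n)

end MP021685Z
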