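import Pool.Agent.Lib.MP_021685_agZ.Defs

/-!
# Families of correspondences indexed by finite types of slots
-/

namespace MP021685Z

open Matrix

variable {k : Type*} [Field k] {ι : Type} [Fintype ι] [DecidableEq ι]

/-- Relabelling of the slots. -/
def rei {I I' J J' : Type} (e : I' ≃ I) (e' : J' ≃ J) (F : Matrix (J → ι) (I → ι) k) :
    Matrix (J' → ι) (I' → ι) k := fun x y => F (x ∘ e'.symm) (y ∘ e.symm)

/-- The correspondences with input slots `I` and output slots `J`. -/
def Hom (C : ∀ m n : ℕ, Submodule k (Mor k ι m n)) (I J : Type) :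
    Submodule k (Matrix (J → ι) (I → ι) k) where
  carrier := {F | ∀ (m n : ℕ) (e : Fin m ≃ I) (e' : Fin n ≃ J), rei e e' F ∈ C m n}
  zero_mem' := fun m n _ _ => (C m n).zero_mem
  add_mem' := fun ha hb m n e e' => (C m n).add_mem (ha m n e e') (hb m n e e')
  smul_mem' := fun c _ hx m n e e' => (C m n).smul_mem c (hx m n e e')

/-- The tensor product of `F` and `G`, slots `I ⊕ I'` and `J ⊕ J'`. -/
def tsum {I I' J J' : Type} (F : Matrix (J → ι) (I → ι) k) (G : Matrix (J' → ι) (I' → ι) k) :
    Matrix ((J ⊕ J') → ι) ((I ⊕ I') → ι) k := fun x y =>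
  F (x ∘ Sum.inl) (y ∘ Sum.inl) * G (x ∘ Sum.inr) (y ∘ Sum.inr)

/-- The bilinear form on `V^{⊗I}`. -/
def evI (B : Matrix ι ι k) (I : Type) [Fintype I] : Matrix (Empty → ι) ((I ⊕ I) → ι) k :=
  fun _ y => ∏ i, B (y (Sum.inl i)) (y (Sum.inr i))

/-- The inverse tensor. -/
noncomputable def coevI (B : Matrix ι ι k) (I : Type) [Fintype I] :
    Matrix ((I ⊕ I) → ι) (Empty → ι) k :=
  fun x _ => ∏ i, B⁻¹ (x (Sum.inl i)) (x (Sum.inr i))

variable {B : Matrix ι ι k} {C : ∀ m n : ℕ, Submodule k (Mor k ι m n)}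

theorem Hom_rei_rei {I I' I'' J J' J'' : Type} (e : I' ≃ I) (e' : J' ≃ J) (f : I'' ≃ I')
    (f' : J'' ≃ J') (F : Matrix (J → ι) (I → ι) k) :
    rei f f' (rei e e' F) = rei (f.trans e) (f'.trans e') F := rfl

theorem Hom_rei_refl {I J : Type} (F : Matrix (J → ι) (I → ι) k) :
    rei (Equiv.refl I) (Equiv.refl J) F = F := rfl

theorem Hom_perm_mul {m n : ℕ} (σ : Equiv.Perm (Fin n)) (F : Mor k ι m n) :
    permMor k ι σ * F = fun x y => F (x ∘ σ) y := by
  ext x y
  rw [Matrix.mul_apply, Finset.sum_eq_single (x ∘ σ)]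
  · simp [permMor]
  · intro z _ hz
    simp [permMor, hz]
  · intro h
    exact absurd (Finset.mem_univ _) h

theorem Hom_mul_perm {m n : ℕ} (σ : Equiv.Perm (Fin m)) (F : Mor k ι m n) :
    F * permMor k ι σ = fun x y => F x (y ∘ σ.symm) := by
  ext x y
  rw [Matrix.mul_apply, Finset.sum_eq_single (y ∘ σ.symm)]
  · have : y = (y ∘ σ.symm) ∘ σ := by
      funext i
      simp
    simp only [permMor]
    rw [if_pos this, mul_one]
  · intro z _ hz
    have : ¬ (y = z ∘ σ) := by
      intro h
      apply hz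
      rw [h]
      funext i
      simp
    simp only [permMor]
    rw [if_neg this, mul_zero]
  · intro h
    exact absurd (Finset.mem_univ _) h

theorem Hom_perm_one (n : ℕ) : permMor k ι (Equiv.refl (Fin n)) = 1 := by
  ext x y
  simp only [permMor, Matrix.one_apply]
  by_cases h : x = y
  · rw [if_pos h, if_pos]
    rw [h]
    rfl
  · rw [if_neg h, if_neg]
    intro h2
    apply h
    rw [h2]
    rfl

theorem Hom_fin (hC : IsCorrFamily B C) (m n : ℕ) : Hom C (Fin m) (Fin n) = C m n := by
  apply le_antisymm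
  · intro F hF
    exact hF m n (Equiv.refl _) (Equiv.refl _)
  · intro F hF m' n' e e'
    have hm : m' = m := by simpa using Fintype.card_congr e
    have hn : n' = n := by simpa using Fintype.card_congr e'
    subst hm
    subst hn
    have h1 : rei e e' F = permMor k ι e'.symm * F * permMor k ι e := by
      rw [Hom_mul_perm, Hom_perm_mul]
      rfl
    rw [h1]
    exact hC.comp_mem _ _ _ _ _ (hC.comp_mem _ _ _ _ _ (hC.perm_mem _ _) hF) (hC.perm_mem _ _)

theorem mem_Hom_of (hC : IsCorrFamily B C) {I J : Type} {F : Matrix (J → ι) (I → ι) k}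
    {m n : ℕ} (e : Fin m ≃ I) (e' : Fin n ≃ J) (h : rei e e' F ∈ C m n) : F ∈ Hom C I J := by
  intro m' n' f f'
  rw [← Hom_fin hC] at h
  have h2 := h m' n' (f.trans e.symm) (f'.trans e'.symm)
  rw [Hom_rei_rei] at h2
  have h3 : (f.trans e.symm).trans e = f := by
    ext i
    simp
  have h4 : (f'.trans e'.symm).trans e' = f' := by
    ext i
    simp
  rwa [h3, h4] at h2

theorem one_mem_Hom (hC : IsCorrFamily B C) (I : Type) [Fintype I] [DecidableEq I] :
    (1 : Matrix (I → ι) (I → ι) k) ∈ Hom C I I := by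
  apply mem_Hom_of hC (Fintype.equivFin I).symm (Fintype.equivFin I).symm
  have h1 : rei (Fintype.equivFin I).symm (Fintype.equivFin I).symm
      (1 : Matrix (I → ι) (I → ι) k) = permMor k ι (Equiv.refl (Fin (Fintype.card I))) := by
    rw [Hom_perm_one]
    ext x y
    simp only [rei, Matrix.one_apply]
    by_cases h : x = y
    · rw [if_pos h, if_pos (by rw [h])]
    · rw [if_neg h, if_neg]
      intro h2
      apply h
      funext i
      have h3 := congrFun h2 ((Fintype.equivFin I).symm i)
      simpa using h3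
  rw [h1]
  exact hC.perm_mem _ _

theorem Hom_rei_mul {I J K I' J' K' : Type} [Fintype J] [Fintype J']
    [DecidableEq J] [DecidableEq J'] (e : I' ≃ I) (e' : J' ≃ J) (e'' : K' ≃ K)
    (F : Matrix (K → ι) (J → ι) k) (G : Matrix (J → ι) (I → ι) k) :
    rei e e'' (F * G) = rei e' e'' F * rei e e' G := by
  ext x y
  simp only [rei, Matrix.mul_apply]
  apply Fintype.sum_equiv (Equiv.arrowCongr e'.symm (Equiv.refl ι))
  intro z
  have h1 : (Equiv.arrowCongr e'.symm (Equiv.refl ι)) z ∘ e'.symm = z := by
    funext i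
    simp [Equiv.arrowCongr]
  rw [h1]

theorem mul_mem_Hom (hC : IsCorrFamily B C) {I J K : Type} [Fintype I] [Fintype J] [Fintype K]
    [DecidableEq I] [DecidableEq J] [DecidableEq K]
    {F : Matrix (K → ι) (J → ι) k} {G : Matrix (J → ι) (I → ι) k}
    (hF : F ∈ Hom C J K) (hG : G ∈ Hom C I J) : F * G ∈ Hom C I K := by
  intro m n e e'
  rw [Hom_rei_mul e (Fintype.equivFin J).symm e']
  exact hC.comp_mem _ _ _ _ _ (hF _ _ _ _) (hG _ _ _ _)

theorem rei_mem_Hom {I I' J J' : Type} {F : Matrix (J → ι) (I → ι) k}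
    (hF : F ∈ Hom C I J) (e : I' ≃ I) (e' : J' ≃ J) : rei e e' F ∈ Hom C I' J' := by
  intro m n f f'
  exact hF m n (f.trans e) (f'.trans e')

theorem tsum_mem_Hom (hC : IsCorrFamily B C) {I I' J J' : Type}
    [Fintype I] [Fintype I'] [Fintype J] [Fintype J']
    {F : Matrix (J → ι) (I → ι) k} {G : Matrix (J' → ι) (I' → ι) k}
    (hF : F ∈ Hom C I J) (hG : G ∈ Hom C I' J') : tsum F G ∈ Hom C (I ⊕ I') (J ⊕ J') := by
  have h := hC.tens_mem _ _ _ _ _ _
    (hF _ _ (Fintype.equivFin I).symm (Fintype.equivFin J).symm)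
    (hG _ _ (Fintype.equivFin I').symm (Fintype.equivFin J').symm)
  refine mem_Hom_of hC
    (finSumFinEquiv.symm.trans
      (Equiv.sumCongr (Fintype.equivFin I).symm (Fintype.equivFin I').symm))
    (finSumFinEquiv.symm.trans
      (Equiv.sumCongr (Fintype.equivFin J).symm (Fintype.equivFin J').symm)) ?_
  have h2 : rei (finSumFinEquiv.symm.trans
      (Equiv.sumCongr (Fintype.equivFin I).symm (Fintype.equivFin I').symm))
      (finSumFinEquiv.symm.trans
      (Equiv.sumCongr (Fintype.equivFin J).symm (Fintype.equivFin J').symm)) (tsum F G) =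
      tens (rei (Fintype.equivFin I).symm (Fintype.equivFin J).symm F)
        (rei (Fintype.equivFin I').symm (Fintype.equivFin J').symm G) := by
    ext x y
    rfl
  rw [h2]
  exact h

/-- Splitting off the last slot of both copies. -/
def Hom_optE (α : Type) : (Option α ⊕ Option α) ≃ ((α ⊕ α) ⊕ Fin 2) where
  toFun
    | Sum.inl none => Sum.inr 0
    | Sum.inl (some a) => Sum.inl (Sum.inl a)
    | Sum.inr none => Sum.inr 1
    | Sum.inr (some a) => Sum.inl (Sum.inr a)
  invFun
    | Sum.inl (Sum.inl a) => Sum.inl (some a)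
    | Sum.inl (Sum.inr a) => Sum.inr (some a)
    | Sum.inr 0 => Sum.inl none
    | Sum.inr 1 => Sum.inr none
  left_inv := by
    rintro ((_ | a) | (_ | a)) <;> rfl
  right_inv := by
    rintro ((a | a) | i)
    · rfl
    · rfl
    · fin_cases i <;> rfl

/-- The empty types. -/
def Hom_empE : Empty ≃ (Empty ⊕ Fin 0) := Equiv.equivOfIsEmpty _ _

theorem evI_mem (hC : IsCorrFamily B C) (I : Type) [Fintype I] :
    evI B I ∈ Hom C (I ⊕ I) Empty := by
  have key : ∀ [Fintype I], evI B I ∈ Hom C (I ⊕ I) Empty := by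
    refine Finite.induction_empty_option
      (P := fun I : Type => ∀ [Fintype I], evI B I ∈ Hom C (I ⊕ I) Empty) ?_ ?_ ?_ I
    · intro α β e hα inst
      letI : Fintype α := Fintype.ofEquiv β e.symm
      have h1 := rei_mem_Hom hα
        (Equiv.sumCongr e.symm e.symm) (Equiv.refl Empty)
      have h2 : rei (Equiv.sumCongr e.symm e.symm) (Equiv.refl Empty) (evI B α) = evI B β := by
        ext x y
        simp only [rei, evI]
        exact Fintype.prod_equiv e _ _ (fun i => by simp)
      rw [← h2]
      exact h1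
    · intro inst
      refine mem_Hom_of hC (m := 0) (n := 0) (Equiv.equivOfIsEmpty _ _)
        (Equiv.equivOfIsEmpty _ _) ?_
      have h1 : rei (Equiv.equivOfIsEmpty (Fin 0) (PEmpty.{1} ⊕ PEmpty.{1}))
          (Equiv.equivOfIsEmpty (Fin 0) Empty) (evI B PEmpty.{1}) =
          permMor k ι (Equiv.refl (Fin 0)) := by
        ext x y
        have hxy : y = x := Subsingleton.elim _ _
        simp [rei, evI, permMor, hxy]
      rw [h1]
      exact hC.perm_mem _ _
    · intro α instα hα inst
      have h0 : formMor B ∈ Hom C (Fin 2) (Fin 0) := by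
        rw [Hom_fin hC]
        exact hC.form_mem
      have h1 := rei_mem_Hom (tsum_mem_Hom hC (hα) h0) (Hom_optE α) Hom_empE
      have h2 : rei (Hom_optE α) Hom_empE (tsum (evI B α) (formMor B)) = evI B (Option α) := by
        ext x y
        simp only [rei, evI, tsum, formMor]
        rw [mul_comm]
        have h3 : (∏ i : Option α, B (y (Sum.inl i)) (y (Sum.inr i))) =
            B (y (Sum.inl none)) (y (Sum.inr none)) *
              ∏ i : α, B (y (Sum.inl (some i))) (y (Sum.inr (some i))) := by
          rw [← Fintype.prod_option (fun i : Option α => B (y (Sum.inl i)) (y (Sum.inr i)))]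
          apply Finset.prod_bij (fun i _ => i) <;> simp
        rw [h3]
        rfl
      rw [← h2]
      exact h1
  exact key

theorem coevI_mem (hC : IsCorrFamily B C) (I : Type) [Fintype I] :
    coevI B I ∈ Hom C Empty (I ⊕ I) := by
  have key : ∀ [Fintype I], coevI B I ∈ Hom C Empty (I ⊕ I) := by
    refine Finite.induction_empty_option
      (P := fun I : Type => ∀ [Fintype I], coevI B I ∈ Hom C Empty (I ⊕ I)) ?_ ?_ ?_ I
    · intro α β e hα inst
      letI : Fintype α := Fintype.ofEquiv β e.symm
      have h1 := rei_mem_Hom hα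
        (Equiv.refl Empty) (Equiv.sumCongr e.symm e.symm)
      have h2 : rei (Equiv.refl Empty) (Equiv.sumCongr e.symm e.symm) (coevI B α) =
          coevI B β := by
        ext x y
        simp only [rei, coevI]
        exact Fintype.prod_equiv e _ _ (fun i => by simp)
      rw [← h2]
      exact h1
    · intro inst
      refine mem_Hom_of hC (m := 0) (n := 0) (Equiv.equivOfIsEmpty _ _)
        (Equiv.equivOfIsEmpty _ _) ?_
      have h1 : rei (Equiv.equivOfIsEmpty (Fin 0) Empty)
          (Equiv.equivOfIsEmpty (Fin 0) (PEmpty.{1} ⊕ PEmpty.{1})) (coevI B PEmpty.{1}) =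
          permMor k ι (Equiv.refl (Fin 0)) := by
        ext x y
        have hxy : y = x := Subsingleton.elim _ _
        simp [rei, coevI, permMor, hxy]
      rw [h1]
      exact hC.perm_mem _ _
    · intro α instα hα inst
      have h0 : coformMor B ∈ Hom C (Fin 0) (Fin 2) := by
        rw [Hom_fin hC]
        exact hC.coform_mem
      have h1 := rei_mem_Hom (tsum_mem_Hom hC (hα) h0) Hom_empE (Hom_optE α)
      have h2 : rei Hom_empE (Hom_optE α) (tsum (coevI B α) (coformMor B)) =
          coevI B (Option α) := by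
        ext x y
        simp only [rei, coevI, tsum, coformMor]
        rw [mul_comm]
        have h3 : (∏ i : Option α, B⁻¹ (x (Sum.inl i)) (x (Sum.inr i))) =
            B⁻¹ (x (Sum.inl none)) (x (Sum.inr none)) *
              ∏ i : α, B⁻¹ (x (Sum.inl (some i))) (x (Sum.inr (some i))) := by
          rw [← Fintype.prod_option (fun i : Option α => B⁻¹ (x (Sum.inl i)) (x (Sum.inr i)))]
          apply Finset.prod_bij (fun i _ => i) <;> simp
        rw [h3]
        rfl
      rw [← h2]
      exact h1
  exact key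

end MP021685Z
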