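import Pool.Agent.Lib.MP_021685_agZ.Rot
import Pool.Agent.Lib.MP_021685_agZ.CS

/-!
# Second part of THEOREM HALF: the types of primitive idempotents of an algebra of matrices
-/

set_option autoImplicit false
set_option linter.unusedSectionVars false

namespace MP021685Z

open Matrix

section QA

variable {k : Type*} [Field k] {a : Type*} [Fintype a] [DecidableEq a]

/-- The algebra of the matrices in `P`. -/
def QA_alg (P : Submodule k (Matrix a a k)) (h1 : (1 : Matrix a a k) ∈ P)
    (hmul : ∀ x ∈ P, ∀ y ∈ P, x * y ∈ P) : Subalgebra k (Matrix a a k) where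
  carrier := P
  mul_mem' := fun hx hy => hmul _ hx _ hy
  add_mem' := fun hx hy => P.add_mem hx hy
  algebraMap_mem' := fun c => by
    rw [Algebra.algebraMap_eq_smul_one]
    exact P.smul_mem c h1

theorem QA_aeval_mem (P : Submodule k (Matrix a a k)) (h1 : (1 : Matrix a a k) ∈ P)
    (hmul : ∀ x ∈ P, ∀ y ∈ P, x * y ∈ P) {x : Matrix a a k} (hx : x ∈ P) (p : Polynomial k) :
    Polynomial.aeval x p ∈ P := by
  have h2 : Polynomial.aeval x p ∈ Algebra.adjoin k ({x} : Set (Matrix a a k)) :=
    Polynomial.aeval_mem_adjoin_singleton k x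
  have h3 : Algebra.adjoin k ({x} : Set (Matrix a a k)) ≤ QA_alg P h1 hmul := by
    refine Algebra.adjoin_le ?_
    intro z hz
    rw [Set.mem_singleton_iff] at hz
    rw [hz]
    exact hx
  exact h3 h2

theorem QA_rank_zero {F : Matrix a a k} (h : F.rank = 0) : F = 0 := by
  have h1 : LinearMap.range F.mulVecLin = ⊥ := by
    rw [← Submodule.finrank_eq_zero (R := k)]
    exact h
  have h2 : F.mulVecLin = 0 := LinearMap.range_eq_bot.1 h1
  ext i j
  have h3 := congrFun (LinearMap.congr_fun h2 (Pi.single j 1)) i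
  rw [Matrix.mulVecLin_apply, Matrix.mulVec_single_one] at h3
  exact h3

/-- An element of the radical is nilpotent. -/
theorem QA_nil [CharZero k] (P : Submodule k (Matrix a a k)) (h1 : (1 : Matrix a a k) ∈ P)
    (hmul : ∀ x ∈ P, ∀ y ∈ P, x * y ∈ P) {x : Matrix a a k} (hx : x ∈ P) (hr : x ∈ rad P) :
    IsNilpotent x := by
  have hint : IsIntegral k x := Algebra.IsIntegral.isIntegral x
  have hm : minpoly k x ≠ 0 := minpoly.ne_zero hint
  obtain ⟨h, hmh, hnd⟩ :=
    Polynomial.exists_eq_pow_rootMultiplicity_mul_and_not_dvd (minpoly k x) hm 0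
  set n := Polynomial.rootMultiplicity 0 (minpoly k x) with hn
  rw [map_zero, sub_zero] at hmh hnd
  have hcop : IsCoprime (Polynomial.X ^ (n + 1) : Polynomial k) h :=
    IsCoprime.pow_left ((Polynomial.irreducible_X.coprime_iff_not_dvd).2 hnd)
  obtain ⟨u, v, huv⟩ := hcop
  have haev : Polynomial.aeval x (minpoly k x) = 0 := minpoly.aeval k x
  set e := Polynomial.aeval x (u * Polynomial.X ^ (n + 1)) with he
  have hone : e + Polynomial.aeval x (v * h) = 1 := by
    rw [he, ← map_add, huv, map_one]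
  have hidem : e * e = e := by
    have h2 : e * Polynomial.aeval x (v * h) = 0 := by
      rw [he, ← map_mul]
      have h3 : u * Polynomial.X ^ (n + 1) * (v * h) =
          (u * v * Polynomial.X) * (Polynomial.X ^ n * h) := by
        rw [pow_succ]
        ring
      rw [h3, ← hmh, map_mul, haev, mul_zero]
    have h4 : e * (e + Polynomial.aeval x (v * h)) = e := by rw [hone, mul_one]
    rw [mul_add, h2, add_zero] at h4
    exact h4
  have htr : e.trace = 0 := by
    have h5 : e = Polynomial.aeval x (u * Polynomial.X ^ n) * x := by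
      have h6 : u * Polynomial.X ^ (n + 1) = (u * Polynomial.X ^ n) * Polynomial.X := by
        rw [pow_succ]
        ring
      rw [he, h6, map_mul, Polynomial.aeval_X]
    rw [h5]
    exact hr _ (QA_aeval_mem P h1 hmul hx _)
  have he0 : e = 0 := by
    have h7 := CS_rank e hidem
    rw [htr] at h7
    have h8 : e.rank = 0 := by exact_mod_cast h7.symm
    exact QA_rank_zero h8
  refine ⟨n, ?_⟩
  rw [he0, zero_add] at hone
  have h9 : x ^ n * Polynomial.aeval x (v * h) = 0 := by
    have h10 : x ^ n = Polynomial.aeval x (Polynomial.X ^ n : Polynomial k) := by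
      rw [map_pow, Polynomial.aeval_X]
    rw [h10, ← map_mul]
    have h11 : (Polynomial.X ^ n : Polynomial k) * (v * h) = v * (Polynomial.X ^ n * h) := by ring
    rw [h11, ← hmh, map_mul, haev, mul_zero]
  rw [hone, mul_one] at h9
  exact h9

/-- **The types of primitive idempotents.** -/
theorem QA_types [CharZero k] [IsAlgClosed k] (P : Submodule k (Matrix a a k))
    (h1 : (1 : Matrix a a k) ∈ P) (hmul : ∀ x ∈ P, ∀ y ∈ P, x * y ∈ P) :
    ∃ (l : ℕ) (d : Fin l → ℕ) (t : Fin l → Matrix a a k) (x y : ∀ i, Fin (d i) → Matrix a a k),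
      (∀ i, t i ∈ P ∧ t i * t i = t i ∧ trace (t i) ≠ 0) ∧
      (∀ i j, i ≠ j → ∀ z ∈ P, t i * z * t j ∈ rad P) ∧
      (∀ i, ∀ z ∈ P, ∃ c : k, t i * z * t i - c • t i ∈ rad P) ∧
      (∀ i α, x i α ∈ P ∧ y i α ∈ P) ∧
      (∀ i α β, y i α * x i β - (if α = β then t i else 0) ∈ rad P) ∧
      (1 - ∑ i, ∑ α, x i α * y i α ∈ rad P) := by
  classical
  let E := QA_alg P h1 hmul
  let τ : E →ₗ[k] k := (Matrix.traceLinearMap a k k).comp E.val.toLinearMap
  have hτa : ∀ z : E, τ z = trace (z : Matrix a a k) := fun z => rfl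
  have hτ : ∀ z w, τ (z * w) = τ (w * z) := fun z w => by
    rw [hτa, hτa]
    exact Matrix.trace_mul_comm _ _
  have hn : ∀ z, IsNilpotent z → τ z = 0 := by
    intro z hz
    rw [hτa]
    have h2 : IsNilpotent (z : Matrix a a k) := hz.map E.val
    exact (Matrix.isNilpotent_trace_of_isNilpotent h2).eq_zero
  have := CS_two_sided τ hτ
  have := CS_semisimple τ hτ hn
  obtain ⟨l, d, hd, ⟨φ⟩⟩ :=
    IsSemisimpleRing.exists_algEquiv_pi_matrix_of_isAlgClosed k (E ⧸ CS_N τ hτ)
  let ψ : E →ₐ[k] (∀ i, Matrix (Fin (d i)) (Fin (d i)) k) :=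
    φ.toAlgHom.comp (Ideal.Quotient.mkₐ k (CS_N τ hτ))
  have hψs : Function.Surjective ψ := φ.surjective.comp Ideal.Quotient.mk_surjective
  have hψk : ∀ z : E, ψ z = 0 ↔ (z : Matrix a a k) ∈ rad P := by
    intro z
    change φ (Ideal.Quotient.mk (CS_N τ hτ) z) = 0 ↔ _
    rw [map_eq_zero_iff _ φ.injective, Ideal.Quotient.eq_zero_iff_mem]
    constructor
    · intro h w hw
      exact h ⟨w, hw⟩
    · intro h w
      exact h w.1 w.2
  have hψe : ∀ z w : E, ψ z = ψ w → (z : Matrix a a k) - w ∈ rad P := by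
    intro z w h
    have h2 : ψ (z - w) = 0 := by rw [map_sub, h, sub_self]
    exact (hψk _).1 h2
  have hker : ∀ z ∈ RingHom.ker ψ.toRingHom, IsNilpotent z := by
    intro z hz
    have h2 : ψ z = 0 := hz
    have h3 := QA_nil P h1 hmul z.2 ((hψk z).1 h2)
    obtain ⟨m, hm⟩ := h3
    refine ⟨m, ?_⟩
    apply Subtype.ext
    exact hm
  -- the matrix units
  let o : ∀ i, Fin (d i) := fun i => ⟨0, Nat.pos_of_ne_zero (hd i).out⟩
  let sg : ∀ i, Matrix (Fin (d i)) (Fin (d i)) k → (∀ j, Matrix (Fin (d j)) (Fin (d j)) k) :=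
    fun i A => Pi.single i A
  have sg_same : ∀ i A, sg i A i = A := fun i A =>
    Pi.single_eq_same (M := fun j => Matrix (Fin (d j)) (Fin (d j)) k) i A
  have sg_ne : ∀ i A m, m ≠ i → sg i A m = 0 := fun i A m h =>
    Pi.single_eq_of_ne (M := fun j => Matrix (Fin (d j)) (Fin (d j)) k) h A
  let u : ∀ i, Fin (d i) → Fin (d i) → (∀ j, Matrix (Fin (d j)) (Fin (d j)) k) :=
    fun i α β => sg i (Matrix.single α β 1)
  have hu : ∀ i α β γ δ, u i α β * u i γ δ = if β = γ then u i α δ else 0 := by
    intro i α β γ δ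
    funext m
    rw [Pi.mul_apply]
    by_cases hm : m = i
    · subst hm
      have e1 : ∀ α β, u m α β m = Matrix.single α β 1 := fun α β => sg_same m _
      rw [e1, e1]
      by_cases h : β = γ
      · subst h
        rw [if_pos rfl, e1, Matrix.single_mul_single_same, mul_one]
      · rw [if_neg h, Matrix.single_mul_single_of_ne _ _ _ _ h]
        rfl
    · have e1 : ∀ α β, u i α β m = 0 := fun α β => sg_ne i _ m hm
      rw [e1, zero_mul]
      by_cases h : β = γ
      · rw [if_pos h, e1]
      · rw [if_neg h]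
        rfl
  have hu' : ∀ i j α β γ δ, i ≠ j → ∀ w, u i α β * w * u j γ δ = 0 := by
    intro i j α β γ δ hij w
    funext m
    rw [Pi.mul_apply, Pi.mul_apply, Pi.zero_apply]
    by_cases h : m = i
    · have e1 : u j γ δ m = 0 := sg_ne j _ m (by rw [h]; exact hij)
      rw [e1, mul_zero]
    · have e1 : u i α β m = 0 := sg_ne i _ m h
      rw [e1, zero_mul, zero_mul]
  have hidem : ∀ i, IsIdempotentElem (u i (o i) (o i)) := by
    intro i
    unfold IsIdempotentElem
    rw [hu, if_pos rfl]
  have hex : ∀ i, ∃ t : E, IsIdempotentElem t ∧ ψ t = u i (o i) (o i) := by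
    intro i
    exact exists_isIdempotentElem_eq_of_ker_isNilpotent ψ.toRingHom hker _
      (hψs (u i (o i) (o i))) (hidem i)
  choose t ht1 ht2 using hex
  have hx : ∀ i (α : Fin (d i)), ∃ x : E, ψ x = u i α (o i) := fun i α => hψs _
  choose x hx using hx
  have hy : ∀ i (α : Fin (d i)), ∃ y : E, ψ y = u i (o i) α := fun i α => hψs _
  choose y hy using hy
  refine ⟨l, d, fun i => t i, fun i α => x i α, fun i α => y i α, ?_, ?_, ?_, ?_, ?_, ?_⟩
  · intro i
    refine ⟨(t i).2, congrArg Subtype.val (ht1 i).eq, ?_⟩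
    have h2 : ((t i : E) : Matrix a a k) ≠ 0 := by
      intro h
      have h3 : t i = 0 := Subtype.ext h
      have h4 := ht2 i
      rw [h3, map_zero] at h4
      have h5 : (0 : k) = u i (o i) (o i) i (o i) (o i) :=
        congrFun (congrFun (congrFun h4 i) (o i)) (o i)
      have e1 : u i (o i) (o i) i = Matrix.single (o i) (o i) 1 := sg_same i _
      rw [e1, Matrix.single_apply_same] at h5
      exact zero_ne_one h5
    rw [CS_rank _ (congrArg Subtype.val (ht1 i).eq)]
    intro h3
    apply h2
    have h4 : ((t i : E) : Matrix a a k).rank = 0 := by exact_mod_cast h3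
    exact QA_rank_zero h4
  · intro i j hij z hz
    have h2 : ψ (t i * ⟨z, hz⟩ * t j) = 0 := by
      rw [map_mul, map_mul, ht2, ht2, hu' _ _ _ _ _ _ hij]
    exact (hψk _).1 h2
  · intro i z hz
    refine ⟨ψ ⟨z, hz⟩ i (o i) (o i), ?_⟩
    have h2 : ψ (t i * ⟨z, hz⟩ * t i) = ψ ((ψ ⟨z, hz⟩ i (o i) (o i)) • t i) := by
      rw [map_mul, map_mul, map_smul, ht2]
      funext m
      rw [Pi.mul_apply, Pi.mul_apply, Pi.smul_apply]
      by_cases h : m = i
      · subst h
        have e1 : u m (o m) (o m) m = Matrix.single (o m) (o m) 1 := sg_same m _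
        rw [e1, Matrix.single_mul_mul_single, Matrix.smul_single, one_mul, mul_one,
          smul_eq_mul, mul_one]
      · have e1 : u i (o i) (o i) m = 0 := sg_ne i _ m h
        rw [e1, zero_mul, zero_mul, smul_zero]
    exact hψe _ _ h2
  · intro i α
    exact ⟨(x i α).2, (y i α).2⟩
  · intro i α β
    have h2 : ψ (y i α * x i β) = ψ (if α = β then t i else 0) := by
      rw [map_mul, hx, hy, hu]
      by_cases h : α = β
      · rw [if_pos h, if_pos h, ht2]
      · rw [if_neg h, if_neg h, map_zero]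
    have h3 := hψe _ _ h2
    by_cases h : α = β
    · rw [if_pos h] at h3 ⊢
      exact h3
    · rw [if_neg h] at h3 ⊢
      exact h3
  · have h2 : ψ 1 = ψ (∑ i, ∑ α, x i α * y i α) := by
      rw [map_one, map_sum]
      funext m
      rw [Finset.sum_apply, Pi.one_apply]
      have h3 : ∀ i, ψ (∑ α, x i α * y i α) m = if i = m then (1 : Matrix (Fin (d m)) (Fin (d m)) k) else 0 := by
        intro i
        rw [map_sum, Finset.sum_apply]
        by_cases h : i = m
        · subst h
          rw [if_pos rfl]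
          have h4 : ∀ α, ψ (x i α * y i α) i = Matrix.single α α 1 := by
            intro α
            rw [map_mul, hx, hy, hu, if_pos rfl]
            exact sg_same i _
          rw [Finset.sum_congr rfl fun α _ => h4 α]
          exact Matrix.sum_single_one
        · rw [if_neg h]
          refine Finset.sum_eq_zero fun α _ => ?_
          rw [map_mul, hx, hy, hu, if_pos rfl]
          exact sg_ne i _ m (fun h' => h h'.symm)
      rw [Finset.sum_congr rfl fun i _ => h3 i, Finset.sum_ite_eq' Finset.univ m, if_pos (Finset.mem_univ m)]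
    have h3 := hψe _ _ h2
    have h4 : (((∑ i, ∑ α, x i α * y i α : E)) : Matrix a a k) =
        ∑ i, ∑ α, ((x i α : E) : Matrix a a k) * ((y i α : E) : Matrix a a k) := by
      rw [AddSubmonoidClass.coe_finsetSum]
      refine Finset.sum_congr rfl fun i _ => ?_
      rw [AddSubmonoidClass.coe_finsetSum]
      rfl
    rw [h4] at h3
    exact h3

end QA

end MP021685Z
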