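import Pool.Agent.Lib.MP_021685_agZ.Hom

/-!
# Numerical ranks; rotation of slots
-/

namespace MP021685Z

open Matrix

section Basic

variable {k : Type*} [Field k]

/-- The radical: all `F` with `tr (G F) = 0` for all `G` in `Q`. -/
def rad {a b : Type*} [Fintype a] [Fintype b] (Q : Submodule k (Matrix a b k)) :
    Submodule k (Matrix b a k) where
  carrier := {F | ∀ G ∈ Q, trace (G * F) = 0}
  zero_mem' := fun G _ => by simp
  add_mem' := fun ha hb G hG => by rw [Matrix.mul_add, trace_add, ha G hG, hb G hG, add_zero]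
  smul_mem' := fun c _ hx G hG => by rw [Matrix.mul_smul, trace_smul, hx G hG, smul_zero]

/-- The rank of the trace pairing between `P` and `Q`. -/
noncomputable def prk {a b : Type*} [Fintype a] [Fintype b] (P : Submodule k (Matrix b a k))
    (Q : Submodule k (Matrix a b k)) : ℕ := Module.finrank k (P.map (rad Q).mkQ)

/-- The linear map `F ↦ X F Y`. -/
def lr {a b : Type*} [Fintype a] [Fintype b] (X : Matrix b b k) (Y : Matrix a a k) :
    Matrix b a k →ₗ[k] Matrix b a k where
  toFun F := X * F * Y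
  map_add' F G := by rw [Matrix.mul_add, Matrix.add_mul]
  map_smul' c F := by simp

/-- `X P Y = {X F Y | F ∈ P}`. -/
def sand {a b : Type*} [Fintype a] [Fintype b] (X : Matrix b b k)
    (P : Submodule k (Matrix b a k)) (Y : Matrix a a k) : Submodule k (Matrix b a k) :=
  P.map (lr X Y)

/-- Number of dimensions: `prk P Q` is `dim P - dim (P ⊓ rad Q)`. -/
theorem prk_add_finrank {a b : Type*} [Fintype a] [Fintype b] (P : Submodule k (Matrix b a k))
    (Q : Submodule k (Matrix a b k)) :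
    prk P Q + Module.finrank k (P ⊓ rad Q : Submodule k (Matrix b a k)) = Module.finrank k P := by
  have h1 := LinearMap.finrank_range_add_finrank_ker ((rad Q).mkQ.domRestrict P)
  rw [LinearMap.range_domRestrict] at h1
  have h2 : Module.finrank k (LinearMap.ker ((rad Q).mkQ.domRestrict P)) =
      Module.finrank k (P ⊓ rad Q : Submodule k (Matrix b a k)) := by
    have h3 : (LinearMap.ker ((rad Q).mkQ.domRestrict P)).map P.subtype = P ⊓ rad Q := by
      ext v
      constructor
      · rintro ⟨w, hw, rfl⟩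
        exact ⟨w.2, (Submodule.Quotient.mk_eq_zero _).1 hw⟩
      · rintro ⟨hv1, hv2⟩
        exact ⟨⟨v, hv1⟩, (Submodule.Quotient.mk_eq_zero _).2 hv2, rfl⟩
    rw [← h3]
    exact LinearEquiv.finrank_eq (Submodule.equivMapOfInjective P.subtype P.injective_subtype _)
  rw [h2] at h1
  exact h1

/-- Invariance of `prk` under a linear equivalence. -/
theorem prk_equiv {a b c d : Type*} [Fintype a] [Fintype b] [Fintype c] [Fintype d]
    (P : Submodule k (Matrix b a k)) (Q : Submodule k (Matrix a b k))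
    (P' : Submodule k (Matrix d c k)) (Q' : Submodule k (Matrix c d k))
    (e : Matrix b a k ≃ₗ[k] Matrix d c k) (hP : P.map (e : Matrix b a k →ₗ[k] Matrix d c k) = P')
    (hQ : ∀ F ∈ P, F ∈ rad Q ↔ e F ∈ rad Q') : prk P Q = prk P' Q' := by
  have h1 := prk_add_finrank P Q
  have h2 := prk_add_finrank P' Q'
  have h3 : Module.finrank k P' = Module.finrank k P := by
    rw [← hP]
    exact LinearEquiv.finrank_map_eq e P
  have h4 : (P ⊓ rad Q : Submodule k (Matrix b a k)).map (e : Matrix b a k →ₗ[k] Matrix d c k) =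
      P' ⊓ rad Q' := by
    ext G
    constructor
    · rintro ⟨F, ⟨hF1, hF2⟩, rfl⟩
      exact ⟨hP ▸ ⟨F, hF1, rfl⟩, (hQ F hF1).1 hF2⟩
    · rintro ⟨hG1, hG2⟩
      rw [← hP] at hG1
      obtain ⟨F, hF1, rfl⟩ := hG1
      exact ⟨F, ⟨hF1, (hQ F hF1).2 hG2⟩, rfl⟩
  have h5 : Module.finrank k (P' ⊓ rad Q' : Submodule k (Matrix d c k)) =
      Module.finrank k (P ⊓ rad Q : Submodule k (Matrix b a k)) := by
    rw [← h4]
    exact LinearEquiv.finrank_map_eq e _
  omega

/-- Subadditivity in the idempotent. -/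
theorem prk_split {a b : Type*} [Fintype a] [Fintype b] [DecidableEq a]
    (P : Submodule k (Matrix b a k)) (Q : Submodule k (Matrix a b k)) (t : Matrix a a k)
    [DecidableEq b] :
    prk P Q ≤ prk (sand 1 P t) Q + prk (sand 1 P (1 - t)) Q := by
  have h1 : P ≤ sand 1 P t ⊔ sand 1 P (1 - t) := by
    intro F hF
    have h2 : F = lr 1 t F + lr 1 (1 - t) F := by
      show F = (1 : Matrix b b k) * F * t + (1 : Matrix b b k) * F * (1 - t)
      rw [Matrix.one_mul, ← Matrix.mul_add, add_sub_cancel, Matrix.mul_one]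
    rw [h2]
    exact Submodule.add_mem_sup ⟨F, hF, rfl⟩ ⟨F, hF, rfl⟩
  have h3 : P.map (rad Q).mkQ ≤ (sand 1 P t).map (rad Q).mkQ ⊔ (sand 1 P (1 - t)).map (rad Q).mkQ := by
    rw [← Submodule.map_sup]
    exact Submodule.map_mono h1
  have h4 := Submodule.finrank_sup_add_finrank_inf_eq ((sand 1 P t).map (rad Q).mkQ)
    ((sand 1 P (1 - t)).map (rad Q).mkQ)
  have h5 := Submodule.finrank_mono h3
  unfold prk
  omega

end Basic

variable {k : Type*} [Field k] {ι : Type} [Fintype ι] [DecidableEq ι]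

/-- Rotation of the output slots `R` to the input. -/
def rotL (B : Matrix ι ι k) {R I J : Type} [Fintype R] [DecidableEq R]
    (F : Matrix ((R ⊕ J) → ι) (I → ι) k) : Matrix (J → ι) ((R ⊕ I) → ι) k :=
  fun y z => ∑ s : R → ι, (∏ i, B (z (Sum.inl i)) (s i)) * F (Sum.elim s y) (z ∘ Sum.inr)

/-- The inverse rotation. -/
noncomputable def rotR (B : Matrix ι ι k) {R I J : Type} [Fintype R] [DecidableEq R]
    (G : Matrix (J → ι) ((R ⊕ I) → ι) k) : Matrix ((R ⊕ J) → ι) (I → ι) k :=
  fun z y => ∑ t : R → ι, (∏ i, B⁻¹ (z (Sum.inl i)) (t i)) * G (z ∘ Sum.inr) (Sum.elim t y)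

/-- The dual rotation, adjoint to `rotL` for the trace. -/
noncomputable def rotD (B : Matrix ι ι k) {R I J : Type} [Fintype R] [DecidableEq R]
    (G : Matrix (I → ι) ((R ⊕ J) → ι) k) : Matrix ((R ⊕ I) → ι) (J → ι) k :=
  fun z y => ∑ t : R → ι, (∏ i, B⁻¹ (t i) (z (Sum.inl i))) * G (z ∘ Sum.inr) (Sum.elim t y)

variable {B : Matrix ι ι k} {C : ∀ m n : ℕ, Submodule k (Mor k ι m n)}

/-- The general rotation of output slots to the input through a form `K`. -/
def rotM_in {R I J : Type} [Fintype R] [DecidableEq R] (K : Matrix (Empty → ι) ((R ⊕ R) → ι) k)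
    (F : Matrix ((R ⊕ J) → ι) (I → ι) k) : Matrix (J → ι) ((R ⊕ I) → ι) k :=
  fun y z => ∑ s : R → ι, K Empty.elim (Sum.elim (z ∘ Sum.inl) s) * F (Sum.elim s y) (z ∘ Sum.inr)

/-- The general rotation of input slots to the output through a tensor `K`. -/
def rotM_out {R I J : Type} [Fintype R] [DecidableEq R] (K : Matrix ((R ⊕ R) → ι) (Empty → ι) k)
    (G : Matrix (J → ι) ((R ⊕ I) → ι) k) : Matrix ((R ⊕ J) → ι) (I → ι) k :=
  fun z y => ∑ t : R → ι, K (Sum.elim (z ∘ Sum.inl) t) Empty.elim *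
    G (z ∘ Sum.inr) (Sum.elim t y)

theorem rotM_in_mem (hC : IsCorrFamily B C) {R I J : Type} [Fintype R] [Fintype I] [Fintype J]
    [DecidableEq R] [DecidableEq I] [DecidableEq J]
    {K : Matrix (Empty → ι) ((R ⊕ R) → ι) k} (hK : K ∈ Hom C (R ⊕ R) Empty)
    {F : Matrix ((R ⊕ J) → ι) (I → ι) k}
    (hF : F ∈ Hom C I (R ⊕ J)) : rotM_in K F ∈ Hom C (R ⊕ I) J := by
  have h1 := tsum_mem_Hom hC (one_mem_Hom hC R) hF
  have h2 := rei_mem_Hom (tsum_mem_Hom hC hK (one_mem_Hom hC J))
    (Equiv.sumAssoc R R J).symm (Equiv.emptySum Empty J).symm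
  have h3 := mul_mem_Hom hC h2 h1
  have h4 : rotM_in K F = rei (Equiv.sumAssoc R R J).symm (Equiv.emptySum Empty J).symm
      (tsum K 1) * tsum 1 F := by
    ext y z
    refine Eq.trans ?_ (Matrix.mul_apply).symm
    apply Fintype.sum_of_injective (fun s : R → ι => Sum.elim (z ∘ Sum.inl) (Sum.elim s y))
    · intro s s' hss
      have := congrArg (fun f : R ⊕ (R ⊕ J) → ι => fun i : R => f (Sum.inr (Sum.inl i))) hss
      simpa using this
    · intro x hx
      simp only [rei, tsum, Matrix.one_apply]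
      by_cases h5 : x ∘ Sum.inl = z ∘ Sum.inl
      · by_cases h6 : y = x ∘ Sum.inr ∘ Sum.inr
        · exfalso
          apply hx
          refine ⟨x ∘ Sum.inr ∘ Sum.inl, ?_⟩
          funext i
          rcases i with i | i | i
          · exact (congrFun h5 i).symm
          · rfl
          · exact congrFun h6 i
        · have h7 : ¬ ((y ∘ (Equiv.emptySum Empty J).symm.symm) ∘ Sum.inr =
              (x ∘ (Equiv.sumAssoc R R J).symm.symm) ∘ Sum.inr) := by
            intro h8
            apply h6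
            exact h8
          rw [if_neg h7]
          simp
      · rw [if_neg h5]
        simp
    · intro s
      simp only [rei, tsum, Matrix.one_apply]
      have h5 : (y ∘ (Equiv.emptySum Empty J).symm.symm) ∘ Sum.inr =
          ((Sum.elim (z ∘ Sum.inl) (Sum.elim s y)) ∘ (Equiv.sumAssoc R R J).symm.symm) ∘
            Sum.inr := rfl
      have h6 : (Sum.elim (z ∘ Sum.inl) (Sum.elim s y)) ∘ Sum.inl = z ∘ Sum.inl := rfl
      rw [if_pos h5, if_pos h6, mul_one, one_mul]
      have h7 : (Empty.elim : Empty → ι) =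
          (y ∘ (Equiv.emptySum Empty J).symm.symm) ∘ Sum.inl := Subsingleton.elim _ _
      have h8 : (Sum.elim (z ∘ Sum.inl) s : R ⊕ R → ι) =
          ((Sum.elim (z ∘ Sum.inl) (Sum.elim s y)) ∘ (Equiv.sumAssoc R R J).symm.symm) ∘
            Sum.inl := by
        funext i
        rcases i with i | i <;> rfl
      rw [h7, h8]
      rfl
  rw [h4]
  exact h3

theorem rotM_out_mem (hC : IsCorrFamily B C) {R I J : Type} [Fintype R] [Fintype I] [Fintype J]
    [DecidableEq R] [DecidableEq I] [DecidableEq J]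
    {K : Matrix ((R ⊕ R) → ι) (Empty → ι) k} (hK : K ∈ Hom C Empty (R ⊕ R))
    {G : Matrix (J → ι) ((R ⊕ I) → ι) k}
    (hG : G ∈ Hom C (R ⊕ I) J) : rotM_out K G ∈ Hom C I (R ⊕ J) := by
  have h1 := tsum_mem_Hom hC (one_mem_Hom hC R) hG
  have h2 := rei_mem_Hom (tsum_mem_Hom hC hK (one_mem_Hom hC I))
    (Equiv.emptySum Empty I).symm (Equiv.sumAssoc R R I).symm
  have h3 := mul_mem_Hom hC h1 h2
  have h4 : rotM_out K G = tsum 1 G * rei (Equiv.emptySum Empty I).symm
      (Equiv.sumAssoc R R I).symm (tsum K 1) := by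
    ext z y
    refine Eq.trans ?_ (Matrix.mul_apply).symm
    apply Fintype.sum_of_injective (fun t : R → ι => Sum.elim (z ∘ Sum.inl) (Sum.elim t y))
    · intro s s' hss
      have := congrArg (fun f : R ⊕ (R ⊕ I) → ι => fun i : R => f (Sum.inr (Sum.inl i))) hss
      simpa using this
    · intro x hx
      simp only [rei, tsum, Matrix.one_apply]
      by_cases h5 : z ∘ Sum.inl = x ∘ Sum.inl
      · by_cases h6 : x ∘ Sum.inr ∘ Sum.inr = y
        · exfalso
          apply hx
          refine ⟨x ∘ Sum.inr ∘ Sum.inl, ?_⟩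
          funext i
          rcases i with i | i | i
          · exact congrFun h5 i
          · rfl
          · exact (congrFun h6 i).symm
        · have h7 : ¬ ((x ∘ (Equiv.sumAssoc R R I).symm.symm) ∘ Sum.inr =
              (y ∘ (Equiv.emptySum Empty I).symm.symm) ∘ Sum.inr) := by
            intro h8
            apply h6
            exact h8
          rw [if_neg h7]
          simp
      · rw [if_neg h5]
        simp
    · intro t
      simp only [rei, tsum, Matrix.one_apply]
      have h5 : ((Sum.elim (z ∘ Sum.inl) (Sum.elim t y)) ∘ (Equiv.sumAssoc R R I).symm.symm) ∘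
            Sum.inr = (y ∘ (Equiv.emptySum Empty I).symm.symm) ∘ Sum.inr := rfl
      have h6 : z ∘ Sum.inl = (Sum.elim (z ∘ Sum.inl) (Sum.elim t y)) ∘ Sum.inl := rfl
      rw [if_pos h5, if_pos h6, mul_one, one_mul]
      have h7 : (Empty.elim : Empty → ι) =
          (y ∘ (Equiv.emptySum Empty I).symm.symm) ∘ Sum.inl := Subsingleton.elim _ _
      have h8 : (Sum.elim (z ∘ Sum.inl) t : R ⊕ R → ι) =
          ((Sum.elim (z ∘ Sum.inl) (Sum.elim t y)) ∘ (Equiv.sumAssoc R R I).symm.symm) ∘
            Sum.inl := by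
        funext i
        rcases i with i | i <;> rfl
      rw [h7, h8, mul_comm]
      rfl
  rw [h4]
  exact h3

theorem rotM_swap_ev (hC : IsCorrFamily B C) (R : Type) [Fintype R] :
    rei (Equiv.sumComm R R) (Equiv.refl Empty) (evI B R) ∈ Hom C (R ⊕ R) Empty :=
  rei_mem_Hom (evI_mem hC R) _ _

theorem rotM_swap_coev (hC : IsCorrFamily B C) (R : Type) [Fintype R] :
    rei (Equiv.refl Empty) (Equiv.sumComm R R) (coevI B R) ∈ Hom C Empty (R ⊕ R) :=
  rei_mem_Hom (coevI_mem hC R) _ _

/-- The product of the Kronecker sums. -/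
theorem rotM_sum_prod {R : Type} [Fintype R] [DecidableEq R] (A A' : Matrix ι ι k)
    (s z : R → ι) :
    ∑ t : R → ι, (∏ i, A (s i) (t i)) * ∏ i, A' (t i) (z i) = ∏ i, (A * A') (s i) (z i) := by
  simp only [Matrix.mul_apply]
  rw [Finset.prod_univ_sum, Fintype.piFinset_univ]
  apply Finset.sum_congr rfl
  intro t _
  rw [Finset.prod_mul_distrib]

theorem rotM_prod_one {R : Type} [Fintype R] [DecidableEq R] (s z : R → ι) :
    ∏ i, (1 : Matrix ι ι k) (s i) (z i) = if s = z then 1 else 0 := by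
  by_cases h : s = z
  · rw [if_pos h, h]
    simp
  · rw [if_neg h]
    have h2 : ∃ i, s i ≠ z i := by
      by_contra h3
      push Not at h3
      exact h (funext h3)
    obtain ⟨i, hi⟩ := h2
    exact Finset.prod_eq_zero (Finset.mem_univ i) (Matrix.one_apply_ne hi)

theorem rotL_mem (hC : IsCorrFamily B C) {R I J : Type} [Fintype R] [Fintype I] [Fintype J]
    [DecidableEq R] [DecidableEq I] [DecidableEq J] {F : Matrix ((R ⊕ J) → ι) (I → ι) k}
    (hF : F ∈ Hom C I (R ⊕ J)) : rotL B F ∈ Hom C (R ⊕ I) J :=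
  rotM_in_mem hC (evI_mem hC R) hF

theorem rotR_mem (hC : IsCorrFamily B C) {R I J : Type} [Fintype R] [Fintype I] [Fintype J]
    [DecidableEq R] [DecidableEq I] [DecidableEq J] {G : Matrix (J → ι) ((R ⊕ I) → ι) k}
    (hG : G ∈ Hom C (R ⊕ I) J) : rotR B G ∈ Hom C I (R ⊕ J) :=
  rotM_out_mem hC (coevI_mem hC R) hG

theorem rotD_mem (hC : IsCorrFamily B C) {R I J : Type} [Fintype R] [Fintype I] [Fintype J]
    [DecidableEq R] [DecidableEq I] [DecidableEq J] {G : Matrix (I → ι) ((R ⊕ J) → ι) k}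
    (hG : G ∈ Hom C (R ⊕ J) I) : rotD B G ∈ Hom C J (R ⊕ I) :=
  rotM_out_mem hC (rotM_swap_coev hC R) hG

/-- Every element of `Hom C J (R ⊕ I)` is a `rotD`. -/
theorem rotD_surj (hC : IsCorrFamily B C) {R I J : Type} [Fintype R] [Fintype I] [Fintype J]
    [DecidableEq R] [DecidableEq I] [DecidableEq J] {H : Matrix ((R ⊕ I) → ι) (J → ι) k}
    (hH : H ∈ Hom C J (R ⊕ I)) : ∃ G ∈ Hom C (R ⊕ J) I, rotD B G = H := by
  refine ⟨rotM_in (rei (Equiv.sumComm R R) (Equiv.refl Empty) (evI B R)) H,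
    rotM_in_mem hC (rotM_swap_ev hC R) hH, ?_⟩
  ext z y
  have h1 : ∀ t : R → ι, (∏ i, B⁻¹ (t i) (z (Sum.inl i))) *
      rotM_in (rei (Equiv.sumComm R R) (Equiv.refl Empty) (evI B R)) H (z ∘ Sum.inr)
        (Sum.elim t y) = ∑ s : R → ι, ((∏ i, B (s i) (t i)) * ∏ i, B⁻¹ (t i) (z (Sum.inl i))) *
          H (Sum.elim s (z ∘ Sum.inr)) y := by
    intro t
    simp only [rotM_in]
    rw [Finset.mul_sum]
    apply Finset.sum_congr rfl
    intro s _
    have h2 : rei (Equiv.sumComm R R) (Equiv.refl Empty) (evI B R) Empty.elim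
        (Sum.elim (Sum.elim t y ∘ Sum.inl) s) = ∏ i, B (s i) (t i) := rfl
    rw [h2]
    have h3 : (Sum.elim t y : R ⊕ J → ι) ∘ Sum.inr = y := rfl
    rw [h3]
    ring
  calc rotD B (rotM_in (rei (Equiv.sumComm R R) (Equiv.refl Empty) (evI B R)) H) z y
      = ∑ t : R → ι, (∏ i, B⁻¹ (t i) (z (Sum.inl i))) *
      rotM_in (rei (Equiv.sumComm R R) (Equiv.refl Empty) (evI B R)) H (z ∘ Sum.inr)
        (Sum.elim t y) := rfl
    _ = ∑ t : R → ι, ∑ s : R → ι, ((∏ i, B (s i) (t i)) *
          ∏ i, B⁻¹ (t i) (z (Sum.inl i))) * H (Sum.elim s (z ∘ Sum.inr)) y :=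
        Finset.sum_congr rfl fun t _ => h1 t
    _ = ∑ s : R → ι, (∑ t : R → ι, (∏ i, B (s i) (t i)) *
          ∏ i, B⁻¹ (t i) (z (Sum.inl i))) * H (Sum.elim s (z ∘ Sum.inr)) y := by
        rw [Finset.sum_comm]
        apply Finset.sum_congr rfl
        intro s _
        rw [Finset.sum_mul]
    _ = ∑ s : R → ι, (if s = z ∘ Sum.inl then 1 else 0) * H (Sum.elim s (z ∘ Sum.inr)) y := by
        apply Finset.sum_congr rfl
        intro s _
        have h5 := rotM_sum_prod B B⁻¹ s (z ∘ Sum.inl)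
        rw [Matrix.mul_nonsing_inv B hC.nondeg, rotM_prod_one] at h5
        rw [← h5]
        rfl
    _ = H z y := by
        rw [Finset.sum_eq_single (z ∘ Sum.inl)]
        · rw [if_pos rfl, one_mul]
          have h6 : (Sum.elim (z ∘ Sum.inl) (z ∘ Sum.inr) : R ⊕ I → ι) = z := by
            funext i
            rcases i with i | i <;> rfl
          rw [h6]
        · intro s _ hs
          rw [if_neg hs, zero_mul]
        · intro h
          exact absurd (Finset.mem_univ _) h

/-- Relabelling does not change the ranks. -/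
theorem prk_rei {I J I' J' : Type} [Fintype I] [Fintype J] [Fintype I'] [Fintype J']
    [DecidableEq I] [DecidableEq J] [DecidableEq I'] [DecidableEq J'] (e : I' ≃ I) (e' : J' ≃ J)
    (X : Matrix (J → ι) (J → ι) k) (Y : Matrix (I → ι) (I → ι) k) :
    prk (sand (rei e' e' X) (Hom C I' J') (rei e e Y)) (Hom C J' I') =
      prk (sand X (Hom C I J) Y) (Hom C J I) := by
  symm
  have hrr : ∀ (I J I' J' : Type) (e : I' ≃ I) (e' : J' ≃ J) (F : Matrix (J → ι) (I → ι) k),
      rei e.symm e'.symm (rei e e' F) = F := by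
    intro I J I' J' e e' F
    funext x y
    show F ((x ∘ e'.symm.symm) ∘ e'.symm) ((y ∘ e.symm.symm) ∘ e.symm) = F x y
    have h1 : (x ∘ e'.symm.symm) ∘ e'.symm = x := by
      funext i
      simp
    have h2 : (y ∘ e.symm.symm) ∘ e.symm = y := by
      funext i
      simp
    rw [h1, h2]
  let E : Matrix (J → ι) (I → ι) k ≃ₗ[k] Matrix (J' → ι) (I' → ι) k :=
    { toFun := fun F => rei e e' F
      invFun := fun F => rei e.symm e'.symm F
      map_add' := fun _ _ => rfl
      map_smul' := fun _ _ => rfl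
      left_inv := fun F => hrr I J I' J' e e' F
      right_inv := fun F => hrr I' J' I J e.symm e'.symm F }
  refine prk_equiv _ _ _ _ E ?_ ?_
  · ext G
    constructor
    · rintro ⟨_, ⟨F, hF, rfl⟩, rfl⟩
      refine ⟨rei e e' F, rei_mem_Hom hF e e', ?_⟩
      show rei e' e' X * rei e e' F * rei e e Y = rei e e' (X * F * Y)
      rw [Hom_rei_mul e e e' (X * F) Y, Hom_rei_mul e e' e' X F]
    · rintro ⟨G, hG, rfl⟩
      refine ⟨X * rei e.symm e'.symm G * Y, ⟨rei e.symm e'.symm G, rei_mem_Hom hG e.symm e'.symm, rfl⟩, ?_⟩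
      show rei e e' (X * rei e.symm e'.symm G * Y) = rei e' e' X * G * rei e e Y
      rw [Hom_rei_mul e e e' (X * rei e.symm e'.symm G) Y, Hom_rei_mul e e' e' X (rei e.symm e'.symm G)]
      have h1 : rei e e' (rei e.symm e'.symm G) = G := hrr I' J' I J e.symm e'.symm G
      rw [h1]
  · have htr : ∀ (I I' : Type) [Fintype I] [Fintype I'] [DecidableEq I] [DecidableEq I'] (e : I' ≃ I)
        (F : Matrix (I → ι) (I → ι) k), trace (rei e e F) = trace F := by
      intro I I' _ _ _ _ e F
      show ∑ x : I' → ι, F (x ∘ e.symm) (x ∘ e.symm) = ∑ x : I → ι, F x x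
      exact Fintype.sum_equiv (Equiv.arrowCongr e (Equiv.refl ι)) _ _ fun x => rfl
    intro F _
    constructor
    · intro hF G hG
      show trace (G * rei e e' F) = 0
      have h1 : G = rei e' e (rei e'.symm e.symm G) := (hrr J' I' J I e'.symm e.symm G).symm
      rw [h1, ← Hom_rei_mul e e' e, htr]
      exact hF _ (rei_mem_Hom hG e'.symm e.symm)
    · intro hF G hG
      have h1 := hF (rei e' e G) (rei_mem_Hom hG e' e)
      have h2 : trace (rei e' e G * rei e e' F) = 0 := h1
      rw [← Hom_rei_mul e e' e, htr] at h2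
      exact h2

end MP021685Z
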