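import Pool.Agent.Lib.MP_021685_agZ.Rot

/-!
# The `B`-transpose of an idempotent correspondence
-/

namespace MP021685Z

open Matrix

variable {k : Type*} [Field k] {ι : Type} [Fintype ι] [DecidableEq ι]

/-- The form on `V^{⊗R}` as a matrix. -/
def formR (B : Matrix ι ι k) (R : Type) [Fintype R] : Matrix (R → ι) (R → ι) k :=
  fun r s => ∏ i, B (r i) (s i)

theorem formR_mul (B D : Matrix ι ι k) (R : Type) [Fintype R] [DecidableEq R] :
    formR B R * formR D R = formR (B * D) R := by
  ext r s
  simp only [formR, Matrix.mul_apply]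
  rw [Finset.prod_univ_sum, Fintype.piFinset_univ]
  exact Finset.sum_congr rfl fun t _ => Finset.prod_mul_distrib.symm

theorem formR_one (R : Type) [Fintype R] [DecidableEq R] :
    formR (1 : Matrix ι ι k) R = 1 := by
  ext r s
  simp only [formR]
  by_cases h : r = s
  · subst h; simp
  · rw [Matrix.one_apply_ne h]
    obtain ⟨i, hi⟩ := Function.ne_iff.1 h
    exact Finset.prod_eq_zero (Finset.mem_univ i) (Matrix.one_apply_ne hi)

variable {B : Matrix ι ι k} {C : ∀ m n : ℕ, Submodule k (Mor k ι m n)}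

theorem formR_mul_inv (hB : IsUnit B.det) (R : Type) [Fintype R] [DecidableEq R] :
    formR B R * formR B⁻¹ R = 1 := by
  rw [formR_mul, Matrix.mul_nonsing_inv B hB, formR_one]

theorem formR_inv_mul (hB : IsUnit B.det) (R : Type) [Fintype R] [DecidableEq R] :
    formR B⁻¹ R * formR B R = 1 := by
  rw [formR_mul, Matrix.nonsing_inv_mul B hB, formR_one]

theorem transpose_mem (hC : IsCorrFamily B C) {R : Type} [Fintype R] [DecidableEq R]
    (w : Matrix (R → ι) (R → ι) k) (hw : w ∈ Hom C R R) :
    (formR B R * w * formR B⁻¹ R)ᵀ ∈ Hom C R R := by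
  have h1 : rei (Equiv.refl R) (Equiv.sumEmpty R Empty) w ∈ Hom C R (R ⊕ Empty) :=
    rei_mem_Hom hw _ _
  have h2 := rotL_mem hC h1
  have h3 := rei_mem_Hom h2 (Equiv.sumComm R R) (Equiv.refl Empty)
  have h4 := rotD_mem hC h3
  have h5 := rei_mem_Hom h4 (Equiv.refl R) (Equiv.sumEmpty R Empty).symm
  convert h5 using 1
  ext r s
  simp only [Matrix.transpose_apply, Matrix.mul_apply, rei, rotD, rotL, formR]
  refine Finset.sum_congr rfl fun t _ => ?_
  rw [mul_comm]
  rfl

/-- The `B`-transpose of a correspondence. -/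
theorem exists_transpose (hC : IsCorrFamily B C) {R : Type} [Fintype R] [DecidableEq R]
    (w : Matrix (R → ι) (R → ι) k) (hw : w ∈ Hom C R R) (hw2 : w * w = w) :
    ∃ w' ∈ Hom C R R, w' * w' = w' ∧ trace w' = trace w ∧
      ∀ r s : R → ι, ∑ p : R → ι, (∏ i, B (r i) (p i)) * w p s =
        ∑ p : R → ι, w' p r * ∏ i, B (p i) (s i) := by
  have hi := formR_inv_mul hC.nondeg R
  refine ⟨(formR B R * w * formR B⁻¹ R)ᵀ, transpose_mem hC w hw, ?_, ?_, ?_⟩
  · rw [← Matrix.transpose_mul]
    congr 1
    calc formR B R * w * formR B⁻¹ R * (formR B R * w * formR B⁻¹ R)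
        = formR B R * w * (formR B⁻¹ R * formR B R) * w * formR B⁻¹ R := by
          simp only [Matrix.mul_assoc]
      _ = formR B R * w * formR B⁻¹ R := by
          rw [hi, Matrix.mul_one, Matrix.mul_assoc (formR B R) w w, hw2]
  · rw [Matrix.trace_transpose, Matrix.trace_mul_comm, ← Matrix.mul_assoc, hi, Matrix.one_mul]
  · intro r s
    have h : formR B R * w = (formR B R * w * formR B⁻¹ R) * formR B R := by
      rw [Matrix.mul_assoc _ (formR B⁻¹ R), hi, Matrix.mul_one]
    exact congrFun (congrFun h r) s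

end MP021685Z
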