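import Pool.Agent.Lib.MP_021685_agZ.ZDefs

/-! # ZA: the projections to the weight spaces -/

set_option autoImplicit false

namespace Pool.Agent.Lib.MP_021685_agZ

open Matrix Finset

variable {k : Type*} [Field k] [CharZero k] {I : Type*} [Fintype I] [DecidableEq I]
  {g : Submodule k (Matrix I I k)} {y0 : I → k} {inv : I → I} {B : Matrix I I k}

omit [CharZero k] in
theorem pow_mem_aux (lie : ∀ X ∈ g, ∀ Y ∈ g, X * Y - Y * X ∈ g) (y0g : Matrix.diagonal y0 ∈ g) (n : ℕ) :
    ∀ X ∈ g, (Matrix.of fun a b => (y0 a - y0 b) ^ n * X a b) ∈ g := by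
  induction n with
  | zero =>
    intro X hX
    have : (Matrix.of fun a b => (y0 a - y0 b) ^ 0 * X a b) = X := by
      ext a b
      simp
    rw [this]
    exact hX
  | succ n ih =>
    intro X hX
    have h := ih _ (lie _ y0g X hX)
    have : (Matrix.of fun a b => (y0 a - y0 b) ^ (n + 1) * X a b)
        = (Matrix.of fun a b => (y0 a - y0 b) ^ n * (Matrix.diagonal y0 * X - X * Matrix.diagonal y0) a b) := by
      ext a b
      simp only [Matrix.of_apply, Matrix.sub_apply, Matrix.diagonal_mul, Matrix.mul_diagonal]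
      ring
    rw [this]
    exact h

omit [CharZero k] in
theorem poly_mem_aux (lie : ∀ X ∈ g, ∀ Y ∈ g, X * Y - Y * X ∈ g) (y0g : Matrix.diagonal y0 ∈ g)
    {X : Matrix I I k} (hX : X ∈ g) (p : Polynomial k) :
    (Matrix.of fun a b => p.eval (y0 a - y0 b) * X a b) ∈ g := by
  induction p using Polynomial.induction_on' with
  | add p q hp hq =>
    have : (Matrix.of fun a b => (p + q).eval (y0 a - y0 b) * X a b)
        = (Matrix.of fun a b => p.eval (y0 a - y0 b) * X a b)
          + (Matrix.of fun a b => q.eval (y0 a - y0 b) * X a b) := by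
      ext a b
      simp only [Matrix.of_apply, Matrix.add_apply, Polynomial.eval_add]
      ring
    rw [this]
    exact g.add_mem hp hq
  | monomial n t =>
    have : (Matrix.of fun a b => (Polynomial.monomial n t).eval (y0 a - y0 b) * X a b)
        = t • (Matrix.of fun a b => (y0 a - y0 b) ^ n * X a b) := by
      ext a b
      simp only [Matrix.of_apply, Matrix.smul_apply, Polynomial.eval_monomial, smul_eq_mul]
      ring
    rw [this]
    exact g.smul_mem t (pow_mem_aux lie y0g n X hX)

omit [CharZero k] in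
/-- The part of `X` of weight `c` is in `g`. -/
theorem proj_mem (lie : ∀ X ∈ g, ∀ Y ∈ g, X * Y - Y * X ∈ g) (y0g : Matrix.diagonal y0 ∈ g)
    {X : Matrix I I k} (hX : X ∈ g) (c : k) [DecidableEq k] :
    (Matrix.of fun a b => if y0 a - y0 b = c then X a b else 0) ∈ g := by
  set D : Finset k := (univ.image fun p : I × I => y0 p.1 - y0 p.2).erase c with hD
  set p : Polynomial k := ∏ d ∈ D, (Polynomial.X - Polynomial.C d) * Polynomial.C (c - d)⁻¹ with hp
  have h1 : p.eval c = 1 := by
    rw [hp, Polynomial.eval_prod]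
    refine Finset.prod_eq_one fun d hd => ?_
    have hne : c - d ≠ 0 := sub_ne_zero.2 fun h => (Finset.ne_of_mem_erase hd) h.symm
    simp [hne]
  have h2 : ∀ a b, y0 a - y0 b ≠ c → p.eval (y0 a - y0 b) = 0 := by
    intro a b hab
    rw [hp, Polynomial.eval_prod]
    refine Finset.prod_eq_zero (i := y0 a - y0 b) ?_ (by simp)
    rw [hD]
    exact Finset.mem_erase.2 ⟨hab, Finset.mem_image.2 ⟨(a, b), Finset.mem_univ _, rfl⟩⟩
  have h := poly_mem_aux lie y0g hX p
  have : (Matrix.of fun a b => if y0 a - y0 b = c then X a b else 0)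
      = (Matrix.of fun a b => p.eval (y0 a - y0 b) * X a b) := by
    ext a b
    simp only [Matrix.of_apply]
    split_ifs with hc
    · rw [hc, h1, one_mul]
    · rw [h2 a b hc, zero_mul]
  rw [this]
  exact h

end Pool.Agent.Lib.MP_021685_agZ
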