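import Pool.Agent.Lib.MP_021685_agZ.ZA

/-! # ZB: injectivity of y0, degrees, the pairing of root spaces -/

set_option autoImplicit false

namespace Pool.Agent.Lib.MP_021685_agZ

open Matrix Finset

variable {k : Type*} [Field k] [CharZero k] {I : Type*} [Fintype I] [DecidableEq I]
  {g : Submodule k (Matrix I I k)} {y0 : I → k} {inv : I → I} {B : Matrix I I k}

/-- PROOF. If `y0 a = y0 b`, `a ≠ b`: `reg a b a a a a` (all differences zero) gives `y a = y b` for all diagonal `y`
in `g`; contradiction to `sep` for the diagonal element of `S`. -/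
theorem Mx.inj (hM : Mx g y0 inv B) : Function.Injective y0 := by
  intro a b hab
  by_contra hne
  obtain ⟨S, ⟨hS, _⟩, h⟩ := hM.sep a b hne
  have h0 := hM.reg a b a a a a (by rw [hab]; ring) _ hS
  rcases h with ⟨h1, h2⟩ | ⟨h1, h2⟩
  · simp [h1, h2] at h0
  · simp [h1, h2] at h0

/-- A non-zero weight which occurs has degree 1 or -1 for a diagonal Hodge element.
PROOF. `a ≠ b`, take `S` from `sep a b`, and transport to the other pairs with `reg a' b' a a a b`, i.e.
`y a' - y b' = y a - y b` for the indicator `y` of `S`. -/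
theorem Mx.hdeg (hM : Mx g y0 inv B) {c : k} (hc : c ≠ 0) {a b : I} (hab : y0 a - y0 b = c) :
    ∃ S, IsH g inv S ∧ ((∀ a' b', y0 a' - y0 b' = c → a' ∈ S ∧ b' ∉ S) ∨
      (∀ a' b', y0 a' - y0 b' = c → a' ∉ S ∧ b' ∈ S)) := by
  have hne : a ≠ b := by
    rintro rfl
    exact hc (by rw [← hab, sub_self])
  obtain ⟨S, hS, h⟩ := hM.sep a b hne
  have two : (1 : k) ≠ -1 := by
    intro h
    have : (2 : k) = 0 := by linear_combination h
    exact two_ne_zero this
  refine ⟨S, hS, ?_⟩
  have key : ∀ a' b', y0 a' - y0 b' = c →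
      ((if a' ∈ S then (1 : k) else 0) - (if b' ∈ S then (1 : k) else 0))
        = ((if a ∈ S then (1 : k) else 0) - (if b ∈ S then (1 : k) else 0)) := by
    intro a' b' h'
    have h0 := hM.reg a' b' a a a b (by rw [h', hab]; ring) _ hS.1
    rw [sub_self, add_zero] at h0
    exact h0
  rcases h with ⟨h1, h2⟩ | ⟨h1, h2⟩
  · left
    intro a' b' h'
    have h0 := key a' b' h'
    rw [if_pos h1, if_neg h2] at h0
    by_cases ha : a' ∈ S <;> by_cases hb : b' ∈ S
    · rw [if_pos ha, if_pos hb] at h0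
      simp at h0
    · exact ⟨ha, hb⟩
    · rw [if_neg ha, if_pos hb] at h0
      exact absurd (by linear_combination -h0) two
    · rw [if_neg ha, if_neg hb] at h0
      simp at h0
  · right
    intro a' b' h'
    have h0 := key a' b' h'
    rw [if_neg h1, if_pos h2] at h0
    by_cases ha : a' ∈ S <;> by_cases hb : b' ∈ S
    · rw [if_pos ha, if_pos hb] at h0
      simp at h0
    · rw [if_pos ha, if_neg hb] at h0
      exact absurd (by linear_combination h0) two
    · exact ⟨ha, hb⟩
    · rw [if_neg ha, if_neg hb] at h0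
      simp at h0

/-- no chains. PROOF. `hdeg`. -/
theorem Mx.chain (hM : Mx g y0 inv B) {c : k} (hc : c ≠ 0) {a b e : I} (hab : y0 a - y0 b = c)
    (hbe : y0 b - y0 e = c) : False := by
  obtain ⟨S, _, h | h⟩ := hM.hdeg hc hab
  · exact (h a b hab).2 (h b e hbe).1
  · exact (h b e hbe).1 (h a b hab).2

/-- The pairing of the root spaces of `c` and `-c` is non-degenerate.
PROOF. For `Y ∈ g` the trace of `x * Y` is the trace of `x * Y'`, `Y'` the part of `Y` of weight `-c`
(`proj_mem`; an entry `x a b` is non-zero only if `y0 a - y0 b = c`), `Y' ∈ gc g y0 (-c)`, so it is zero. By `rad`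
`x = s • 1`; the diagonal entries of `x` are zero as `c ≠ 0`, so `x = 0` (if `I` is empty, `x = 0` trivially). -/
theorem Mx.nd (hM : Mx g y0 inv B) {c : k} (hc : c ≠ 0) {x : Matrix I I k} (hx : x ∈ gc g y0 c)
    (h : ∀ y ∈ gc g y0 (-c), (x * y).trace = 0) : x = 0 := by
  classical
  obtain ⟨hxg, hxc⟩ := mem_gc.1 hx
  have key : ∀ Y ∈ g, (x * Y).trace = 0 := by
    intro Y hY
    have hp := proj_mem hM.lie hM.y0g hY (-c)
    have hp2 : (Matrix.of fun a b => if y0 a - y0 b = -c then Y a b else 0) ∈ gc g y0 (-c) := by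
      refine mem_gc.2 ⟨hp, fun a b hab => ?_⟩
      by_contra hne
      exact hab (by simp [hne])
    have h0 := h _ hp2
    rw [← h0]
    simp only [Matrix.trace, Matrix.diag_apply, Matrix.mul_apply, Matrix.of_apply]
    refine Finset.sum_congr rfl fun a _ => Finset.sum_congr rfl fun b _ => ?_
    by_cases hxab : x a b = 0
    · rw [hxab, zero_mul, zero_mul]
    · have := hxc a b hxab
      rw [if_pos (by rw [← this]; ring)]
  obtain ⟨s, hs⟩ := hM.rad x hxg key
  ext a b
  by_contra hab
  rw [Matrix.zero_apply] at hab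
  have hd : x a a = 0 := by
    by_contra hne
    exact hc (by rw [← hxc a a hne, sub_self])
  have hs0 : s = 0 := by
    rw [hs] at hd
    simpa using hd
  rw [hs, hs0, zero_smul] at hab
  exact hab rfl

/-- the triple product. PROOF. `2 x y x = (x y - y x) x - x (x y - y x)` as `x x = 0` (`chain`: the entry
`x a l * x l b` is zero), so `x y x ∈ g`; its entries have the weight `c`. -/
theorem Mx.tri (hM : Mx g y0 inv B) {c : k} (hc : c ≠ 0) {x y : Matrix I I k} (hx : x ∈ gc g y0 c)
    (hy : y ∈ gc g y0 (-c)) : x * y * x ∈ gc g y0 c := by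
  obtain ⟨hxg, hxc⟩ := mem_gc.1 hx
  obtain ⟨hyg, hyc⟩ := mem_gc.1 hy
  have hxx : x * x = 0 := by
    ext a b
    rw [Matrix.mul_apply, Matrix.zero_apply]
    refine Finset.sum_eq_zero fun l _ => ?_
    by_contra hne
    exact hM.chain hc (hxc a l (left_ne_zero_of_mul hne)) (hxc l b (right_ne_zero_of_mul hne))
  have h1 := hM.lie _ (hM.lie x hxg y hyg) x hxg
  have h2 : (x * y - y * x) * x - x * (x * y - y * x) = (2 : k) • (x * y * x) := by
    have e1 : y * x * x = 0 := by rw [Matrix.mul_assoc, hxx, Matrix.mul_zero]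
    have e2 : x * (x * y) = 0 := by rw [← Matrix.mul_assoc, hxx, Matrix.zero_mul]
    rw [Matrix.sub_mul, Matrix.mul_sub, e1, e2, sub_zero, zero_sub, sub_neg_eq_add, ← Matrix.mul_assoc,
      two_smul]
  rw [h2] at h1
  refine mem_gc.2 ⟨?_, ?_⟩
  · have := g.smul_mem (2 : k)⁻¹ h1
    rwa [smul_smul, inv_mul_cancel₀ two_ne_zero, one_smul] at this
  · intro a b hab
    rw [Matrix.mul_apply] at hab
    obtain ⟨m, _, hm⟩ := Finset.exists_ne_zero_of_sum_ne_zero hab
    have hm1 := left_ne_zero_of_mul hm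
    have hm2 := hxc m b (right_ne_zero_of_mul hm)
    rw [Matrix.mul_apply] at hm1
    obtain ⟨l, _, hl⟩ := Finset.exists_ne_zero_of_sum_ne_zero hm1
    have hl1 := hxc a l (left_ne_zero_of_mul hl)
    have hl2 := hyc l m (right_ne_zero_of_mul hl)
    linear_combination hl1 + hl2 + hm2

end Pool.Agent.Lib.MP_021685_agZ
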