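import Pool.Agent.Lib.MP_021685_agZ.ZB
import Pool.Agent.Lib.MP_021685_agO.OC

/-! # ZC: root vectors and coroots -/

set_option autoImplicit false

namespace Pool.Agent.Lib.MP_021685_agZ

open Matrix Finset

variable {k : Type*} [Field k] [CharZero k] {I : Type*} [Fintype I] [DecidableEq I]
  {g : Submodule k (Matrix I I k)} {y0 : I → k} {inv : I → I} {B : Matrix I I k}

/-- The partner of a root vector. -/
theorem Mx.partner (hM : Mx g y0 inv B) {c : k} (hc : c ≠ 0) {x : Matrix I I k} (hx : x ∈ gc g y0 c) :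
    ∃ y ∈ gc g y0 (-c), x * y * x = x ∧ y * x * y = y := by
  have hc' : -c ≠ 0 := neg_ne_zero.2 hc
  let e : Matrix I I k ≃ₐ[k] Module.End k (I → k) := Matrix.toLinAlgEquiv'
  have htr : ∀ Z : Matrix I I k, LinearMap.trace k (I → k) (e Z) = Z.trace := fun Z => by
    rw [LinearMap.trace_eq_matrix_trace k (Pi.basisFun k I) (e Z), LinearMap.toMatrix_eq_toMatrix']
    exact congrArg Matrix.trace (LinearMap.toMatrix'_toLin' Z)
  have hJ : Pool.Agent.Lib.MP_021685_agO.JPair ((gc g y0 c).map e.toLinearMap)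
      ((gc g y0 (-c)).map e.toLinearMap) := by
    refine ⟨?_, ?_, ?_, ?_⟩
    · rintro _ ⟨x, hx, rfl⟩ _ ⟨y, hy, rfl⟩
      refine ⟨x * y * x, hM.tri hc hx hy, ?_⟩
      change e (x * y * x) = e x * e y * e x
      rw [map_mul, map_mul]
    · rintro _ ⟨x, hx, rfl⟩ _ ⟨y, hy, rfl⟩
      refine ⟨y * x * y, hM.tri hc' hy (by rw [neg_neg]; exact hx), ?_⟩
      change e (y * x * y) = e y * e x * e y
      rw [map_mul, map_mul]
    · rintro _ ⟨x, hx, rfl⟩ h
      have h0 : x = 0 := hM.nd hc hx fun y hy => by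
        have h1 := h (e y) ⟨y, hy, rfl⟩
        change LinearMap.trace k (I → k) (e x * e y) = 0 at h1
        rwa [← map_mul, htr] at h1
      rw [h0, map_zero]
    · rintro _ ⟨y, hy, rfl⟩ h
      have h0 : y = 0 := hM.nd hc' hy fun x hx => by
        rw [neg_neg] at hx
        have h1 := h (e x) ⟨x, hx, rfl⟩
        change LinearMap.trace k (I → k) (e x * e y) = 0 at h1
        rwa [← map_mul, htr, Matrix.trace_mul_comm] at h1
      rw [h0, map_zero]
  obtain ⟨_, ⟨y, hy, rfl⟩, h1, h2⟩ := hJ.partner (x := e x) ⟨x, hx, rfl⟩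
  refine ⟨y, hy, e.injective ?_, e.injective ?_⟩
  · rw [map_mul, map_mul]
    exact h1
  · rw [map_mul, map_mul]
    exact h2

/-- The product of two elements of opposite weights is diagonal. -/
theorem Mx.mul_diag (hM : Mx g y0 inv B) {c : k} {x y : Matrix I I k} (hx : x ∈ gc g y0 c)
    (hy : y ∈ gc g y0 (-c)) {a l : I} (h : (x * y) a l ≠ 0) :
    a = l ∧ ∃ m, x a m ≠ 0 ∧ y m l ≠ 0 := by
  rw [Matrix.mul_apply] at h
  obtain ⟨m, -, hm⟩ := Finset.exists_ne_zero_of_sum_ne_zero h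
  have h1 : x a m ≠ 0 := left_ne_zero_of_mul hm
  have h2 : y m l ≠ 0 := right_ne_zero_of_mul hm
  have h3 := hx.2 a m h1
  have h4 := hy.2 m l h2
  refine ⟨hM.inj ?_, m, h1, h2⟩
  linear_combination h3 + h4

/-- The structure of a pair of partners. -/
theorem Mx.pair_aux (hM : Mx g y0 inv B) {c : k} (hc : c ≠ 0) {x y : Matrix I I k}
    (hx : x ∈ gc g y0 c) (hy : y ∈ gc g y0 (-c)) (hxy : x * y * x = x) (hyx : y * x * y = y) :
    ∃ p q : I → k, x * y - y * x = Matrix.diagonal (fun a => p a - q a) ∧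
      (∀ a, p a = 0 ∨ p a = 1) ∧ (∀ a, q a = 0 ∨ q a = 1) ∧
      (∀ a b, x a b ≠ 0 → p a = 1 ∧ q b = 1) ∧
      (∀ a, p a ≠ 0 → ∃ m, x a m ≠ 0) ∧ (∀ a, q a ≠ 0 → ∃ m, x m a ≠ 0) ∧
      ∀ a, p a ≠ 0 → q a = 0 := by
  have hx' : x ∈ gc g y0 (- -c) := by rw [neg_neg]; exact hx
  have e1 : x * y = Matrix.diagonal (fun a => (x * y) a a) := by
    ext a l
    by_cases h : a = l
    · subst h
      rw [Matrix.diagonal_apply_eq]
    · rw [Matrix.diagonal_apply_ne _ h]
      by_contra h0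
      exact h (hM.mul_diag hx hy h0).1
  have e2 : y * x = Matrix.diagonal (fun a => (y * x) a a) := by
    ext a l
    by_cases h : a = l
    · subst h
      rw [Matrix.diagonal_apply_eq]
    · rw [Matrix.diagonal_apply_ne _ h]
      by_contra h0
      exact h (hM.mul_diag hy hx' h0).1
  have ex : ∀ a, (x * y) a a ≠ 0 → ∃ m, x a m ≠ 0 := fun a ha => by
    obtain ⟨-, m, h, -⟩ := hM.mul_diag hx hy ha
    exact ⟨m, h⟩
  have ey : ∀ a, (y * x) a a ≠ 0 → ∃ m, x m a ≠ 0 := fun a ha => by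
    obtain ⟨-, m, -, h⟩ := hM.mul_diag hy hx' ha
    exact ⟨m, h⟩
  refine ⟨fun a => (x * y) a a, fun a => (y * x) a a, ?_, ?_, ?_, ?_, ex, ey, ?_⟩
  · rw [← Matrix.diagonal_sub, ← e1, ← e2]
  · intro a
    have h1 : x * y * (x * y) = x * y := by rw [← mul_assoc, hxy]
    have h2 : (x * y * (x * y)) a a = (x * y) a a := by rw [h1]
    rw [e1, Matrix.diagonal_mul_diagonal, Matrix.diagonal_apply_eq, Matrix.diagonal_apply_eq] at h2
    have h3 : (x * y) a a * ((x * y) a a - 1) = 0 := by linear_combination h2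
    rcases mul_eq_zero.1 h3 with h | h
    · exact Or.inl h
    · exact Or.inr (sub_eq_zero.1 h)
  · intro a
    have h1 : y * x * (y * x) = y * x := by rw [← mul_assoc, hyx]
    have h2 : (y * x * (y * x)) a a = (y * x) a a := by rw [h1]
    rw [e2, Matrix.diagonal_mul_diagonal, Matrix.diagonal_apply_eq, Matrix.diagonal_apply_eq] at h2
    have h3 : (y * x) a a * ((y * x) a a - 1) = 0 := by linear_combination h2
    rcases mul_eq_zero.1 h3 with h | h
    · exact Or.inl h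
    · exact Or.inr (sub_eq_zero.1 h)
  · intro a b hab
    constructor
    · have h1 : (x * y * x) a b = x a b := by rw [hxy]
      rw [e1, Matrix.diagonal_mul] at h1
      exact mul_right_cancel₀ hab (by rw [h1, one_mul])
    · have h1 : (x * (y * x)) a b = x a b := by rw [← mul_assoc, hxy]
      rw [e2, Matrix.mul_diagonal] at h1
      exact mul_left_cancel₀ hab (by rw [h1, mul_one])
  · intro a ha
    by_contra hq
    obtain ⟨m, hm⟩ := ex a ha
    obtain ⟨m', hm'⟩ := ey a hq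
    exact hM.chain hc (hx.2 m' a hm') (hx.2 a m hm)

/-- A non-zero root vector has full support. -/
theorem Mx.full (hM : Mx g y0 inv B) {c : k} (hc : c ≠ 0) {x : Matrix I I k} (hx : x ∈ gc g y0 c)
    (hx0 : x ≠ 0) {a b : I} (hab : y0 a - y0 b = c) : x a b ≠ 0 := by
  obtain ⟨y, hy, hxy, hyx⟩ := hM.partner hc hx
  obtain ⟨p, q, hτ, hp, hq, h1, h2, h3, h4⟩ := hM.pair_aux hc hx hy hxy hyx
  have hτg : Matrix.diagonal (fun a => p a - q a) ∈ g := by
    rw [← hτ]
    exact hM.lie x hx.1 y hy.1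
  obtain ⟨a₀, b₀, h0⟩ : ∃ a₀ b₀, x a₀ b₀ ≠ 0 := by
    by_contra h
    push Not at h
    exact hx0 (by ext a b; exact h a b)
  obtain ⟨hp0, hq0⟩ := h1 a₀ b₀ h0
  have hqa : q a₀ = 0 := h4 a₀ (by rw [hp0]; exact one_ne_zero)
  have hpb : p b₀ = 0 := by
    by_contra h
    have := h4 b₀ h
    rw [hq0] at this
    exact one_ne_zero this
  have hr := hM.reg a b a a a₀ b₀ (by rw [hab, hx.2 a₀ b₀ h0, sub_self, add_zero]) _ hτg
  simp only [sub_self, add_zero, hp0, hq0, hqa, hpb, sub_zero, zero_sub, sub_neg_eq_add] at hr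
  have hpa : p a ≠ 0 := by
    intro hpa
    rw [hpa] at hr
    rcases hq a with h | h <;> rcases hq b with h' | h' <;> rcases hp b with h'' | h'' <;>
      rw [h, h', h''] at hr <;> norm_num at hr
  obtain ⟨m, hm⟩ := h2 a hpa
  have hmb : m = b := hM.inj (by
    have := hx.2 a m hm
    linear_combination hab - this)
  rw [← hmb]
  exact hm

/-- The root spaces are one-dimensional. -/
theorem Mx.dim_one (hM : Mx g y0 inv B) {c : k} (hc : c ≠ 0) {x x' : Matrix I I k}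
    (hx : x ∈ gc g y0 c) (hx0 : x ≠ 0) (hx' : x' ∈ gc g y0 c) : ∃ s : k, x' = s • x := by
  obtain ⟨a₀, b₀, h0⟩ : ∃ a₀ b₀, x a₀ b₀ ≠ 0 := by
    by_contra h
    push Not at h
    exact hx0 (by ext a b; exact h a b)
  refine ⟨x' a₀ b₀ / x a₀ b₀, ?_⟩
  by_contra hne
  have h1 : x' - (x' a₀ b₀ / x a₀ b₀) • x ∈ gc g y0 c :=
    (gc g y0 c).sub_mem hx' ((gc g y0 c).smul_mem _ hx)
  refine hM.full hc h1 (sub_ne_zero.2 hne) (hx.2 a₀ b₀ h0) ?_
  rw [Matrix.sub_apply, Matrix.smul_apply, smul_eq_mul, div_mul_cancel₀ _ h0, sub_self]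

/-- Root vectors and the coroot. -/
theorem Mx.exists_pair (hM : Mx g y0 inv B) {c : k} (hc : IsRoot g y0 c) :
    ∃ x ∈ gc g y0 c, ∃ y ∈ gc g y0 (-c), x * y * x = x ∧ y * x * y = y ∧ x ≠ 0 ∧ y ≠ 0 ∧
      x * y - y * x = Matrix.diagonal (fun a => (cor y0 c a : k)) := by
  obtain ⟨hc0, x, hx, hx0⟩ := hc
  obtain ⟨y, hy, hxy, hyx⟩ := hM.partner hc0 hx
  obtain ⟨p, q, hτ, hp, hq, h1, h2, h3, h4⟩ := hM.pair_aux hc0 hx hy hxy hyx
  refine ⟨x, hx, y, hy, hxy, hyx, hx0, ?_, ?_⟩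
  · intro h
    rw [h, mul_zero, zero_mul] at hxy
    exact hx0 hxy.symm
  · rw [hτ]
    refine congrArg Matrix.diagonal (funext fun a => ?_)
    unfold cor
    by_cases ha : ∃ b, y0 a - y0 b = c
    · rw [if_pos ha]
      obtain ⟨b, hb⟩ := ha
      have h5 := (h1 a b (hM.full hc0 hx hx0 hb)).1
      rw [h5, h4 a (by rw [h5]; exact one_ne_zero)]
      simp
    · rw [if_neg ha]
      have hpa : p a = 0 := by
        by_contra h
        obtain ⟨m, hm⟩ := h2 a h
        exact ha ⟨m, hx.2 a m hm⟩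
      by_cases ha' : ∃ b, y0 b - y0 a = c
      · rw [if_pos ha']
        obtain ⟨b, hb⟩ := ha'
        have h5 := (h1 b a (hM.full hc0 hx hx0 hb)).2
        rw [h5, hpa]
        simp
      · rw [if_neg ha']
        have hqa : q a = 0 := by
          by_contra h
          obtain ⟨m, hm⟩ := h3 a h
          exact ha' ⟨m, hx.2 m a hm⟩
        rw [hpa, hqa]
        simp

theorem Mx.cor_mem (hM : Mx g y0 inv B) {c : k} (hc : IsRoot g y0 c) :
    Matrix.diagonal (fun a => (cor y0 c a : k)) ∈ g := by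
  obtain ⟨x, hx, y, hy, -, -, -, -, h⟩ := hM.exists_pair hc
  rw [← h]
  exact hM.lie x hx.1 y hy.1

theorem Mx.isRoot_neg (hM : Mx g y0 inv B) {c : k} (hc : IsRoot g y0 c) : IsRoot g y0 (-c) := by
  obtain ⟨x, hx, y, hy, -, -, -, hy0, -⟩ := hM.exists_pair hc
  exact ⟨neg_ne_zero.2 hc.1, y, hy, hy0⟩

/-- `cor (-c) = - cor c`. -/
theorem Mx.cor_neg (hM : Mx g y0 inv B) {c : k} (hc : c ≠ 0) (a : I) : cor y0 (-c) a = -cor y0 c a := by
  have e1 : (∃ b, y0 a - y0 b = -c) ↔ ∃ b, y0 b - y0 a = c :=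
    exists_congr fun b => by rw [← neg_sub, neg_inj]
  have e2 : (∃ b, y0 b - y0 a = -c) ↔ ∃ b, y0 a - y0 b = c :=
    exists_congr fun b => by rw [← neg_sub, neg_inj]
  unfold cor
  by_cases h1 : ∃ b, y0 a - y0 b = c
  · by_cases h2 : ∃ b, y0 b - y0 a = c
    · obtain ⟨b, hb⟩ := h1
      obtain ⟨b', hb'⟩ := h2
      exact (hM.chain hc hb' hb).elim
    · rw [if_pos h1, if_neg (fun h => h2 (e1.1 h)), if_pos (e2.2 h1)]
  · by_cases h2 : ∃ b, y0 b - y0 a = c
    · rw [if_neg h1, if_pos h2, if_pos (e1.2 h2)]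
      rfl
    · rw [if_neg h1, if_neg h2, if_neg (fun h => h2 (e1.1 h)), if_neg (fun h => h1 (e2.1 h))]
      rfl

theorem cor_left {c : k} {a b : I} (hab : y0 a - y0 b = c) : cor y0 c a = 1 := by
  unfold cor
  rw [if_pos ⟨b, hab⟩]

theorem Mx.cor_right (hM : Mx g y0 inv B) {c : k} (hc : c ≠ 0) {a b : I} (hab : y0 a - y0 b = c) :
    cor y0 c b = -1 := by
  unfold cor
  rw [if_neg, if_pos ⟨a, hab⟩]
  rintro ⟨b', hb'⟩
  exact hM.chain hc hab hb'

/-- The weights of the places with a non-zero entry are roots. -/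
theorem Mx.isRoot_iff (hM : Mx g y0 inv B) {a b : I} :
    IsRoot g y0 (y0 a - y0 b) ↔ a ≠ b ∧ ∃ X ∈ g, X a b ≠ 0 := by
  classical
  constructor
  · rintro ⟨hc, X, hX, hX0⟩
    refine ⟨?_, X, hX.1, hM.full hc hX hX0 rfl⟩
    rintro rfl
    exact hc (sub_self _)
  · rintro ⟨hab, X, hX, hX0⟩
    refine ⟨fun h => hab (hM.inj (sub_eq_zero.1 h)), _,
      ⟨proj_mem hM.lie hM.y0g hX (y0 a - y0 b), ?_⟩, ?_⟩
    · intro a' b' h
      by_contra h'
      rw [Matrix.of_apply, if_neg h'] at h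
      exact h rfl
    · intro h
      have := congrFun (congrFun h a) b
      rw [Matrix.of_apply, if_pos rfl] at this
      exact hX0 this

end Pool.Agent.Lib.MP_021685_agZ
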