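import Pool.Agent.Lib.MP_021685_agZ.ZC

/-! # ZD: reflections -/

set_option autoImplicit false

namespace Pool.Agent.Lib.MP_021685_agZ

open Matrix Finset

variable {k : Type*} [Field k] [CharZero k] {I : Type*} [Fintype I] [DecidableEq I]
  {g : Submodule k (Matrix I I k)} {y0 : I → k} {inv : I → I} {B : Matrix I I k}

/-- PROOF. `choose_spec` and `inj`. -/
theorem Mx.refl_left (hM : Mx g y0 inv B) {c : k} {a b : I} (hab : y0 a - y0 b = c) :
    refl y0 c a = b := by
  have h : ∃ b, y0 a - y0 b = c := ⟨b, hab⟩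
  rw [refl, dif_pos h]
  apply hM.inj
  have h2 := h.choose_spec
  exact sub_right_injective (h2.trans hab.symm)

/-- PROOF. `chain`, `choose_spec` and `inj`. -/
theorem Mx.refl_right (hM : Mx g y0 inv B) {c : k} (hc : c ≠ 0) {a b : I} (hab : y0 a - y0 b = c) :
    refl y0 c b = a := by
  have h1 : ¬ ∃ e, y0 b - y0 e = c := fun ⟨e, he⟩ => hM.chain hc hab he
  have h : ∃ a, y0 a - y0 b = c := ⟨a, hab⟩
  rw [refl, dif_neg h1, dif_pos h]
  apply hM.inj
  have h2 := h.choose_spec
  exact sub_left_injective (h2.trans hab.symm)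

omit [CharZero k] [DecidableEq I] in
theorem refl_of_not {c : k} {a : I} (h1 : ¬ ∃ b, y0 a - y0 b = c) (h2 : ¬ ∃ b, y0 b - y0 a = c) :
    refl y0 c a = a := by
  rw [refl, dif_neg h1, dif_neg h2]

theorem Mx.refl_refl (hM : Mx g y0 inv B) {c : k} (hc : c ≠ 0) (a : I) : refl y0 c (refl y0 c a) = a := by
  by_cases h1 : ∃ b, y0 a - y0 b = c
  · obtain ⟨b, hb⟩ := h1
    rw [hM.refl_left hb, hM.refl_right hc hb]
  by_cases h2 : ∃ b, y0 b - y0 a = c
  · obtain ⟨b, hb⟩ := h2
    rw [hM.refl_right hc hb, hM.refl_left hb]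
  rw [refl_of_not h1 h2, refl_of_not h1 h2]

omit [CharZero k] [DecidableEq I] in
theorem cor_zero_of_not {c : k} {a : I} (h1 : ¬ ∃ b, y0 a - y0 b = c) (h2 : ¬ ∃ b, y0 b - y0 a = c) :
    cor y0 c a = 0 := by
  rw [cor, if_neg h1, if_neg h2]

/-- The action of the reflection on the diagonal elements.
PROOF. Three cases for `e`: `y0 e - y0 b' = c` (then `refl e = b'`, `cor = 1`, and `y e - y b' = y a - y b` by `reg`);
`y0 b' - y0 e = c`; none. -/
theorem Mx.apply_refl (hM : Mx g y0 inv B) {c : k} (hc : c ≠ 0) {y : I → k} (hy : Matrix.diagonal y ∈ g)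
    {a b : I} (hab : y0 a - y0 b = c) (e : I) :
    y (refl y0 c e) = y e - (y a - y b) * (cor y0 c e : k) := by
  by_cases h1 : ∃ b, y0 e - y0 b = c
  · obtain ⟨b', hb'⟩ := h1
    have h := hM.reg a b a a e b' (by rw [hab, hb', sub_self, add_zero]) y hy
    rw [sub_self, add_zero] at h
    rw [hM.refl_left hb', cor_left hb', h]
    push_cast
    ring
  by_cases h2 : ∃ b, y0 b - y0 e = c
  · obtain ⟨b', hb'⟩ := h2
    have h := hM.reg a b a a b' e (by rw [hab, hb', sub_self, add_zero]) y hy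
    rw [sub_self, add_zero] at h
    rw [hM.refl_right hc hb', hM.cor_right hc hb', h]
    push_cast
    ring
  rw [refl_of_not h1 h2, cor_zero_of_not h1 h2]
  push_cast
  ring

omit [CharZero k] [Fintype I] [DecidableEq I] in
theorem IsRoot.exists_place {c : k} (hc : IsRoot g y0 c) : ∃ a b, y0 a - y0 b = c := by
  obtain ⟨-, X, hX, hX0⟩ := hc
  by_contra hne
  push Not at hne
  apply hX0
  ext a b
  by_contra hab
  exact hne a b (hX.2 a b hab)

/-- `y ∘ refl` is a diagonal element of `g`. PROOF. `apply_refl`, `cor_mem`. -/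
theorem Mx.comp_refl_mem (hM : Mx g y0 inv B) {c : k} (hc : IsRoot g y0 c) {y : I → k}
    (hy : Matrix.diagonal y ∈ g) : Matrix.diagonal (fun e => y (refl y0 c e)) ∈ g := by
  obtain ⟨a, b, hab⟩ := hc.exists_place
  have h : Matrix.diagonal (fun e => y (refl y0 c e)) =
      Matrix.diagonal y - (y a - y b) • Matrix.diagonal (fun a => (cor y0 c a : k)) := by
    ext i j
    rw [Matrix.sub_apply, Matrix.smul_apply, Matrix.diagonal_apply, Matrix.diagonal_apply,
      Matrix.diagonal_apply]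
    split_ifs with hij
    · rw [hM.apply_refl hc.1 hy hab, smul_eq_mul]
    · simp
  rw [h]
  exact g.sub_mem hy (g.smul_mem _ (hM.cor_mem hc))

/-- one direction of `weight_refl`. -/
theorem Mx.weight_refl_aux (hM : Mx g y0 inv B) {c : k} (hc : IsRoot g y0 c) (a b a' b' : I)
    (h : y0 a - y0 b = y0 a' - y0 b') :
      y0 (refl y0 c a) - y0 (refl y0 c b) = y0 (refl y0 c a') - y0 (refl y0 c b') := by
  have h1 := hM.reg a b a a a' b' (by rw [h, sub_self, add_zero]) _ (hM.comp_refl_mem hc hM.y0g)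
  simpa using h1

/-- The reflection respects the equality of weights. PROOF. `reg` (with `a'' = b''` terms zero) for
`y = y0 ∘ refl` (`comp_refl_mem`); the converse with `refl_refl`. -/
theorem Mx.weight_refl (hM : Mx g y0 inv B) {c : k} (hc : IsRoot g y0 c) (a b a' b' : I) :
    y0 a - y0 b = y0 a' - y0 b' ↔
      y0 (refl y0 c a) - y0 (refl y0 c b) = y0 (refl y0 c a') - y0 (refl y0 c b') := by
  refine ⟨hM.weight_refl_aux hc a b a' b', fun h => ?_⟩
  have h1 := hM.weight_refl_aux hc _ _ _ _ h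
  simpa only [hM.refl_refl hc.1] using h1

/-- conjugation by `1 + x`. -/
theorem conj_mem (lie : ∀ X ∈ g, ∀ Y ∈ g, X * Y - Y * X ∈ g) {x X : Matrix I I k} (hx : x ∈ g)
    (hX : X ∈ g) (hxx : x * x = 0) : (1 + x) * X * (1 - x) ∈ g := by
  have h1 := lie x hx X hX
  have h2 := lie x hx _ h1
  have h3 : (1 + x) * X * (1 - x) = X + (x * X - X * x) +
      (2⁻¹ : k) • (x * (x * X - X * x) - (x * X - X * x) * x) := by
    have h4 : x * (x * X - X * x) - (x * X - X * x) * x = -(2 : k) • (x * X * x) := by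
      have e1 : x * (x * X - X * x) - (x * X - X * x) * x =
          x * x * X - x * X * x - x * X * x + X * (x * x) := by noncomm_ring
      rw [e1, hxx, zero_mul, mul_zero, neg_smul, two_smul]
      abel
    rw [h4, smul_smul, mul_neg, inv_mul_cancel₀ (two_ne_zero : (2 : k) ≠ 0), neg_smul, one_smul]
    noncomm_ring
  rw [h3]
  exact g.add_mem (g.add_mem hX h1) (g.smul_mem _ h2)

/-- the product of a root vector with itself. -/
theorem Mx.sq_zero (hM : Mx g y0 inv B) {c : k} (hc : c ≠ 0) {x : Matrix I I k} (hx : x ∈ gc g y0 c) :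
    x * x = 0 := by
  ext a b
  rw [Matrix.mul_apply, Matrix.zero_apply]
  refine Finset.sum_eq_zero fun m _ => ?_
  by_contra h
  exact hM.chain hc (hx.2 a m (left_ne_zero_of_mul h)) (hx.2 m b (right_ne_zero_of_mul h))

/-- the sum `x y + y x` is diagonal with the entry `cor ^ 2`. -/
theorem Mx.anti (hM : Mx g y0 inv B) {c : k} (hc : c ≠ 0) {x y : Matrix I I k} (hx : x ∈ gc g y0 c)
    (hy : y ∈ gc g y0 (-c)) (hxy : x * y - y * x = Matrix.diagonal (fun a => (cor y0 c a : k))) :
    x * y + y * x = Matrix.diagonal (fun a => ((cor y0 c a : k)) ^ 2) := by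
  have hoff1 : ∀ p q, p ≠ q → (x * y) p q = 0 := by
    intro p q hpq
    rw [Matrix.mul_apply]
    refine Finset.sum_eq_zero fun m _ => ?_
    by_contra h
    have h1 := hx.2 p m (left_ne_zero_of_mul h)
    have h2 := hy.2 m q (right_ne_zero_of_mul h)
    exact hpq (hM.inj (by linear_combination h1 + h2))
  have hoff2 : ∀ p q, p ≠ q → (y * x) p q = 0 := by
    intro p q hpq
    rw [Matrix.mul_apply]
    refine Finset.sum_eq_zero fun m _ => ?_
    by_contra h
    have h1 := hy.2 p m (left_ne_zero_of_mul h)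
    have h2 := hx.2 m q (right_ne_zero_of_mul h)
    exact hpq (hM.inj (by linear_combination h1 + h2))
  have hd : ∀ p, (x * y) p p - (y * x) p p = (cor y0 c p : k) := by
    intro p
    have := congrFun (congrFun hxy p) p
    rwa [Matrix.sub_apply, Matrix.diagonal_apply_eq] at this
  have hz1 : ∀ p, (¬ ∃ b, y0 p - y0 b = c) → (x * y) p p = 0 := by
    intro p hp
    rw [Matrix.mul_apply]
    refine Finset.sum_eq_zero fun m _ => ?_
    by_contra h
    exact hp ⟨m, hx.2 p m (left_ne_zero_of_mul h)⟩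
  have hz2 : ∀ p, (¬ ∃ b, y0 b - y0 p = c) → (y * x) p p = 0 := by
    intro p hp
    rw [Matrix.mul_apply]
    refine Finset.sum_eq_zero fun m _ => ?_
    by_contra h
    exact hp ⟨m, hx.2 m p (right_ne_zero_of_mul h)⟩
  ext p q
  rw [Matrix.add_apply]
  by_cases hpq : p = q
  · subst hpq
    rw [Matrix.diagonal_apply_eq]
    have h0 := hd p
    by_cases h1 : ∃ b, y0 p - y0 b = c
    · have h2 : ¬ ∃ b, y0 b - y0 p = c := by
        rintro ⟨e, he⟩
        obtain ⟨b, hb⟩ := h1
        exact hM.chain hc he hb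
      rw [hz2 p h2] at h0 ⊢
      obtain ⟨b, hb⟩ := h1
      rw [cor_left hb] at h0 ⊢
      push_cast at h0 ⊢
      linear_combination h0
    · rw [hz1 p h1] at h0 ⊢
      by_cases h2 : ∃ b, y0 b - y0 p = c
      · obtain ⟨b, hb⟩ := h2
        rw [hM.cor_right hc hb] at h0 ⊢
        push_cast at h0 ⊢
        linear_combination - h0
      · rw [hz2 p h2, cor_zero_of_not h1 h2]
        push_cast
        ring
  · rw [hoff1 p q hpq, hoff2 p q hpq, Matrix.diagonal_apply_ne _ hpq, add_zero]

/-- The matrix `1 + x - y - x y - y x` is monomial. -/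
theorem Mx.mono (hM : Mx g y0 inv B) {c : k} (hc : c ≠ 0) {x y : Matrix I I k} (hx : x ∈ gc g y0 c)
    (hy : y ∈ gc g y0 (-c)) (hx0 : x ≠ 0) (hy0 : y ≠ 0)
    (hxy : x * y + y * x = Matrix.diagonal (fun a => ((cor y0 c a : k)) ^ 2)) (p q : I) :
    (1 + x - y - (x * y + y * x)) p q ≠ 0 ↔ q = refl y0 c p := by
  have hcc : c ≠ -c := by
    intro h
    apply hc
    have h2 : (2 : k) * c = 0 := by linear_combination h
    rcases mul_eq_zero.1 h2 with h3 | h3
    · exact absurd h3 two_ne_zero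
    · exact h3
  have hx' : ∀ a b, y0 a - y0 b ≠ c → x a b = 0 := fun a b h => by
    by_contra h'
    exact h (hx.2 a b h')
  have hy' : ∀ a b, y0 a - y0 b ≠ -c → y a b = 0 := fun a b h => by
    by_contra h'
    exact h (hy.2 a b h')
  rw [hxy, Matrix.sub_apply, Matrix.sub_apply, Matrix.add_apply]
  by_cases hpq : p = q
  · subst hpq
    rw [hx' p p (by rw [sub_self]; exact hc.symm), hy' p p (by rw [sub_self]; exact (neg_ne_zero.2 hc).symm),
      Matrix.one_apply_eq, Matrix.diagonal_apply_eq]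
    by_cases h1 : ∃ b, y0 p - y0 b = c
    · obtain ⟨b, hb⟩ := h1
      rw [cor_left hb, hM.refl_left hb]
      refine ⟨fun h => absurd (by push_cast; ring) h, fun h => ?_⟩
      exfalso
      rw [← h, sub_self] at hb
      exact hc hb.symm
    · by_cases h2 : ∃ b, y0 b - y0 p = c
      · obtain ⟨b, hb⟩ := h2
        rw [hM.cor_right hc hb, hM.refl_right hc hb]
        refine ⟨fun h => absurd (by push_cast; ring) h, fun h => ?_⟩
        exfalso
        rw [← h, sub_self] at hb
        exact hc hb.symm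
      · rw [cor_zero_of_not h1 h2, refl_of_not h1 h2]
        refine ⟨fun _ => rfl, fun _ => ?_⟩
        push_cast
        rw [show (1 : k) + 0 - 0 - 0 ^ 2 = 1 by ring]
        exact one_ne_zero
  · rw [Matrix.one_apply_ne hpq, Matrix.diagonal_apply_ne _ hpq]
    by_cases h1 : y0 p - y0 q = c
    · rw [hM.refl_left h1, hy' p q (by rw [h1]; exact hcc)]
      refine ⟨fun _ => rfl, fun _ => ?_⟩
      rw [show (0 : k) + x p q - 0 - 0 = x p q by ring]
      exact hM.full hc hx hx0 h1
    · rw [hx' p q h1]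
      by_cases h2 : y0 q - y0 p = c
      · rw [hM.refl_right hc h2]
        refine ⟨fun _ => rfl, fun _ => ?_⟩
        rw [show (0 : k) + 0 - y p q - 0 = -y p q by ring]
        exact neg_ne_zero.2 (hM.full (neg_ne_zero.2 hc) hy hy0 (by rw [← h2]; ring))
      · rw [hy' p q (fun h => h2 (by linear_combination -h))]
        refine ⟨fun h => absurd (by ring) h, fun h => ?_⟩
        exfalso
        by_cases h3 : ∃ b, y0 p - y0 b = c
        · obtain ⟨b, hb⟩ := h3
          rw [hM.refl_left hb] at h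
          subst h
          exact h1 hb
        · by_cases h4 : ∃ b, y0 b - y0 p = c
          · obtain ⟨b, hb⟩ := h4
            rw [hM.refl_right hc hb] at h
            subst h
            exact h2 hb
          · rw [refl_of_not h3 h4] at h
            exact hpq h.symm

/-- one direction of `isRoot_refl`. -/
theorem Mx.isRoot_refl_aux (hM : Mx g y0 inv B) {c : k} (hc : IsRoot g y0 c) {a b : I}
    (h : IsRoot g y0 (y0 a - y0 b)) : IsRoot g y0 (y0 (refl y0 c a) - y0 (refl y0 c b)) := by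
  rw [hM.isRoot_iff] at h ⊢
  obtain ⟨hab, X, hX, hXab⟩ := h
  refine ⟨fun h => hab ?_, ?_⟩
  · have := congrArg (refl y0 c) h
    rwa [hM.refl_refl hc.1, hM.refl_refl hc.1] at this
  obtain ⟨x, hx, y, hy, hxyx, hyxy, hx0, hy0, hτ⟩ := hM.exists_pair hc
  have hc0 := hc.1
  have hc0' : -c ≠ 0 := neg_ne_zero.2 hc0
  have hxx := hM.sq_zero hc0 hx
  have hyy := hM.sq_zero hc0' hy
  have hanti := hM.anti hc0 hx hy hτ
  -- the two monomial matrices
  have hn : (1 + x) * (1 - y) * (1 + x) = 1 + x - y - (x * y + y * x) := by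
    have e : (1 + x) * (1 - y) * (1 + x) = 1 + x + x + x * x - y - y * x - x * y - x * y * x := by
      noncomm_ring
    rw [e, hxx, hxyx]
    abel
  have hn' : (1 - x) * (1 + y) * (1 - x) = 1 + (-x) - (-y) - ((-x) * (-y) + (-y) * (-x)) := by
    have e : (1 - x) * (1 + y) * (1 - x) = 1 - x - x + x * x + y - y * x - x * y + x * y * x := by
      noncomm_ring
    rw [e, hxx, hxyx, neg_mul_neg, neg_mul_neg]
    abel
  have hm := hM.mono hc0 hx hy hx0 hy0 hanti
  have hm' := hM.mono hc0 ((gc g y0 c).neg_mem hx) ((gc g y0 (-c)).neg_mem hy) (neg_ne_zero.2 hx0)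
    (neg_ne_zero.2 hy0) (by rw [neg_mul_neg, neg_mul_neg]; exact hanti)
  have hmem : (1 + x) * (1 - y) * (1 + x) * X * ((1 - x) * (1 + y) * (1 - x)) ∈ g := by
    have h1 := conj_mem hM.lie hx.1 hX hxx
    have h2 := conj_mem hM.lie (g.neg_mem hy.1) h1 (by rw [neg_mul_neg]; exact hyy)
    have h3 := conj_mem hM.lie hx.1 h2 hxx
    have e : (1 + x) * ((1 + -y) * ((1 + x) * X * (1 - x)) * (1 - -y)) * (1 - x) =
        (1 + x) * (1 - y) * (1 + x) * X * ((1 - x) * (1 + y) * (1 - x)) := by
      rw [sub_neg_eq_add, ← sub_eq_add_neg]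
      simp only [mul_assoc]
    rwa [e] at h3
  refine ⟨_, hmem, ?_⟩
  rw [hn, hn']
  generalize (1 + x - y - (x * y + y * x)) = n at hm
  generalize (1 + (-x) - (-y) - ((-x) * (-y) + (-y) * (-x))) = n' at hm'
  have e1 : (n * X * n') (refl y0 c a) (refl y0 c b) = n (refl y0 c a) a * X a b * n' b (refl y0 c b) := by
    rw [Matrix.mul_apply, Finset.sum_eq_single b]
    · rw [Matrix.mul_apply, Finset.sum_eq_single a]
      · intro m _ hma
        have : n (refl y0 c a) m = 0 := by
          by_contra h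
          rw [← ne_eq, hm, hM.refl_refl hc0] at h
          exact hma h
        rw [this, zero_mul]
      · intro h
        exact absurd (Finset.mem_univ _) h
    · intro l _ hlb
      have : n' l (refl y0 c b) = 0 := by
        by_contra h
        rw [← ne_eq, hm'] at h
        have := congrArg (refl y0 c) h
        rw [hM.refl_refl hc0, hM.refl_refl hc0] at this
        exact hlb this.symm
      rw [this, mul_zero]
    · intro h
      exact absurd (Finset.mem_univ _) h
  rw [e1]
  refine mul_ne_zero (mul_ne_zero ?_ hXab) ?_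
  · rw [hm, hM.refl_refl hc0]
  · rw [hm']

/-- The reflection maps roots to roots.
PROOF. By `isRoot_iff` both sides are statements about non-zero entries. Let `x, y` be as in `exists_pair`,
`n = (1 + x) (1 - y) (1 + x)`, `n' = (1 - x) (1 + y) (1 - x)`; `x x = 0`, `y y = 0` (`chain`), `n n' = 1`, and
`n = 1 - x y - y x + x - y`, `n' = 1 - x y - y x - x + y`. `n X n' ∈ g` for `X ∈ g`: `(1 + x) X (1 - x) =
X + [x, X] - x X x` and `2 x X x = -[x, [x, X]]`. The matrix `n` is monomial: `n a b ≠ 0` iff `b = refl a`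
(`x y` + `y x` is the diagonal idempotent with support `{cor ≠ 0}`, `full`). So the entry of `n X n'` at
`(refl a, refl b)` is `n (refl a) a * X a b * n' b (refl b)`. The converse direction by `refl_refl`. -/
theorem Mx.isRoot_refl (hM : Mx g y0 inv B) {c : k} (hc : IsRoot g y0 c) {a b : I} :
    IsRoot g y0 (y0 a - y0 b) ↔ IsRoot g y0 (y0 (refl y0 c a) - y0 (refl y0 c b)) := by
  refine ⟨hM.isRoot_refl_aux hc, fun h => ?_⟩
  have h1 := hM.isRoot_refl_aux hc h
  rwa [hM.refl_refl hc.1, hM.refl_refl hc.1] at h1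

/-- PROOF. `weight_refl`, `refl_refl`. -/
theorem Mx.cor_refl (hM : Mx g y0 inv B) {c : k} (hc : IsRoot g y0 c) (a b e : I) :
    cor y0 (y0 (refl y0 c a) - y0 (refl y0 c b)) (refl y0 c e) = cor y0 (y0 a - y0 b) e := by
  have h1 : (∃ b', y0 (refl y0 c e) - y0 b' = y0 (refl y0 c a) - y0 (refl y0 c b)) ↔
      ∃ b', y0 e - y0 b' = y0 a - y0 b := by
    constructor
    · rintro ⟨b', hb'⟩
      refine ⟨refl y0 c b', ?_⟩
      rw [hM.weight_refl hc, hM.refl_refl hc.1]
      exact hb'
    · rintro ⟨b', hb'⟩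
      exact ⟨refl y0 c b', hM.weight_refl_aux hc _ _ _ _ hb'⟩
  have h2 : (∃ b', y0 b' - y0 (refl y0 c e) = y0 (refl y0 c a) - y0 (refl y0 c b)) ↔
      ∃ b', y0 b' - y0 e = y0 a - y0 b := by
    constructor
    · rintro ⟨b', hb'⟩
      refine ⟨refl y0 c b', ?_⟩
      rw [hM.weight_refl hc, hM.refl_refl hc.1]
      exact hb'
    · rintro ⟨b', hb'⟩
      exact ⟨refl y0 c b', hM.weight_refl_aux hc _ _ _ _ hb'⟩
  classical
  by_cases h3 : ∃ b', y0 e - y0 b' = y0 a - y0 b
  · rw [cor, cor, if_pos h3, if_pos (h1.2 h3)]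
  · by_cases h4 : ∃ b', y0 b' - y0 e = y0 a - y0 b
    · rw [cor, cor, if_neg h3, if_neg (fun h => h3 (h1.1 h)), if_pos h4, if_pos (h2.2 h4)]
    · rw [cor, cor, if_neg h3, if_neg (fun h => h3 (h1.1 h)), if_neg h4,
        if_neg (fun h => h4 (h2.1 h))]

end Pool.Agent.Lib.MP_021685_agZ
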