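import Mathlib

/-!
# One Frobenius decides: the matrix context

`g` is a Lie algebra of matrices over `k` with the index set `I` (in the application: a basis of eigenvectors
of the Frobenius `F`), `y0` a regular diagonal element of `g`. The difference `y0 a - y0 b` is the weight of
the place `(a, b)`. The roots of `g` are the non-zero weights `c` with a non-zero root space `gc g y0 c`.
-/

set_option autoImplicit false

namespace Pool.Agent.Lib.MP_021685_agZ

open Matrix Finset

variable {k : Type*} [Field k] {I : Type*} [Fintype I] [DecidableEq I]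

/-- The root space: the elements `X` of `g` whose non-zero entries are at the places `(a, b)` with
`y0 a - y0 b = c`. -/
def gc (g : Submodule k (Matrix I I k)) (y0 : I → k) (c : k) : Submodule k (Matrix I I k) where
  carrier := {X | X ∈ g ∧ ∀ a b, X a b ≠ 0 → y0 a - y0 b = c}
  add_mem' := by
    rintro X Y ⟨h1, h2⟩ ⟨h3, h4⟩
    refine ⟨g.add_mem h1 h3, fun a b hab => ?_⟩
    by_cases hX : X a b = 0
    · refine h4 a b fun hY => hab ?_
      rw [Matrix.add_apply, hX, hY, add_zero]
    · exact h2 a b hX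
  zero_mem' := ⟨g.zero_mem, fun a b hab => absurd rfl hab⟩
  smul_mem' := by
    rintro s X ⟨h1, h2⟩
    refine ⟨g.smul_mem s h1, fun a b hab => h2 a b fun hX => hab ?_⟩
    rw [Matrix.smul_apply, hX, smul_zero]

theorem mem_gc {g : Submodule k (Matrix I I k)} {y0 : I → k} {c : k} {X : Matrix I I k} :
    X ∈ gc g y0 c ↔ X ∈ g ∧ ∀ a b, X a b ≠ 0 → y0 a - y0 b = c := Iff.rfl

/-- `c` is a root. -/
def IsRoot (g : Submodule k (Matrix I I k)) (y0 : I → k) (c : k) : Prop :=
  c ≠ 0 ∧ ∃ X ∈ gc g y0 c, X ≠ 0

open Classical in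
/-- The coroot of `c`: its value at the index `a` is `1` if `c = y0 a - y0 b` for some `b`, and `-1` if
`c = y0 b - y0 a` for some `b`, and `0` otherwise. -/
noncomputable def cor (y0 : I → k) (c : k) (a : I) : ℤ :=
  if ∃ b, y0 a - y0 b = c then 1 else if ∃ b, y0 b - y0 a = c then -1 else 0

open Classical in
/-- The reflection of the index set: it exchanges `a` and `b` if `y0 a - y0 b = c`. -/
noncomputable def refl (y0 : I → k) (c : k) (a : I) : I :=
  if h : ∃ b, y0 a - y0 b = c then h.choose else if h : ∃ b, y0 b - y0 a = c then h.choose else a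

/-- The set `S` of indices is the half system of a diagonal Hodge element of `g`. -/
def IsH (g : Submodule k (Matrix I I k)) (inv : I → I) (S : Finset I) : Prop :=
  Matrix.diagonal (fun a => if a ∈ S then (1 : k) else 0) ∈ g ∧ ∀ a, inv a ∈ S ↔ a ∉ S

/-- The context: `g` is a Lie algebra of matrices, irreducible on `k ^ I`, its radical for the trace form is
scalar, `y0` is a regular diagonal element of `g`, the half systems of the diagonal Hodge elements separate
the indices, and `B` is the matrix of a symplectic form, monomial with respect to the involution `inv`, for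
which the elements of `g` are similitudes. -/
structure Mx (g : Submodule k (Matrix I I k)) (y0 : I → k) (inv : I → I) (B : Matrix I I k) : Prop where
  lie : ∀ X ∈ g, ∀ Y ∈ g, X * Y - Y * X ∈ g
  rad : ∀ X ∈ g, (∀ Y ∈ g, (X * Y).trace = 0) → ∃ s : k, X = s • (1 : Matrix I I k)
  irr : ∀ U : Submodule k (I → k), (∀ X ∈ g, ∀ u ∈ U, X.mulVec u ∈ U) → U = ⊥ ∨ U = ⊤
  y0g : Matrix.diagonal y0 ∈ g
  reg : ∀ a b a' b' a'' b'' : I, y0 a - y0 b + (y0 a' - y0 b') = y0 a'' - y0 b'' →
    ∀ y : I → k, Matrix.diagonal y ∈ g → y a - y b + (y a' - y b') = y a'' - y b''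
  sep : ∀ a b : I, a ≠ b → ∃ S, IsH g inv S ∧ ((a ∈ S ∧ b ∉ S) ∨ (a ∉ S ∧ b ∈ S))
  inv_inv : ∀ a, inv (inv a) = a
  form : ∀ X ∈ g, ∃ s : k, Xᵀ * B + B * X = s • B
  skew : Bᵀ = -B
  Bne : ∀ a b, B a b ≠ 0 ↔ b = inv a

/-- `c` is a positive root for the additive function `f`. -/
def Pos (g : Submodule k (Matrix I I k)) (y0 : I → k) (f : k →+ ℚ) (c : k) : Prop :=
  IsRoot g y0 c ∧ 0 < f c

/-- `c` is a simple root: a positive root, not the sum of two positive roots. -/
def Simp (g : Submodule k (Matrix I I k)) (y0 : I → k) (f : k →+ ℚ) (c : k) : Prop :=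
  Pos g y0 f c ∧ ∀ c₁ c₂, Pos g y0 f c₁ → Pos g y0 f c₂ → c ≠ c₁ + c₂

open Classical in
/-- The finite set of the positive roots. -/
noncomputable def posR (g : Submodule k (Matrix I I k)) (y0 : I → k) (f : k →+ ℚ) : Finset k :=
  (univ.image fun p : I × I => y0 p.1 - y0 p.2).filter fun c => Pos g y0 f c

/-- The sum of the positive coroots. -/
noncomputable def Ysum (g : Submodule k (Matrix I I k)) (y0 : I → k) (f : k →+ ℚ) (a : I) : ℤ :=
  ∑ c ∈ posR g y0 f, cor y0 c a

end Pool.Agent.Lib.MP_021685_agZ
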