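import Pool.Agent.Lib.MP_021685_agO.Defs3

/-!
# One Frobenius decides: the definitions used in the statement
-/

set_option autoImplicit false

namespace Pool.Agent.Lib.MP_021685_agZ

open Module Pool.Agent.Lib.MP_021685_agO

variable {k : Type*} [Field k] {ι : Type*}

/-- The action of a map `σ : k → k` on the coordinates of a vector of `k ^ ι`. -/
def galAct (σ : k → k) (v : ι → k) : ι → k := fun i => σ (v i)

/-- The space `g` of endomorphisms of `k ^ ι` is stable under the conjugation with the automorphisms `σ` of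
`k` over `k₀` (acting on the coordinates), and `c (σ X σ⁻¹) = σ (c X)`. -/
def IsGalStable (k₀ : Type*) [Field k₀] [Algebra k₀ k] (g : Submodule k (End k (ι → k)))
    (c : End k (ι → k) → k) : Prop :=
  ∀ σ : k ≃ₐ[k₀] k, ∀ X ∈ g, ∃ X' ∈ g, (∀ v, X' (galAct σ v) = galAct σ (X v)) ∧ c X' = σ (c X)

/-- The subspace `V` of `k ^ ι` is simple, it has a symplectic form with multiplier `c`, `g` and `c` are stable
under the automorphisms of `k` over `k₀`, and there is a matrix `F` with entries in `k₀` which maps `V` to
itself such that: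
* `F` is in the algebra generated by the idempotents `e` of multiplier `1` in `g` with `e F = F e`;
* the discriminant of the characteristic polynomial of `F` on `V` is not the square of an element of `k`
  which is fixed by all the automorphisms of `k` over `k₀` which map `V` to itself. -/
def OddDisc (k₀ : Type*) [Field k₀] [Algebra k₀ k] [Fintype ι] [DecidableEq ι]
    (g : Submodule k (End k (ι → k))) (c : End k (ι → k) → k) (V : Submodule k (ι → k)) : Prop :=
  IsSimpleSub g V ∧ (∃ β, IsSympl g c V β) ∧ IsGalStable k₀ g c ∧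
    ∃ (F : Matrix ι ι k₀) (Φ : End k (ι → k)) (hΦ : ∀ v ∈ V, Φ v ∈ V),
      Φ = Matrix.toLin' (F.map (algebraMap k₀ k)) ∧
      Φ ∈ Algebra.adjoin k {e | IsHodgeElt g c e ∧ e * Φ = Φ * e} ∧
      ∀ z : k, (∀ σ : k ≃ₐ[k₀] k, (∀ v ∈ V, galAct σ v ∈ V) → σ z = z) →
        z ^ 2 ≠ (Φ.restrict hΦ).charpoly.discr

end Pool.Agent.Lib.MP_021685_agZ
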