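import Pool.Agent.Lib.MP_021685_agZ.ZC

/-! # ZF: positive and simple roots -/

set_option autoImplicit false

namespace Pool.Agent.Lib.MP_021685_agZ

open Matrix Finset

variable {k : Type*} [Field k] [CharZero k] {I : Type*} [Fintype I] [DecidableEq I]
  {g : Submodule k (Matrix I I k)} {y0 : I → k} {inv : I → I} {B : Matrix I I k}

omit [CharZero k] in
/-- The roots are among the finitely many differences. -/
theorem IsRoot.exists {c : k} (hc : IsRoot g y0 c) : ∃ a b, y0 a - y0 b = c := by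
  obtain ⟨-, X, hX, hX0⟩ := hc
  by_contra hno
  push Not at hno
  refine hX0 (Matrix.ext fun a b => ?_)
  by_contra h
  exact hno a b (hX.2 a b h)

/-- PROOF. `k` is a vector space over `ℚ`; the roots are non-zero elements of a finite set
(`IsRoot.exists`); there is a linear functional `f : k →ₗ[ℚ] ℚ` which does not vanish on a given finite set of
non-zero vectors: Mathlib `Module.exists_dual_forall_apply_ne_zero` / `Module.Dual.exists_forall_mem_ne_zero_...`
(search for it), or: finitely many proper subspaces `{f | f c = 0}` of the dual do not cover it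
(`Subspace.exists_...`/`Submodule.iUnion_ne_univ...`), or induction on the number of elements. -/
theorem exists_pos (g : Submodule k (Matrix I I k)) (y0 : I → k) :
    ∃ f : k →+ ℚ, ∀ c, IsRoot g y0 c → f c ≠ 0 := by
  obtain ⟨f, hf⟩ := Module.exists_dual_forall_apply_ne_zero (K := ℚ)
    (fun p : {p : I × I // IsRoot g y0 (y0 p.1 - y0 p.2)} => y0 p.1.1 - y0 p.1.2)
    (fun p => p.2.1)
  refine ⟨f.toAddMonoidHom, fun c hc => ?_⟩
  obtain ⟨a, b, rfl⟩ := hc.exists
  exact hf ⟨(a, b), hc⟩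

variable {f : k →+ ℚ}

omit [CharZero k] in
theorem mem_posR {c : k} : c ∈ posR g y0 f ↔ Pos g y0 f c := by
  classical
  unfold posR
  rw [Finset.mem_filter]
  refine ⟨fun h => h.2, fun h => ⟨?_, h⟩⟩
  obtain ⟨a, b, hab⟩ := h.1.exists
  exact Finset.mem_image.mpr ⟨(a, b), Finset.mem_univ _, hab⟩

omit [CharZero k] in
/-- Induction over the positive roots. PROOF. Strong induction on the number of positive roots `c'` with
`f c' < f c` (`posR` is finite): if `c` is not simple, `c = c₁ + c₂` with positive `c₁, c₂`, and `f c₁, f c₂ < f c`. -/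
theorem pos_induction {P : k → Prop} (h1 : ∀ c, Simp g y0 f c → P c)
    (h2 : ∀ c₁ c₂, Pos g y0 f c₁ → Pos g y0 f c₂ → Pos g y0 f (c₁ + c₂) → P c₁ → P c₂ → P (c₁ + c₂)) :
    ∀ c, Pos g y0 f c → P c := by
  classical
  by_contra hno
  push Not at hno
  obtain ⟨c, hc, hPc⟩ := hno
  obtain ⟨b, hb, hmin⟩ := Finset.exists_min_image ((posR g y0 f).filter fun c => ¬ P c) f
    ⟨c, Finset.mem_filter.mpr ⟨mem_posR.mpr hc, hPc⟩⟩
  rw [Finset.mem_filter, mem_posR] at hb
  by_cases hs : Simp g y0 f b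
  · exact hb.2 (h1 b hs)
  · unfold Simp at hs
    push Not at hs
    obtain ⟨c₁, c₂, hc₁, hc₂, rfl⟩ := hs hb.1
    have h4 := hc₁.2
    have h5 := hc₂.2
    refine hb.2 (h2 c₁ c₂ hc₁ hc₂ hb.1 ?_ ?_)
    · by_contra h6
      have h7 := hmin c₁ (Finset.mem_filter.mpr ⟨mem_posR.mpr hc₁, h6⟩)
      rw [map_add] at h7
      linarith
    · by_contra h6
      have h7 := hmin c₂ (Finset.mem_filter.mpr ⟨mem_posR.mpr hc₂, h6⟩)
      rw [map_add] at h7
      linarith

/-- A root or its negative is positive. -/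
theorem Mx.pos_or_neg (hM : Mx g y0 inv B) (hf : ∀ c, IsRoot g y0 c → f c ≠ 0) {c : k}
    (hc : IsRoot g y0 c) : Pos g y0 f c ∨ Pos g y0 f (-c) := by
  rcases lt_or_gt_of_ne (hf c hc) with h | h
  · refine Or.inr ⟨hM.isRoot_neg hc, ?_⟩
    rw [map_neg]
    linarith
  · exact Or.inl ⟨hc, h⟩

/-- PROOF. If `c - c'` is a root, `f (c - c') ≠ 0`; if positive, `c = (c - c') + c'`; if negative, `c' = (c' - c) + c`
with the root `c' - c` (`isRoot_neg`); contradiction to simple. -/
theorem Mx.simp_sub (hM : Mx g y0 inv B) (hf : ∀ c, IsRoot g y0 c → f c ≠ 0) {c c' : k}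
    (hc : Simp g y0 f c) (hc' : Simp g y0 f c') : ¬ IsRoot g y0 (c - c') := by
  intro h
  rcases hM.pos_or_neg hf h with h1 | h1
  · exact hc.2 _ _ h1 hc'.1 (by ring)
  · exact hc'.2 _ _ h1 hc.1 (by ring)

/-- The values of a diagonal element are additive on the weights. -/
theorem Mx.add_of_reg (hM : Mx g y0 inv B) {y : I → ℤ}
    (hy : Matrix.diagonal (fun a => (y a : k)) ∈ g) {a b a' b' a'' b'' : I}
    (h : y0 a - y0 b + (y0 a' - y0 b') = y0 a'' - y0 b'') :
    y a - y b + (y a' - y b') = y a'' - y b'' := by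
  have h1 := hM.reg _ _ _ _ _ _ h _ hy
  exact_mod_cast h1

/-- A linear function on the roots which is `2` on the simple roots is even on the positive roots. -/
theorem Mx.two_dvd (hM : Mx g y0 inv B) {y : I → ℤ} (hy : Matrix.diagonal (fun a => (y a : k)) ∈ g)
    (h2 : ∀ β, Simp g y0 f β → ∀ a b, y0 a - y0 b = β → y a - y b = 2) {c : k} (hc : Pos g y0 f c)
    {a b : I} (hab : y0 a - y0 b = c) : 2 ≤ y a - y b ∧ Even (y a - y b) := by
  refine pos_induction (P := fun c => ∀ a b, y0 a - y0 b = c → 2 ≤ y a - y b ∧ Even (y a - y b))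
    ?_ ?_ c hc a b hab
  · intro β hβ a b hab
    rw [h2 β hβ a b hab]
    exact ⟨le_rfl, even_two⟩
  · intro c₁ c₂ hc₁ hc₂ _ h3 h4 a b hab
    obtain ⟨a₁, b₁, h5⟩ := hc₁.1.exists
    obtain ⟨a₂, b₂, h6⟩ := hc₂.1.exists
    have h7 := hM.add_of_reg hy (a := a₁) (b := b₁) (a' := a₂) (b' := b₂) (a'' := a) (b'' := b)
      (by rw [h5, h6, hab])
    have h8 := h3 a₁ b₁ h5
    have h9 := h4 a₂ b₂ h6
    rw [← h7]
    exact ⟨by omega, h8.2.add h9.2⟩

/-- A linear function on the roots which is `2` on the simple roots is at least `2` on the positive roots.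
PROOF. `pos_induction`, additivity by `reg` (choose the places with `IsRoot.exists`), the values are integers. -/
theorem Mx.two_le (hM : Mx g y0 inv B) {y : I → ℤ} (hy : Matrix.diagonal (fun a => (y a : k)) ∈ g)
    (h2 : ∀ β, Simp g y0 f β → ∀ a b, y0 a - y0 b = β → y a - y b = 2) {c : k} (hc : Pos g y0 f c)
    {a b : I} (hab : y0 a - y0 b = c) : 2 ≤ y a - y b :=
  (hM.two_dvd hy h2 hc hab).1

end Pool.Agent.Lib.MP_021685_agZ
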