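import Pool.Agent.Lib.MP_021685_agZ.ZD
import Pool.Agent.Lib.MP_021685_agZ.ZF

/-! # ZG: the sum of the positive coroots -/

set_option autoImplicit false

namespace Pool.Agent.Lib.MP_021685_agZ

open Matrix Finset

variable {k : Type*} [Field k] [CharZero k] {I : Type*} [Fintype I] [DecidableEq I]
  {g : Submodule k (Matrix I I k)} {y0 : I → k} {inv : I → I} {B : Matrix I I k}

omit [CharZero k] [DecidableEq I] in
theorem cor_cases (y0 : I → k) (c : k) (a : I) :
    (cor y0 c a = 1 ∧ ∃ b, y0 a - y0 b = c) ∨ (cor y0 c a = -1 ∧ ∃ b, y0 b - y0 a = c) ∨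
      cor y0 c a = 0 := by
  classical
  unfold cor
  split_ifs with h1 h2
  · exact Or.inl ⟨rfl, h1⟩
  · exact Or.inr (Or.inl ⟨rfl, h2⟩)
  · exact Or.inr (Or.inr rfl)

variable {f : k →+ ℚ}

/-- If `c` is positive, `β` simple and `c - β` a root then `c - β` is positive. -/
theorem Mx.pos_of_sub (hM : Mx g y0 inv B) (hf : ∀ c, IsRoot g y0 c → f c ≠ 0) {β c : k}
    (hβ : Simp g y0 f β) (hc : Pos g y0 f c) (h : IsRoot g y0 (c - β)) : Pos g y0 f (c - β) := by
  rcases hM.pos_or_neg hf h with h1 | h1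
  · exact h1
  · exact absurd (by ring) (hβ.2 _ _ h1 hc)

/-- The weights under the reflection. -/
theorem Mx.weight_apply (hM : Mx g y0 inv B) {β : k} (hβ : IsRoot g y0 β) (a b : I) :
    y0 (refl y0 β a) - y0 (refl y0 β b) =
      y0 a - y0 b - (cor y0 β a - cor y0 β b : ℤ) • β := by
  obtain ⟨a₀, b₀, h0⟩ := hβ.exists
  have h1 := hM.apply_refl hβ.1 hM.y0g h0 a
  have h2 := hM.apply_refl hβ.1 hM.y0g h0 b
  rw [h1, h2, h0, zsmul_eq_mul]
  push_cast
  ring

/-- A simple reflection permutes the other positive roots.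
PROOF. `s = refl y0 β`. By `apply_refl` for `y0`: `y0 (s a) - y0 (s b) = (y0 a - y0 b) - β * (cor a - cor b)` with `cor = cor y0 β`;
it is a root by `isRoot_refl`. Let `m = cor a - cor b ∈ {-2, .., 2}`, `c = y0 a - y0 b`.
`m ≤ 0`: `f` of it is `f c + |m| f β > 0`.
`m = 1`: `c - β` is a root; if it was negative, `β = c + (β - c)` is a sum of two positive roots.
`m = 2`: `cor a = 1`, `cor b = -1`: `a' = s a` with `y0 a - y0 a' = β`, and `y0 b' - y0 b = β` for some `b'`. `c - β = y0 a' - y0 b`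
is a root by `isRoot_iff`: `a' ≠ b` as `c ≠ β`, and with `x` a root vector of `c`, `z` a root vector of `-β`, the entry of
`z x - x z` at `(a', b)` is `z a' a * x a b ≠ 0` (`full`; a non-zero entry `z e b` would give `y0 b - y0 e = β`,
`cor b = 1`). It is positive as in `m = 1`. Then `c - 2β = (c - β) - β` is a root (it is the reflected one), if it
was negative then `β = (c - β) + (2β - c)`. -/
theorem Mx.pos_refl (hM : Mx g y0 inv B) (hf : ∀ c, IsRoot g y0 c → f c ≠ 0) {β : k}
    (hβ : Simp g y0 f β) {a b : I} (hab : Pos g y0 f (y0 a - y0 b)) (hne : y0 a - y0 b ≠ β) :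
    Pos g y0 f (y0 (refl y0 β a) - y0 (refl y0 β b)) := by
  have hβR := hβ.1.1
  have hroot : IsRoot g y0 (y0 (refl y0 β a) - y0 (refl y0 β b)) :=
    (hM.isRoot_refl hβR).mp hab.1
  have hw := hM.weight_apply hβR a b
  rcases le_or_gt (cor y0 β a - cor y0 β b) 0 with h0 | h0
  · refine ⟨hroot, ?_⟩
    rw [hw, map_sub, map_zsmul, zsmul_eq_mul]
    have h1 : ((cor y0 β a - cor y0 β b : ℤ) : ℚ) ≤ 0 := by exact_mod_cast h0
    nlinarith [hab.2, hβ.1.2, mul_nonneg (neg_nonneg.mpr h1) hβ.1.2.le]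
  · have hm : cor y0 β a - cor y0 β b = 1 ∨ (cor y0 β a = 1 ∧ cor y0 β b = -1) := by
      rcases cor_cases y0 β a with ⟨h1, -⟩ | ⟨h1, -⟩ | h1 <;>
        rcases cor_cases y0 β b with ⟨h2, -⟩ | ⟨h2, -⟩ | h2 <;> rw [h1, h2] at h0 ⊢ <;> simp at h0 ⊢
    rcases hm with hm | ⟨ha, hb⟩
    · rw [hm, one_smul] at hw
      rw [hw] at hroot ⊢
      exact hM.pos_of_sub hf hβ hab hroot
    · have ha' : ∃ a', y0 a - y0 a' = β := by
        rcases cor_cases y0 β a with ⟨-, h2⟩ | ⟨h1, -⟩ | h1
        · exact h2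
        · rw [ha] at h1; omega
        · rw [ha] at h1; omega
      obtain ⟨a', ha'⟩ := ha'
      have hca : y0 a - y0 b - β = y0 a' - y0 b := by rw [← ha']; ring
      have hne' : a' ≠ b := by
        rintro rfl
        exact hne ha'
      have h1 : IsRoot g y0 (y0 a - y0 b - β) := by
        rw [hca, hM.isRoot_iff]
        refine ⟨hne', ?_⟩
        obtain ⟨x, hx, hx0⟩ := hab.1.2
        obtain ⟨z, hz, hz0⟩ := (hM.isRoot_neg hβR).2
        refine ⟨z * x - x * z, hM.lie z hz.1 x hx.1, ?_⟩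
        have h2 : (z * x) a' b = z a' a * x a b := by
          rw [Matrix.mul_apply]
          refine Finset.sum_eq_single a (fun e _ he => ?_) (fun h => absurd (Finset.mem_univ _) h)
          have h3 : z a' e = 0 := by
            by_contra h4
            refine he (hM.inj ?_)
            have h5 := hz.2 a' e h4
            linear_combination -h5 - ha'
          rw [h3, zero_mul]
        have h3 : (x * z) a' b = 0 := by
          rw [Matrix.mul_apply]
          refine Finset.sum_eq_zero fun e _ => ?_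
          have h3 : z e b = 0 := by
            by_contra h4
            have h5 := hz.2 e b h4
            have h6 := cor_left (y0 := y0) (c := β) (a := b) (b := e) (by linear_combination -h5)
            rw [hb] at h6
            omega
          rw [h3, mul_zero]
        rw [Matrix.sub_apply, h2, h3, sub_zero]
        refine mul_ne_zero (hM.full (neg_ne_zero.mpr hβR.1) hz hz0 ?_) (hM.full hab.1.1 hx hx0 rfl)
        rw [← ha']
        ring
      have h2 := hM.pos_of_sub hf hβ hab h1
      have h3 : y0 (refl y0 β a) - y0 (refl y0 β b) = y0 a - y0 b - β - β := by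
        rw [hw, ha, hb]
        norm_num
        ring
      rw [h3] at hroot ⊢
      exact hM.pos_of_sub hf hβ h2 hroot

open Classical in
/-- The action of a reflection on the weights. -/
noncomputable def wr (y0 : I → k) (β c : k) : k :=
  if h : ∃ p : I × I, y0 p.1 - y0 p.2 = c then
    y0 (refl y0 β h.choose.1) - y0 (refl y0 β h.choose.2) else c

theorem Mx.wr_eq (hM : Mx g y0 inv B) {β : k} (hβ : IsRoot g y0 β) {c : k} {a b : I}
    (hab : y0 a - y0 b = c) : wr y0 β c = y0 (refl y0 β a) - y0 (refl y0 β b) := by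
  have h : ∃ p : I × I, y0 p.1 - y0 p.2 = c := ⟨(a, b), hab⟩
  unfold wr
  rw [dif_pos h]
  exact (hM.weight_refl hβ _ _ _ _).mp (h.choose_spec.trans hab.symm)

theorem Mx.wr_wr (hM : Mx g y0 inv B) {β : k} (hβ : IsRoot g y0 β) {c : k} {a b : I}
    (hab : y0 a - y0 b = c) : wr y0 β (wr y0 β c) = c := by
  rw [hM.wr_eq hβ hab, hM.wr_eq hβ rfl, hM.refl_refl hβ.1, hM.refl_refl hβ.1, hab]

/-- The sum `Y` of the positive coroots has the value `2` on the simple roots.
PROOF. `s = refl y0 β` acts on the set of the weights by `y0 a - y0 b ↦ y0 (s a) - y0 (s b)` (well defined by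
`weight_refl`), it maps `posR \ {β}` bijectively to itself (`pos_refl`, `refl_refl`; note that `β` goes to `-β`), so by
`cor_refl` `∑_{c ∈ posR \ {β}} cor c (s e) = ∑_{c ∈ posR \ {β}} cor c e`, and `cor β (s e) = - cor β e`. Hence
`Y (s e) = Y e - 2 cor β e`; for `e = a`: `s a = b`, `cor β a = 1`. -/
theorem Mx.Y_simple (hM : Mx g y0 inv B) (hf : ∀ c, IsRoot g y0 c → f c ≠ 0) {β : k}
    (hβ : Simp g y0 f β) {a b : I} (hab : y0 a - y0 b = β) : Ysum g y0 f a - Ysum g y0 f b = 2 := by
  classical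
  have hβR := hβ.1.1
  have hmem : β ∈ posR g y0 f := mem_posR.mpr hβ.1
  have hsab : refl y0 β a = b := hM.refl_left hab
  have hsba : refl y0 β b = a := hM.refl_right hβR.1 hab
  have hmaps : ∀ c ∈ (posR g y0 f).erase β, wr y0 β c ∈ (posR g y0 f).erase β := by
    intro c hc
    obtain ⟨hne, hc'⟩ := Finset.mem_erase.mp hc
    rw [mem_posR] at hc'
    obtain ⟨a', b', rfl⟩ := hc'.1.exists
    rw [hM.wr_eq hβR rfl]
    refine Finset.mem_erase.mpr ⟨fun h => ?_, mem_posR.mpr (hM.pos_refl hf hβ hc' hne)⟩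
    have h1 := hM.wr_wr hβR (c := y0 a' - y0 b') rfl
    rw [hM.wr_eq hβR (c := y0 a' - y0 b') rfl, h, hM.wr_eq hβR hab, hsab, hsba] at h1
    have h2 : y0 a' - y0 b' = -β := by rw [← h1, ← hab]; ring
    have h3 := hc'.2
    rw [h2, map_neg] at h3
    linarith [hβ.1.2]
  have hinvol : ∀ c ∈ (posR g y0 f).erase β, wr y0 β (wr y0 β c) = c := by
    intro c hc
    obtain ⟨a', b', h⟩ := (mem_posR.mp (Finset.mem_of_mem_erase hc)).1.exists
    exact hM.wr_wr hβR h
  have key : ∑ c ∈ (posR g y0 f).erase β, cor y0 c a = ∑ c ∈ (posR g y0 f).erase β, cor y0 c b := by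
    refine Finset.sum_nbij' (wr y0 β) (wr y0 β) hmaps hmaps hinvol hinvol fun c hc => ?_
    obtain ⟨a', b', h⟩ := (mem_posR.mp (Finset.mem_of_mem_erase hc)).1.exists
    rw [hM.wr_eq hβR h, ← h, ← hM.cor_refl hβR a' b' a, hsab]
  unfold Ysum
  rw [← Finset.add_sum_erase _ _ hmem, ← Finset.add_sum_erase _ (fun c => cor y0 c b) hmem, key,
    cor_left hab, hM.cor_right hβR.1 hab]
  ring

/-- PROOF. `cor_mem`, sums. -/
theorem Mx.Y_mem (hM : Mx g y0 inv B) : Matrix.diagonal (fun a => (Ysum g y0 f a : k)) ∈ g := by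
  have h1 : Matrix.diagonal (fun a => (Ysum g y0 f a : k)) =
      ∑ c ∈ posR g y0 f, Matrix.diagonal (fun a => (cor y0 c a : k)) := by
    ext a b
    rw [Matrix.sum_apply]
    unfold Ysum
    by_cases hab : a = b
    · subst hab
      simp only [Matrix.diagonal_apply_eq]
      push_cast
      rfl
    · simp only [Matrix.diagonal_apply_ne _ hab, Finset.sum_const_zero]
  rw [h1]
  exact Submodule.sum_mem _ fun c hc => hM.cor_mem (mem_posR.mp hc).1

end Pool.Agent.Lib.MP_021685_agZ
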