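import Pool.Agent.Lib.MP_021685_agZ.ZF

/-! # ZH: the coroots are spanned by the simple coroots -/

set_option autoImplicit false

namespace Pool.Agent.Lib.MP_021685_agZ

open Matrix Finset

variable {k : Type*} [Field k] [CharZero k] {I : Type*} [Fintype I] [DecidableEq I]
  {g : Submodule k (Matrix I I k)} {y0 : I → k} {inv : I → I} {B : Matrix I I k}

variable {f : k →+ ℚ}

open Classical in
/-- The coroot as a sum over the places of weight `c`. -/
theorem Mx.cor_eq (hM : Mx g y0 inv B) {c : k} (hc : c ≠ 0) (e : I) :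
    (cor y0 c e : k) = (∑ b : I, if y0 e - y0 b = c then (1 : k) else 0)
      - ∑ b : I, if y0 b - y0 e = c then (1 : k) else 0 := by
  have h1 : (∑ b : I, if y0 e - y0 b = c then (1 : k) else 0) = if ∃ b, y0 e - y0 b = c then 1 else 0 := by
    by_cases h : ∃ b, y0 e - y0 b = c
    · rw [if_pos h]
      obtain ⟨b₀, hb₀⟩ := h
      rw [Finset.sum_eq_single b₀]
      · rw [if_pos hb₀]
      · intro b _ hb
        rw [if_neg]
        intro h'
        exact hb (hM.inj (by linear_combination hb₀ - h'))
      · intro h'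
        exact absurd (Finset.mem_univ _) h'
    · rw [if_neg h]
      exact Finset.sum_eq_zero fun b _ => if_neg fun hb => h ⟨b, hb⟩
  have h2 : (∑ b : I, if y0 b - y0 e = c then (1 : k) else 0) = if ∃ b, y0 b - y0 e = c then 1 else 0 := by
    by_cases h : ∃ b, y0 b - y0 e = c
    · rw [if_pos h]
      obtain ⟨b₀, hb₀⟩ := h
      rw [Finset.sum_eq_single b₀]
      · rw [if_pos hb₀]
      · intro b _ hb
        rw [if_neg]
        intro h'
        exact hb (hM.inj (by linear_combination h' - hb₀))
      · intro h'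
        exact absurd (Finset.mem_univ _) h'
    · rw [if_neg h]
      exact Finset.sum_eq_zero fun b _ => if_neg fun hb => h ⟨b, hb⟩
  rw [h1, h2]
  unfold cor
  by_cases h : ∃ b, y0 e - y0 b = c
  · by_cases h' : ∃ b, y0 b - y0 e = c
    · obtain ⟨b, hb⟩ := h
      obtain ⟨b', hb'⟩ := h'
      exact (hM.chain hc hb' hb).elim
    · rw [if_pos h, if_pos h, if_neg h']
      simp
  · by_cases h' : ∃ b, y0 b - y0 e = c
    · rw [if_neg h, if_neg h, if_pos h', if_pos h']
      simp
    · rw [if_neg h, if_neg h, if_neg h', if_neg h']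
      simp

open Classical in
theorem Mx.sum_mul_cor (hM : Mx g y0 inv B) {c : k} (hc : c ≠ 0) (y : I → k) :
    ∑ e, y e * (cor y0 c e : k)
      = ∑ e : I, ∑ b : I, if y0 e - y0 b = c then y e - y b else 0 := by
  have h1 : ∀ e : I, y e * (cor y0 c e : k) = (∑ b : I, if y0 e - y0 b = c then y e else 0)
      - ∑ b : I, if y0 b - y0 e = c then y e else 0 := by
    intro e
    rw [hM.cor_eq hc e, mul_sub, Finset.mul_sum, Finset.mul_sum]
    simp only [mul_ite, mul_one, mul_zero]
  rw [Finset.sum_congr rfl fun e _ => h1 e, Finset.sum_sub_distrib,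
    Finset.sum_comm (f := fun e b => if y0 b - y0 e = c then y e else 0), ← Finset.sum_sub_distrib]
  refine Finset.sum_congr rfl fun e _ => ?_
  rw [← Finset.sum_sub_distrib]
  refine Finset.sum_congr rfl fun b _ => ?_
  by_cases h : y0 e - y0 b = c
  · rw [if_pos h, if_pos h, if_pos h]
  · rw [if_neg h, if_neg h, if_neg h, sub_zero]

/-- The sum of the entries of a coroot is zero. -/
theorem Mx.sum_cor_zero (hM : Mx g y0 inv B) {c : k} (hc : c ≠ 0) : ∑ e, (cor y0 c e : k) = 0 := by
  classical
  have h := hM.sum_mul_cor hc (fun _ => (1 : k))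
  simp only [one_mul, sub_self, ite_self, Finset.sum_const_zero] at h
  exact h

/-- The trace of a coroot with a diagonal element. -/
theorem Mx.sum_cor (hM : Mx g y0 inv B) {c : k} (hc : c ≠ 0) {y : I → k} (hy : Matrix.diagonal y ∈ g)
    {a b : I} (hab : y0 a - y0 b = c) [DecidablePred fun a : I => ∃ b, y0 a - y0 b = c] :
    ∑ e, y e * (cor y0 c e : k) = ((univ.filter fun a : I => ∃ b, y0 a - y0 b = c).card : k) * (y a - y b) := by
  classical
  have h1 : ∀ e b' : I, y0 e - y0 b' = c → y e - y b' = y a - y b := by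
    intro e b' h
    have := hM.reg e b' a a a b (by rw [h, hab, sub_self, add_zero]) y hy
    rwa [sub_self, add_zero] at this
  rw [hM.sum_mul_cor hc y, Finset.card_filter, Nat.cast_sum, Finset.sum_mul]
  refine Finset.sum_congr rfl fun e _ => ?_
  by_cases h : ∃ b, y0 e - y0 b = c
  · rw [if_pos h]
    obtain ⟨b₀, hb₀⟩ := h
    rw [Finset.sum_eq_single b₀]
    · rw [if_pos hb₀, h1 e b₀ hb₀, Nat.cast_one, one_mul]
    · intro b' _ hb'
      rw [if_neg]
      intro h'
      exact hb' (hM.inj (by linear_combination hb₀ - h'))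
    · intro h'
      exact absurd (Finset.mem_univ _) h'
  · rw [if_neg h, Nat.cast_zero, zero_mul]
    exact Finset.sum_eq_zero fun b' _ => if_neg fun hb => h ⟨b', hb⟩

/-- A diagonal element of `g` which is orthogonal to the simple coroots is scalar. -/
theorem Mx.scalar_of_orth (hM : Mx g y0 inv B) (hf : ∀ c, IsRoot g y0 c → f c ≠ 0) {y : I → k}
    (hy : Matrix.diagonal y ∈ g) (h : ∀ β, Simp g y0 f β → ∑ e, y e * (cor y0 β e : k) = 0) (a b : I) :
    y a = y b := by
  classical
  have hpos : ∀ c, Pos g y0 f c → ∀ a b, y0 a - y0 b = c → y a = y b := by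
    refine pos_induction (P := fun c => ∀ a b, y0 a - y0 b = c → y a = y b) ?_ ?_
    · intro c hc a b hab
      have h1 := hM.sum_cor hc.1.1.1 hy hab
      rw [h c hc] at h1
      have h2 : ((univ.filter fun a : I => ∃ b, y0 a - y0 b = c).card : k) ≠ 0 := by
        rw [Nat.cast_ne_zero, Finset.card_ne_zero]
        exact ⟨a, by rw [Finset.mem_filter]; exact ⟨Finset.mem_univ _, b, hab⟩⟩
      rcases mul_eq_zero.1 h1.symm with h3 | h3
      · exact absurd h3 h2
      · exact sub_eq_zero.1 h3
    · intro c₁ c₂ h1 h2 _ ih1 ih2 a b hab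
      obtain ⟨a₁, b₁, hab₁⟩ := h1.1.exists
      obtain ⟨a₂, b₂, hab₂⟩ := h2.1.exists
      have h3 := hM.reg a₁ b₁ a₂ b₂ a b (by rw [hab₁, hab₂, hab]) y hy
      rw [ih1 a₁ b₁ hab₁, ih2 a₂ b₂ hab₂, sub_self, sub_self, add_zero] at h3
      exact sub_eq_zero.1 h3.symm
  have hroot : ∀ a b, IsRoot g y0 (y0 a - y0 b) → y a = y b := by
    intro a b hab
    rcases lt_or_gt_of_ne (hf _ hab) with h1 | h1
    · refine (hpos (-(y0 a - y0 b)) ⟨hM.isRoot_neg hab, ?_⟩ b a (by rw [neg_sub])).symm
      rw [map_neg]
      exact neg_pos.2 h1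
    · exact hpos _ ⟨hab, h1⟩ a b rfl
  let U : Submodule k (I → k) :=
    { carrier := {v | ∀ e, y e ≠ y a → v e = 0}
      add_mem' := fun {u v} hu hv e he => by rw [Pi.add_apply, hu e he, hv e he, add_zero]
      zero_mem' := fun e _ => rfl
      smul_mem' := fun s u hu e he => by rw [Pi.smul_apply, hu e he, smul_zero] }
  have hU : ∀ X ∈ g, ∀ u ∈ U, X.mulVec u ∈ U := by
    intro X hX u hu e he
    rw [Matrix.mulVec, dotProduct]
    refine Finset.sum_eq_zero fun l _ => ?_
    by_contra h0
    have h1 : X e l ≠ 0 := left_ne_zero_of_mul h0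
    have h2 : u l ≠ 0 := right_ne_zero_of_mul h0
    have h3 : y l = y a := by
      by_contra h3
      exact h2 (hu l h3)
    have h4 : e ≠ l := by
      rintro rfl
      exact he h3
    exact he ((hroot e l (hM.isRoot_iff.2 ⟨h4, X, hX, h1⟩)).trans h3)
  have h1 : Pi.single a (1 : k) ∈ U := by
    intro e he
    rw [Pi.single_apply, if_neg]
    rintro rfl
    exact he rfl
  rcases hM.irr U hU with h2 | h2
  · rw [h2, Submodule.mem_bot] at h1
    have := congrFun h1 a
    rw [Pi.single_eq_same, Pi.zero_apply] at this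
    exact absurd this one_ne_zero
  · by_contra hne
    have h3 : Pi.single b (1 : k) ∈ U := by rw [h2]; exact Submodule.mem_top
    have := h3 b (fun h => hne h.symm)
    rw [Pi.single_eq_same] at this
    exact one_ne_zero this

/-- Every coroot is in the span of the simple coroots. -/
theorem Mx.cor_mem_span (hM : Mx g y0 inv B) (hf : ∀ c, IsRoot g y0 c → f c ≠ 0) {c : k}
    (hc : IsRoot g y0 c) :
    (fun e => (cor y0 c e : k)) ∈ Submodule.span k {t | ∃ β, Simp g y0 f β ∧ t = fun e => (cor y0 β e : k)} := by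
  classical
  set U : Submodule k (I → k) :=
    Submodule.span k {t | ∃ β, Simp g y0 f β ∧ t = fun e => (cor y0 β e : k)} with hU
  set T : Submodule k (I → k) :=
    Submodule.span k {t | ∃ β, IsRoot g y0 β ∧ t = fun e => (cor y0 β e : k)} with hT
  have hUT : U ≤ T := Submodule.span_mono (by
    rintro t ⟨β, hβ, rfl⟩
    exact ⟨β, hβ.1.1, rfl⟩)
  have hTg : ∀ t ∈ T, Matrix.diagonal t ∈ g := by
    intro t ht
    induction ht using Submodule.span_induction with
    | mem t ht =>
      obtain ⟨β, hβ, rfl⟩ := ht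
      exact hM.cor_mem hβ
    | zero =>
      rw [Matrix.diagonal_zero']
      exact g.zero_mem
    | add s t _ _ hs ht =>
      have h1 : Matrix.diagonal (s + t) = Matrix.diagonal s + Matrix.diagonal t :=
        (Matrix.diagonal_add s t).symm
      rw [h1]
      exact g.add_mem hs ht
    | smul r t _ ht =>
      rw [Matrix.diagonal_smul]
      exact g.smul_mem r ht
  have hT0 : ∀ t ∈ T, ∑ e, t e = 0 := by
    intro t ht
    induction ht using Submodule.span_induction with
    | mem t ht =>
      obtain ⟨β, hβ, rfl⟩ := ht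
      exact hM.sum_cor_zero hβ.1
    | zero => simp
    | add s t _ _ hs ht =>
      simp only [Pi.add_apply, Finset.sum_add_distrib, hs, ht, add_zero]
    | smul r t _ ht =>
      simp only [Pi.smul_apply, smul_eq_mul, ← Finset.mul_sum, ht, mul_zero]
  let L : T →ₗ[k] Module.Dual k U :=
    { toFun := fun t =>
        { toFun := fun u => ∑ e, (t : I → k) e * (u : I → k) e
          map_add' := fun u v => by
            simp only [Submodule.coe_add, Pi.add_apply, mul_add, Finset.sum_add_distrib]
          map_smul' := fun r u => by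
            simp only [Submodule.coe_smul, Pi.smul_apply, smul_eq_mul, RingHom.id_apply,
              Finset.mul_sum]
            exact Finset.sum_congr rfl fun e _ => by ring }
      map_add' := fun s t => by
        ext u
        simp only [Submodule.coe_add, Pi.add_apply, add_mul, Finset.sum_add_distrib,
          LinearMap.coe_mk, AddHom.coe_mk, LinearMap.add_apply]
      map_smul' := fun r t => by
        ext u
        simp only [Submodule.coe_smul, Pi.smul_apply, smul_eq_mul, RingHom.id_apply,
          LinearMap.coe_mk, AddHom.coe_mk, LinearMap.smul_apply, Finset.mul_sum]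
        exact Finset.sum_congr rfl fun e _ => by ring }
  have hL : Function.Injective L := by
    rw [injective_iff_map_eq_zero]
    rintro ⟨t, ht⟩ h
    have h1 : ∀ β, Simp g y0 f β → ∑ e, t e * (cor y0 β e : k) = 0 := fun β hβ =>
      LinearMap.congr_fun h ⟨_, Submodule.subset_span ⟨β, hβ, rfl⟩⟩
    have h2 := fun a b => hM.scalar_of_orth hf (hTg t ht) h1 a b
    refine Subtype.ext (funext fun a => ?_)
    have h3 := hT0 t ht
    rw [Finset.sum_congr rfl fun e _ => h2 e a, Finset.sum_const, nsmul_eq_mul] at h3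
    rcases mul_eq_zero.1 h3 with h4 | h4
    · rw [Nat.cast_eq_zero, Finset.card_eq_zero] at h4
      exact absurd (Finset.mem_univ a) (by rw [h4]; exact Finset.notMem_empty _)
    · exact h4
  have h1 := LinearMap.finrank_le_finrank_of_injective hL
  rw [Subspace.dual_finrank_eq] at h1
  have h2 : U = T := Submodule.eq_of_le_of_finrank_le hUT h1
  rw [h2]
  exact Submodule.subset_span ⟨c, hc, rfl⟩

end Pool.Agent.Lib.MP_021685_agZ
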