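import Pool.Agent.Lib.MP_021685_agZ.ZG
import Pool.Agent.Lib.MP_021685_agZ.ZH

/-! # ZI: the principal sl_2 -/

set_option autoImplicit false

namespace Pool.Agent.Lib.MP_021685_agZ

open Matrix Finset

variable {k : Type*} [Field k] [CharZero k] {I : Type*} [Fintype I] [DecidableEq I]
  {g : Submodule k (Matrix I I k)} {y0 : I → k} {inv : I → I} {B : Matrix I I k}

variable {f : k →+ ℚ}

omit [CharZero k] [DecidableEq I] in
theorem comm_mem_gc (lie : ∀ X ∈ g, ∀ Y ∈ g, X * Y - Y * X ∈ g) {c d : k} {x z : Matrix I I k}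
    (hx : x ∈ gc g y0 c) (hz : z ∈ gc g y0 d) : x * z - z * x ∈ gc g y0 (c + d) := by
  refine ⟨lie x hx.1 z hz.1, fun a b hab => ?_⟩
  rw [Matrix.sub_apply] at hab
  by_cases h : (x * z) a b = 0
  · rw [h, zero_sub, neg_ne_zero, Matrix.mul_apply] at hab
    obtain ⟨m, -, hm⟩ := Finset.exists_ne_zero_of_sum_ne_zero hab
    have h1 := hz.2 a m (left_ne_zero_of_mul hm)
    have h2 := hx.2 m b (right_ne_zero_of_mul hm)
    linear_combination h1 + h2
  · rw [Matrix.mul_apply] at h
    obtain ⟨m, -, hm⟩ := Finset.exists_ne_zero_of_sum_ne_zero h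
    have h1 := hx.2 a m (left_ne_zero_of_mul hm)
    have h2 := hz.2 m b (right_ne_zero_of_mul hm)
    linear_combination h1 + h2

/-- The principal triple. PROOF. For each simple `β` choose `x β, z β` with `exists_pair`. By `cor_mem_span` (summed over
`posR`) `Y = ∑_{β simple} s β • cor β` (simple roots are in the finite set `posR`; `Submodule.mem_span_...`,
`Finsupp` or `mem_span_finset`). `E = ∑ s β • x β`, `N = ∑ z β`. For simple `β ≠ β'` `x β * z β' - z β' * x β` is in
`gc g y0 (β - β')`, and `β - β' ≠ 0` is not a root (`simp_sub`), so it is zero. The entries of `N` are at the places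
of weight `-β`. -/
theorem Mx.exists_triple (hM : Mx g y0 inv B) (hf : ∀ c, IsRoot g y0 c → f c ≠ 0) :
    ∃ E ∈ g, ∃ N ∈ g, (∀ a b, E a b ≠ 0 → Simp g y0 f (y0 a - y0 b)) ∧
      (∀ a b, N a b ≠ 0 → Simp g y0 f (y0 b - y0 a)) ∧
      E * N - N * E = Matrix.diagonal (fun a => (Ysum g y0 f a : k)) := by
  classical
  have hch : ∀ β : k, ∃ p : Matrix I I k × Matrix I I k, Simp g y0 f β →
      p.1 ∈ gc g y0 β ∧ p.2 ∈ gc g y0 (-β) ∧
        p.1 * p.2 - p.2 * p.1 = Matrix.diagonal (fun a => (cor y0 β a : k)) := by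
    intro β
    by_cases hβ : Simp g y0 f β
    · obtain ⟨x, hx, z, hz, -, -, -, -, h⟩ := hM.exists_pair hβ.1.1
      exact ⟨(x, z), fun _ => ⟨hx, hz, h⟩⟩
    · exact ⟨(0, 0), fun h => absurd h hβ⟩
  choose p hp using hch
  set S : Finset k := (posR g y0 f).filter fun β => Simp g y0 f β with hS
  have hSm : ∀ β, β ∈ S ↔ Simp g y0 f β := by
    intro β
    rw [hS, Finset.mem_filter, mem_posR]
    exact ⟨fun h => h.2, fun h => ⟨h.1, h⟩⟩
  set N : Matrix I I k := ∑ β ∈ S, (p β).2 with hN
  have hNg : N ∈ g := g.sum_mem fun β hβ => (hp β ((hSm β).1 hβ)).2.1.1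
  have hNe : ∀ a b, N a b ≠ 0 → Simp g y0 f (y0 b - y0 a) := by
    intro a b hab
    rw [hN, Matrix.sum_apply] at hab
    obtain ⟨β, hβ, hβ0⟩ := Finset.exists_ne_zero_of_sum_ne_zero hab
    have hs := (hSm β).1 hβ
    have h1 := (hp β hs).2.1.2 a b hβ0
    rwa [show y0 b - y0 a = β by linear_combination -h1]
  -- the commutators of the simple root vectors
  have hcomm : ∀ β, Simp g y0 f β →
      (p β).1 * N - N * (p β).1 = Matrix.diagonal (fun a => (cor y0 β a : k)) := by
    intro β hβ
    rw [hN, Finset.mul_sum, Finset.sum_mul, ← Finset.sum_sub_distrib,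
      Finset.sum_eq_single β]
    · exact (hp β hβ).2.2
    · intro β' hβ' hne
      have hs := (hSm β').1 hβ'
      have h1 := comm_mem_gc hM.lie (hp β hβ).1 (hp β' hs).2.1
      by_contra h0
      refine hM.simp_sub hf hβ hs ⟨sub_ne_zero.2 hne.symm, _, ?_, h0⟩
      rwa [sub_eq_add_neg]
    · intro h
      exact absurd ((hSm β).2 hβ) h
  have key : ∀ t ∈ Submodule.span k {t : I → k | ∃ β, Simp g y0 f β ∧ t = fun e => (cor y0 β e : k)},
      ∃ E ∈ g, (∀ a b, E a b ≠ 0 → Simp g y0 f (y0 a - y0 b)) ∧ E * N - N * E = Matrix.diagonal t := by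
    intro t ht
    induction ht using Submodule.span_induction with
    | mem t ht =>
      obtain ⟨β, hβ, rfl⟩ := ht
      refine ⟨(p β).1, (hp β hβ).1.1, fun a b hab => ?_, hcomm β hβ⟩
      rwa [(hp β hβ).1.2 a b hab]
    | zero =>
      refine ⟨0, g.zero_mem, fun a b hab => absurd rfl hab, ?_⟩
      rw [zero_mul, mul_zero, sub_zero]
      ext a b
      simp [Matrix.diagonal_apply]
    | add t u _ _ ht hu =>
      obtain ⟨E, hE, h1, h2⟩ := ht
      obtain ⟨E', hE', h1', h2'⟩ := hu
      refine ⟨E + E', g.add_mem hE hE', fun a b hab => ?_, ?_⟩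
      · rw [Matrix.add_apply] at hab
        by_cases h : E a b = 0
        · rw [h, zero_add] at hab
          exact h1' a b hab
        · exact h1 a b h
      · rw [show (E + E') * N - N * (E + E') = (E * N - N * E) + (E' * N - N * E') by noncomm_ring,
          h2, h2', Matrix.diagonal_add]
        rfl
    | smul s t _ ht =>
      obtain ⟨E, hE, h1, h2⟩ := ht
      refine ⟨s • E, g.smul_mem s hE, fun a b hab => ?_, ?_⟩
      · rw [Matrix.smul_apply] at hab
        exact h1 a b (right_ne_zero_of_smul hab)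
      · rw [smul_mul_assoc, mul_smul_comm, ← smul_sub, h2]
        ext a b
        simp [Matrix.diagonal_apply]
  have hY : (fun a => (Ysum g y0 f a : k)) ∈
      Submodule.span k {t : I → k | ∃ β, Simp g y0 f β ∧ t = fun e => (cor y0 β e : k)} := by
    have e : (fun a => (Ysum g y0 f a : k)) = ∑ c ∈ posR g y0 f, fun e => (cor y0 c e : k) := by
      funext a
      rw [Finset.sum_apply, Ysum]
      push_cast
      rfl
    rw [e]
    exact Submodule.sum_mem _ fun c hc => hM.cor_mem_span hf ((mem_posR.1 hc).1)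
  obtain ⟨E, hE, h1, h2⟩ := key _ hY
  exact ⟨E, hE, N, hNg, h1, hNe, h2⟩

omit [Fintype I] [DecidableEq I] in
/-- The standard computation. PROOF. `E (N ^ (n+1) v) = (n + 1) (m - n) N ^ n v` by induction; so if `N ^ n v ≠ 0`, `n < m`, then
`N ^ (n + 1) v ≠ 0`. (Here `H v = m v`, `[H, N] = -2 N`, `[E, N] = H`, `E v = 0`.) -/
theorem sl2_pow {V : Type*} [AddCommGroup V] [Module k V] {E N H : Module.End k V} {v : V} {m : ℕ}
    (hEN : E * N - N * E = H) (hHN : H * N - N * H = (-2 : k) • N) (hE : E v = 0) (hv : v ≠ 0)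
    (hm : H v = (m : k) • v) : ∀ n ≤ m, (N ^ n) v ≠ 0 := by
  have hEN' : ∀ w, E (N w) = N (E w) + H w := by
    intro w
    have := LinearMap.congr_fun hEN w
    rw [LinearMap.sub_apply, Module.End.mul_apply, Module.End.mul_apply] at this
    rw [← this]
    abel
  have hHN' : ∀ w, H (N w) = N (H w) - (2 : k) • N w := by
    intro w
    have := LinearMap.congr_fun hHN w
    rw [LinearMap.sub_apply, Module.End.mul_apply, Module.End.mul_apply, LinearMap.smul_apply] at this
    rw [sub_eq_iff_eq_add] at this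
    rw [this, neg_smul]
    abel
  have hHv : ∀ n : ℕ, H ((N ^ n) v) = ((m : k) - 2 * n) • (N ^ n) v := by
    intro n
    induction n with
    | zero => simpa using hm
    | succ n ih =>
      rw [pow_succ', Module.End.mul_apply, hHN', ih, map_smul, ← sub_smul]
      congr 1
      push_cast
      ring
  have hEv : ∀ n : ℕ, E ((N ^ (n + 1)) v) = (((n : k) + 1) * ((m : k) - n)) • (N ^ n) v := by
    intro n
    induction n with
    | zero =>
      rw [zero_add, pow_one, hEN', hE, map_zero, zero_add, hm, pow_zero, Module.End.one_apply]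
      congr 1
      push_cast
      ring
    | succ n ih =>
      rw [pow_succ', Module.End.mul_apply, hEN', ih, map_smul, hHv, pow_succ' N n,
        Module.End.mul_apply, ← add_smul]
      congr 1
      push_cast
      ring
  intro n
  induction n with
  | zero =>
    intro _
    simpa using hv
  | succ n ih =>
    intro hn h0
    have h1 := hEv n
    rw [h0, map_zero] at h1
    rcases smul_eq_zero.1 h1.symm with h2 | h2
    · rcases mul_eq_zero.1 h2 with h3 | h3
      · exact absurd h3 (by exact_mod_cast Nat.succ_ne_zero n)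
      · have h4 : (m : k) = (n : k) := sub_eq_zero.1 h3
        have h5 : m = n := by exact_mod_cast h4
        omega
    · exact ih (by omega) h2

end Pool.Agent.Lib.MP_021685_agZ
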