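import Pool.Agent.Lib.MP_021685_agZ.ZG

/-! # ZJ: the top weight has multiplicity one -/

set_option autoImplicit false

namespace Pool.Agent.Lib.MP_021685_agZ

open Matrix Finset

variable {k : Type*} [Field k] [CharZero k] {I : Type*} [Fintype I] [DecidableEq I]
  {g : Submodule k (Matrix I I k)} {y0 : I → k} {inv : I → I} {B : Matrix I I k}

variable {f : k →+ ℚ}

/-- A top index is killed by the positive root vectors.
PROOF. `two_le` (with `Y_simple`, `Y_mem`): a non-zero entry `x a a₀` gives `Y a - Y a₀ ≥ 2`. -/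
theorem Mx.top_kill (hM : Mx g y0 inv B) (hf : ∀ c, IsRoot g y0 c → f c ≠ 0) {a₀ : I}
    (hmax : ∀ e, Ysum g y0 f e ≤ Ysum g y0 f a₀) {c : k} (hc : Pos g y0 f c) {a : I} :
    y0 a - y0 a₀ ≠ c := by
  intro h
  have h1 := hM.two_le (hM.Y_mem (f := f)) (fun β hβ a b hab => hM.Y_simple hf hβ hab) hc h
  have h2 := hmax a
  omega

open Classical in
/-- The part of `X` of weight `c`. -/
noncomputable def part (y0 : I → k) (X : Matrix I I k) (c : k) : Matrix I I k :=
  Matrix.of fun a b => if y0 a - y0 b = c then X a b else 0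

theorem Mx.part_mem (hM : Mx g y0 inv B) {X : Matrix I I k} (hX : X ∈ g) (c : k) :
    part y0 X c ∈ gc g y0 c := by
  classical
  refine ⟨proj_mem hM.lie hM.y0g hX c, fun a b hab => ?_⟩
  by_contra h
  apply hab
  unfold part
  rw [Matrix.of_apply, if_neg h]

omit [CharZero k] in
/-- A matrix is the sum of its parts. -/
theorem sum_part [DecidableEq k] (y0 : I → k) (X : Matrix I I k) :
    ∑ c ∈ univ.image (fun p : I × I => y0 p.1 - y0 p.2), part y0 X c = X := by
  ext a b
  rw [Matrix.sum_apply, Finset.sum_eq_single (y0 a - y0 b)]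
  · unfold part
    rw [Matrix.of_apply, if_pos rfl]
  · intro c _ hc
    unfold part
    rw [Matrix.of_apply, if_neg (Ne.symm hc)]
  · intro h
    exact absurd (Finset.mem_image.mpr ⟨(a, b), Finset.mem_univ _, rfl⟩) h

/-- The vectors obtained from the top basis vector by the negative root vectors. -/
inductive Word (g : Submodule k (Matrix I I k)) (y0 : I → k) (f : k →+ ℚ) (a₀ : I) : (I → k) → Prop
  | base : Word g y0 f a₀ (Pi.single a₀ 1)
  | step {c : k} {x : Matrix I I k} {w : I → k} : Pos g y0 f c → x ∈ gc g y0 (-c) →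
      Word g y0 f a₀ w → Word g y0 f a₀ (x.mulVec w)

omit [CharZero k] in
/-- The span of the words is stable under the negative root vectors. -/
theorem word_stable {a₀ : I} {c : k} {x : Matrix I I k} (hc : Pos g y0 f c) (hx : x ∈ gc g y0 (-c))
    {u : I → k} (hu : u ∈ Submodule.span k {w | Word g y0 f a₀ w}) :
    x.mulVec u ∈ Submodule.span k {w | Word g y0 f a₀ w} := by
  have h1 : Submodule.span k {w | Word g y0 f a₀ w} ≤
      (Submodule.span k {w | Word g y0 f a₀ w}).comap x.mulVecLin := by
    rw [Submodule.span_le]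
    intro w hw
    exact Submodule.subset_span (Word.step hc hx hw)
  exact h1 hu

/-- The span of the words is stable under `g`. -/
theorem Mx.word_mem (hM : Mx g y0 inv B) (hf : ∀ c, IsRoot g y0 c → f c ≠ 0) {a₀ : I}
    (hmax : ∀ e, Ysum g y0 f e ≤ Ysum g y0 f a₀) {w : I → k} (hw : Word g y0 f a₀ w) :
    ∀ X ∈ g, X.mulVec w ∈ Submodule.span k {w | Word g y0 f a₀ w} := by
  classical
  induction hw with
  | base =>
    intro X hX
    rw [← sum_part y0 X, Matrix.sum_mulVec]
    refine Submodule.sum_mem _ fun c _ => ?_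
    have hp := hM.part_mem hX c
    by_cases h0 : part y0 X c = 0
    · rw [h0, Matrix.zero_mulVec]
      exact Submodule.zero_mem _
    by_cases hc : c = 0
    · have h1 : (part y0 X c).mulVec (Pi.single a₀ 1) =
          (part y0 X c a₀ a₀) • (Pi.single a₀ 1 : I → k) := by
        funext a
        rw [Matrix.mulVec_single_one, Matrix.col_apply, Pi.smul_apply, smul_eq_mul]
        by_cases ha : a = a₀
        · subst ha
          rw [Pi.single_eq_same, mul_one]
        · rw [Pi.single_eq_of_ne ha, mul_zero]
          by_contra h2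
          exact ha (hM.inj (sub_eq_zero.mp ((hp.2 a a₀ h2).trans hc)))
      rw [h1]
      exact Submodule.smul_mem _ _ (Submodule.subset_span Word.base)
    · have hR : IsRoot g y0 c := ⟨hc, _, hp, h0⟩
      rcases hM.pos_or_neg hf hR with h1 | h1
      · have h2 : (part y0 X c).mulVec (Pi.single a₀ 1) = 0 := by
          funext a
          rw [Matrix.mulVec_single_one, Matrix.col_apply, Pi.zero_apply]
          by_contra h3
          exact hM.top_kill hf hmax h1 (hp.2 a a₀ h3)
        rw [h2]
        exact Submodule.zero_mem _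
      · refine Submodule.subset_span (Word.step h1 ?_ Word.base)
        rw [neg_neg]
        exact hp
  | step hc hx hw ih =>
    intro X hX
    rename_i c x w
    have h1 : X.mulVec (x.mulVec w) = (X * x - x * X).mulVec w + x.mulVec (X.mulVec w) := by
      rw [Matrix.sub_mulVec, Matrix.mulVec_mulVec, Matrix.mulVec_mulVec]
      abel
    rw [h1]
    exact Submodule.add_mem _ (ih _ (hM.lie X hX x hx.1)) (word_stable hc hx (ih X hX))

/-- The words span the space. -/
theorem Mx.word_span (hM : Mx g y0 inv B) (hf : ∀ c, IsRoot g y0 c → f c ≠ 0) {a₀ : I}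
    (hmax : ∀ e, Ysum g y0 f e ≤ Ysum g y0 f a₀) :
    Submodule.span k {w | Word g y0 f a₀ w} = ⊤ := by
  refine (hM.irr _ fun X hX u hu => ?_).resolve_left fun h => ?_
  · have h1 : Submodule.span k {w | Word g y0 f a₀ w} ≤
        (Submodule.span k {w | Word g y0 f a₀ w}).comap X.mulVecLin := by
      rw [Submodule.span_le]
      intro w hw
      exact hM.word_mem hf hmax hw X hX
    exact h1 hu
  · have h1 : (Pi.single a₀ 1 : I → k) ∈ Submodule.span k {w | Word g y0 f a₀ w} :=
      Submodule.subset_span Word.base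
    rw [h, Submodule.mem_bot] at h1
    have h2 := congrFun h1 a₀
    rw [Pi.single_eq_same, Pi.zero_apply] at h2
    exact one_ne_zero h2

/-- The top weight has multiplicity one.
PROOF. Let `Z 0 = k e_{a₀}`, `Z (n + 1) = Z n + ∑_{c > 0, x ∈ gc (-c)} x (Z n)` (submodules of `I → k`). By induction on `n`
`Z n` is stable under the diagonal elements of `g` and under `gc c`, `c > 0`: for `X` of this kind, `x ∈ gc (-c)`,
`w ∈ Z n`: `X (x w) = (X x - x X) w + x (X w)`, `X w ∈ Z n`, and `X x - x X ∈ g` is a sum of elements of the root spaces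
and of diagonal ones (`proj_mem`), the positive and the diagonal ones map `w` to `Z n`, the negative ones to
`Z (n + 1)`; `n = 0`: `top_kill`. So `⨆ n, Z n` is stable under `g`, non-zero, hence `⊤` (`irr`). On the other hand every
`Z n` is contained in `{v | v e = 0 for e ≠ a₀ with Y e = Y a₀}`: `v = s e_{a₀} + w`, `w` supported on `Y e < Y a₀` (the
elements of `gc (-c)` lower `Y` by at least 2, `two_le`). So there is no `a ≠ a₀` with `Y a = Y a₀`. -/
theorem Mx.top_unique (hM : Mx g y0 inv B) (hf : ∀ c, IsRoot g y0 c → f c ≠ 0) {a₀ a : I}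
    (hmax : ∀ e, Ysum g y0 f e ≤ Ysum g y0 f a₀) (ha : Ysum g y0 f a = Ysum g y0 f a₀) : a = a₀ := by
  by_contra hne
  have h1 : Submodule.span k {w | Word g y0 f a₀ w} ≤ LinearMap.ker (LinearMap.proj (R := k) a :
      (I → k) →ₗ[k] k) := by
    rw [Submodule.span_le]
    intro w hw
    show w a = 0
    cases hw with
    | base => exact Pi.single_eq_of_ne hne 1
    | step hc hx hw =>
      rename_i c x w
      unfold Matrix.mulVec dotProduct
      refine Finset.sum_eq_zero fun e _ => ?_
      have h2 : x a e = 0 := by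
        by_contra h3
        have h4 := hx.2 a e h3
        have h5 := hM.two_le (hM.Y_mem (f := f)) (fun β hβ a b hab => hM.Y_simple hf hβ hab) hc
          (a := e) (b := a) (by linear_combination -h4)
        have h6 := hmax e
        omega
      show x a e * w e = 0
      rw [h2, zero_mul]
  rw [hM.word_span hf hmax] at h1
  have h2 : (Pi.single a 1 : I → k) ∈ LinearMap.ker (LinearMap.proj (R := k) a :
      (I → k) →ₗ[k] k) := h1 Submodule.mem_top
  have h3 : (Pi.single a 1 : I → k) a = 0 := h2
  rw [Pi.single_eq_same] at h3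
  exact one_ne_zero h3

end Pool.Agent.Lib.MP_021685_agZ
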