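import Pool.Agent.Lib.MP_021685_agZ.ZI
import Pool.Agent.Lib.MP_021685_agZ.ZJ

/-! # ZK: the number of neighbours is odd -/

set_option autoImplicit false

namespace Pool.Agent.Lib.MP_021685_agZ

open Matrix Finset

variable {k : Type*} [Field k] [CharZero k] {I : Type*} [Fintype I] [DecidableEq I]
  {g : Submodule k (Matrix I I k)} {y0 : I → k} {inv : I → I} {B : Matrix I I k}

variable {f : k →+ ℚ}

private theorem sum_comp_inv {inv : I → I} (h : ∀ a, inv (inv a) = a) (F : I → k) :
    ∑ a, F (inv a) = ∑ a, F a :=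
  Equiv.sum_comp (Function.Involutive.toPerm inv h) F

/-- PROOF. `form` for the coroot matrix `T = diagonal t`, `t = cor y0 c`: the entry at `(a, inv a)` gives
`t a + t (inv a) = s` for all `a` (`B a (inv a) ≠ 0`). Sum over `a`: `s * card I = 2 ∑ t = 0` (the numbers of `1` and `-1`
are equal: `refl` exchanges them), so `s = 0`. (Or: the weights: `c = y0 a - y0 b = y0 (inv b) - y0 (inv a)` from `form`
for `y0`.) -/
theorem Mx.cor_inv (hM : Mx g y0 inv B) {c : k} (hc : IsRoot g y0 c) (a : I) :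
    cor y0 c (inv a) = -cor y0 c a := by
  obtain ⟨s, hs⟩ := hM.form _ (hM.cor_mem hc)
  have key : ∀ a, (cor y0 c a : k) + (cor y0 c (inv a) : k) = s := by
    intro a
    have h1 := congrFun (congrFun hs a) (inv a)
    rw [Matrix.add_apply, Matrix.diagonal_transpose, Matrix.diagonal_mul, Matrix.mul_diagonal,
      Matrix.smul_apply, smul_eq_mul] at h1
    have h2 : B a (inv a) ≠ 0 := (hM.Bne a (inv a)).2 rfl
    apply mul_right_cancel₀ h2
    rw [add_mul, mul_comm ((cor y0 c (inv a) : ℤ) : k) (B a (inv a))]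
    exact h1
  have hs0 : s = 0 := by
    have h1 : ∑ a, ((cor y0 c a : k) + (cor y0 c (inv a) : k)) = ∑ _a : I, s := Finset.sum_congr rfl fun a _ => key a
    have h2 : ∑ a, (cor y0 c (inv a) : k) = ∑ a, (cor y0 c a : k) :=
      sum_comp_inv hM.inv_inv fun a => (cor y0 c a : k)
    rw [Finset.sum_add_distrib, h2, hM.sum_cor_zero hc.1, add_zero, Finset.sum_const, nsmul_eq_mul] at h1
    have h3 : ((Finset.univ : Finset I).card : k) ≠ 0 := by
      rw [Nat.cast_ne_zero]
      exact Finset.card_ne_zero.2 ⟨a, Finset.mem_univ a⟩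
    exact (mul_eq_zero.1 h1.symm).resolve_left h3
  have h4 := key a
  rw [hs0] at h4
  have h5 : ((cor y0 c (inv a) : ℤ) : k) = ((-cor y0 c a : ℤ) : k) := by
    rw [Int.cast_neg]
    exact (neg_eq_of_add_eq_zero_right h4).symm
  exact_mod_cast h5

/-- The top value of `Y` is odd (this is where the form is alternating).
PROOF. `m = Y a₀`; `Y (inv e) = - Y e` (`cor_inv`), so `-m ≤ m`, `m ≥ 0`, `m` a natural number. `E, N` from `exists_triple`,
`v = e_{a₀}` (`Pi.single a₀ 1`). `E v = 0` (`top_kill`), `diagonal Y v = m v`, `[diagonal Y, N] = -2 N` (`Y_simple`), so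
`N ^ m v ≠ 0` (`sl2_pow` with `Matrix.toLin'` or `mulVecLin`). `N ^ n v` is supported on `{e | Y e = m - 2 n}`.
`Y e = -m` implies `inv e = a₀` (`top_unique`), `e = inv a₀`: `N ^ m v = z e_{inv a₀}`, `z ≠ 0`. `form` for `N`: `Nᵀ B + B N = s B` with
`s = 0` (entry at `(a, inv a)`: the diagonal entries of `N` are zero, as a simple root is not zero). So
`(Nᵀ)^m B = (-1)^m B N^m`. With `q = v ⬝ᵥ B N^m v = z B a₀ (inv a₀) ≠ 0`: `q = (N^m v) ⬝ᵥ Bᵀ v = - (N^m v) ⬝ᵥ B v
= - v ⬝ᵥ (Nᵀ)^m B v = -(-1)^m q`. So `m` is odd. -/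
theorem Mx.odd_top (hM : Mx g y0 inv B) (hf : ∀ c, IsRoot g y0 c → f c ≠ 0) {a₀ : I}
    (hmax : ∀ e, Ysum g y0 f e ≤ Ysum g y0 f a₀) : Odd (Ysum g y0 f a₀) := by
  obtain ⟨E, hE, N, hN, hEs, hNs, hEN⟩ := hM.exists_triple hf
  have hYinv : ∀ e, Ysum g y0 f (inv e) = -Ysum g y0 f e := by
    intro e
    rw [Ysum, Ysum, ← Finset.sum_neg_distrib]
    exact Finset.sum_congr rfl fun c hc => hM.cor_inv (mem_posR.1 hc).1 e
  have h0 : 0 ≤ Ysum g y0 f a₀ := by
    have h1 := hmax (inv a₀)
    rw [hYinv] at h1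
    omega
  obtain ⟨n, hn⟩ := Int.eq_ofNat_of_zero_le h0
  set v : I → k := Pi.single a₀ 1 with hv
  have hNY : ∀ a b, N a b ≠ 0 → Ysum g y0 f b - Ysum g y0 f a = 2 := fun a b h =>
    hM.Y_simple hf (hNs a b h) rfl
  have e1 : Matrix.toLin' E * Matrix.toLin' N - Matrix.toLin' N * Matrix.toLin' E =
      Matrix.toLin' (Matrix.diagonal (fun a => (Ysum g y0 f a : k))) := by
    rw [← hEN, map_sub, Matrix.toLin'_mul, Matrix.toLin'_mul]
    rfl
  have e2 : Matrix.toLin' (Matrix.diagonal (fun a => (Ysum g y0 f a : k))) * Matrix.toLin' N -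
      Matrix.toLin' N * Matrix.toLin' (Matrix.diagonal (fun a => (Ysum g y0 f a : k))) =
      (-2 : k) • Matrix.toLin' N := by
    have h1 : Matrix.diagonal (fun a => (Ysum g y0 f a : k)) * N -
        N * Matrix.diagonal (fun a => (Ysum g y0 f a : k)) = (-2 : k) • N := by
      ext a b
      rw [Matrix.sub_apply, Matrix.diagonal_mul, Matrix.mul_diagonal, Matrix.smul_apply, smul_eq_mul]
      by_cases hab : N a b = 0
      · rw [hab]
        ring
      · have h2 : ((Ysum g y0 f b : ℤ) : k) - ((Ysum g y0 f a : ℤ) : k) = 2 := by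
          exact_mod_cast congrArg (fun t : ℤ => (t : k)) (hNY a b hab)
        linear_combination (-(N a b)) * h2
    rw [← map_smul, ← h1, map_sub, Matrix.toLin'_mul, Matrix.toLin'_mul]
    rfl
  have e3 : Matrix.toLin' E v = 0 := by
    rw [Matrix.toLin'_apply, hv, Matrix.mulVec_single_one]
    funext a
    by_contra hne
    exact hM.top_kill hf hmax (hEs a a₀ hne).1 rfl
  have e4 : v ≠ 0 := by rw [hv]; simp
  have e5 : Matrix.toLin' (Matrix.diagonal (fun a => (Ysum g y0 f a : k))) v = (n : k) • v := by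
    rw [Matrix.toLin'_apply]
    funext a
    rw [Matrix.mulVec_diagonal, Pi.smul_apply, smul_eq_mul, hv, Pi.single_apply]
    by_cases ha : a = a₀
    · rw [if_pos ha, ha, hn]
      simp
    · rw [if_neg ha, mul_zero, mul_zero]
  have hw := sl2_pow e1 e2 e3 e4 e5 n le_rfl
  have hsupp : ∀ (j : ℕ) (e : I), ((Matrix.toLin' N ^ j) v) e ≠ 0 → Ysum g y0 f e = n - 2 * j := by
    intro j
    induction j with
    | zero =>
      intro e he
      rw [pow_zero, Module.End.one_apply, hv, Pi.single_apply] at he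
      have h1 : e = a₀ := by
        by_contra h
        rw [if_neg h] at he
        exact he rfl
      rw [h1, hn]
      simp
    | succ j ih =>
      intro e he
      rw [pow_succ', Module.End.mul_apply, Matrix.toLin'_apply, Matrix.mulVec, dotProduct] at he
      obtain ⟨l, -, hl⟩ := Finset.exists_ne_zero_of_sum_ne_zero he
      have h1 := ih l (right_ne_zero_of_mul hl)
      have h2 := hNY e l (left_ne_zero_of_mul hl)
      push_cast
      omega
  have hzero : ∀ e, e ≠ inv a₀ → ((Matrix.toLin' N ^ n) v) e = 0 := by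
    intro e he
    by_contra hne
    apply he
    have h1 := hsupp n e hne
    have h2 : Ysum g y0 f (inv e) = Ysum g y0 f a₀ := by
      rw [hYinv, h1, hn]
      omega
    rw [← hM.top_unique hf hmax h2, hM.inv_inv]
  -- the form
  obtain ⟨s, hs⟩ := hM.form N hN
  have hdiag : ∀ a, N a a = 0 := by
    intro a
    by_contra hne
    exact (hNs a a hne).1.1.1 (sub_self _)
  have hBa : B a₀ (inv a₀) ≠ 0 := (hM.Bne _ _).2 rfl
  have hs0 : s = 0 := by
    have h1 := congrFun (congrFun hs a₀) (inv a₀)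
    rw [Matrix.add_apply, Matrix.mul_apply, Matrix.mul_apply, Matrix.smul_apply, smul_eq_mul] at h1
    rw [Finset.sum_eq_zero, Finset.sum_eq_zero, add_zero] at h1
    · exact (mul_eq_zero.1 h1.symm).resolve_right hBa
    · intro l _
      by_cases hl : B a₀ l = 0
      · rw [hl, zero_mul]
      · rw [(hM.Bne _ _).1 hl, hdiag, mul_zero]
    · intro l _
      rw [Matrix.transpose_apply]
      by_cases hl : B l (inv a₀) = 0
      · rw [hl, mul_zero]
      · have h2 := (hM.Bne _ _).1 hl
        have h3 : a₀ = l := by rw [← hM.inv_inv a₀, h2, hM.inv_inv]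
        rw [← h3, hdiag, zero_mul]
  have hNB : Nᵀ * B = -(B * N) := by
    rw [hs0, zero_smul] at hs
    exact eq_neg_of_add_eq_zero_left hs
  have q1 : ∀ u w : I → k, (Matrix.toLin' N u) ⬝ᵥ (B.mulVec w) = -(u ⬝ᵥ (B.mulVec (Matrix.toLin' N w))) := by
    intro u w
    rw [Matrix.toLin'_apply, Matrix.toLin'_apply, Matrix.mulVec_mulVec, ← Matrix.vecMul_transpose,
      ← Matrix.dotProduct_mulVec, Matrix.mulVec_mulVec, hNB, Matrix.neg_mulVec, dotProduct_neg]
  have q2 : ∀ u w : I → k, u ⬝ᵥ (B.mulVec w) = -(w ⬝ᵥ (B.mulVec u)) := by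
    intro u w
    rw [Matrix.dotProduct_mulVec, ← Matrix.mulVec_transpose, hM.skew, Matrix.neg_mulVec, neg_dotProduct,
      dotProduct_comm]
  have q3 : ∀ (j : ℕ) (u w : I → k), ((Matrix.toLin' N ^ j) u) ⬝ᵥ (B.mulVec w) =
      (-1) ^ j * (u ⬝ᵥ (B.mulVec ((Matrix.toLin' N ^ j) w))) := by
    intro j
    induction j with
    | zero => intro u w; simp
    | succ j ih =>
      intro u w
      rw [pow_succ', Module.End.mul_apply, q1, ih, ← Module.End.mul_apply, ← pow_succ, pow_succ' _ j,
        pow_succ (-1 : k)]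
      ring
  have q4 : v ⬝ᵥ (B.mulVec ((Matrix.toLin' N ^ n) v)) =
      B a₀ (inv a₀) * ((Matrix.toLin' N ^ n) v) (inv a₀) := by
    rw [hv, single_one_dotProduct, Matrix.mulVec, dotProduct]
    refine Finset.sum_eq_single (inv a₀) (fun l _ hl => ?_) fun h => absurd (Finset.mem_univ _) h
    rw [← hv, hzero l hl, mul_zero]
  have q5 : v ⬝ᵥ (B.mulVec ((Matrix.toLin' N ^ n) v)) ≠ 0 := by
    rw [q4]
    refine mul_ne_zero hBa fun h => hw ?_
    funext e
    by_cases he : e = inv a₀
    · rw [he, h]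
      rfl
    · exact hzero e he
  have q6 := q3 n v v
  rw [q2] at q6
  rw [hn]
  rcases Nat.even_or_odd n with hev | hodd
  · exfalso
    rw [hev.neg_one_pow, one_mul] at q6
    have h2 : (2 : k) * (v ⬝ᵥ (B.mulVec ((Matrix.toLin' N ^ n) v))) = 0 := by linear_combination -q6
    exact q5 ((mul_eq_zero.1 h2).resolve_left two_ne_zero)
  · exact_mod_cast hodd

/-- A function on the indices which is constant along the places of non-zero entries of `g` is constant.
PROOF. The subspace of the vectors supported on `{e | P e}` is stable under `g`, non-zero (`P a`), so it is `⊤` by `irr`. -/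
theorem Mx.const_of_adj (hM : Mx g y0 inv B) (P : I → Prop)
    (h : ∀ a b, IsRoot g y0 (y0 a - y0 b) → (P a ↔ P b)) {a : I} (ha : P a) (b : I) : P b := by
  let U : Submodule k (I → k) :=
    { carrier := {v | ∀ e, ¬ P e → v e = 0}
      add_mem' := fun {u v} hu hv e he => by rw [Pi.add_apply, hu e he, hv e he, add_zero]
      zero_mem' := fun e _ => rfl
      smul_mem' := fun s v hv e he => by rw [Pi.smul_apply, hv e he, smul_zero] }
  have hU := hM.irr U fun X hX u hu e he => by
    rw [Matrix.mulVec, dotProduct]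
    refine Finset.sum_eq_zero fun l _ => ?_
    by_cases hl : P l
    · by_cases hXe : X e l = 0
      · rw [hXe, zero_mul]
      · exfalso
        have hne : e ≠ l := fun h => he (h ▸ hl)
        exact he ((h e l (hM.isRoot_iff.2 ⟨hne, X, hX, hXe⟩)).2 hl)
    · rw [hu l hl, mul_zero]
  have hsingle : Pi.single a (1 : k) ∈ U := by
    intro e he
    rw [Pi.single_apply, if_neg]
    rintro rfl
    exact he ha
  rcases hU with hU | hU
  · rw [hU, Submodule.mem_bot] at hsingle
    exact absurd hsingle (by simp)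
  · by_contra hb
    have h1 : Pi.single b (1 : k) ∈ U := by rw [hU]; trivial
    have h2 := h1 b hb
    rw [Pi.single_eq_same] at h2
    exact one_ne_zero h2

/-- **All the values of `Y` are odd.**
PROOF. `odd_top` for `a₀` with `Y a₀` maximal. For a root `c = y0 a - y0 b` the difference `Y a - Y b` is even: `pos_induction`
(value 2 on the simple roots: `Y_simple`; additive by `reg`, `Y_mem`), and for `-c` the negative. `const_of_adj` with
`P e = Odd (Y e)`. -/
theorem Mx.odd_Y (hM : Mx g y0 inv B) (hf : ∀ c, IsRoot g y0 c → f c ≠ 0) (a : I) :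
    Odd (Ysum g y0 f a) := by
  have hpos : ∀ c, Pos g y0 f c → ∀ a b, y0 a - y0 b = c → Even (Ysum g y0 f a - Ysum g y0 f b) := by
    refine pos_induction (P := fun c => ∀ a b, y0 a - y0 b = c → Even (Ysum g y0 f a - Ysum g y0 f b)) ?_ ?_
    · intro c hc a b hab
      rw [hM.Y_simple hf hc hab]
      exact even_two
    · intro c₁ c₂ h1 h2 _ ih1 ih2 a b hab
      obtain ⟨a₁, b₁, hc1⟩ := h1.1.exists
      obtain ⟨a₂, b₂, hc2⟩ := h2.1.exists
      have h3 := hM.reg a₁ b₁ a₂ b₂ a b (by rw [hc1, hc2, hab]) _ (hM.Y_mem (f := f))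
      have h4 : (Ysum g y0 f a₁ - Ysum g y0 f b₁) + (Ysum g y0 f a₂ - Ysum g y0 f b₂) =
          Ysum g y0 f a - Ysum g y0 f b := by
        exact_mod_cast h3
      rw [← h4]
      exact (ih1 _ _ hc1).add (ih2 _ _ hc2)
  obtain ⟨a₀, -, hmax⟩ := Finset.exists_max_image Finset.univ (fun e => Ysum g y0 f e) ⟨a, Finset.mem_univ a⟩
  have h0 := hM.odd_top hf (a₀ := a₀) fun e => hmax e (Finset.mem_univ e)
  refine hM.const_of_adj (fun e => Odd (Ysum g y0 f e)) (fun b b' hroot => ?_) h0 a
  have hev : Even (Ysum g y0 f b - Ysum g y0 f b') := by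
    rcases lt_or_gt_of_ne (hf _ hroot) with hlt | hgt
    · have h1 := hM.isRoot_neg hroot
      have h2 : 0 < f (-(y0 b - y0 b')) := by
        rw [map_neg]
        exact neg_pos.2 hlt
      have h3 := hpos _ ⟨h1, h2⟩ b' b (neg_sub _ _).symm
      rw [← neg_sub, even_neg]
      exact h3
    · exact hpos _ ⟨hroot, hgt⟩ b b' rfl
  constructor
  · intro h1
    have h2 := h1.sub_even hev
    rwa [sub_sub_cancel] at h2
  · intro h1
    have h2 := hev.add_odd h1
    rwa [sub_add_cancel] at h2

end Pool.Agent.Lib.MP_021685_agZ
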