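import Pool.Agent.Lib.MP_021685_agZ.ZDefs

/-! # ZL: the sign of a permutation which commutes with a fixed point free involution -/

set_option autoImplicit false

namespace Pool.Agent.Lib.MP_021685_agZ

open Finset

variable {I : Type*} [Fintype I] [DecidableEq I]

/-- the case of a permutation which maps `S` to itself -/
theorem sign_of_half_aux (π : Equiv.Perm I) (inv : I → I) (hinv : ∀ a, inv (inv a) = a) (S : Finset I)
    (hS : ∀ a, inv a ∈ S ↔ a ∉ S) (hπ : ∀ a, π (inv a) = inv (π a)) (h : ∀ a ∈ S, π a ∈ S) :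
    Equiv.Perm.sign π = 1 := by
  have h1 : ∀ a, π a ∈ S ↔ a ∈ S := by
    intro a
    refine ⟨fun ha => ?_, h a⟩
    by_contra hn
    have h2 : inv a ∈ S := (hS a).2 hn
    have h3 := h _ h2
    rw [hπ, hS] at h3
    exact h3 ha
  have h2 : ∀ a, π a ∉ S ↔ a ∉ S := fun a => not_congr (h1 a)
  have e1 : π = Equiv.Perm.subtypeCongr (p := fun a => a ∈ S) (π.subtypePerm (p := fun a => a ∈ S) h1)
      (π.subtypePerm (p := fun a => ¬ a ∈ S) h2) := by
    ext a
    by_cases ha : a ∈ S
    · rw [Equiv.Perm.subtypeCongr.left_apply _ _ ha]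
      rfl
    · rw [Equiv.Perm.subtypeCongr.right_apply _ _ ha]
      rfl
  let e : {a // a ∈ S} ≃ {a // a ∉ S} :=
    { toFun := fun a => ⟨inv a.1, fun hn => (hS a.1).1 hn a.2⟩
      invFun := fun a => ⟨inv a.1, (hS a.1).2 a.2⟩
      left_inv := fun a => Subtype.ext (hinv a.1)
      right_inv := fun a => Subtype.ext (hinv a.1) }
  rw [e1, Equiv.Perm.sign_subtypeCongr]
  refine Eq.trans (congrArg (fun u => u * _) (@Equiv.Perm.sign_eq_sign_of_equiv _ _ _ (_) _ (_) _ _ e ?_))
    (Int.units_mul_self _)
  rintro ⟨a, ha⟩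
  apply Subtype.ext
  change inv (π a) = π (inv a)
  rw [hπ]

theorem sign_of_half (π : Equiv.Perm I) (inv : I → I) (hinv : ∀ a, inv (inv a) = a) (S : Finset I)
    (hS : ∀ a, inv a ∈ S ↔ a ∉ S) (hπ : ∀ a, π (inv a) = inv (π a)) :
    Equiv.Perm.sign π = (-1) ^ (S.filter fun a => π a ∉ S).card := by
  obtain ⟨n, hn⟩ : ∃ n, (S.filter fun a => π a ∉ S).card = n := ⟨_, rfl⟩
  induction n generalizing π with
  | zero =>
    rw [hn, pow_zero]
    refine sign_of_half_aux π inv hinv S hS hπ fun a ha => ?_
    by_contra hna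
    rw [Finset.card_eq_zero, Finset.filter_eq_empty_iff] at hn
    exact hn ha hna
  | succ n ih =>
    have hne : (S.filter fun a => π a ∉ S).Nonempty := by
      rw [← Finset.card_pos, hn]
      exact Nat.succ_pos n
    obtain ⟨a, ha⟩ := hne
    have ha' := (Finset.mem_filter.1 ha)
    obtain ⟨haS, haπ⟩ := ha'
    have hinj : Function.Injective inv := fun x y hxy => by rw [← hinv x, hxy, hinv]
    have hfix : ∀ x, inv x ≠ x := by
      intro x hx
      have := hS x
      rw [hx] at this
      tauto
    set τ : Equiv.Perm I := Equiv.swap (π a) (inv (π a)) with hτ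
    have hτi : ∀ x, τ (inv x) = inv (τ x) := by
      intro x
      by_cases h1 : x = π a
      · rw [h1, hτ, Equiv.swap_apply_right, Equiv.swap_apply_left, hinv]
      · by_cases h2 : x = inv (π a)
        · rw [h2, hinv, hτ, Equiv.swap_apply_left, Equiv.swap_apply_right]
        · have h3 : inv x ≠ π a := fun h => h2 (by rw [← h, hinv])
          have h4 : inv x ≠ inv (π a) := fun h => h1 (hinj h)
          rw [hτ, Equiv.swap_apply_of_ne_of_ne h3 h4, Equiv.swap_apply_of_ne_of_ne h1 h2]
    have hcomm : ∀ x, (τ * π) (inv x) = inv ((τ * π) x) := by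
      intro x
      rw [Equiv.Perm.mul_apply, Equiv.Perm.mul_apply, hπ, hτi]
    have hset : (S.filter fun x => (τ * π) x ∉ S) = (S.filter fun x => π x ∉ S).erase a := by
      ext x
      rw [Finset.mem_erase, Finset.mem_filter, Finset.mem_filter, Equiv.Perm.mul_apply]
      by_cases hx : x = a
      · subst hx
        rw [hτ, Equiv.swap_apply_left, hS]
        tauto
      · by_cases hxS : x ∈ S
        · have h1 : π x ≠ π a := fun h => hx (π.injective h)
          have h2 : π x ≠ inv (π a) := by
            intro h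
            rw [← hπ] at h
            have h3 := π.injective h
            rw [h3, hS] at hxS
            exact hxS haS
          rw [hτ, Equiv.swap_apply_of_ne_of_ne h1 h2]
          tauto
        · tauto
    have hcard : (S.filter fun x => (τ * π) x ∉ S).card = n := by
      rw [hset, Finset.card_erase_of_mem ha, hn, Nat.add_sub_cancel]
    have h1 := ih (τ * π) hcomm hcard
    rw [hcard, Equiv.Perm.sign_mul, hτ, Equiv.Perm.sign_swap (hfix (π a)).symm] at h1
    rw [hn, pow_succ, ← h1]
    simp

end Pool.Agent.Lib.MP_021685_agZ
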