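import Pool.Agent.Lib.MP_021685_agZ.ZK
import Pool.Agent.Lib.MP_021685_agZ.ZL

/-! # ZM: the automorphisms act by even permutations -/

set_option autoImplicit false

namespace Pool.Agent.Lib.MP_021685_agZ

open Matrix Finset

variable {k : Type*} [Field k] [CharZero k] {I : Type*} [Fintype I] [DecidableEq I]
  {g : Submodule k (Matrix I I k)} {y0 : I → k} {inv : I → I} {B : Matrix I I k}

/-- The sum of a coroot over a half system is even.
PROOF. `sum_cor` for the indicator `y` of `S` (in `k`, then in `ℤ` by `Int.cast_injective`): it is `r (y a - y b)`, `r` even. -/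
theorem Mx.even_sum (hM : Mx g y0 inv B) {S : Finset I} (hS : IsH g inv S) {c : k} (hc : IsRoot g y0 c)
    [DecidablePred fun a : I => ∃ b, y0 a - y0 b = c]
    (hev : Even (univ.filter fun a : I => ∃ b, y0 a - y0 b = c).card) : Even (∑ a ∈ S, cor y0 c a) := by
  obtain ⟨a, b, hab⟩ := hc.exists
  have h := hM.sum_cor hc.1 hS.1 hab
  have h1 : ∑ e, (if e ∈ S then (1 : k) else 0) * (cor y0 c e : k) =
      ((∑ a ∈ S, cor y0 c a : ℤ) : k) := by
    rw [Int.cast_sum]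
    simp only [ite_mul, one_mul, zero_mul, Finset.sum_ite_mem, Finset.univ_inter]
  have h2 : ((∑ a ∈ S, cor y0 c a : ℤ) : k) =
      (((univ.filter fun a : I => ∃ b, y0 a - y0 b = c).card *
        ((if a ∈ S then (1 : ℤ) else 0) - (if b ∈ S then (1 : ℤ) else 0)) : ℤ) : k) := by
    rw [← h1, h]
    push_cast
    rfl
  rw [Int.cast_injective h2]
  exact Even.mul_right ((Int.even_coe_nat _).2 hev) _

/-- **Even permutations.** A permutation of the indices which respects the weights, the roots and the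
involution is even, if all the root vectors have even rank.
PROOF. (If `I` is empty, clear.) `f` from `exists_pos`, `Y = Ysum`, `S` a half system (from `sep a (inv a)`; `inv a ≠ a`). For a root
`c = y0 a - y0 b` let `c^π = y0 (π a) - y0 (π b)` (well defined by `hw`), `cor c^π (π e) = cor c e`. Let `P' = ` the image of
`posR`; then `∑_{c ∈ P'} cor c e = Y (π⁻¹ e)`. Both `posR` and `P'` contain exactly one of `c`, `-c` for each root `c`, so
`∑_{c ∈ P'} ∑_S cor c - ∑_{c ∈ posR} ∑_S cor c = 2 ∑_{c ∈ P' \ posR} ∑_S cor c`, divisible by 4 (`even_sum`). So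
`∑_{e ∈ S} Y (π⁻¹ e) ≡ ∑_{e ∈ S} Y e` mod 4. The left side is the sum of `Y` over `π⁻¹ S`; since `Y (inv e) = - Y e` (`cor_inv`) the
difference is `2 ∑_{e ∈ π⁻¹ S, e ∉ S} Y e ≡ 2 #(π⁻¹ S \ S)` mod 4 (`odd_Y`). So `#(π⁻¹ S \ S)` is even, it is equal to
`#{a ∈ S | π a ∉ S}` (complements), and the sign is 1 by `sign_of_half`. -/
theorem Mx.sign_eq_one (hM : Mx g y0 inv B)
    (hev : ∀ c, IsRoot g y0 c → ∀ s : Finset I, (∀ a, a ∈ s ↔ ∃ b, y0 a - y0 b = c) → Even s.card)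
    (π : Equiv.Perm I)
    (hw : ∀ a b a' b', y0 a - y0 b = y0 a' - y0 b' ↔ y0 (π a) - y0 (π b) = y0 (π a') - y0 (π b'))
    (hr : ∀ a b, IsRoot g y0 (y0 a - y0 b) ↔ IsRoot g y0 (y0 (π a) - y0 (π b)))
    (hi : ∀ a, π (inv a) = inv (π a)) : Equiv.Perm.sign π = 1 := by
  classical
  rcases isEmpty_or_nonempty I with hI | ⟨⟨a₁⟩⟩
  · rw [Subsingleton.elim π 1, Equiv.Perm.sign_one]
  obtain ⟨f, hf⟩ := exists_pos g y0
  have hinv1 : inv a₁ ≠ a₁ := by
    intro h
    have hB : B a₁ a₁ ≠ 0 := (hM.Bne a₁ a₁).2 h.symm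
    have h2 := congrFun (congrFun hM.skew a₁) a₁
    rw [Matrix.transpose_apply, Matrix.neg_apply] at h2
    have h3 : (2 : k) * B a₁ a₁ = 0 := by linear_combination h2
    exact hB ((mul_eq_zero.1 h3).resolve_left two_ne_zero)
  obtain ⟨S, hS, -⟩ := hM.sep a₁ (inv a₁) hinv1.symm
  -- the map on the weights
  have hρ : ∃ ρ : k → k, ∀ a b, ρ (y0 a - y0 b) = y0 (π a) - y0 (π b) := by
    refine ⟨fun c => if h : ∃ a b, y0 a - y0 b = c then
      y0 (π h.choose) - y0 (π h.choose_spec.choose) else c, fun a b => ?_⟩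
    have h : ∃ a' b', y0 a' - y0 b' = y0 a - y0 b := ⟨a, b, rfl⟩
    beta_reduce
    rw [dif_pos h]
    exact (hw _ _ _ _).1 h.choose_spec.choose_spec
  obtain ⟨ρ, hρ⟩ := hρ
  have hρroot : ∀ c, IsRoot g y0 c → IsRoot g y0 (ρ c) := by
    intro c hc
    obtain ⟨a, b, rfl⟩ := hc.exists
    rw [hρ]
    exact (hr a b).1 hc
  have hρneg : ∀ c, IsRoot g y0 c → ρ (-c) = -ρ c := by
    intro c hc
    obtain ⟨a, b, rfl⟩ := hc.exists
    rw [neg_sub, hρ, hρ, neg_sub]
  have hρinj : ∀ c c', IsRoot g y0 c → IsRoot g y0 c' → ρ c = ρ c' → c = c' := by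
    intro c c' hc hc' h
    obtain ⟨a, b, rfl⟩ := hc.exists
    obtain ⟨a', b', rfl⟩ := hc'.exists
    rw [hρ, hρ] at h
    exact (hw _ _ _ _).2 h
  have hρcor : ∀ c, IsRoot g y0 c → ∀ e, cor y0 (ρ c) (π e) = cor y0 c e := by
    intro c hc e
    obtain ⟨a, b, rfl⟩ := hc.exists
    rw [hρ]
    have h1 : (∃ b', y0 (π e) - y0 b' = y0 (π a) - y0 (π b)) ↔ ∃ b', y0 e - y0 b' = y0 a - y0 b := by
      constructor
      · rintro ⟨b', hb'⟩
        refine ⟨π.symm b', (hw _ _ _ _).2 ?_⟩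
        rw [Equiv.apply_symm_apply]
        exact hb'
      · rintro ⟨b', hb'⟩
        exact ⟨π b', (hw _ _ _ _).1 hb'⟩
    have h2 : (∃ b', y0 b' - y0 (π e) = y0 (π a) - y0 (π b)) ↔ ∃ b', y0 b' - y0 e = y0 a - y0 b := by
      constructor
      · rintro ⟨b', hb'⟩
        refine ⟨π.symm b', (hw _ _ _ _).2 ?_⟩
        rw [Equiv.apply_symm_apply]
        exact hb'
      · rintro ⟨b', hb'⟩
        exact ⟨π b', (hw _ _ _ _).1 hb'⟩
    unfold cor
    simp only [h1, h2]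
  -- the sums over the half system
  have hT : ∀ c, IsRoot g y0 c → Even (∑ a ∈ S, cor y0 c a) := by
    intro c hc
    refine hM.even_sum hS hc (hev c hc _ ?_)
    intro a
    rw [mem_filter]
    exact ⟨fun h => h.2, fun h => ⟨mem_univ _, h⟩⟩
  have hTneg : ∀ c, IsRoot g y0 c → ∑ a ∈ S, cor y0 (-c) a = -∑ a ∈ S, cor y0 c a := by
    intro c hc
    rw [← Finset.sum_neg_distrib]
    exact Finset.sum_congr rfl fun a _ => hM.cor_neg hc.1 a
  have hab : ∀ c, c ∈ posR g y0 f → ∃ c' ∈ posR g y0 f, (c' = ρ c ∨ c' = -ρ c) := by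
    intro c hc
    have hc' := hρroot c (mem_posR.1 hc).1
    rcases lt_or_gt_of_ne (hf _ hc') with h | h
    · refine ⟨-ρ c, mem_posR.2 ⟨hM.isRoot_neg hc', ?_⟩, Or.inr rfl⟩
      rw [map_neg]
      linarith
    · exact ⟨ρ c, mem_posR.2 ⟨hc', h⟩, Or.inl rfl⟩
  choose! α hα1 hα2 using hab
  have hαinj : Set.InjOn α (posR g y0 f : Set k) := by
    intro c hc c' hc' h
    have hc := mem_posR.1 (Finset.mem_coe.1 hc)
    have hc' := mem_posR.1 (Finset.mem_coe.1 hc')
    have h1 := hα2 c (mem_posR.2 hc)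
    have h2 := hα2 c' (mem_posR.2 hc')
    rw [h] at h1
    have h3 : c = c' ∨ c = -c' := by
      rcases h1 with h1 | h1 <;> rcases h2 with h2 | h2
      · exact Or.inl (hρinj _ _ hc.1 hc'.1 (h1.symm.trans h2))
      · refine Or.inr (hρinj _ _ hc.1 (hM.isRoot_neg hc'.1) ?_)
        rw [hρneg _ hc'.1, ← h1, h2]
      · refine Or.inr (hρinj _ _ hc.1 (hM.isRoot_neg hc'.1) ?_)
        rw [hρneg _ hc'.1, ← h2, h1, neg_neg]
      · exact Or.inl (hρinj _ _ hc.1 hc'.1 (neg_injective (h1.symm.trans h2)))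
    rcases h3 with h3 | h3
    · exact h3
    · exfalso
      have h4 := hc.2
      have h5 := hc'.2
      rw [h3, map_neg] at h4
      linarith
  have hαimg : (posR g y0 f).image α = posR g y0 f := by
    refine Finset.eq_of_subset_of_card_le ?_ ?_
    · intro c hc
      obtain ⟨c', hc', rfl⟩ := Finset.mem_image.1 hc
      exact hα1 c' hc'
    · rw [Finset.card_image_of_injOn hαinj]
  have hsum1 : ∑ c ∈ posR g y0 f, ∑ a ∈ S, cor y0 (α c) a = ∑ c ∈ posR g y0 f, ∑ a ∈ S, cor y0 c a := by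
    conv_rhs => rw [← hαimg, Finset.sum_image hαinj]
  have hdvd : (4 : ℤ) ∣ ∑ c ∈ posR g y0 f, ∑ a ∈ S, cor y0 (ρ c) a -
      ∑ c ∈ posR g y0 f, ∑ a ∈ S, cor y0 c a := by
    rw [← hsum1, ← Finset.sum_sub_distrib]
    refine Finset.dvd_sum fun c hc => ?_
    rcases hα2 c hc with h | h
    · rw [h, sub_self]
      exact dvd_zero _
    · rw [h, hTneg _ (hρroot c (mem_posR.1 hc).1)]
      obtain ⟨z, hz⟩ := hT _ (hρroot c (mem_posR.1 hc).1)
      rw [hz]
      exact ⟨z, by ring⟩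
  have hsum2 : ∑ c ∈ posR g y0 f, ∑ a ∈ S, cor y0 (ρ c) a = ∑ a ∈ S, Ysum g y0 f (π.symm a) := by
    rw [Finset.sum_comm]
    refine Finset.sum_congr rfl fun a _ => ?_
    unfold Ysum
    refine Finset.sum_congr rfl fun c hc => ?_
    rw [← hρcor c (mem_posR.1 hc).1 (π.symm a), Equiv.apply_symm_apply]
  have hsum3 : ∑ c ∈ posR g y0 f, ∑ a ∈ S, cor y0 c a = ∑ a ∈ S, Ysum g y0 f a := by
    rw [Finset.sum_comm]
    rfl
  rw [hsum2, hsum3] at hdvd
  have hYinv : ∀ e, Ysum g y0 f (inv e) = -Ysum g y0 f e := by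
    intro e
    unfold Ysum
    rw [← Finset.sum_neg_distrib]
    exact Finset.sum_congr rfl fun c hc => hM.cor_inv (mem_posR.1 hc).1 e
  -- the preimage of the half system
  obtain ⟨S', hS'⟩ : ∃ S' : Finset I, ∀ a, a ∈ S' ↔ π a ∈ S :=
    ⟨univ.filter fun a => π a ∈ S, fun a => by rw [mem_filter]; exact ⟨fun h => h.2, fun h => ⟨mem_univ _, h⟩⟩⟩
  have hsum4 : ∑ a ∈ S, Ysum g y0 f (π.symm a) = ∑ a ∈ S', Ysum g y0 f a := by
    refine Finset.sum_nbij' (fun a => π.symm a) (fun a => π a) ?_ ?_ ?_ ?_ ?_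
    · intro a ha
      rw [hS', Equiv.apply_symm_apply]
      exact ha
    · intro a ha
      exact (hS' a).1 ha
    · intro a _
      exact Equiv.apply_symm_apply _ _
    · intro a _
      exact Equiv.symm_apply_apply _ _
    · intro a _
      rfl
  have hinvS' : ∀ a, inv a ∈ S' ↔ a ∉ S' := by
    intro a
    rw [hS', hS', hi]
    exact hS.2 (π a)
  have hsum5 : ∑ a ∈ S' \ S, Ysum g y0 f a = -∑ a ∈ S \ S', Ysum g y0 f a := by
    rw [← Finset.sum_neg_distrib]
    refine Finset.sum_nbij' inv inv ?_ ?_ ?_ ?_ ?_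
    · intro a ha
      rw [mem_sdiff] at ha ⊢
      rw [hS.2, hinvS', not_not]
      exact ⟨ha.2, ha.1⟩
    · intro a ha
      rw [mem_sdiff] at ha ⊢
      rw [hS.2, hinvS', not_not]
      exact ⟨ha.2, ha.1⟩
    · intro a _
      exact hM.inv_inv a
    · intro a _
      exact hM.inv_inv a
    · intro a _
      rw [hYinv, neg_neg]
  have hsum6 := Finset.sum_inter_add_sum_sdiff S S' (Ysum g y0 f)
  have hsum7 := Finset.sum_inter_add_sum_sdiff S' S (Ysum g y0 f)
  rw [Finset.inter_comm] at hsum7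
  rw [hsum4, ← hsum6, ← hsum7, hsum5] at hdvd
  have hQ : S \ S' = S.filter fun a => π a ∉ S := by
    ext a
    rw [mem_sdiff, mem_filter, hS']
  rw [hQ] at hdvd
  have hdvd2 : (2 : ℤ) ∣ ∑ a ∈ S.filter (fun a => π a ∉ S), Ysum g y0 f a := by
    obtain ⟨z, hz⟩ := hdvd
    refine ⟨-z, ?_⟩
    linarith
  have hdvd3 : (2 : ℤ) ∣ ∑ a ∈ S.filter (fun a => π a ∉ S), (Ysum g y0 f a - 1) := by
    refine Finset.dvd_sum fun a _ => ?_
    obtain ⟨z, hz⟩ := hM.odd_Y hf a
    exact ⟨z, by rw [hz]; ring⟩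
  rw [Finset.sum_sub_distrib, Finset.sum_const, nsmul_eq_mul, mul_one] at hdvd3
  have hcard : Even ((S.filter fun a => π a ∉ S).card) := by
    have h := dvd_sub hdvd2 hdvd3
    rw [sub_sub_cancel] at h
    exact even_iff_two_dvd.2 (Int.natCast_dvd_natCast.1 h)
  rw [sign_of_half π inv hM.inv_inv S hS.2 hi, hcard.neg_one_pow]

end Pool.Agent.Lib.MP_021685_agZ
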