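import Pool.Agent.Lib.MP_021685_agZ.ZC
import Pool.Agent.Lib.MP_021685_agZ.ZQ

/-! # ZR: the rank of a root vector -/

set_option autoImplicit false

namespace Pool.Agent.Lib.MP_021685_agZ

open Module Pool.Agent.Lib.MP_021685_agO

variable {k H : Type*} [Field k] [CharZero k] [IsAlgClosed k] [AddCommGroup H] [Module k H] [FiniteDimensional k H]
  {g : Submodule k (End k H)} {c : End k H → k} {V : Submodule k H}
  {I : Type*} [Fintype I] [DecidableEq I]

omit [CharZero k] [IsAlgClosed k] [FiniteDimensional k H] in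
/-- The matrix of a diagonal element. -/
theorem diag_mem_mg {b : Basis I k V} {X : End k H} (hX : X ∈ g) {y : I → k}
    (hy : ∀ l, X (b l : H) = y l • (b l : H)) : Matrix.diagonal y ∈ mg g b := by
  refine ⟨X, hX, fun j => ?_⟩
  rw [hy, Finset.sum_eq_single j]
  · rw [Matrix.diagonal_apply_eq]
  · intro i _ hij
    rw [Matrix.diagonal_apply_ne _ hij, zero_smul]
  · intro h
    exact absurd (Finset.mem_univ j) h

omit [CharZero k] [IsAlgClosed k] [FiniteDimensional k H] [DecidableEq I] in
/-- The rank of an endomorphism with a sparse matrix. -/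
theorem rank_of_sparse {b : Basis I k V} {N : End k H} {x : Matrix I I k} (s : Finset I)
    (hN : ∀ j, N (b j : H) = ∑ i, x i j • (b i : H)) (h1 : ∀ i j, x i j ≠ 0 → i ∈ s)
    (h2 : ∀ a ∈ s, ∃ j, x a j ≠ 0 ∧ ∀ i, x i j ≠ 0 → i = a) :
    finrank k (V.map N) = s.card := by
  have hli : LinearIndependent k (fun a : s => ((b a : V) : H)) := by
    have h3 : LinearIndependent k (fun i => ((b i : V) : H)) :=
      b.linearIndependent.map' V.subtype V.ker_subtype
    exact h3.comp (fun a : s => (a : I)) Subtype.val_injective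
  have h3 : V.map N = Submodule.span k (Set.range fun a : s => ((b a : V) : H)) := by
    apply le_antisymm
    · rintro _ ⟨v, hv, rfl⟩
      have hv' : v = ∑ i, b.repr ⟨v, hv⟩ i • (b i : H) := by
        have h4 := congrArg (Subtype.val : V → H) (b.sum_repr ⟨v, hv⟩)
        rw [Submodule.coe_sum] at h4
        exact h4.symm
      rw [hv', map_sum]
      refine Submodule.sum_mem _ fun j _ => ?_
      rw [map_smul, hN]
      refine Submodule.smul_mem _ _ (Submodule.sum_mem _ fun i _ => ?_)
      by_cases hx : x i j = 0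
      · rw [hx, zero_smul]
        exact Submodule.zero_mem _
      · exact Submodule.smul_mem _ _ (Submodule.subset_span ⟨⟨i, h1 i j hx⟩, rfl⟩)
    · rw [Submodule.span_le]
      rintro _ ⟨⟨a, ha⟩, rfl⟩
      obtain ⟨j, hj, hj'⟩ := h2 a ha
      refine ⟨(x a j)⁻¹ • (b j : H), Submodule.smul_mem _ _ (b j).2, ?_⟩
      rw [map_smul, hN, Finset.sum_eq_single a]
      · rw [smul_smul, inv_mul_cancel₀ hj, one_smul]
      · intro i _ hia
        by_cases hx : x i j = 0
        · rw [hx, zero_smul]
        · exact absurd (hj' i hx) hia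
      · intro h
        exact absurd (Finset.mem_univ a) h
  rw [h3, finrank_span_eq_card hli, Fintype.card_coe]

/-- A root vector is homogeneous of degree 1 or -1 for a Hodge element of `g`.
PROOF. The root `r = y0 a₀ - y0 b₀` with `a₀ ≠ b₀` (a root is not zero; take a non-zero entry of a root vector `x` of
`Mx.exists_pair`), `e, y` from `hsep a₀ b₀`; `y` has entries 0, 1 and is diagonal in `mg g b`, so by `reg` `y a - y b' = y a₀ - y b₀ =
± 1` for all `a b'` with `y0 a - y0 b' = r`. Let `X ∈ g` have the matrix `x` on `V`. If the difference is `1`, `N = e X (1 - e)`, which is in `g`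
(`hcomp`), `e N - N e = N`, and on `V` it is equal to `X` (entries `y a x a b' (1 - y b') = x a b'`). If it is `-1`,
`N = (1 - e) X e`, `e N - N e = -N`. The image `V.map N` is spanned by the `N (b b')`, `b'` with some `a`, `y0 a - y0 b' = r`, and
`N (b b') = x a b' • b a`, `x a b' ≠ 0` (`full`): so it is the span of the `b a`, `a ∈ s`: finrank `s.card`
(`finrank_span_set_eq_card`/`finrank_span_eq_card` of the linearly independent family). -/
theorem exists_monodromy {y0 : I → k} {inv : I → I} {B : Matrix I I k} {b : Basis I k V}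
    (hM : Mx (mg g b) y0 inv B) (hlie : ∀ X ∈ g, ∀ Y ∈ g, X * Y - Y * X ∈ g) (hst : IsStable g V)
    (hsep : ∀ i j, i ≠ j → ∃ e, IsHodgeElt g c e ∧ ∃ y : I → k, (∀ l, e (b l : H) = y l • (b l : H)) ∧ y i ≠ y j)
    {r : k} (hr : IsRoot (mg g b) y0 r) (s : Finset I) (hs : ∀ a, a ∈ s ↔ ∃ b', y0 a - y0 b' = r) :
    ∃ N, IsMonodromy g c N ∧ finrank k (V.map N) = s.card := by
  obtain ⟨hr0, x, hx, hx0⟩ := hr
  obtain ⟨X, hX, hXx⟩ := hx.1
  obtain ⟨a₀, b₀, h0⟩ : ∃ a₀ b₀, x a₀ b₀ ≠ 0 := by
    by_contra h
    push Not at h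
    exact hx0 (by ext a b; exact h a b)
  have hab : y0 a₀ - y0 b₀ = r := hx.2 a₀ b₀ h0
  have hne : a₀ ≠ b₀ := by
    rintro rfl
    exact hr0 (by rw [← hab, sub_self])
  obtain ⟨e, he, y, hy, hy0⟩ := hsep a₀ b₀ hne
  have hbn : ∀ l, (b l : H) ≠ 0 := fun l h => b.ne_zero l (Subtype.ext h)
  have hyy : ∀ l, y l = 0 ∨ y l = 1 := by
    intro l
    have h1 : e (e (b l : H)) = e (b l : H) := by
      rw [← Module.End.mul_apply, he.2.1]
    rw [hy, map_smul, hy, smul_smul] at h1
    have h2 := smul_left_injective k (hbn l) h1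
    have h3 : y l * (y l - 1) = 0 := by
      have : y l * y l = y l := h2
      linear_combination this
    rcases mul_eq_zero.1 h3 with h4 | h4
    · exact Or.inl h4
    · exact Or.inr (sub_eq_zero.1 h4)
  have hreg : ∀ a b', y0 a - y0 b' = r → y a - y b' = y a₀ - y b₀ := by
    intro a b' h
    have h1 := hM.reg a b' a a a₀ b₀ (by rw [hab, h]; ring) y (diag_mem_mg he.1 hy)
    linear_combination h1
  have hfull : ∀ a j, y0 a - y0 j = r → x a j ≠ 0 := fun a j h => hM.full hr0 hx hx0 h
  have two : (1 : k) ≠ -1 := by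
    intro h
    have : (2 : k) = 0 := by linear_combination h
    exact two_ne_zero this
  have hrank : ∀ N : End k H, (∀ j, N (b j : H) = ∑ i, x i j • (b i : H)) →
      finrank k (V.map N) = s.card := by
    intro N hN
    refine rank_of_sparse s hN (fun i j h => (hs i).2 ⟨j, hx.2 i j h⟩) fun a ha => ?_
    obtain ⟨j, hj⟩ := (hs a).1 ha
    refine ⟨j, hfull a j hj, fun i hi => hM.inj ?_⟩
    have h1 := hx.2 i j hi
    linear_combination h1 - hj
  have hcase : (y a₀ = 1 ∧ y b₀ = 0) ∨ (y a₀ = 0 ∧ y b₀ = 1) := by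
    rcases hyy a₀ with h1 | h1 <;> rcases hyy b₀ with h2 | h2
    · exact absurd (h1.trans h2.symm) hy0
    · exact Or.inr ⟨h1, h2⟩
    · exact Or.inl ⟨h1, h2⟩
    · exact absurd (h1.trans h2.symm) hy0
  obtain ⟨hp, hm, -⟩ := hcomp hlie he.1 he.2.1 hX
  rcases hcase with ⟨h1, h2⟩ | ⟨h1, h2⟩
  · refine ⟨e * X * (1 - e), ⟨(mem_gp.1 hp).1, e, he, Or.inl ?_⟩, hrank _ fun j => ?_⟩
    · rw [(mem_gp.1 hp).2.1, (mem_gp.1 hp).2.2, sub_zero]
    · have h3 : (1 - e) (b j : H) = (1 - y j) • (b j : H) := by
        rw [LinearMap.sub_apply, Module.End.one_apply, hy, sub_smul, one_smul]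
      rw [Module.End.mul_apply, Module.End.mul_apply, h3, map_smul, hXx, map_smul, map_sum,
        Finset.smul_sum]
      refine Finset.sum_congr rfl fun i _ => ?_
      rw [map_smul, hy, smul_smul, smul_smul]
      by_cases h4 : x i j = 0
      · rw [h4]
        simp
      · have h5 := hreg i j (hx.2 i j h4)
        rw [h1, h2] at h5
        have h6 : y i = 1 ∧ y j = 0 := by
          rcases hyy i with h7 | h7 <;> rcases hyy j with h8 | h8
          · rw [h7, h8] at h5; simp at h5
          · rw [h7, h8] at h5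
            exact absurd (by linear_combination -h5) two
          · exact ⟨h7, h8⟩
          · rw [h7, h8] at h5; simp at h5
        rw [h6.1, h6.2]
        simp
  · refine ⟨(1 - e) * X * e, ⟨(mem_gm.1 hm).1, e, he, Or.inr ?_⟩, hrank _ fun j => ?_⟩
    · obtain ⟨h3, h4, h5⟩ := mem_gm.1 hm
      simp only [h4, h5, zero_sub]
    · rw [Module.End.mul_apply, Module.End.mul_apply, hy, map_smul, map_smul, hXx, map_sum,
        Finset.smul_sum]
      refine Finset.sum_congr rfl fun i _ => ?_
      have h3 : (1 - e) (b i : H) = (1 - y i) • (b i : H) := by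
        rw [LinearMap.sub_apply, Module.End.one_apply, hy, sub_smul, one_smul]
      rw [map_smul, h3, smul_smul, smul_smul]
      by_cases h4 : x i j = 0
      · rw [h4]
        simp
      · have h5 := hreg i j (hx.2 i j h4)
        rw [h1, h2] at h5
        have h6 : y i = 0 ∧ y j = 1 := by
          rcases hyy i with h7 | h7 <;> rcases hyy j with h8 | h8
          · rw [h7, h8] at h5; simp at h5
          · exact ⟨h7, h8⟩
          · rw [h7, h8] at h5
            exact absurd (by linear_combination h5) two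
          · rw [h7, h8] at h5; simp at h5
        rw [h6.1, h6.2]
        simp

end Pool.Agent.Lib.MP_021685_agZ
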