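import Pool.Agent.Lib.MP_021685_agZ.ZC
import Pool.Agent.Lib.MP_021685_agZ.ZQ

/-! # ZS: semilinear automorphisms act on the weights -/

set_option autoImplicit false

namespace Pool.Agent.Lib.MP_021685_agZ

open Module Pool.Agent.Lib.MP_021685_agO

variable {k H : Type*} [Field k] [CharZero k] [IsAlgClosed k] [AddCommGroup H] [Module k H] [FiniteDimensional k H]
  {g : Submodule k (End k H)} {c : End k H → k} {V : Submodule k H}
  {I : Type*} [Fintype I] [DecidableEq I]

/-- A semilinear automorphism of `H` normalises `g` and transforms the multiplier. -/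
structure IsAut (g : Submodule k (End k H)) (c : End k H → k) (σ : k ≃+* k) (s : H → H) : Prop where
  add : ∀ u v, s (u + v) = s u + s v
  smul : ∀ (a : k) u, s (a • u) = σ a • s u
  fwd : ∀ X ∈ g, ∃ X' ∈ g, (∀ v, X' (s v) = s (X v)) ∧ c X' = σ (c X)
  bwd : ∀ X' ∈ g, ∃ X ∈ g, (∀ v, X' (s v) = s (X v)) ∧ c X' = σ (c X)
  surj : Function.Surjective s

theorem IsAut.map_zero {σ : k ≃+* k} {s : H → H} (ha : IsAut g c σ s) : s 0 = 0 := by
  have h := ha.smul 0 0
  rwa [zero_smul, _root_.map_zero, zero_smul] at h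

theorem IsAut.map_sum {σ : k ≃+* k} {s : H → H} (ha : IsAut g c σ s) {J : Type*} (t : Finset J) (f : J → H) :
    s (∑ i ∈ t, f i) = ∑ i ∈ t, s (f i) := by
  classical
  induction t using Finset.induction_on with
  | empty => rw [Finset.sum_empty, Finset.sum_empty, ha.map_zero]
  | insert a t hat ih => rw [Finset.sum_insert hat, Finset.sum_insert hat, ha.add, ih]

/-- the coordinates of a vector of `V` are determined -/
theorem sum_basis_inj {b : Basis I k V} {u v : I → k}
    (h : ∑ i, u i • (b i : H) = ∑ i, v i • (b i : H)) : u = v := by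
  have h1 : b.equivFun.symm u = b.equivFun.symm v := by
    apply Subtype.ext
    rw [Basis.equivFun_symm_apply, Basis.equivFun_symm_apply]
    simpa using h
  exact b.equivFun.symm.injective h1

/-- the image of a basis expansion -/
theorem IsAut.map_expansion {σ : k ≃+* k} {s : H → H} (ha : IsAut g c σ s) {b : Basis I k V} (π : Equiv.Perm I)
    {z : I → k} (hs : ∀ i, s (b i : H) = z i • (b (π i) : H)) (u : I → k) :
    s (∑ i, u i • (b i : H)) = ∑ i, (σ (u (π.symm i)) * z (π.symm i)) • (b i : H) := by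
  rw [ha.map_sum, ← Equiv.sum_comp π fun i => (σ (u (π.symm i)) * z (π.symm i)) • (b i : H)]
  refine Finset.sum_congr rfl fun i _ => ?_
  rw [ha.smul, hs, smul_smul, Equiv.symm_apply_apply]

/-- `s` is injective on expansions -/
theorem IsAut.expansion_inj {σ : k ≃+* k} {s : H → H} (ha : IsAut g c σ s) {b : Basis I k V} (π : Equiv.Perm I)
    {z : I → k} (hz : ∀ i, z i ≠ 0) (hs : ∀ i, s (b i : H) = z i • (b (π i) : H)) {u v : I → k}
    (h : s (∑ i, u i • (b i : H)) = s (∑ i, v i • (b i : H))) : u = v := by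
  rw [ha.map_expansion π hs, ha.map_expansion π hs] at h
  have h1 := sum_basis_inj h
  funext i
  have h2 := congrFun h1 (π i)
  simp only [Equiv.symm_apply_apply] at h2
  exact σ.injective (mul_right_cancel₀ (hz i) h2)

/-- PROOF. `X ∈ g` with the matrix `M` on `V` (`M i j`), `X' ∈ g` from `fwd`: `X' (b (π j)) = (z j)⁻¹ • X' (s (b j)) =
(z j)⁻¹ • s (X (b j)) = ∑ i, ((z j)⁻¹ * σ (M i j) * z i) • b (π i)`. So the matrix of `X'` on `V` is `M'` with
`M' (π i) (π j) = (z j)⁻¹ * σ (M i j) * z i`. -/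
theorem IsAut.mg_fwd {σ : k ≃+* k} {s : H → H} (ha : IsAut g c σ s) {b : Basis I k V} (π : Equiv.Perm I)
    {z : I → k} (hz : ∀ i, z i ≠ 0) (hs : ∀ i, s (b i : H) = z i • (b (π i) : H)) {M : Matrix I I k}
    (hM : M ∈ mg g b) : ∃ M' ∈ mg g b, ∀ i j, M' (π i) (π j) = (z j)⁻¹ * σ (M i j) * z i := by
  obtain ⟨X, hX, hXM⟩ := hM
  obtain ⟨X', hX', h1, -⟩ := ha.fwd X hX
  refine ⟨Matrix.of fun i j => (z (π.symm j))⁻¹ * σ (M (π.symm i) (π.symm j)) * z (π.symm i),
    ⟨X', hX', fun j => ?_⟩, fun i j => by simp⟩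
  have h2 : X' (z (π.symm j) • (b j : H)) = ∑ i, (σ (M (π.symm i) (π.symm j)) * z (π.symm i)) • (b i : H) := by
    have h3 := h1 (b (π.symm j) : H)
    rw [hs, Equiv.apply_symm_apply] at h3
    rw [h3, hXM, ha.map_expansion π hs]
  rw [map_smul] at h2
  have h4 := congrArg (fun v => (z (π.symm j))⁻¹ • v) h2
  simp only [smul_smul, inv_mul_cancel₀ (hz _), one_smul] at h4
  rw [h4, Finset.smul_sum]
  refine Finset.sum_congr rfl fun i _ => ?_
  rw [smul_smul, Matrix.of_apply, mul_assoc]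

/-- PROOF. In the same way with `bwd`: `X` from `bwd` for `X'`; `X (b j)`: `s (X (b j)) = X' (s (b j)) = z j • X' (b (π j)) =
∑ z j * M' (π i) (π j) • b (π i) = s (∑ i, σ⁻¹ (z j * M' (π i) (π j) * (z i)⁻¹) • b i)`; `s` is injective on `V`
(if `s v = 0`, `v = ∑ v i • b i`, then `∑ σ (v i) z i • b (π i) = 0`); but `X (b j)` has to be in `V`: `hst`. -/
theorem IsAut.mg_bwd (hst : IsStable g V) {σ : k ≃+* k} {s : H → H} (ha : IsAut g c σ s) {b : Basis I k V}
    (π : Equiv.Perm I) {z : I → k} (hz : ∀ i, z i ≠ 0) (hs : ∀ i, s (b i : H) = z i • (b (π i) : H))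
    {M' : Matrix I I k} (hM' : M' ∈ mg g b) :
    ∃ M ∈ mg g b, ∀ i j, M' (π i) (π j) = (z j)⁻¹ * σ (M i j) * z i := by
  obtain ⟨X', hX', hXM⟩ := hM'
  obtain ⟨X, hX, h1, -⟩ := ha.bwd X' hX'
  have hmem : ∀ j, X (b j : H) ∈ V := fun j => hst X hX _ (b j).2
  -- the matrix of `X`
  let M : Matrix I I k := Matrix.of fun i j => b.repr ⟨X (b j : H), hmem j⟩ i
  have hM : ∀ j, X (b j : H) = ∑ i, M i j • (b i : H) := by
    intro j
    have h2 := congrArg Subtype.val (b.sum_repr ⟨X (b j : H), hmem j⟩)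
    rw [Submodule.coe_sum] at h2
    simpa [M] using h2.symm
  refine ⟨M, ⟨X, hX, hM⟩, fun i j => ?_⟩
  have h3 := h1 (b j : H)
  rw [hs, map_smul, hXM, hM, ha.map_expansion π hs, Finset.smul_sum] at h3
  simp only [smul_smul] at h3
  have h4 := congrFun (sum_basis_inj h3) (π i)
  simp only [Equiv.symm_apply_apply] at h4
  rw [mul_assoc, ← h4, ← mul_assoc, inv_mul_cancel₀ (hz j), one_mul]

/-- PROOF. `→`: let `y0 a - y0 b = y0 a' - y0 b'`; by `reg`, `y a - y b = y a' - y b'` for all diagonal `y` in `mg g b`. `diagonal y0 = M'`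
comes from `M` by `mg_bwd`: `M` is diagonal with entries `y`, `y0 (π i) = σ (y i)`. `←`: let `y0 (π a) - y0 (π b) = ...`; by `reg`
the same for all diagonal `y'` in `mg g b`; `M = diagonal y0` gives `M' = diagonal y'` with `y' (π i) = σ (y0 i)` (`mg_fwd`). -/
theorem IsAut.weight (hst : IsStable g V) {σ : k ≃+* k} {s : H → H} (ha : IsAut g c σ s) {b : Basis I k V}
    {y0 : I → k} {inv : I → I} {B : Matrix I I k} (hM : Mx (mg g b) y0 inv B)
    (π : Equiv.Perm I) {z : I → k} (hz : ∀ i, z i ≠ 0) (hs : ∀ i, s (b i : H) = z i • (b (π i) : H))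
    (i j i' j' : I) : y0 i - y0 j = y0 i' - y0 j' ↔ y0 (π i) - y0 (π j) = y0 (π i') - y0 (π j') := by
  constructor
  · intro h
    obtain ⟨M, hMg, h1⟩ := ha.mg_bwd hst π hz hs hM.y0g
    have h2 : M = Matrix.diagonal fun i => M i i := by
      ext i j
      by_cases hij : i = j
      · rw [hij, Matrix.diagonal_apply_eq]
      · rw [Matrix.diagonal_apply_ne _ hij]
        have h3 := h1 i j
        rw [Matrix.diagonal_apply_ne _ (fun h => hij (π.injective h))] at h3
        have h4 : σ (M i j) = 0 := by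
          by_contra hne
          exact mul_ne_zero (mul_ne_zero (inv_ne_zero (hz j)) hne) (hz i) h3.symm
        exact (map_eq_zero_iff σ σ.injective).1 h4
    rw [h2] at hMg
    have h5 : ∀ l, y0 (π l) = σ (M l l) := by
      intro l
      have h3 := h1 l l
      rw [Matrix.diagonal_apply_eq] at h3
      rw [h3, mul_comm (z l)⁻¹, mul_assoc, inv_mul_cancel₀ (hz l), mul_one]
    have h6 := hM.reg i j i i i' j' (by rw [sub_self, add_zero]; exact h) _ hMg
    rw [sub_self, add_zero] at h6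
    rw [h5, h5, h5, h5, ← map_sub, ← map_sub, h6]
  · intro h
    obtain ⟨M', hMg, h1⟩ := ha.mg_fwd π hz hs hM.y0g
    have h2 : M' = Matrix.diagonal fun i => M' i i := by
      ext i j
      by_cases hij : i = j
      · rw [hij, Matrix.diagonal_apply_eq]
      · rw [Matrix.diagonal_apply_ne _ hij]
        have h3 := h1 (π.symm i) (π.symm j)
        rw [Matrix.diagonal_apply_ne _ (fun h => hij (π.symm.injective h)), _root_.map_zero σ, mul_zero, zero_mul] at h3
        simpa using h3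
    rw [h2] at hMg
    have h5 : ∀ l, M' (π l) (π l) = σ (y0 l) := by
      intro l
      have h3 := h1 l l
      rw [Matrix.diagonal_apply_eq] at h3
      rw [h3, mul_comm (z l)⁻¹, mul_assoc, inv_mul_cancel₀ (hz l), mul_one]
    have h6 := hM.reg (π i) (π j) (π i) (π i) (π i') (π j') (by rw [sub_self, add_zero]; exact h) _ hMg
    rw [sub_self, add_zero] at h6
    simp only [h5] at h6
    rw [← map_sub, ← map_sub] at h6
    exact σ.injective h6

/-- PROOF. `Mx.isRoot_iff`, `mg_fwd`, `mg_bwd`. -/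
theorem IsAut.root (hst : IsStable g V) {σ : k ≃+* k} {s : H → H} (ha : IsAut g c σ s) {b : Basis I k V}
    {y0 : I → k} {inv : I → I} {B : Matrix I I k} (hM : Mx (mg g b) y0 inv B)
    (π : Equiv.Perm I) {z : I → k} (hz : ∀ i, z i ≠ 0) (hs : ∀ i, s (b i : H) = z i • (b (π i) : H))
    (i j : I) : IsRoot (mg g b) y0 (y0 i - y0 j) ↔ IsRoot (mg g b) y0 (y0 (π i) - y0 (π j)) := by
  rw [hM.isRoot_iff, hM.isRoot_iff]
  constructor
  · rintro ⟨hij, X, hX, hXij⟩
    obtain ⟨M', hMg, h1⟩ := ha.mg_fwd π hz hs hX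
    refine ⟨fun h => hij (π.injective h), M', hMg, ?_⟩
    rw [h1]
    exact mul_ne_zero (mul_ne_zero (inv_ne_zero (hz j)) (fun h => hXij ((map_eq_zero_iff σ σ.injective).1 h))) (hz i)
  · rintro ⟨hij, X, hX, hXij⟩
    obtain ⟨M, hMg, h1⟩ := ha.mg_bwd hst π hz hs hX
    refine ⟨fun h => hij (by rw [h]), M, hMg, fun h => hXij ?_⟩
    rw [h1, h, _root_.map_zero σ, mul_zero, zero_mul]

/-- PROOF. Suppose `π (inv a) ≠ inv (π a)`; `hsep` gives a Hodge element `X' = e` with its `y'` (`e (b l) = y' l • b l`),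
`y' (π (inv a)) ≠ y' (inv (π a))`. `X ∈ g` from `bwd`: `X (b l) = y l • b l` with `y' (π l) = σ (y l)` (`s` is injective on `V`,
`X (b l) ∈ V`), `c X' = σ (c X)`. `y a + y (inv a) = c X`, so `y' (π a) + y' (π (inv a)) = c X' = y' (π a) + y' (inv (π a))`. -/
theorem IsAut.inv (hst : IsStable g V) {σ : k ≃+* k} {s : H → H} (ha : IsAut g c σ s) {b : Basis I k V}
    (hsep : ∀ i j, i ≠ j → ∃ e, IsHodgeElt g c e ∧ ∃ y : I → k, (∀ l, e (b l : H) = y l • (b l : H)) ∧ y i ≠ y j)
    {inv : I → I}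
    (hinv : ∀ X ∈ g, ∀ y : I → k, (∀ l, X (b l : H) = y l • (b l : H)) → ∀ a, y a + y (inv a) = c X)
    (π : Equiv.Perm I) {z : I → k} (hz : ∀ i, z i ≠ 0) (hs : ∀ i, s (b i : H) = z i • (b (π i) : H))
    (a : I) : π (inv a) = inv (π a) := by
  by_contra hne
  obtain ⟨e, he, y', hy', hyne⟩ := hsep _ _ hne
  obtain ⟨X, hX, h1, h2⟩ := ha.bwd e he.1
  apply hyne
  -- `X` is diagonal
  have hmem : ∀ j, X (b j : H) ∈ V := fun j => hst X hX _ (b j).2
  have hXb : ∀ l, X (b l : H) = (σ.symm (y' (π l))) • (b l : H) := by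
    intro l
    have h3 : X (b l : H) = ∑ i, b.repr ⟨X (b l : H), hmem l⟩ i • (b i : H) := by
      have h4 := congrArg Subtype.val (b.sum_repr ⟨X (b l : H), hmem l⟩)
      rw [Submodule.coe_sum] at h4
      simpa using h4.symm
    have h5 : (σ.symm (y' (π l))) • (b l : H) = ∑ i, (if i = l then σ.symm (y' (π l)) else 0) • (b i : H) := by
      rw [Finset.sum_eq_single l]
      · rw [if_pos rfl]
      · intro i _ hi
        rw [if_neg hi, zero_smul]
      · intro h
        exact absurd (Finset.mem_univ l) h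
    have h6 : s (X (b l : H)) = s ((σ.symm (y' (π l))) • (b l : H)) := by
      rw [← h1, ha.smul, hs, map_smul, hy', RingEquiv.apply_symm_apply, smul_comm]
    rw [h3, h5] at h6
    rw [h3, h5, ha.expansion_inj π hz hs h6]
  have h7 := hinv X hX _ hXb a
  have h8 := hinv e he.1 y' hy' (π a)
  have h9 : σ (σ.symm (y' (π a)) + σ.symm (y' (π (inv a)))) = σ (c X) := by rw [h7]
  rw [map_add, RingEquiv.apply_symm_apply, RingEquiv.apply_symm_apply, ← h2, ← h8] at h9
  exact add_left_cancel h9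

end Pool.Agent.Lib.MP_021685_agZ
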