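import Pool.Agent.Lib.MP_021685_agZ.ZM
import Pool.Agent.Lib.MP_021685_agZ.ZR
import Pool.Agent.Lib.MP_021685_agZ.ZS

/-! # ZT: semilinear automorphisms act by even permutations on the weights, if V is not odd -/

set_option autoImplicit false

namespace Pool.Agent.Lib.MP_021685_agZ

open Module Pool.Agent.Lib.MP_021685_agO

variable {k H : Type*} [Field k] [CharZero k] [IsAlgClosed k] [AddCommGroup H] [Module k H] [FiniteDimensional k H]
  {g : Submodule k (End k H)} {c : End k H → k} {V : Submodule k H} {β : H →ₗ[k] H →ₗ[k] k}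
  {I : Type*} [Fintype I] [DecidableEq I]

theorem odd_or_even (hg : IsGaloisAlg g c) (hV : IsSimpleSub g V) (hs : IsSympl g c V β) (b : Basis I k V)
    (hsep : ∀ i j, i ≠ j → ∃ e, IsHodgeElt g c e ∧ ∃ y : I → k, (∀ l, e (b l : H) = y l • (b l : H)) ∧ y i ≠ y j) :
    OddSimple g c V ∨ ∀ (σ : k ≃+* k) (s : H → H), IsAut g c σ s → ∀ (π : Equiv.Perm I) (z : I → k),
      (∀ i, z i ≠ 0) → (∀ i, s (b i : H) = z i • (b (π i) : H)) → Equiv.Perm.sign π = 1 := by
  by_cases hodd : OddSimple g c V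
  · exact Or.inl hodd
  refine Or.inr fun σ s ha π z hz hsb => ?_
  obtain ⟨y0, inv, B, hM, hinv⟩ := exists_mx hg hV hs b hsep
  refine hM.sign_eq_one ?_ π (ha.weight hV.2.1 hM π hz hsb) (ha.root hV.2.1 hM π hz hsb)
    (ha.inv hV.2.1 hsep hinv π hz hsb)
  intro r hr t ht
  obtain ⟨N, hN, hrank⟩ := exists_monodromy hM hg.lie hV.2.1 hsep hr t ht
  rw [← hrank]
  by_contra hcon
  exact hodd ⟨hV, ⟨β, hs⟩, N, hN, Or.inl (Nat.not_even_iff_odd.1 hcon)⟩

end Pool.Agent.Lib.MP_021685_agZ
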